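import Pool.Agent.CSA.Fin
import Pool.Agent.CSA.D.D00
import Pool.Agent.CSA.D.D01
import Pool.Agent.CSA.D.D02
import Pool.Agent.CSA.D.D03
import Pool.Agent.CSA.D.D04
import Pool.Agent.CSA.D.D05
import Pool.Agent.CSA.D.D06
import Pool.Agent.CSA.D.D07
import Pool.Agent.CSA.D.D08
import Pool.Agent.CSA.D.D09
import Pool.Agent.CSA.D.D10
import Pool.Agent.CSA.D.D11
import Pool.Agent.CSA.D.D12
import Pool.Agent.CSA.D.D13
import Pool.Agent.CSA.D.D14
import Pool.Agent.CSA.D.D15
import Pool.Agent.CSA.D.D16
import Pool.Agent.CSA.D.D17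
import Pool.Agent.CSA.D.D18
import Pool.Agent.CSA.D.D19
import Pool.Agent.CSA.D.D20
import Pool.Agent.CSA.D.D21
import Pool.Agent.CSA.D.D22
import Pool.Agent.CSA.D.D23
import Pool.Agent.CSA.D.D24

/-!
# All Cappell-Shaneson matrices with trace between -158 and 156 are equivalent to `A0`
-/

namespace Pool.Agent.CSA

theorem dn5 : ∀ m : ℤ, 6 - 6 ≤ m → m ≤ 6 - 1 → Done m :=
  fun _ h1 h2 => done_small (by omega) (by omega)

theorem t6 : TabOK 6 1 6 R6 C6 T6 G6 := ⟨r6, c6, g6⟩
theorem dp6 : Done (6 : ℕ) :=
  step_pos (s := 6) (B := 1) (lim := 6) (lo := 0) (hi := 5) (by norm_num) (by norm_num)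
    (by unfold disc; norm_num) (by norm_num) (by norm_num) t6 (by norm_num)
    (fun m h1 h2 => dn5 m (by omega) (by omega)) p6
theorem dq6 : Done (5 - (6 : ℕ)) :=
  step_neg (s := 6) (B := 1) (lim := 6) (lo := 0) (hi := 5) (by norm_num) (by norm_num)
    (by unfold disc; norm_num) (by norm_num) (by norm_num) t6 (by norm_num)
    (fun m h1 h2 => dn5 m (by omega) (by omega)) n6
theorem dn6 : ∀ m : ℤ, 6 - 7 ≤ m → m ≤ 7 - 1 → Done m := by
  have h := ext_both (s := 6) (fun m h1 h2 => dn5 m (by omega) (by omega))
    (by simpa using dp6) (by simpa using dq6)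
  exact fun m h1 h2 => h m (by omega) (by omega)
theorem t7 : TabOK 7 3 8 R7 C7 T7 G7 := ⟨r7, c7, g7⟩
theorem dp7 : Done (7 : ℕ) :=
  step_pos (s := 7) (B := 3) (lim := 8) (lo := -1) (hi := 6) (by norm_num) (by norm_num)
    (by unfold disc; norm_num) (by norm_num) (by norm_num) t7 (by norm_num)
    (fun m h1 h2 => dn6 m (by omega) (by omega)) p7
theorem dq7 : Done (5 - (7 : ℕ)) :=
  step_neg (s := 7) (B := 3) (lim := 8) (lo := -1) (hi := 6) (by norm_num) (by norm_num)
    (by unfold disc; norm_num) (by norm_num) (by norm_num) t7 (by norm_num)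
    (fun m h1 h2 => dn6 m (by omega) (by omega)) n7
theorem dn7 : ∀ m : ℤ, 6 - 8 ≤ m → m ≤ 8 - 1 → Done m := by
  have h := ext_both (s := 7) (fun m h1 h2 => dn6 m (by omega) (by omega))
    (by simpa using dp7) (by simpa using dq7)
  exact fun m h1 h2 => h m (by omega) (by omega)
theorem t8 : TabOK 8 5 10 R8 C8 T8 G8 := ⟨r8, c8, g8⟩
theorem dp8 : Done (8 : ℕ) :=
  step_pos (s := 8) (B := 5) (lim := 10) (lo := -2) (hi := 7) (by norm_num) (by norm_num)
    (by unfold disc; norm_num) (by norm_num) (by norm_num) t8 (by norm_num)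
    (fun m h1 h2 => dn7 m (by omega) (by omega)) p8
theorem dq8 : Done (5 - (8 : ℕ)) :=
  step_neg (s := 8) (B := 5) (lim := 10) (lo := -2) (hi := 7) (by norm_num) (by norm_num)
    (by unfold disc; norm_num) (by norm_num) (by norm_num) t8 (by norm_num)
    (fun m h1 h2 => dn7 m (by omega) (by omega)) n8
theorem dn8 : ∀ m : ℤ, 6 - 9 ≤ m → m ≤ 9 - 1 → Done m := by
  have h := ext_both (s := 8) (fun m h1 h2 => dn7 m (by omega) (by omega))
    (by simpa using dp8) (by simpa using dq8)
  exact fun m h1 h2 => h m (by omega) (by omega)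
theorem t9 : TabOK 9 8 12 R9 C9 T9 G9 := ⟨r9, c9, g9⟩
theorem dp9 : Done (9 : ℕ) :=
  step_pos (s := 9) (B := 8) (lim := 12) (lo := -3) (hi := 8) (by norm_num) (by norm_num)
    (by unfold disc; norm_num) (by norm_num) (by norm_num) t9 (by norm_num)
    (fun m h1 h2 => dn8 m (by omega) (by omega)) p9
theorem dq9 : Done (5 - (9 : ℕ)) :=
  step_neg (s := 9) (B := 8) (lim := 12) (lo := -3) (hi := 8) (by norm_num) (by norm_num)
    (by unfold disc; norm_num) (by norm_num) (by norm_num) t9 (by norm_num)
    (fun m h1 h2 => dn8 m (by omega) (by omega)) n9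
theorem dn9 : ∀ m : ℤ, 6 - 10 ≤ m → m ≤ 10 - 1 → Done m := by
  have h := ext_both (s := 9) (fun m h1 h2 => dn8 m (by omega) (by omega))
    (by simpa using dp9) (by simpa using dq9)
  exact fun m h1 h2 => h m (by omega) (by omega)
theorem t10 : TabOK 10 11 14 R10 C10 T10 G10 := ⟨r10, c10, g10⟩
theorem dp10 : Done (10 : ℕ) :=
  step_pos (s := 10) (B := 11) (lim := 14) (lo := -4) (hi := 9) (by norm_num) (by norm_num)
    (by unfold disc; norm_num) (by norm_num) (by norm_num) t10 (by norm_num)
    (fun m h1 h2 => dn9 m (by omega) (by omega)) p10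
theorem dq10 : Done (5 - (10 : ℕ)) :=
  step_neg (s := 10) (B := 11) (lim := 14) (lo := -4) (hi := 9) (by norm_num) (by norm_num)
    (by unfold disc; norm_num) (by norm_num) (by norm_num) t10 (by norm_num)
    (fun m h1 h2 => dn9 m (by omega) (by omega)) n10
theorem dn10 : ∀ m : ℤ, 6 - 11 ≤ m → m ≤ 11 - 1 → Done m := by
  have h := ext_both (s := 10) (fun m h1 h2 => dn9 m (by omega) (by omega))
    (by simpa using dp10) (by simpa using dq10)
  exact fun m h1 h2 => h m (by omega) (by omega)
theorem t11 : TabOK 11 15 16 R11 C11 T11 G11 := ⟨r11, c11, g11⟩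
theorem dp11 : Done (11 : ℕ) :=
  step_pos (s := 11) (B := 15) (lim := 16) (lo := -5) (hi := 10) (by norm_num) (by norm_num)
    (by unfold disc; norm_num) (by norm_num) (by norm_num) t11 (by norm_num)
    (fun m h1 h2 => dn10 m (by omega) (by omega)) p11
theorem dq11 : Done (5 - (11 : ℕ)) :=
  step_neg (s := 11) (B := 15) (lim := 16) (lo := -5) (hi := 10) (by norm_num) (by norm_num)
    (by unfold disc; norm_num) (by norm_num) (by norm_num) t11 (by norm_num)
    (fun m h1 h2 => dn10 m (by omega) (by omega)) n11
theorem dn11 : ∀ m : ℤ, 6 - 12 ≤ m → m ≤ 12 - 1 → Done m := by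
  have h := ext_both (s := 11) (fun m h1 h2 => dn10 m (by omega) (by omega))
    (by simpa using dp11) (by simpa using dq11)
  exact fun m h1 h2 => h m (by omega) (by omega)
theorem t12 : TabOK 12 19 18 R12 C12 T12 G12 := ⟨r12, c12, g12⟩
theorem dp12 : Done (12 : ℕ) :=
  step_pos (s := 12) (B := 19) (lim := 18) (lo := -6) (hi := 11) (by norm_num) (by norm_num)
    (by unfold disc; norm_num) (by norm_num) (by norm_num) t12 (by norm_num)
    (fun m h1 h2 => dn11 m (by omega) (by omega)) p12
theorem dq12 : Done (5 - (12 : ℕ)) :=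
  step_neg (s := 12) (B := 19) (lim := 18) (lo := -6) (hi := 11) (by norm_num) (by norm_num)
    (by unfold disc; norm_num) (by norm_num) (by norm_num) t12 (by norm_num)
    (fun m h1 h2 => dn11 m (by omega) (by omega)) n12
theorem dn12 : ∀ m : ℤ, 6 - 13 ≤ m → m ≤ 13 - 1 → Done m := by
  have h := ext_both (s := 12) (fun m h1 h2 => dn11 m (by omega) (by omega))
    (by simpa using dp12) (by simpa using dq12)
  exact fun m h1 h2 => h m (by omega) (by omega)
theorem t13 : TabOK 13 23 20 R13 C13 T13 G13 := ⟨r13, c13, g13⟩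
theorem dp13 : Done (13 : ℕ) :=
  step_pos (s := 13) (B := 23) (lim := 20) (lo := -7) (hi := 12) (by norm_num) (by norm_num)
    (by unfold disc; norm_num) (by norm_num) (by norm_num) t13 (by norm_num)
    (fun m h1 h2 => dn12 m (by omega) (by omega)) p13
theorem dq13 : Done (5 - (13 : ℕ)) :=
  step_neg (s := 13) (B := 23) (lim := 20) (lo := -7) (hi := 12) (by norm_num) (by norm_num)
    (by unfold disc; norm_num) (by norm_num) (by norm_num) t13 (by norm_num)
    (fun m h1 h2 => dn12 m (by omega) (by omega)) n13
theorem dn13 : ∀ m : ℤ, 6 - 14 ≤ m → m ≤ 14 - 1 → Done m := by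
  have h := ext_both (s := 13) (fun m h1 h2 => dn12 m (by omega) (by omega))
    (by simpa using dp13) (by simpa using dq13)
  exact fun m h1 h2 => h m (by omega) (by omega)
theorem t14 : TabOK 14 28 22 R14 C14 T14 G14 := ⟨r14, c14, g14⟩
theorem dp14 : Done (14 : ℕ) :=
  step_pos (s := 14) (B := 28) (lim := 22) (lo := -8) (hi := 13) (by norm_num) (by norm_num)
    (by unfold disc; norm_num) (by norm_num) (by norm_num) t14 (by norm_num)
    (fun m h1 h2 => dn13 m (by omega) (by omega)) p14
theorem dq14 : Done (5 - (14 : ℕ)) :=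
  step_neg (s := 14) (B := 28) (lim := 22) (lo := -8) (hi := 13) (by norm_num) (by norm_num)
    (by unfold disc; norm_num) (by norm_num) (by norm_num) t14 (by norm_num)
    (fun m h1 h2 => dn13 m (by omega) (by omega)) n14
theorem dn14 : ∀ m : ℤ, 6 - 15 ≤ m → m ≤ 15 - 1 → Done m := by
  have h := ext_both (s := 14) (fun m h1 h2 => dn13 m (by omega) (by omega))
    (by simpa using dp14) (by simpa using dq14)
  exact fun m h1 h2 => h m (by omega) (by omega)
theorem t15 : TabOK 15 33 24 R15 C15 T15 G15 := ⟨r15, c15, g15⟩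
theorem dp15 : Done (15 : ℕ) :=
  step_pos (s := 15) (B := 33) (lim := 24) (lo := -9) (hi := 14) (by norm_num) (by norm_num)
    (by unfold disc; norm_num) (by norm_num) (by norm_num) t15 (by norm_num)
    (fun m h1 h2 => dn14 m (by omega) (by omega)) p15
theorem dq15 : Done (5 - (15 : ℕ)) :=
  step_neg (s := 15) (B := 33) (lim := 24) (lo := -9) (hi := 14) (by norm_num) (by norm_num)
    (by unfold disc; norm_num) (by norm_num) (by norm_num) t15 (by norm_num)
    (fun m h1 h2 => dn14 m (by omega) (by omega)) n15
theorem dn15 : ∀ m : ℤ, 6 - 16 ≤ m → m ≤ 16 - 1 → Done m := by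
  have h := ext_both (s := 15) (fun m h1 h2 => dn14 m (by omega) (by omega))
    (by simpa using dp15) (by simpa using dq15)
  exact fun m h1 h2 => h m (by omega) (by omega)
theorem t16 : TabOK 16 39 26 R16 C16 T16 G16 := ⟨r16, c16, g16⟩
theorem dp16 : Done (16 : ℕ) :=
  step_pos (s := 16) (B := 39) (lim := 26) (lo := -10) (hi := 15) (by norm_num) (by norm_num)
    (by unfold disc; norm_num) (by norm_num) (by norm_num) t16 (by norm_num)
    (fun m h1 h2 => dn15 m (by omega) (by omega)) p16
theorem dq16 : Done (5 - (16 : ℕ)) :=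
  step_neg (s := 16) (B := 39) (lim := 26) (lo := -10) (hi := 15) (by norm_num) (by norm_num)
    (by unfold disc; norm_num) (by norm_num) (by norm_num) t16 (by norm_num)
    (fun m h1 h2 => dn15 m (by omega) (by omega)) n16
theorem dn16 : ∀ m : ℤ, 6 - 17 ≤ m → m ≤ 17 - 1 → Done m := by
  have h := ext_both (s := 16) (fun m h1 h2 => dn15 m (by omega) (by omega))
    (by simpa using dp16) (by simpa using dq16)
  exact fun m h1 h2 => h m (by omega) (by omega)
theorem t17 : TabOK 17 45 28 R17 C17 T17 G17 := ⟨r17, c17, g17⟩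
theorem dp17 : Done (17 : ℕ) :=
  step_pos (s := 17) (B := 45) (lim := 28) (lo := -11) (hi := 16) (by norm_num) (by norm_num)
    (by unfold disc; norm_num) (by norm_num) (by norm_num) t17 (by norm_num)
    (fun m h1 h2 => dn16 m (by omega) (by omega)) p17
theorem dq17 : Done (5 - (17 : ℕ)) :=
  step_neg (s := 17) (B := 45) (lim := 28) (lo := -11) (hi := 16) (by norm_num) (by norm_num)
    (by unfold disc; norm_num) (by norm_num) (by norm_num) t17 (by norm_num)
    (fun m h1 h2 => dn16 m (by omega) (by omega)) n17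
theorem dn17 : ∀ m : ℤ, 6 - 18 ≤ m → m ≤ 18 - 1 → Done m := by
  have h := ext_both (s := 17) (fun m h1 h2 => dn16 m (by omega) (by omega))
    (by simpa using dp17) (by simpa using dq17)
  exact fun m h1 h2 => h m (by omega) (by omega)
theorem t18 : TabOK 18 52 30 R18 C18 T18 G18 := ⟨r18, c18, g18⟩
theorem dp18 : Done (18 : ℕ) :=
  step_pos (s := 18) (B := 52) (lim := 30) (lo := -12) (hi := 17) (by norm_num) (by norm_num)
    (by unfold disc; norm_num) (by norm_num) (by norm_num) t18 (by norm_num)
    (fun m h1 h2 => dn17 m (by omega) (by omega)) p18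
theorem dq18 : Done (5 - (18 : ℕ)) :=
  step_neg (s := 18) (B := 52) (lim := 30) (lo := -12) (hi := 17) (by norm_num) (by norm_num)
    (by unfold disc; norm_num) (by norm_num) (by norm_num) t18 (by norm_num)
    (fun m h1 h2 => dn17 m (by omega) (by omega)) n18
theorem dn18 : ∀ m : ℤ, 6 - 19 ≤ m → m ≤ 19 - 1 → Done m := by
  have h := ext_both (s := 18) (fun m h1 h2 => dn17 m (by omega) (by omega))
    (by simpa using dp18) (by simpa using dq18)
  exact fun m h1 h2 => h m (by omega) (by omega)
theorem t19 : TabOK 19 59 32 R19 C19 T19 G19 := ⟨r19, c19, g19⟩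
theorem dp19 : Done (19 : ℕ) :=
  step_pos (s := 19) (B := 59) (lim := 32) (lo := -13) (hi := 18) (by norm_num) (by norm_num)
    (by unfold disc; norm_num) (by norm_num) (by norm_num) t19 (by norm_num)
    (fun m h1 h2 => dn18 m (by omega) (by omega)) p19
theorem dq19 : Done (5 - (19 : ℕ)) :=
  step_neg (s := 19) (B := 59) (lim := 32) (lo := -13) (hi := 18) (by norm_num) (by norm_num)
    (by unfold disc; norm_num) (by norm_num) (by norm_num) t19 (by norm_num)
    (fun m h1 h2 => dn18 m (by omega) (by omega)) n19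
theorem dn19 : ∀ m : ℤ, 6 - 20 ≤ m → m ≤ 20 - 1 → Done m := by
  have h := ext_both (s := 19) (fun m h1 h2 => dn18 m (by omega) (by omega))
    (by simpa using dp19) (by simpa using dq19)
  exact fun m h1 h2 => h m (by omega) (by omega)
theorem t20 : TabOK 20 67 34 R20 C20 T20 G20 := ⟨r20, c20, g20⟩
theorem dp20 : Done (20 : ℕ) :=
  step_pos (s := 20) (B := 67) (lim := 34) (lo := -14) (hi := 19) (by norm_num) (by norm_num)
    (by unfold disc; norm_num) (by norm_num) (by norm_num) t20 (by norm_num)
    (fun m h1 h2 => dn19 m (by omega) (by omega)) p20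
theorem dq20 : Done (5 - (20 : ℕ)) :=
  step_neg (s := 20) (B := 67) (lim := 34) (lo := -14) (hi := 19) (by norm_num) (by norm_num)
    (by unfold disc; norm_num) (by norm_num) (by norm_num) t20 (by norm_num)
    (fun m h1 h2 => dn19 m (by omega) (by omega)) n20
theorem dn20 : ∀ m : ℤ, 6 - 21 ≤ m → m ≤ 21 - 1 → Done m := by
  have h := ext_both (s := 20) (fun m h1 h2 => dn19 m (by omega) (by omega))
    (by simpa using dp20) (by simpa using dq20)
  exact fun m h1 h2 => h m (by omega) (by omega)
theorem t21 : TabOK 21 75 36 R21 C21 T21 G21 := ⟨r21, c21, g21⟩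
theorem dp21 : Done (21 : ℕ) :=
  step_pos (s := 21) (B := 75) (lim := 36) (lo := -15) (hi := 20) (by norm_num) (by norm_num)
    (by unfold disc; norm_num) (by norm_num) (by norm_num) t21 (by norm_num)
    (fun m h1 h2 => dn20 m (by omega) (by omega)) p21
theorem dq21 : Done (5 - (21 : ℕ)) :=
  step_neg (s := 21) (B := 75) (lim := 36) (lo := -15) (hi := 20) (by norm_num) (by norm_num)
    (by unfold disc; norm_num) (by norm_num) (by norm_num) t21 (by norm_num)
    (fun m h1 h2 => dn20 m (by omega) (by omega)) n21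
theorem dn21 : ∀ m : ℤ, 6 - 22 ≤ m → m ≤ 22 - 1 → Done m := by
  have h := ext_both (s := 21) (fun m h1 h2 => dn20 m (by omega) (by omega))
    (by simpa using dp21) (by simpa using dq21)
  exact fun m h1 h2 => h m (by omega) (by omega)
theorem t22 : TabOK 22 83 38 R22 C22 T22 G22 := ⟨r22, c22, g22⟩
theorem dp22 : Done (22 : ℕ) :=
  step_pos (s := 22) (B := 83) (lim := 38) (lo := -16) (hi := 21) (by norm_num) (by norm_num)
    (by unfold disc; norm_num) (by norm_num) (by norm_num) t22 (by norm_num)
    (fun m h1 h2 => dn21 m (by omega) (by omega)) p22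
theorem dq22 : Done (5 - (22 : ℕ)) :=
  step_neg (s := 22) (B := 83) (lim := 38) (lo := -16) (hi := 21) (by norm_num) (by norm_num)
    (by unfold disc; norm_num) (by norm_num) (by norm_num) t22 (by norm_num)
    (fun m h1 h2 => dn21 m (by omega) (by omega)) n22
theorem dn22 : ∀ m : ℤ, 6 - 23 ≤ m → m ≤ 23 - 1 → Done m := by
  have h := ext_both (s := 22) (fun m h1 h2 => dn21 m (by omega) (by omega))
    (by simpa using dp22) (by simpa using dq22)
  exact fun m h1 h2 => h m (by omega) (by omega)
theorem t23 : TabOK 23 92 40 R23 C23 T23 G23 := ⟨r23, c23, g23⟩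
theorem dp23 : Done (23 : ℕ) :=
  step_pos (s := 23) (B := 92) (lim := 40) (lo := -17) (hi := 22) (by norm_num) (by norm_num)
    (by unfold disc; norm_num) (by norm_num) (by norm_num) t23 (by norm_num)
    (fun m h1 h2 => dn22 m (by omega) (by omega)) p23
theorem dq23 : Done (5 - (23 : ℕ)) :=
  step_neg (s := 23) (B := 92) (lim := 40) (lo := -17) (hi := 22) (by norm_num) (by norm_num)
    (by unfold disc; norm_num) (by norm_num) (by norm_num) t23 (by norm_num)
    (fun m h1 h2 => dn22 m (by omega) (by omega)) n23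
theorem dn23 : ∀ m : ℤ, 6 - 24 ≤ m → m ≤ 24 - 1 → Done m := by
  have h := ext_both (s := 23) (fun m h1 h2 => dn22 m (by omega) (by omega))
    (by simpa using dp23) (by simpa using dq23)
  exact fun m h1 h2 => h m (by omega) (by omega)
theorem t24 : TabOK 24 101 42 R24 C24 T24 G24 := ⟨r24, c24, g24⟩
theorem dp24 : Done (24 : ℕ) :=
  step_pos (s := 24) (B := 101) (lim := 42) (lo := -18) (hi := 23) (by norm_num) (by norm_num)
    (by unfold disc; norm_num) (by norm_num) (by norm_num) t24 (by norm_num)
    (fun m h1 h2 => dn23 m (by omega) (by omega)) p24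
theorem dq24 : Done (5 - (24 : ℕ)) :=
  step_neg (s := 24) (B := 101) (lim := 42) (lo := -18) (hi := 23) (by norm_num) (by norm_num)
    (by unfold disc; norm_num) (by norm_num) (by norm_num) t24 (by norm_num)
    (fun m h1 h2 => dn23 m (by omega) (by omega)) n24
theorem dn24 : ∀ m : ℤ, 6 - 25 ≤ m → m ≤ 25 - 1 → Done m := by
  have h := ext_both (s := 24) (fun m h1 h2 => dn23 m (by omega) (by omega))
    (by simpa using dp24) (by simpa using dq24)
  exact fun m h1 h2 => h m (by omega) (by omega)
theorem t25 : TabOK 25 111 44 R25 C25 T25 G25 := ⟨r25, c25, g25⟩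
theorem dp25 : Done (25 : ℕ) :=
  step_pos (s := 25) (B := 111) (lim := 44) (lo := -19) (hi := 24) (by norm_num) (by norm_num)
    (by unfold disc; norm_num) (by norm_num) (by norm_num) t25 (by norm_num)
    (fun m h1 h2 => dn24 m (by omega) (by omega)) p25
theorem dq25 : Done (5 - (25 : ℕ)) :=
  step_neg (s := 25) (B := 111) (lim := 44) (lo := -19) (hi := 24) (by norm_num) (by norm_num)
    (by unfold disc; norm_num) (by norm_num) (by norm_num) t25 (by norm_num)
    (fun m h1 h2 => dn24 m (by omega) (by omega)) n25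
theorem dn25 : ∀ m : ℤ, 6 - 26 ≤ m → m ≤ 26 - 1 → Done m := by
  have h := ext_both (s := 25) (fun m h1 h2 => dn24 m (by omega) (by omega))
    (by simpa using dp25) (by simpa using dq25)
  exact fun m h1 h2 => h m (by omega) (by omega)
theorem t26 : TabOK 26 121 46 R26 C26 T26 G26 := ⟨r26, c26, g26⟩
theorem dp26 : Done (26 : ℕ) :=
  step_pos (s := 26) (B := 121) (lim := 46) (lo := -20) (hi := 25) (by norm_num) (by norm_num)
    (by unfold disc; norm_num) (by norm_num) (by norm_num) t26 (by norm_num)
    (fun m h1 h2 => dn25 m (by omega) (by omega)) p26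
theorem dq26 : Done (5 - (26 : ℕ)) :=
  step_neg (s := 26) (B := 121) (lim := 46) (lo := -20) (hi := 25) (by norm_num) (by norm_num)
    (by unfold disc; norm_num) (by norm_num) (by norm_num) t26 (by norm_num)
    (fun m h1 h2 => dn25 m (by omega) (by omega)) n26
theorem dn26 : ∀ m : ℤ, 6 - 27 ≤ m → m ≤ 27 - 1 → Done m := by
  have h := ext_both (s := 26) (fun m h1 h2 => dn25 m (by omega) (by omega))
    (by simpa using dp26) (by simpa using dq26)
  exact fun m h1 h2 => h m (by omega) (by omega)
theorem t27 : TabOK 27 132 48 R27 C27 T27 G27 := ⟨r27, c27, g27⟩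
theorem dp27 : Done (27 : ℕ) :=
  step_pos (s := 27) (B := 132) (lim := 48) (lo := -21) (hi := 26) (by norm_num) (by norm_num)
    (by unfold disc; norm_num) (by norm_num) (by norm_num) t27 (by norm_num)
    (fun m h1 h2 => dn26 m (by omega) (by omega)) p27
theorem dq27 : Done (5 - (27 : ℕ)) :=
  step_neg (s := 27) (B := 132) (lim := 48) (lo := -21) (hi := 26) (by norm_num) (by norm_num)
    (by unfold disc; norm_num) (by norm_num) (by norm_num) t27 (by norm_num)
    (fun m h1 h2 => dn26 m (by omega) (by omega)) n27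
theorem dn27 : ∀ m : ℤ, 6 - 28 ≤ m → m ≤ 28 - 1 → Done m := by
  have h := ext_both (s := 27) (fun m h1 h2 => dn26 m (by omega) (by omega))
    (by simpa using dp27) (by simpa using dq27)
  exact fun m h1 h2 => h m (by omega) (by omega)
theorem t28 : TabOK 28 143 50 R28 C28 T28 G28 := ⟨r28, c28, g28⟩
theorem dp28 : Done (28 : ℕ) :=
  step_pos (s := 28) (B := 143) (lim := 50) (lo := -22) (hi := 27) (by norm_num) (by norm_num)
    (by unfold disc; norm_num) (by norm_num) (by norm_num) t28 (by norm_num)
    (fun m h1 h2 => dn27 m (by omega) (by omega)) p28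
theorem dq28 : Done (5 - (28 : ℕ)) :=
  step_neg (s := 28) (B := 143) (lim := 50) (lo := -22) (hi := 27) (by norm_num) (by norm_num)
    (by unfold disc; norm_num) (by norm_num) (by norm_num) t28 (by norm_num)
    (fun m h1 h2 => dn27 m (by omega) (by omega)) n28
theorem dn28 : ∀ m : ℤ, 6 - 29 ≤ m → m ≤ 29 - 1 → Done m := by
  have h := ext_both (s := 28) (fun m h1 h2 => dn27 m (by omega) (by omega))
    (by simpa using dp28) (by simpa using dq28)
  exact fun m h1 h2 => h m (by omega) (by omega)
theorem t29 : TabOK 29 155 52 R29 C29 T29 G29 := ⟨r29, c29, g29⟩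
theorem dp29 : Done (29 : ℕ) :=
  step_pos (s := 29) (B := 155) (lim := 52) (lo := -23) (hi := 28) (by norm_num) (by norm_num)
    (by unfold disc; norm_num) (by norm_num) (by norm_num) t29 (by norm_num)
    (fun m h1 h2 => dn28 m (by omega) (by omega)) p29
theorem dq29 : Done (5 - (29 : ℕ)) :=
  step_neg (s := 29) (B := 155) (lim := 52) (lo := -23) (hi := 28) (by norm_num) (by norm_num)
    (by unfold disc; norm_num) (by norm_num) (by norm_num) t29 (by norm_num)
    (fun m h1 h2 => dn28 m (by omega) (by omega)) n29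
theorem dn29 : ∀ m : ℤ, 6 - 30 ≤ m → m ≤ 30 - 1 → Done m := by
  have h := ext_both (s := 29) (fun m h1 h2 => dn28 m (by omega) (by omega))
    (by simpa using dp29) (by simpa using dq29)
  exact fun m h1 h2 => h m (by omega) (by omega)
theorem t30 : TabOK 30 167 54 R30 C30 T30 G30 := ⟨r30, c30, g30⟩
theorem dp30 : Done (30 : ℕ) :=
  step_pos (s := 30) (B := 167) (lim := 54) (lo := -24) (hi := 29) (by norm_num) (by norm_num)
    (by unfold disc; norm_num) (by norm_num) (by norm_num) t30 (by norm_num)
    (fun m h1 h2 => dn29 m (by omega) (by omega)) p30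
theorem dq30 : Done (5 - (30 : ℕ)) :=
  step_neg (s := 30) (B := 167) (lim := 54) (lo := -24) (hi := 29) (by norm_num) (by norm_num)
    (by unfold disc; norm_num) (by norm_num) (by norm_num) t30 (by norm_num)
    (fun m h1 h2 => dn29 m (by omega) (by omega)) n30
theorem dn30 : ∀ m : ℤ, 6 - 31 ≤ m → m ≤ 31 - 1 → Done m := by
  have h := ext_both (s := 30) (fun m h1 h2 => dn29 m (by omega) (by omega))
    (by simpa using dp30) (by simpa using dq30)
  exact fun m h1 h2 => h m (by omega) (by omega)
theorem t31 : TabOK 31 179 56 R31 C31 T31 G31 := ⟨r31, c31, g31⟩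
theorem dp31 : Done (31 : ℕ) :=
  step_pos (s := 31) (B := 179) (lim := 56) (lo := -25) (hi := 30) (by norm_num) (by norm_num)
    (by unfold disc; norm_num) (by norm_num) (by norm_num) t31 (by norm_num)
    (fun m h1 h2 => dn30 m (by omega) (by omega)) p31
theorem dq31 : Done (5 - (31 : ℕ)) :=
  step_neg (s := 31) (B := 179) (lim := 56) (lo := -25) (hi := 30) (by norm_num) (by norm_num)
    (by unfold disc; norm_num) (by norm_num) (by norm_num) t31 (by norm_num)
    (fun m h1 h2 => dn30 m (by omega) (by omega)) n31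
theorem dn31 : ∀ m : ℤ, 6 - 32 ≤ m → m ≤ 32 - 1 → Done m := by
  have h := ext_both (s := 31) (fun m h1 h2 => dn30 m (by omega) (by omega))
    (by simpa using dp31) (by simpa using dq31)
  exact fun m h1 h2 => h m (by omega) (by omega)
theorem t32 : TabOK 32 192 58 R32 C32 T32 G32 := ⟨r32, c32, g32⟩
theorem dp32 : Done (32 : ℕ) :=
  step_pos (s := 32) (B := 192) (lim := 58) (lo := -26) (hi := 31) (by norm_num) (by norm_num)
    (by unfold disc; norm_num) (by norm_num) (by norm_num) t32 (by norm_num)
    (fun m h1 h2 => dn31 m (by omega) (by omega)) p32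
theorem dq32 : Done (5 - (32 : ℕ)) :=
  step_neg (s := 32) (B := 192) (lim := 58) (lo := -26) (hi := 31) (by norm_num) (by norm_num)
    (by unfold disc; norm_num) (by norm_num) (by norm_num) t32 (by norm_num)
    (fun m h1 h2 => dn31 m (by omega) (by omega)) n32
theorem dn32 : ∀ m : ℤ, 6 - 33 ≤ m → m ≤ 33 - 1 → Done m := by
  have h := ext_both (s := 32) (fun m h1 h2 => dn31 m (by omega) (by omega))
    (by simpa using dp32) (by simpa using dq32)
  exact fun m h1 h2 => h m (by omega) (by omega)
theorem t33 : TabOK 33 205 60 R33 C33 T33 G33 := ⟨r33, c33, g33⟩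
theorem dp33 : Done (33 : ℕ) :=
  step_pos (s := 33) (B := 205) (lim := 60) (lo := -27) (hi := 32) (by norm_num) (by norm_num)
    (by unfold disc; norm_num) (by norm_num) (by norm_num) t33 (by norm_num)
    (fun m h1 h2 => dn32 m (by omega) (by omega)) p33
theorem dq33 : Done (5 - (33 : ℕ)) :=
  step_neg (s := 33) (B := 205) (lim := 60) (lo := -27) (hi := 32) (by norm_num) (by norm_num)
    (by unfold disc; norm_num) (by norm_num) (by norm_num) t33 (by norm_num)
    (fun m h1 h2 => dn32 m (by omega) (by omega)) n33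
theorem dn33 : ∀ m : ℤ, 6 - 34 ≤ m → m ≤ 34 - 1 → Done m := by
  have h := ext_both (s := 33) (fun m h1 h2 => dn32 m (by omega) (by omega))
    (by simpa using dp33) (by simpa using dq33)
  exact fun m h1 h2 => h m (by omega) (by omega)
theorem t34 : TabOK 34 219 62 R34 C34 T34 G34 := ⟨r34, c34, g34⟩
theorem dp34 : Done (34 : ℕ) :=
  step_pos (s := 34) (B := 219) (lim := 62) (lo := -28) (hi := 33) (by norm_num) (by norm_num)
    (by unfold disc; norm_num) (by norm_num) (by norm_num) t34 (by norm_num)
    (fun m h1 h2 => dn33 m (by omega) (by omega)) p34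
theorem dq34 : Done (5 - (34 : ℕ)) :=
  step_neg (s := 34) (B := 219) (lim := 62) (lo := -28) (hi := 33) (by norm_num) (by norm_num)
    (by unfold disc; norm_num) (by norm_num) (by norm_num) t34 (by norm_num)
    (fun m h1 h2 => dn33 m (by omega) (by omega)) n34
theorem dn34 : ∀ m : ℤ, 6 - 35 ≤ m → m ≤ 35 - 1 → Done m := by
  have h := ext_both (s := 34) (fun m h1 h2 => dn33 m (by omega) (by omega))
    (by simpa using dp34) (by simpa using dq34)
  exact fun m h1 h2 => h m (by omega) (by omega)
theorem t35 : TabOK 35 233 64 R35 C35 T35 G35 := ⟨r35, c35, g35⟩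
theorem dp35 : Done (35 : ℕ) :=
  step_pos (s := 35) (B := 233) (lim := 64) (lo := -29) (hi := 34) (by norm_num) (by norm_num)
    (by unfold disc; norm_num) (by norm_num) (by norm_num) t35 (by norm_num)
    (fun m h1 h2 => dn34 m (by omega) (by omega)) p35
theorem dq35 : Done (5 - (35 : ℕ)) :=
  step_neg (s := 35) (B := 233) (lim := 64) (lo := -29) (hi := 34) (by norm_num) (by norm_num)
    (by unfold disc; norm_num) (by norm_num) (by norm_num) t35 (by norm_num)
    (fun m h1 h2 => dn34 m (by omega) (by omega)) n35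
theorem dn35 : ∀ m : ℤ, 6 - 36 ≤ m → m ≤ 36 - 1 → Done m := by
  have h := ext_both (s := 35) (fun m h1 h2 => dn34 m (by omega) (by omega))
    (by simpa using dp35) (by simpa using dq35)
  exact fun m h1 h2 => h m (by omega) (by omega)
theorem t36 : TabOK 36 248 66 R36 C36 T36 G36 := ⟨r36, c36, g36⟩
theorem dp36 : Done (36 : ℕ) :=
  step_pos (s := 36) (B := 248) (lim := 66) (lo := -30) (hi := 35) (by norm_num) (by norm_num)
    (by unfold disc; norm_num) (by norm_num) (by norm_num) t36 (by norm_num)
    (fun m h1 h2 => dn35 m (by omega) (by omega)) p36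
theorem dq36 : Done (5 - (36 : ℕ)) :=
  step_neg (s := 36) (B := 248) (lim := 66) (lo := -30) (hi := 35) (by norm_num) (by norm_num)
    (by unfold disc; norm_num) (by norm_num) (by norm_num) t36 (by norm_num)
    (fun m h1 h2 => dn35 m (by omega) (by omega)) n36
theorem dn36 : ∀ m : ℤ, 6 - 37 ≤ m → m ≤ 37 - 1 → Done m := by
  have h := ext_both (s := 36) (fun m h1 h2 => dn35 m (by omega) (by omega))
    (by simpa using dp36) (by simpa using dq36)
  exact fun m h1 h2 => h m (by omega) (by omega)
theorem t37 : TabOK 37 263 68 R37 C37 T37 G37 := ⟨r37, c37, g37⟩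
theorem dp37 : Done (37 : ℕ) :=
  step_pos (s := 37) (B := 263) (lim := 68) (lo := -31) (hi := 36) (by norm_num) (by norm_num)
    (by unfold disc; norm_num) (by norm_num) (by norm_num) t37 (by norm_num)
    (fun m h1 h2 => dn36 m (by omega) (by omega)) p37
theorem dq37 : Done (5 - (37 : ℕ)) :=
  step_neg (s := 37) (B := 263) (lim := 68) (lo := -31) (hi := 36) (by norm_num) (by norm_num)
    (by unfold disc; norm_num) (by norm_num) (by norm_num) t37 (by norm_num)
    (fun m h1 h2 => dn36 m (by omega) (by omega)) n37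
theorem dn37 : ∀ m : ℤ, 6 - 38 ≤ m → m ≤ 38 - 1 → Done m := by
  have h := ext_both (s := 37) (fun m h1 h2 => dn36 m (by omega) (by omega))
    (by simpa using dp37) (by simpa using dq37)
  exact fun m h1 h2 => h m (by omega) (by omega)
theorem t38 : TabOK 38 279 70 R38 C38 T38 G38 := ⟨r38, c38, g38⟩
theorem dp38 : Done (38 : ℕ) :=
  step_pos (s := 38) (B := 279) (lim := 70) (lo := -32) (hi := 37) (by norm_num) (by norm_num)
    (by unfold disc; norm_num) (by norm_num) (by norm_num) t38 (by norm_num)
    (fun m h1 h2 => dn37 m (by omega) (by omega)) p38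
theorem dq38 : Done (5 - (38 : ℕ)) :=
  step_neg (s := 38) (B := 279) (lim := 70) (lo := -32) (hi := 37) (by norm_num) (by norm_num)
    (by unfold disc; norm_num) (by norm_num) (by norm_num) t38 (by norm_num)
    (fun m h1 h2 => dn37 m (by omega) (by omega)) n38
theorem dn38 : ∀ m : ℤ, 6 - 39 ≤ m → m ≤ 39 - 1 → Done m := by
  have h := ext_both (s := 38) (fun m h1 h2 => dn37 m (by omega) (by omega))
    (by simpa using dp38) (by simpa using dq38)
  exact fun m h1 h2 => h m (by omega) (by omega)
theorem t39 : TabOK 39 295 72 R39 C39 T39 G39 := ⟨r39, c39, g39⟩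
theorem dp39 : Done (39 : ℕ) :=
  step_pos (s := 39) (B := 295) (lim := 72) (lo := -33) (hi := 38) (by norm_num) (by norm_num)
    (by unfold disc; norm_num) (by norm_num) (by norm_num) t39 (by norm_num)
    (fun m h1 h2 => dn38 m (by omega) (by omega)) p39
theorem dq39 : Done (5 - (39 : ℕ)) :=
  step_neg (s := 39) (B := 295) (lim := 72) (lo := -33) (hi := 38) (by norm_num) (by norm_num)
    (by unfold disc; norm_num) (by norm_num) (by norm_num) t39 (by norm_num)
    (fun m h1 h2 => dn38 m (by omega) (by omega)) n39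
theorem dn39 : ∀ m : ℤ, 6 - 40 ≤ m → m ≤ 40 - 1 → Done m := by
  have h := ext_both (s := 39) (fun m h1 h2 => dn38 m (by omega) (by omega))
    (by simpa using dp39) (by simpa using dq39)
  exact fun m h1 h2 => h m (by omega) (by omega)
theorem t40 : TabOK 40 311 74 R40 C40 T40 G40 := ⟨r40, c40, g40⟩
theorem dp40 : Done (40 : ℕ) :=
  step_pos (s := 40) (B := 311) (lim := 74) (lo := -34) (hi := 39) (by norm_num) (by norm_num)
    (by unfold disc; norm_num) (by norm_num) (by norm_num) t40 (by norm_num)
    (fun m h1 h2 => dn39 m (by omega) (by omega)) p40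
theorem dq40 : Done (5 - (40 : ℕ)) :=
  step_neg (s := 40) (B := 311) (lim := 74) (lo := -34) (hi := 39) (by norm_num) (by norm_num)
    (by unfold disc; norm_num) (by norm_num) (by norm_num) t40 (by norm_num)
    (fun m h1 h2 => dn39 m (by omega) (by omega)) n40
theorem dn40 : ∀ m : ℤ, 6 - 41 ≤ m → m ≤ 41 - 1 → Done m := by
  have h := ext_both (s := 40) (fun m h1 h2 => dn39 m (by omega) (by omega))
    (by simpa using dp40) (by simpa using dq40)
  exact fun m h1 h2 => h m (by omega) (by omega)
theorem t41 : TabOK 41 328 76 R41 C41 T41 G41 := ⟨r41, c41, g41⟩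
theorem dp41 : Done (41 : ℕ) :=
  step_pos (s := 41) (B := 328) (lim := 76) (lo := -35) (hi := 40) (by norm_num) (by norm_num)
    (by unfold disc; norm_num) (by norm_num) (by norm_num) t41 (by norm_num)
    (fun m h1 h2 => dn40 m (by omega) (by omega)) p41
theorem dq41 : Done (5 - (41 : ℕ)) :=
  step_neg (s := 41) (B := 328) (lim := 76) (lo := -35) (hi := 40) (by norm_num) (by norm_num)
    (by unfold disc; norm_num) (by norm_num) (by norm_num) t41 (by norm_num)
    (fun m h1 h2 => dn40 m (by omega) (by omega)) n41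
theorem dn41 : ∀ m : ℤ, 6 - 42 ≤ m → m ≤ 42 - 1 → Done m := by
  have h := ext_both (s := 41) (fun m h1 h2 => dn40 m (by omega) (by omega))
    (by simpa using dp41) (by simpa using dq41)
  exact fun m h1 h2 => h m (by omega) (by omega)
theorem t42 : TabOK 42 345 78 R42 C42 T42 G42 := ⟨r42, c42, g42⟩
theorem dp42 : Done (42 : ℕ) :=
  step_pos (s := 42) (B := 345) (lim := 78) (lo := -36) (hi := 41) (by norm_num) (by norm_num)
    (by unfold disc; norm_num) (by norm_num) (by norm_num) t42 (by norm_num)
    (fun m h1 h2 => dn41 m (by omega) (by omega)) p42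
theorem dq42 : Done (5 - (42 : ℕ)) :=
  step_neg (s := 42) (B := 345) (lim := 78) (lo := -36) (hi := 41) (by norm_num) (by norm_num)
    (by unfold disc; norm_num) (by norm_num) (by norm_num) t42 (by norm_num)
    (fun m h1 h2 => dn41 m (by omega) (by omega)) n42
theorem dn42 : ∀ m : ℤ, 6 - 43 ≤ m → m ≤ 43 - 1 → Done m := by
  have h := ext_both (s := 42) (fun m h1 h2 => dn41 m (by omega) (by omega))
    (by simpa using dp42) (by simpa using dq42)
  exact fun m h1 h2 => h m (by omega) (by omega)
theorem t43 : TabOK 43 363 80 R43 C43 T43 G43 := ⟨r43, c43, g43⟩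
theorem dp43 : Done (43 : ℕ) :=
  step_pos (s := 43) (B := 363) (lim := 80) (lo := -37) (hi := 42) (by norm_num) (by norm_num)
    (by unfold disc; norm_num) (by norm_num) (by norm_num) t43 (by norm_num)
    (fun m h1 h2 => dn42 m (by omega) (by omega)) p43
theorem dq43 : Done (5 - (43 : ℕ)) :=
  step_neg (s := 43) (B := 363) (lim := 80) (lo := -37) (hi := 42) (by norm_num) (by norm_num)
    (by unfold disc; norm_num) (by norm_num) (by norm_num) t43 (by norm_num)
    (fun m h1 h2 => dn42 m (by omega) (by omega)) n43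
theorem dn43 : ∀ m : ℤ, 6 - 44 ≤ m → m ≤ 44 - 1 → Done m := by
  have h := ext_both (s := 43) (fun m h1 h2 => dn42 m (by omega) (by omega))
    (by simpa using dp43) (by simpa using dq43)
  exact fun m h1 h2 => h m (by omega) (by omega)
theorem t44 : TabOK 44 381 82 R44 C44 T44 G44 := ⟨r44, c44, g44⟩
theorem dp44 : Done (44 : ℕ) :=
  step_pos (s := 44) (B := 381) (lim := 82) (lo := -38) (hi := 43) (by norm_num) (by norm_num)
    (by unfold disc; norm_num) (by norm_num) (by norm_num) t44 (by norm_num)
    (fun m h1 h2 => dn43 m (by omega) (by omega)) p44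
theorem dq44 : Done (5 - (44 : ℕ)) :=
  step_neg (s := 44) (B := 381) (lim := 82) (lo := -38) (hi := 43) (by norm_num) (by norm_num)
    (by unfold disc; norm_num) (by norm_num) (by norm_num) t44 (by norm_num)
    (fun m h1 h2 => dn43 m (by omega) (by omega)) n44
theorem dn44 : ∀ m : ℤ, 6 - 45 ≤ m → m ≤ 45 - 1 → Done m := by
  have h := ext_both (s := 44) (fun m h1 h2 => dn43 m (by omega) (by omega))
    (by simpa using dp44) (by simpa using dq44)
  exact fun m h1 h2 => h m (by omega) (by omega)
theorem t45 : TabOK 45 400 84 R45 C45 T45 G45 := ⟨r45, c45, g45⟩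
theorem dp45 : Done (45 : ℕ) :=
  step_pos (s := 45) (B := 400) (lim := 84) (lo := -39) (hi := 44) (by norm_num) (by norm_num)
    (by unfold disc; norm_num) (by norm_num) (by norm_num) t45 (by norm_num)
    (fun m h1 h2 => dn44 m (by omega) (by omega)) p45
theorem dq45 : Done (5 - (45 : ℕ)) :=
  step_neg (s := 45) (B := 400) (lim := 84) (lo := -39) (hi := 44) (by norm_num) (by norm_num)
    (by unfold disc; norm_num) (by norm_num) (by norm_num) t45 (by norm_num)
    (fun m h1 h2 => dn44 m (by omega) (by omega)) n45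
theorem dn45 : ∀ m : ℤ, 6 - 46 ≤ m → m ≤ 46 - 1 → Done m := by
  have h := ext_both (s := 45) (fun m h1 h2 => dn44 m (by omega) (by omega))
    (by simpa using dp45) (by simpa using dq45)
  exact fun m h1 h2 => h m (by omega) (by omega)
theorem t46 : TabOK 46 419 86 R46 C46 T46 G46 := ⟨r46, c46, g46⟩
theorem dp46 : Done (46 : ℕ) :=
  step_pos (s := 46) (B := 419) (lim := 86) (lo := -40) (hi := 45) (by norm_num) (by norm_num)
    (by unfold disc; norm_num) (by norm_num) (by norm_num) t46 (by norm_num)
    (fun m h1 h2 => dn45 m (by omega) (by omega)) p46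
theorem dq46 : Done (5 - (46 : ℕ)) :=
  step_neg (s := 46) (B := 419) (lim := 86) (lo := -40) (hi := 45) (by norm_num) (by norm_num)
    (by unfold disc; norm_num) (by norm_num) (by norm_num) t46 (by norm_num)
    (fun m h1 h2 => dn45 m (by omega) (by omega)) n46
theorem dn46 : ∀ m : ℤ, 6 - 47 ≤ m → m ≤ 47 - 1 → Done m := by
  have h := ext_both (s := 46) (fun m h1 h2 => dn45 m (by omega) (by omega))
    (by simpa using dp46) (by simpa using dq46)
  exact fun m h1 h2 => h m (by omega) (by omega)
theorem t47 : TabOK 47 439 88 R47 C47 T47 G47 := ⟨r47, c47, g47⟩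
theorem dp47 : Done (47 : ℕ) :=
  step_pos (s := 47) (B := 439) (lim := 88) (lo := -41) (hi := 46) (by norm_num) (by norm_num)
    (by unfold disc; norm_num) (by norm_num) (by norm_num) t47 (by norm_num)
    (fun m h1 h2 => dn46 m (by omega) (by omega)) p47
theorem dq47 : Done (5 - (47 : ℕ)) :=
  step_neg (s := 47) (B := 439) (lim := 88) (lo := -41) (hi := 46) (by norm_num) (by norm_num)
    (by unfold disc; norm_num) (by norm_num) (by norm_num) t47 (by norm_num)
    (fun m h1 h2 => dn46 m (by omega) (by omega)) n47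
theorem dn47 : ∀ m : ℤ, 6 - 48 ≤ m → m ≤ 48 - 1 → Done m := by
  have h := ext_both (s := 47) (fun m h1 h2 => dn46 m (by omega) (by omega))
    (by simpa using dp47) (by simpa using dq47)
  exact fun m h1 h2 => h m (by omega) (by omega)
theorem t48 : TabOK 48 459 90 R48 C48 T48 G48 := ⟨r48, c48, g48⟩
theorem dp48 : Done (48 : ℕ) :=
  step_pos (s := 48) (B := 459) (lim := 90) (lo := -42) (hi := 47) (by norm_num) (by norm_num)
    (by unfold disc; norm_num) (by norm_num) (by norm_num) t48 (by norm_num)
    (fun m h1 h2 => dn47 m (by omega) (by omega)) p48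
theorem dq48 : Done (5 - (48 : ℕ)) :=
  step_neg (s := 48) (B := 459) (lim := 90) (lo := -42) (hi := 47) (by norm_num) (by norm_num)
    (by unfold disc; norm_num) (by norm_num) (by norm_num) t48 (by norm_num)
    (fun m h1 h2 => dn47 m (by omega) (by omega)) n48
theorem dn48 : ∀ m : ℤ, 6 - 49 ≤ m → m ≤ 49 - 1 → Done m := by
  have h := ext_both (s := 48) (fun m h1 h2 => dn47 m (by omega) (by omega))
    (by simpa using dp48) (by simpa using dq48)
  exact fun m h1 h2 => h m (by omega) (by omega)
theorem t49 : TabOK 49 479 92 R49 C49 T49 G49 := ⟨r49, c49, g49⟩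
theorem dp49 : Done (49 : ℕ) :=
  step_pos (s := 49) (B := 479) (lim := 92) (lo := -43) (hi := 48) (by norm_num) (by norm_num)
    (by unfold disc; norm_num) (by norm_num) (by norm_num) t49 (by norm_num)
    (fun m h1 h2 => dn48 m (by omega) (by omega)) p49
theorem dq49 : Done (5 - (49 : ℕ)) :=
  step_neg (s := 49) (B := 479) (lim := 92) (lo := -43) (hi := 48) (by norm_num) (by norm_num)
    (by unfold disc; norm_num) (by norm_num) (by norm_num) t49 (by norm_num)
    (fun m h1 h2 => dn48 m (by omega) (by omega)) n49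
theorem dn49 : ∀ m : ℤ, 6 - 50 ≤ m → m ≤ 50 - 1 → Done m := by
  have h := ext_both (s := 49) (fun m h1 h2 => dn48 m (by omega) (by omega))
    (by simpa using dp49) (by simpa using dq49)
  exact fun m h1 h2 => h m (by omega) (by omega)
theorem t50 : TabOK 50 500 94 R50 C50 T50 G50 := ⟨r50, c50, g50⟩
theorem dp50 : Done (50 : ℕ) :=
  step_pos (s := 50) (B := 500) (lim := 94) (lo := -44) (hi := 49) (by norm_num) (by norm_num)
    (by unfold disc; norm_num) (by norm_num) (by norm_num) t50 (by norm_num)
    (fun m h1 h2 => dn49 m (by omega) (by omega)) p50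
theorem dq50 : Done (5 - (50 : ℕ)) :=
  step_neg (s := 50) (B := 500) (lim := 94) (lo := -44) (hi := 49) (by norm_num) (by norm_num)
    (by unfold disc; norm_num) (by norm_num) (by norm_num) t50 (by norm_num)
    (fun m h1 h2 => dn49 m (by omega) (by omega)) n50
theorem dn50 : ∀ m : ℤ, 6 - 51 ≤ m → m ≤ 51 - 1 → Done m := by
  have h := ext_both (s := 50) (fun m h1 h2 => dn49 m (by omega) (by omega))
    (by simpa using dp50) (by simpa using dq50)
  exact fun m h1 h2 => h m (by omega) (by omega)
theorem t51 : TabOK 51 521 96 R51 C51 T51 G51 := ⟨r51, c51, g51⟩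
theorem dp51 : Done (51 : ℕ) :=
  step_pos (s := 51) (B := 521) (lim := 96) (lo := -45) (hi := 50) (by norm_num) (by norm_num)
    (by unfold disc; norm_num) (by norm_num) (by norm_num) t51 (by norm_num)
    (fun m h1 h2 => dn50 m (by omega) (by omega)) p51
theorem dq51 : Done (5 - (51 : ℕ)) :=
  step_neg (s := 51) (B := 521) (lim := 96) (lo := -45) (hi := 50) (by norm_num) (by norm_num)
    (by unfold disc; norm_num) (by norm_num) (by norm_num) t51 (by norm_num)
    (fun m h1 h2 => dn50 m (by omega) (by omega)) n51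
theorem dn51 : ∀ m : ℤ, 6 - 52 ≤ m → m ≤ 52 - 1 → Done m := by
  have h := ext_both (s := 51) (fun m h1 h2 => dn50 m (by omega) (by omega))
    (by simpa using dp51) (by simpa using dq51)
  exact fun m h1 h2 => h m (by omega) (by omega)
theorem t52 : TabOK 52 543 98 R52 C52 T52 G52 := ⟨r52, c52, g52⟩
theorem dp52 : Done (52 : ℕ) :=
  step_pos (s := 52) (B := 543) (lim := 98) (lo := -46) (hi := 51) (by norm_num) (by norm_num)
    (by unfold disc; norm_num) (by norm_num) (by norm_num) t52 (by norm_num)
    (fun m h1 h2 => dn51 m (by omega) (by omega)) p52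
theorem dq52 : Done (5 - (52 : ℕ)) :=
  step_neg (s := 52) (B := 543) (lim := 98) (lo := -46) (hi := 51) (by norm_num) (by norm_num)
    (by unfold disc; norm_num) (by norm_num) (by norm_num) t52 (by norm_num)
    (fun m h1 h2 => dn51 m (by omega) (by omega)) n52
theorem dn52 : ∀ m : ℤ, 6 - 53 ≤ m → m ≤ 53 - 1 → Done m := by
  have h := ext_both (s := 52) (fun m h1 h2 => dn51 m (by omega) (by omega))
    (by simpa using dp52) (by simpa using dq52)
  exact fun m h1 h2 => h m (by omega) (by omega)
theorem t53 : TabOK 53 565 100 R53 C53 T53 G53 := ⟨r53, c53, g53⟩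
theorem dp53 : Done (53 : ℕ) :=
  step_pos (s := 53) (B := 565) (lim := 100) (lo := -47) (hi := 52) (by norm_num) (by norm_num)
    (by unfold disc; norm_num) (by norm_num) (by norm_num) t53 (by norm_num)
    (fun m h1 h2 => dn52 m (by omega) (by omega)) p53
theorem dq53 : Done (5 - (53 : ℕ)) :=
  step_neg (s := 53) (B := 565) (lim := 100) (lo := -47) (hi := 52) (by norm_num) (by norm_num)
    (by unfold disc; norm_num) (by norm_num) (by norm_num) t53 (by norm_num)
    (fun m h1 h2 => dn52 m (by omega) (by omega)) n53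
theorem dn53 : ∀ m : ℤ, 6 - 54 ≤ m → m ≤ 54 - 1 → Done m := by
  have h := ext_both (s := 53) (fun m h1 h2 => dn52 m (by omega) (by omega))
    (by simpa using dp53) (by simpa using dq53)
  exact fun m h1 h2 => h m (by omega) (by omega)
theorem t54 : TabOK 54 588 102 R54 C54 T54 G54 := ⟨r54, c54, g54⟩
theorem dp54 : Done (54 : ℕ) :=
  step_pos (s := 54) (B := 588) (lim := 102) (lo := -48) (hi := 53) (by norm_num) (by norm_num)
    (by unfold disc; norm_num) (by norm_num) (by norm_num) t54 (by norm_num)
    (fun m h1 h2 => dn53 m (by omega) (by omega)) p54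
theorem dq54 : Done (5 - (54 : ℕ)) :=
  step_neg (s := 54) (B := 588) (lim := 102) (lo := -48) (hi := 53) (by norm_num) (by norm_num)
    (by unfold disc; norm_num) (by norm_num) (by norm_num) t54 (by norm_num)
    (fun m h1 h2 => dn53 m (by omega) (by omega)) n54
theorem dn54 : ∀ m : ℤ, 6 - 55 ≤ m → m ≤ 55 - 1 → Done m := by
  have h := ext_both (s := 54) (fun m h1 h2 => dn53 m (by omega) (by omega))
    (by simpa using dp54) (by simpa using dq54)
  exact fun m h1 h2 => h m (by omega) (by omega)
theorem t55 : TabOK 55 611 104 R55 C55 T55 G55 := ⟨r55, c55, g55⟩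
theorem dp55 : Done (55 : ℕ) :=
  step_pos (s := 55) (B := 611) (lim := 104) (lo := -49) (hi := 54) (by norm_num) (by norm_num)
    (by unfold disc; norm_num) (by norm_num) (by norm_num) t55 (by norm_num)
    (fun m h1 h2 => dn54 m (by omega) (by omega)) p55
theorem dq55 : Done (5 - (55 : ℕ)) :=
  step_neg (s := 55) (B := 611) (lim := 104) (lo := -49) (hi := 54) (by norm_num) (by norm_num)
    (by unfold disc; norm_num) (by norm_num) (by norm_num) t55 (by norm_num)
    (fun m h1 h2 => dn54 m (by omega) (by omega)) n55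
theorem dn55 : ∀ m : ℤ, 6 - 56 ≤ m → m ≤ 56 - 1 → Done m := by
  have h := ext_both (s := 55) (fun m h1 h2 => dn54 m (by omega) (by omega))
    (by simpa using dp55) (by simpa using dq55)
  exact fun m h1 h2 => h m (by omega) (by omega)
theorem t56 : TabOK 56 635 106 R56 C56 T56 G56 := ⟨r56, c56, g56⟩
theorem dp56 : Done (56 : ℕ) :=
  step_pos (s := 56) (B := 635) (lim := 106) (lo := -50) (hi := 55) (by norm_num) (by norm_num)
    (by unfold disc; norm_num) (by norm_num) (by norm_num) t56 (by norm_num)
    (fun m h1 h2 => dn55 m (by omega) (by omega)) p56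
theorem dq56 : Done (5 - (56 : ℕ)) :=
  step_neg (s := 56) (B := 635) (lim := 106) (lo := -50) (hi := 55) (by norm_num) (by norm_num)
    (by unfold disc; norm_num) (by norm_num) (by norm_num) t56 (by norm_num)
    (fun m h1 h2 => dn55 m (by omega) (by omega)) n56
theorem dn56 : ∀ m : ℤ, 6 - 57 ≤ m → m ≤ 57 - 1 → Done m := by
  have h := ext_both (s := 56) (fun m h1 h2 => dn55 m (by omega) (by omega))
    (by simpa using dp56) (by simpa using dq56)
  exact fun m h1 h2 => h m (by omega) (by omega)
theorem t57 : TabOK 57 659 108 R57 C57 T57 G57 := ⟨r57, c57, g57⟩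
theorem dp57 : Done (57 : ℕ) :=
  step_pos (s := 57) (B := 659) (lim := 108) (lo := -51) (hi := 56) (by norm_num) (by norm_num)
    (by unfold disc; norm_num) (by norm_num) (by norm_num) t57 (by norm_num)
    (fun m h1 h2 => dn56 m (by omega) (by omega)) p57
theorem dq57 : Done (5 - (57 : ℕ)) :=
  step_neg (s := 57) (B := 659) (lim := 108) (lo := -51) (hi := 56) (by norm_num) (by norm_num)
    (by unfold disc; norm_num) (by norm_num) (by norm_num) t57 (by norm_num)
    (fun m h1 h2 => dn56 m (by omega) (by omega)) n57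
theorem dn57 : ∀ m : ℤ, 6 - 58 ≤ m → m ≤ 58 - 1 → Done m := by
  have h := ext_both (s := 57) (fun m h1 h2 => dn56 m (by omega) (by omega))
    (by simpa using dp57) (by simpa using dq57)
  exact fun m h1 h2 => h m (by omega) (by omega)
theorem t58 : TabOK 58 683 110 R58 C58 T58 G58 := ⟨r58, c58, g58⟩
theorem dp58 : Done (58 : ℕ) :=
  step_pos (s := 58) (B := 683) (lim := 110) (lo := -52) (hi := 57) (by norm_num) (by norm_num)
    (by unfold disc; norm_num) (by norm_num) (by norm_num) t58 (by norm_num)
    (fun m h1 h2 => dn57 m (by omega) (by omega)) p58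
theorem dq58 : Done (5 - (58 : ℕ)) :=
  step_neg (s := 58) (B := 683) (lim := 110) (lo := -52) (hi := 57) (by norm_num) (by norm_num)
    (by unfold disc; norm_num) (by norm_num) (by norm_num) t58 (by norm_num)
    (fun m h1 h2 => dn57 m (by omega) (by omega)) n58
theorem dn58 : ∀ m : ℤ, 6 - 59 ≤ m → m ≤ 59 - 1 → Done m := by
  have h := ext_both (s := 58) (fun m h1 h2 => dn57 m (by omega) (by omega))
    (by simpa using dp58) (by simpa using dq58)
  exact fun m h1 h2 => h m (by omega) (by omega)
theorem t59 : TabOK 59 708 112 R59 C59 T59 G59 := ⟨r59, c59, g59⟩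
theorem dp59 : Done (59 : ℕ) :=
  step_pos (s := 59) (B := 708) (lim := 112) (lo := -53) (hi := 58) (by norm_num) (by norm_num)
    (by unfold disc; norm_num) (by norm_num) (by norm_num) t59 (by norm_num)
    (fun m h1 h2 => dn58 m (by omega) (by omega)) p59
theorem dq59 : Done (5 - (59 : ℕ)) :=
  step_neg (s := 59) (B := 708) (lim := 112) (lo := -53) (hi := 58) (by norm_num) (by norm_num)
    (by unfold disc; norm_num) (by norm_num) (by norm_num) t59 (by norm_num)
    (fun m h1 h2 => dn58 m (by omega) (by omega)) n59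
theorem dn59 : ∀ m : ℤ, 6 - 60 ≤ m → m ≤ 60 - 1 → Done m := by
  have h := ext_both (s := 59) (fun m h1 h2 => dn58 m (by omega) (by omega))
    (by simpa using dp59) (by simpa using dq59)
  exact fun m h1 h2 => h m (by omega) (by omega)
theorem t60 : TabOK 60 733 114 R60 C60 T60 G60 := ⟨r60, c60, g60⟩
theorem dp60 : Done (60 : ℕ) :=
  step_pos (s := 60) (B := 733) (lim := 114) (lo := -54) (hi := 59) (by norm_num) (by norm_num)
    (by unfold disc; norm_num) (by norm_num) (by norm_num) t60 (by norm_num)
    (fun m h1 h2 => dn59 m (by omega) (by omega)) p60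
theorem dq60 : Done (5 - (60 : ℕ)) :=
  step_neg (s := 60) (B := 733) (lim := 114) (lo := -54) (hi := 59) (by norm_num) (by norm_num)
    (by unfold disc; norm_num) (by norm_num) (by norm_num) t60 (by norm_num)
    (fun m h1 h2 => dn59 m (by omega) (by omega)) n60
theorem dn60 : ∀ m : ℤ, 6 - 61 ≤ m → m ≤ 61 - 1 → Done m := by
  have h := ext_both (s := 60) (fun m h1 h2 => dn59 m (by omega) (by omega))
    (by simpa using dp60) (by simpa using dq60)
  exact fun m h1 h2 => h m (by omega) (by omega)
theorem t61 : TabOK 61 759 116 R61 C61 T61 G61 := ⟨r61, c61, g61⟩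
theorem dp61 : Done (61 : ℕ) :=
  step_pos (s := 61) (B := 759) (lim := 116) (lo := -55) (hi := 60) (by norm_num) (by norm_num)
    (by unfold disc; norm_num) (by norm_num) (by norm_num) t61 (by norm_num)
    (fun m h1 h2 => dn60 m (by omega) (by omega)) p61
theorem dq61 : Done (5 - (61 : ℕ)) :=
  step_neg (s := 61) (B := 759) (lim := 116) (lo := -55) (hi := 60) (by norm_num) (by norm_num)
    (by unfold disc; norm_num) (by norm_num) (by norm_num) t61 (by norm_num)
    (fun m h1 h2 => dn60 m (by omega) (by omega)) n61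
theorem dn61 : ∀ m : ℤ, 6 - 62 ≤ m → m ≤ 62 - 1 → Done m := by
  have h := ext_both (s := 61) (fun m h1 h2 => dn60 m (by omega) (by omega))
    (by simpa using dp61) (by simpa using dq61)
  exact fun m h1 h2 => h m (by omega) (by omega)
theorem t62 : TabOK 62 785 118 R62 C62 T62 G62 := ⟨r62, c62, g62⟩
theorem dp62 : Done (62 : ℕ) :=
  step_pos (s := 62) (B := 785) (lim := 118) (lo := -56) (hi := 61) (by norm_num) (by norm_num)
    (by unfold disc; norm_num) (by norm_num) (by norm_num) t62 (by norm_num)
    (fun m h1 h2 => dn61 m (by omega) (by omega)) p62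
theorem dq62 : Done (5 - (62 : ℕ)) :=
  step_neg (s := 62) (B := 785) (lim := 118) (lo := -56) (hi := 61) (by norm_num) (by norm_num)
    (by unfold disc; norm_num) (by norm_num) (by norm_num) t62 (by norm_num)
    (fun m h1 h2 => dn61 m (by omega) (by omega)) n62
theorem dn62 : ∀ m : ℤ, 6 - 63 ≤ m → m ≤ 63 - 1 → Done m := by
  have h := ext_both (s := 62) (fun m h1 h2 => dn61 m (by omega) (by omega))
    (by simpa using dp62) (by simpa using dq62)
  exact fun m h1 h2 => h m (by omega) (by omega)
theorem t63 : TabOK 63 812 120 R63 C63 T63 G63 := ⟨r63, c63, g63⟩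
theorem dp63 : Done (63 : ℕ) :=
  step_pos (s := 63) (B := 812) (lim := 120) (lo := -57) (hi := 62) (by norm_num) (by norm_num)
    (by unfold disc; norm_num) (by norm_num) (by norm_num) t63 (by norm_num)
    (fun m h1 h2 => dn62 m (by omega) (by omega)) p63
theorem dq63 : Done (5 - (63 : ℕ)) :=
  step_neg (s := 63) (B := 812) (lim := 120) (lo := -57) (hi := 62) (by norm_num) (by norm_num)
    (by unfold disc; norm_num) (by norm_num) (by norm_num) t63 (by norm_num)
    (fun m h1 h2 => dn62 m (by omega) (by omega)) n63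
theorem dn63 : ∀ m : ℤ, 6 - 64 ≤ m → m ≤ 64 - 1 → Done m := by
  have h := ext_both (s := 63) (fun m h1 h2 => dn62 m (by omega) (by omega))
    (by simpa using dp63) (by simpa using dq63)
  exact fun m h1 h2 => h m (by omega) (by omega)
theorem t64 : TabOK 64 839 122 R64 C64 T64 G64 := ⟨r64, c64, g64⟩
theorem dp64 : Done (64 : ℕ) :=
  step_pos (s := 64) (B := 839) (lim := 122) (lo := -58) (hi := 63) (by norm_num) (by norm_num)
    (by unfold disc; norm_num) (by norm_num) (by norm_num) t64 (by norm_num)
    (fun m h1 h2 => dn63 m (by omega) (by omega)) p64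
theorem dq64 : Done (5 - (64 : ℕ)) :=
  step_neg (s := 64) (B := 839) (lim := 122) (lo := -58) (hi := 63) (by norm_num) (by norm_num)
    (by unfold disc; norm_num) (by norm_num) (by norm_num) t64 (by norm_num)
    (fun m h1 h2 => dn63 m (by omega) (by omega)) n64
theorem dn64 : ∀ m : ℤ, 6 - 65 ≤ m → m ≤ 65 - 1 → Done m := by
  have h := ext_both (s := 64) (fun m h1 h2 => dn63 m (by omega) (by omega))
    (by simpa using dp64) (by simpa using dq64)
  exact fun m h1 h2 => h m (by omega) (by omega)
theorem t65 : TabOK 65 867 124 R65 C65 T65 G65 := ⟨r65, c65, g65⟩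
theorem dp65 : Done (65 : ℕ) :=
  step_pos (s := 65) (B := 867) (lim := 124) (lo := -59) (hi := 64) (by norm_num) (by norm_num)
    (by unfold disc; norm_num) (by norm_num) (by norm_num) t65 (by norm_num)
    (fun m h1 h2 => dn64 m (by omega) (by omega)) p65
theorem dq65 : Done (5 - (65 : ℕ)) :=
  step_neg (s := 65) (B := 867) (lim := 124) (lo := -59) (hi := 64) (by norm_num) (by norm_num)
    (by unfold disc; norm_num) (by norm_num) (by norm_num) t65 (by norm_num)
    (fun m h1 h2 => dn64 m (by omega) (by omega)) n65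
theorem dn65 : ∀ m : ℤ, 6 - 66 ≤ m → m ≤ 66 - 1 → Done m := by
  have h := ext_both (s := 65) (fun m h1 h2 => dn64 m (by omega) (by omega))
    (by simpa using dp65) (by simpa using dq65)
  exact fun m h1 h2 => h m (by omega) (by omega)
theorem t66 : TabOK 66 895 126 R66 C66 T66 G66 := ⟨r66, c66, g66⟩
theorem dp66 : Done (66 : ℕ) :=
  step_pos (s := 66) (B := 895) (lim := 126) (lo := -60) (hi := 65) (by norm_num) (by norm_num)
    (by unfold disc; norm_num) (by norm_num) (by norm_num) t66 (by norm_num)
    (fun m h1 h2 => dn65 m (by omega) (by omega)) p66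
theorem dq66 : Done (5 - (66 : ℕ)) :=
  step_neg (s := 66) (B := 895) (lim := 126) (lo := -60) (hi := 65) (by norm_num) (by norm_num)
    (by unfold disc; norm_num) (by norm_num) (by norm_num) t66 (by norm_num)
    (fun m h1 h2 => dn65 m (by omega) (by omega)) n66
theorem dn66 : ∀ m : ℤ, 6 - 67 ≤ m → m ≤ 67 - 1 → Done m := by
  have h := ext_both (s := 66) (fun m h1 h2 => dn65 m (by omega) (by omega))
    (by simpa using dp66) (by simpa using dq66)
  exact fun m h1 h2 => h m (by omega) (by omega)
theorem t67 : TabOK 67 923 128 R67 C67 T67 G67 := ⟨r67, c67, g67⟩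
theorem dp67 : Done (67 : ℕ) :=
  step_pos (s := 67) (B := 923) (lim := 128) (lo := -61) (hi := 66) (by norm_num) (by norm_num)
    (by unfold disc; norm_num) (by norm_num) (by norm_num) t67 (by norm_num)
    (fun m h1 h2 => dn66 m (by omega) (by omega)) p67
theorem dq67 : Done (5 - (67 : ℕ)) :=
  step_neg (s := 67) (B := 923) (lim := 128) (lo := -61) (hi := 66) (by norm_num) (by norm_num)
    (by unfold disc; norm_num) (by norm_num) (by norm_num) t67 (by norm_num)
    (fun m h1 h2 => dn66 m (by omega) (by omega)) n67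
theorem dn67 : ∀ m : ℤ, 6 - 68 ≤ m → m ≤ 68 - 1 → Done m := by
  have h := ext_both (s := 67) (fun m h1 h2 => dn66 m (by omega) (by omega))
    (by simpa using dp67) (by simpa using dq67)
  exact fun m h1 h2 => h m (by omega) (by omega)
theorem t68 : TabOK 68 952 130 R68 C68 T68 G68 := ⟨r68, c68, g68⟩
theorem dp68 : Done (68 : ℕ) :=
  step_pos (s := 68) (B := 952) (lim := 130) (lo := -62) (hi := 67) (by norm_num) (by norm_num)
    (by unfold disc; norm_num) (by norm_num) (by norm_num) t68 (by norm_num)
    (fun m h1 h2 => dn67 m (by omega) (by omega)) p68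
theorem dq68 : Done (5 - (68 : ℕ)) :=
  step_neg (s := 68) (B := 952) (lim := 130) (lo := -62) (hi := 67) (by norm_num) (by norm_num)
    (by unfold disc; norm_num) (by norm_num) (by norm_num) t68 (by norm_num)
    (fun m h1 h2 => dn67 m (by omega) (by omega)) n68
theorem dn68 : ∀ m : ℤ, 6 - 69 ≤ m → m ≤ 69 - 1 → Done m := by
  have h := ext_both (s := 68) (fun m h1 h2 => dn67 m (by omega) (by omega))
    (by simpa using dp68) (by simpa using dq68)
  exact fun m h1 h2 => h m (by omega) (by omega)
theorem t69 : TabOK 69 981 132 R69 C69 T69 G69 := ⟨r69, c69, g69⟩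
theorem dp69 : Done (69 : ℕ) :=
  step_pos (s := 69) (B := 981) (lim := 132) (lo := -63) (hi := 68) (by norm_num) (by norm_num)
    (by unfold disc; norm_num) (by norm_num) (by norm_num) t69 (by norm_num)
    (fun m h1 h2 => dn68 m (by omega) (by omega)) p69
theorem dq69 : Done (5 - (69 : ℕ)) :=
  step_neg (s := 69) (B := 981) (lim := 132) (lo := -63) (hi := 68) (by norm_num) (by norm_num)
    (by unfold disc; norm_num) (by norm_num) (by norm_num) t69 (by norm_num)
    (fun m h1 h2 => dn68 m (by omega) (by omega)) n69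
theorem dn69 : ∀ m : ℤ, 6 - 70 ≤ m → m ≤ 70 - 1 → Done m := by
  have h := ext_both (s := 69) (fun m h1 h2 => dn68 m (by omega) (by omega))
    (by simpa using dp69) (by simpa using dq69)
  exact fun m h1 h2 => h m (by omega) (by omega)
theorem t70 : TabOK 70 1011 134 R70 C70 T70 G70 := ⟨r70, c70, g70⟩
theorem dp70 : Done (70 : ℕ) :=
  step_pos (s := 70) (B := 1011) (lim := 134) (lo := -64) (hi := 69) (by norm_num) (by norm_num)
    (by unfold disc; norm_num) (by norm_num) (by norm_num) t70 (by norm_num)
    (fun m h1 h2 => dn69 m (by omega) (by omega)) p70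
theorem dq70 : Done (5 - (70 : ℕ)) :=
  step_neg (s := 70) (B := 1011) (lim := 134) (lo := -64) (hi := 69) (by norm_num) (by norm_num)
    (by unfold disc; norm_num) (by norm_num) (by norm_num) t70 (by norm_num)
    (fun m h1 h2 => dn69 m (by omega) (by omega)) n70
theorem dn70 : ∀ m : ℤ, 6 - 71 ≤ m → m ≤ 71 - 1 → Done m := by
  have h := ext_both (s := 70) (fun m h1 h2 => dn69 m (by omega) (by omega))
    (by simpa using dp70) (by simpa using dq70)
  exact fun m h1 h2 => h m (by omega) (by omega)
theorem t71 : TabOK 71 1041 136 R71 C71 T71 G71 := ⟨r71, c71, g71⟩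
theorem dp71 : Done (71 : ℕ) :=
  step_pos (s := 71) (B := 1041) (lim := 136) (lo := -65) (hi := 70) (by norm_num) (by norm_num)
    (by unfold disc; norm_num) (by norm_num) (by norm_num) t71 (by norm_num)
    (fun m h1 h2 => dn70 m (by omega) (by omega)) p71
theorem dq71 : Done (5 - (71 : ℕ)) :=
  step_neg (s := 71) (B := 1041) (lim := 136) (lo := -65) (hi := 70) (by norm_num) (by norm_num)
    (by unfold disc; norm_num) (by norm_num) (by norm_num) t71 (by norm_num)
    (fun m h1 h2 => dn70 m (by omega) (by omega)) n71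
theorem dn71 : ∀ m : ℤ, 6 - 72 ≤ m → m ≤ 72 - 1 → Done m := by
  have h := ext_both (s := 71) (fun m h1 h2 => dn70 m (by omega) (by omega))
    (by simpa using dp71) (by simpa using dq71)
  exact fun m h1 h2 => h m (by omega) (by omega)
theorem t72 : TabOK 72 1072 138 R72 C72 T72 G72 := ⟨r72, c72, g72⟩
theorem dp72 : Done (72 : ℕ) :=
  step_pos (s := 72) (B := 1072) (lim := 138) (lo := -66) (hi := 71) (by norm_num) (by norm_num)
    (by unfold disc; norm_num) (by norm_num) (by norm_num) t72 (by norm_num)
    (fun m h1 h2 => dn71 m (by omega) (by omega)) p72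
theorem dq72 : Done (5 - (72 : ℕ)) :=
  step_neg (s := 72) (B := 1072) (lim := 138) (lo := -66) (hi := 71) (by norm_num) (by norm_num)
    (by unfold disc; norm_num) (by norm_num) (by norm_num) t72 (by norm_num)
    (fun m h1 h2 => dn71 m (by omega) (by omega)) n72
theorem dn72 : ∀ m : ℤ, 6 - 73 ≤ m → m ≤ 73 - 1 → Done m := by
  have h := ext_both (s := 72) (fun m h1 h2 => dn71 m (by omega) (by omega))
    (by simpa using dp72) (by simpa using dq72)
  exact fun m h1 h2 => h m (by omega) (by omega)
theorem t73 : TabOK 73 1103 140 R73 C73 T73 G73 := ⟨r73, c73, g73⟩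
theorem dp73 : Done (73 : ℕ) :=
  step_pos (s := 73) (B := 1103) (lim := 140) (lo := -67) (hi := 72) (by norm_num) (by norm_num)
    (by unfold disc; norm_num) (by norm_num) (by norm_num) t73 (by norm_num)
    (fun m h1 h2 => dn72 m (by omega) (by omega)) p73
theorem dq73 : Done (5 - (73 : ℕ)) :=
  step_neg (s := 73) (B := 1103) (lim := 140) (lo := -67) (hi := 72) (by norm_num) (by norm_num)
    (by unfold disc; norm_num) (by norm_num) (by norm_num) t73 (by norm_num)
    (fun m h1 h2 => dn72 m (by omega) (by omega)) n73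
theorem dn73 : ∀ m : ℤ, 6 - 74 ≤ m → m ≤ 74 - 1 → Done m := by
  have h := ext_both (s := 73) (fun m h1 h2 => dn72 m (by omega) (by omega))
    (by simpa using dp73) (by simpa using dq73)
  exact fun m h1 h2 => h m (by omega) (by omega)
theorem t74 : TabOK 74 1135 142 R74 C74 T74 G74 := ⟨r74, c74, g74⟩
theorem dp74 : Done (74 : ℕ) :=
  step_pos (s := 74) (B := 1135) (lim := 142) (lo := -68) (hi := 73) (by norm_num) (by norm_num)
    (by unfold disc; norm_num) (by norm_num) (by norm_num) t74 (by norm_num)
    (fun m h1 h2 => dn73 m (by omega) (by omega)) p74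
theorem dq74 : Done (5 - (74 : ℕ)) :=
  step_neg (s := 74) (B := 1135) (lim := 142) (lo := -68) (hi := 73) (by norm_num) (by norm_num)
    (by unfold disc; norm_num) (by norm_num) (by norm_num) t74 (by norm_num)
    (fun m h1 h2 => dn73 m (by omega) (by omega)) n74
theorem dn74 : ∀ m : ℤ, 6 - 75 ≤ m → m ≤ 75 - 1 → Done m := by
  have h := ext_both (s := 74) (fun m h1 h2 => dn73 m (by omega) (by omega))
    (by simpa using dp74) (by simpa using dq74)
  exact fun m h1 h2 => h m (by omega) (by omega)
theorem t75 : TabOK 75 1167 144 R75 C75 T75 G75 := ⟨r75, c75, g75⟩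
theorem dp75 : Done (75 : ℕ) :=
  step_pos (s := 75) (B := 1167) (lim := 144) (lo := -69) (hi := 74) (by norm_num) (by norm_num)
    (by unfold disc; norm_num) (by norm_num) (by norm_num) t75 (by norm_num)
    (fun m h1 h2 => dn74 m (by omega) (by omega)) p75
theorem dq75 : Done (5 - (75 : ℕ)) :=
  step_neg (s := 75) (B := 1167) (lim := 144) (lo := -69) (hi := 74) (by norm_num) (by norm_num)
    (by unfold disc; norm_num) (by norm_num) (by norm_num) t75 (by norm_num)
    (fun m h1 h2 => dn74 m (by omega) (by omega)) n75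
theorem dn75 : ∀ m : ℤ, 6 - 76 ≤ m → m ≤ 76 - 1 → Done m := by
  have h := ext_both (s := 75) (fun m h1 h2 => dn74 m (by omega) (by omega))
    (by simpa using dp75) (by simpa using dq75)
  exact fun m h1 h2 => h m (by omega) (by omega)
theorem t76 : TabOK 76 1199 146 R76 C76 T76 G76 := ⟨r76, c76, g76⟩
theorem dp76 : Done (76 : ℕ) :=
  step_pos (s := 76) (B := 1199) (lim := 146) (lo := -70) (hi := 75) (by norm_num) (by norm_num)
    (by unfold disc; norm_num) (by norm_num) (by norm_num) t76 (by norm_num)
    (fun m h1 h2 => dn75 m (by omega) (by omega)) p76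
theorem dq76 : Done (5 - (76 : ℕ)) :=
  step_neg (s := 76) (B := 1199) (lim := 146) (lo := -70) (hi := 75) (by norm_num) (by norm_num)
    (by unfold disc; norm_num) (by norm_num) (by norm_num) t76 (by norm_num)
    (fun m h1 h2 => dn75 m (by omega) (by omega)) n76
theorem dn76 : ∀ m : ℤ, 6 - 77 ≤ m → m ≤ 77 - 1 → Done m := by
  have h := ext_both (s := 76) (fun m h1 h2 => dn75 m (by omega) (by omega))
    (by simpa using dp76) (by simpa using dq76)
  exact fun m h1 h2 => h m (by omega) (by omega)
theorem t77 : TabOK 77 1232 148 R77 C77 T77 G77 := ⟨r77, c77, g77⟩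
theorem dp77 : Done (77 : ℕ) :=
  step_pos (s := 77) (B := 1232) (lim := 148) (lo := -71) (hi := 76) (by norm_num) (by norm_num)
    (by unfold disc; norm_num) (by norm_num) (by norm_num) t77 (by norm_num)
    (fun m h1 h2 => dn76 m (by omega) (by omega)) p77
theorem dq77 : Done (5 - (77 : ℕ)) :=
  step_neg (s := 77) (B := 1232) (lim := 148) (lo := -71) (hi := 76) (by norm_num) (by norm_num)
    (by unfold disc; norm_num) (by norm_num) (by norm_num) t77 (by norm_num)
    (fun m h1 h2 => dn76 m (by omega) (by omega)) n77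
theorem dn77 : ∀ m : ℤ, 6 - 78 ≤ m → m ≤ 78 - 1 → Done m := by
  have h := ext_both (s := 77) (fun m h1 h2 => dn76 m (by omega) (by omega))
    (by simpa using dp77) (by simpa using dq77)
  exact fun m h1 h2 => h m (by omega) (by omega)
theorem t78 : TabOK 78 1265 150 R78 C78 T78 G78 := ⟨r78, c78, g78⟩
theorem dp78 : Done (78 : ℕ) :=
  step_pos (s := 78) (B := 1265) (lim := 150) (lo := -72) (hi := 77) (by norm_num) (by norm_num)
    (by unfold disc; norm_num) (by norm_num) (by norm_num) t78 (by norm_num)
    (fun m h1 h2 => dn77 m (by omega) (by omega)) p78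
theorem dq78 : Done (5 - (78 : ℕ)) :=
  step_neg (s := 78) (B := 1265) (lim := 150) (lo := -72) (hi := 77) (by norm_num) (by norm_num)
    (by unfold disc; norm_num) (by norm_num) (by norm_num) t78 (by norm_num)
    (fun m h1 h2 => dn77 m (by omega) (by omega)) n78
theorem dn78 : ∀ m : ℤ, 6 - 79 ≤ m → m ≤ 79 - 1 → Done m := by
  have h := ext_both (s := 78) (fun m h1 h2 => dn77 m (by omega) (by omega))
    (by simpa using dp78) (by simpa using dq78)
  exact fun m h1 h2 => h m (by omega) (by omega)
theorem t79 : TabOK 79 1299 152 R79 C79 T79 G79 := ⟨r79, c79, g79⟩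
theorem dp79 : Done (79 : ℕ) :=
  step_pos (s := 79) (B := 1299) (lim := 152) (lo := -73) (hi := 78) (by norm_num) (by norm_num)
    (by unfold disc; norm_num) (by norm_num) (by norm_num) t79 (by norm_num)
    (fun m h1 h2 => dn78 m (by omega) (by omega)) p79
theorem dq79 : Done (5 - (79 : ℕ)) :=
  step_neg (s := 79) (B := 1299) (lim := 152) (lo := -73) (hi := 78) (by norm_num) (by norm_num)
    (by unfold disc; norm_num) (by norm_num) (by norm_num) t79 (by norm_num)
    (fun m h1 h2 => dn78 m (by omega) (by omega)) n79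
theorem dn79 : ∀ m : ℤ, 6 - 80 ≤ m → m ≤ 80 - 1 → Done m := by
  have h := ext_both (s := 79) (fun m h1 h2 => dn78 m (by omega) (by omega))
    (by simpa using dp79) (by simpa using dq79)
  exact fun m h1 h2 => h m (by omega) (by omega)
theorem t80 : TabOK 80 1333 154 R80 C80 T80 G80 := ⟨r80, c80, g80⟩
theorem dp80 : Done (80 : ℕ) :=
  step_pos (s := 80) (B := 1333) (lim := 154) (lo := -74) (hi := 79) (by norm_num) (by norm_num)
    (by unfold disc; norm_num) (by norm_num) (by norm_num) t80 (by norm_num)
    (fun m h1 h2 => dn79 m (by omega) (by omega)) p80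
theorem dq80 : Done (5 - (80 : ℕ)) :=
  step_neg (s := 80) (B := 1333) (lim := 154) (lo := -74) (hi := 79) (by norm_num) (by norm_num)
    (by unfold disc; norm_num) (by norm_num) (by norm_num) t80 (by norm_num)
    (fun m h1 h2 => dn79 m (by omega) (by omega)) n80
theorem dn80 : ∀ m : ℤ, 6 - 81 ≤ m → m ≤ 81 - 1 → Done m := by
  have h := ext_both (s := 80) (fun m h1 h2 => dn79 m (by omega) (by omega))
    (by simpa using dp80) (by simpa using dq80)
  exact fun m h1 h2 => h m (by omega) (by omega)
theorem t81 : TabOK 81 1368 156 R81 C81 T81 G81 := ⟨r81, c81, g81⟩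
theorem dp81 : Done (81 : ℕ) :=
  step_pos (s := 81) (B := 1368) (lim := 156) (lo := -75) (hi := 80) (by norm_num) (by norm_num)
    (by unfold disc; norm_num) (by norm_num) (by norm_num) t81 (by norm_num)
    (fun m h1 h2 => dn80 m (by omega) (by omega)) p81
theorem dq81 : Done (5 - (81 : ℕ)) :=
  step_neg (s := 81) (B := 1368) (lim := 156) (lo := -75) (hi := 80) (by norm_num) (by norm_num)
    (by unfold disc; norm_num) (by norm_num) (by norm_num) t81 (by norm_num)
    (fun m h1 h2 => dn80 m (by omega) (by omega)) n81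
theorem dn81 : ∀ m : ℤ, 6 - 82 ≤ m → m ≤ 82 - 1 → Done m := by
  have h := ext_both (s := 81) (fun m h1 h2 => dn80 m (by omega) (by omega))
    (by simpa using dp81) (by simpa using dq81)
  exact fun m h1 h2 => h m (by omega) (by omega)
theorem t82 : TabOK 82 1403 158 R82 C82 T82 G82 := ⟨r82, c82, g82⟩
theorem dp82 : Done (82 : ℕ) :=
  step_pos (s := 82) (B := 1403) (lim := 158) (lo := -76) (hi := 81) (by norm_num) (by norm_num)
    (by unfold disc; norm_num) (by norm_num) (by norm_num) t82 (by norm_num)
    (fun m h1 h2 => dn81 m (by omega) (by omega)) p82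
theorem dq82 : Done (5 - (82 : ℕ)) :=
  step_neg (s := 82) (B := 1403) (lim := 158) (lo := -76) (hi := 81) (by norm_num) (by norm_num)
    (by unfold disc; norm_num) (by norm_num) (by norm_num) t82 (by norm_num)
    (fun m h1 h2 => dn81 m (by omega) (by omega)) n82
theorem dn82 : ∀ m : ℤ, 6 - 83 ≤ m → m ≤ 83 - 1 → Done m := by
  have h := ext_both (s := 82) (fun m h1 h2 => dn81 m (by omega) (by omega))
    (by simpa using dp82) (by simpa using dq82)
  exact fun m h1 h2 => h m (by omega) (by omega)
theorem t83 : TabOK 83 1439 160 R83 C83 T83 G83 := ⟨r83, c83, g83⟩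
theorem dp83 : Done (83 : ℕ) :=
  step_pos (s := 83) (B := 1439) (lim := 160) (lo := -77) (hi := 82) (by norm_num) (by norm_num)
    (by unfold disc; norm_num) (by norm_num) (by norm_num) t83 (by norm_num)
    (fun m h1 h2 => dn82 m (by omega) (by omega)) p83
theorem dq83 : Done (5 - (83 : ℕ)) :=
  step_neg (s := 83) (B := 1439) (lim := 160) (lo := -77) (hi := 82) (by norm_num) (by norm_num)
    (by unfold disc; norm_num) (by norm_num) (by norm_num) t83 (by norm_num)
    (fun m h1 h2 => dn82 m (by omega) (by omega)) n83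
theorem dn83 : ∀ m : ℤ, 6 - 84 ≤ m → m ≤ 84 - 1 → Done m := by
  have h := ext_both (s := 83) (fun m h1 h2 => dn82 m (by omega) (by omega))
    (by simpa using dp83) (by simpa using dq83)
  exact fun m h1 h2 => h m (by omega) (by omega)
theorem t84 : TabOK 84 1475 162 R84 C84 T84 G84 := ⟨r84, c84, g84⟩
theorem dp84 : Done (84 : ℕ) :=
  step_pos (s := 84) (B := 1475) (lim := 162) (lo := -78) (hi := 83) (by norm_num) (by norm_num)
    (by unfold disc; norm_num) (by norm_num) (by norm_num) t84 (by norm_num)
    (fun m h1 h2 => dn83 m (by omega) (by omega)) p84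
theorem dq84 : Done (5 - (84 : ℕ)) :=
  step_neg (s := 84) (B := 1475) (lim := 162) (lo := -78) (hi := 83) (by norm_num) (by norm_num)
    (by unfold disc; norm_num) (by norm_num) (by norm_num) t84 (by norm_num)
    (fun m h1 h2 => dn83 m (by omega) (by omega)) n84
theorem dn84 : ∀ m : ℤ, 6 - 85 ≤ m → m ≤ 85 - 1 → Done m := by
  have h := ext_both (s := 84) (fun m h1 h2 => dn83 m (by omega) (by omega))
    (by simpa using dp84) (by simpa using dq84)
  exact fun m h1 h2 => h m (by omega) (by omega)
theorem t85 : TabOK 85 1511 164 R85 C85 T85 G85 := ⟨r85, c85, g85⟩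
theorem dp85 : Done (85 : ℕ) :=
  step_pos (s := 85) (B := 1511) (lim := 164) (lo := -79) (hi := 84) (by norm_num) (by norm_num)
    (by unfold disc; norm_num) (by norm_num) (by norm_num) t85 (by norm_num)
    (fun m h1 h2 => dn84 m (by omega) (by omega)) p85
theorem dq85 : Done (5 - (85 : ℕ)) :=
  step_neg (s := 85) (B := 1511) (lim := 164) (lo := -79) (hi := 84) (by norm_num) (by norm_num)
    (by unfold disc; norm_num) (by norm_num) (by norm_num) t85 (by norm_num)
    (fun m h1 h2 => dn84 m (by omega) (by omega)) n85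
theorem dn85 : ∀ m : ℤ, 6 - 86 ≤ m → m ≤ 86 - 1 → Done m := by
  have h := ext_both (s := 85) (fun m h1 h2 => dn84 m (by omega) (by omega))
    (by simpa using dp85) (by simpa using dq85)
  exact fun m h1 h2 => h m (by omega) (by omega)
theorem t86 : TabOK 86 1548 166 R86 C86 T86 G86 := ⟨r86, c86, g86⟩
theorem dp86 : Done (86 : ℕ) :=
  step_pos (s := 86) (B := 1548) (lim := 166) (lo := -80) (hi := 85) (by norm_num) (by norm_num)
    (by unfold disc; norm_num) (by norm_num) (by norm_num) t86 (by norm_num)
    (fun m h1 h2 => dn85 m (by omega) (by omega)) p86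
theorem dq86 : Done (5 - (86 : ℕ)) :=
  step_neg (s := 86) (B := 1548) (lim := 166) (lo := -80) (hi := 85) (by norm_num) (by norm_num)
    (by unfold disc; norm_num) (by norm_num) (by norm_num) t86 (by norm_num)
    (fun m h1 h2 => dn85 m (by omega) (by omega)) n86
theorem dn86 : ∀ m : ℤ, 6 - 87 ≤ m → m ≤ 87 - 1 → Done m := by
  have h := ext_both (s := 86) (fun m h1 h2 => dn85 m (by omega) (by omega))
    (by simpa using dp86) (by simpa using dq86)
  exact fun m h1 h2 => h m (by omega) (by omega)
theorem t87 : TabOK 87 1585 168 R87 C87 T87 G87 := ⟨r87, c87, g87⟩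
theorem dp87 : Done (87 : ℕ) :=
  step_pos (s := 87) (B := 1585) (lim := 168) (lo := -81) (hi := 86) (by norm_num) (by norm_num)
    (by unfold disc; norm_num) (by norm_num) (by norm_num) t87 (by norm_num)
    (fun m h1 h2 => dn86 m (by omega) (by omega)) p87
theorem dq87 : Done (5 - (87 : ℕ)) :=
  step_neg (s := 87) (B := 1585) (lim := 168) (lo := -81) (hi := 86) (by norm_num) (by norm_num)
    (by unfold disc; norm_num) (by norm_num) (by norm_num) t87 (by norm_num)
    (fun m h1 h2 => dn86 m (by omega) (by omega)) n87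
theorem dn87 : ∀ m : ℤ, 6 - 88 ≤ m → m ≤ 88 - 1 → Done m := by
  have h := ext_both (s := 87) (fun m h1 h2 => dn86 m (by omega) (by omega))
    (by simpa using dp87) (by simpa using dq87)
  exact fun m h1 h2 => h m (by omega) (by omega)
theorem t88 : TabOK 88 1623 170 R88 C88 T88 G88 := ⟨r88, c88, g88⟩
theorem dp88 : Done (88 : ℕ) :=
  step_pos (s := 88) (B := 1623) (lim := 170) (lo := -82) (hi := 87) (by norm_num) (by norm_num)
    (by unfold disc; norm_num) (by norm_num) (by norm_num) t88 (by norm_num)
    (fun m h1 h2 => dn87 m (by omega) (by omega)) p88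
theorem dq88 : Done (5 - (88 : ℕ)) :=
  step_neg (s := 88) (B := 1623) (lim := 170) (lo := -82) (hi := 87) (by norm_num) (by norm_num)
    (by unfold disc; norm_num) (by norm_num) (by norm_num) t88 (by norm_num)
    (fun m h1 h2 => dn87 m (by omega) (by omega)) n88
theorem dn88 : ∀ m : ℤ, 6 - 89 ≤ m → m ≤ 89 - 1 → Done m := by
  have h := ext_both (s := 88) (fun m h1 h2 => dn87 m (by omega) (by omega))
    (by simpa using dp88) (by simpa using dq88)
  exact fun m h1 h2 => h m (by omega) (by omega)
theorem t89 : TabOK 89 1661 172 R89 C89 T89 G89 := ⟨r89, c89, g89⟩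
theorem dp89 : Done (89 : ℕ) :=
  step_pos (s := 89) (B := 1661) (lim := 172) (lo := -83) (hi := 88) (by norm_num) (by norm_num)
    (by unfold disc; norm_num) (by norm_num) (by norm_num) t89 (by norm_num)
    (fun m h1 h2 => dn88 m (by omega) (by omega)) p89
theorem dq89 : Done (5 - (89 : ℕ)) :=
  step_neg (s := 89) (B := 1661) (lim := 172) (lo := -83) (hi := 88) (by norm_num) (by norm_num)
    (by unfold disc; norm_num) (by norm_num) (by norm_num) t89 (by norm_num)
    (fun m h1 h2 => dn88 m (by omega) (by omega)) n89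
theorem dn89 : ∀ m : ℤ, 6 - 90 ≤ m → m ≤ 90 - 1 → Done m := by
  have h := ext_both (s := 89) (fun m h1 h2 => dn88 m (by omega) (by omega))
    (by simpa using dp89) (by simpa using dq89)
  exact fun m h1 h2 => h m (by omega) (by omega)
theorem t90 : TabOK 90 1700 174 R90 C90 T90 G90 := ⟨r90, c90, g90⟩
theorem dp90 : Done (90 : ℕ) :=
  step_pos (s := 90) (B := 1700) (lim := 174) (lo := -84) (hi := 89) (by norm_num) (by norm_num)
    (by unfold disc; norm_num) (by norm_num) (by norm_num) t90 (by norm_num)
    (fun m h1 h2 => dn89 m (by omega) (by omega)) p90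
theorem dq90 : Done (5 - (90 : ℕ)) :=
  step_neg (s := 90) (B := 1700) (lim := 174) (lo := -84) (hi := 89) (by norm_num) (by norm_num)
    (by unfold disc; norm_num) (by norm_num) (by norm_num) t90 (by norm_num)
    (fun m h1 h2 => dn89 m (by omega) (by omega)) n90
theorem dn90 : ∀ m : ℤ, 6 - 91 ≤ m → m ≤ 91 - 1 → Done m := by
  have h := ext_both (s := 90) (fun m h1 h2 => dn89 m (by omega) (by omega))
    (by simpa using dp90) (by simpa using dq90)
  exact fun m h1 h2 => h m (by omega) (by omega)
theorem t91 : TabOK 91 1739 176 R91 C91 T91 G91 := ⟨r91, c91, g91⟩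
theorem dp91 : Done (91 : ℕ) :=
  step_pos (s := 91) (B := 1739) (lim := 176) (lo := -85) (hi := 90) (by norm_num) (by norm_num)
    (by unfold disc; norm_num) (by norm_num) (by norm_num) t91 (by norm_num)
    (fun m h1 h2 => dn90 m (by omega) (by omega)) p91
theorem dq91 : Done (5 - (91 : ℕ)) :=
  step_neg (s := 91) (B := 1739) (lim := 176) (lo := -85) (hi := 90) (by norm_num) (by norm_num)
    (by unfold disc; norm_num) (by norm_num) (by norm_num) t91 (by norm_num)
    (fun m h1 h2 => dn90 m (by omega) (by omega)) n91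
theorem dn91 : ∀ m : ℤ, 6 - 92 ≤ m → m ≤ 92 - 1 → Done m := by
  have h := ext_both (s := 91) (fun m h1 h2 => dn90 m (by omega) (by omega))
    (by simpa using dp91) (by simpa using dq91)
  exact fun m h1 h2 => h m (by omega) (by omega)
theorem t92 : TabOK 92 1779 178 R92 C92 T92 G92 := ⟨r92, c92, g92⟩
theorem dp92 : Done (92 : ℕ) :=
  step_pos (s := 92) (B := 1779) (lim := 178) (lo := -86) (hi := 91) (by norm_num) (by norm_num)
    (by unfold disc; norm_num) (by norm_num) (by norm_num) t92 (by norm_num)
    (fun m h1 h2 => dn91 m (by omega) (by omega)) p92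
theorem dq92 : Done (5 - (92 : ℕ)) :=
  step_neg (s := 92) (B := 1779) (lim := 178) (lo := -86) (hi := 91) (by norm_num) (by norm_num)
    (by unfold disc; norm_num) (by norm_num) (by norm_num) t92 (by norm_num)
    (fun m h1 h2 => dn91 m (by omega) (by omega)) n92
theorem dn92 : ∀ m : ℤ, 6 - 93 ≤ m → m ≤ 93 - 1 → Done m := by
  have h := ext_both (s := 92) (fun m h1 h2 => dn91 m (by omega) (by omega))
    (by simpa using dp92) (by simpa using dq92)
  exact fun m h1 h2 => h m (by omega) (by omega)
theorem t93 : TabOK 93 1819 180 R93 C93 T93 G93 := ⟨r93, c93, g93⟩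
theorem dp93 : Done (93 : ℕ) :=
  step_pos (s := 93) (B := 1819) (lim := 180) (lo := -87) (hi := 92) (by norm_num) (by norm_num)
    (by unfold disc; norm_num) (by norm_num) (by norm_num) t93 (by norm_num)
    (fun m h1 h2 => dn92 m (by omega) (by omega)) p93
theorem dq93 : Done (5 - (93 : ℕ)) :=
  step_neg (s := 93) (B := 1819) (lim := 180) (lo := -87) (hi := 92) (by norm_num) (by norm_num)
    (by unfold disc; norm_num) (by norm_num) (by norm_num) t93 (by norm_num)
    (fun m h1 h2 => dn92 m (by omega) (by omega)) n93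
theorem dn93 : ∀ m : ℤ, 6 - 94 ≤ m → m ≤ 94 - 1 → Done m := by
  have h := ext_both (s := 93) (fun m h1 h2 => dn92 m (by omega) (by omega))
    (by simpa using dp93) (by simpa using dq93)
  exact fun m h1 h2 => h m (by omega) (by omega)
theorem t94 : TabOK 94 1859 182 R94 C94 T94 G94 := ⟨r94, c94, g94⟩
theorem dp94 : Done (94 : ℕ) :=
  step_pos (s := 94) (B := 1859) (lim := 182) (lo := -88) (hi := 93) (by norm_num) (by norm_num)
    (by unfold disc; norm_num) (by norm_num) (by norm_num) t94 (by norm_num)
    (fun m h1 h2 => dn93 m (by omega) (by omega)) p94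
theorem dq94 : Done (5 - (94 : ℕ)) :=
  step_neg (s := 94) (B := 1859) (lim := 182) (lo := -88) (hi := 93) (by norm_num) (by norm_num)
    (by unfold disc; norm_num) (by norm_num) (by norm_num) t94 (by norm_num)
    (fun m h1 h2 => dn93 m (by omega) (by omega)) n94
theorem dn94 : ∀ m : ℤ, 6 - 95 ≤ m → m ≤ 95 - 1 → Done m := by
  have h := ext_both (s := 94) (fun m h1 h2 => dn93 m (by omega) (by omega))
    (by simpa using dp94) (by simpa using dq94)
  exact fun m h1 h2 => h m (by omega) (by omega)
theorem t95 : TabOK 95 1900 184 R95 C95 T95 G95 := ⟨r95, c95, g95⟩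
theorem dp95 : Done (95 : ℕ) :=
  step_pos (s := 95) (B := 1900) (lim := 184) (lo := -89) (hi := 94) (by norm_num) (by norm_num)
    (by unfold disc; norm_num) (by norm_num) (by norm_num) t95 (by norm_num)
    (fun m h1 h2 => dn94 m (by omega) (by omega)) p95
theorem dq95 : Done (5 - (95 : ℕ)) :=
  step_neg (s := 95) (B := 1900) (lim := 184) (lo := -89) (hi := 94) (by norm_num) (by norm_num)
    (by unfold disc; norm_num) (by norm_num) (by norm_num) t95 (by norm_num)
    (fun m h1 h2 => dn94 m (by omega) (by omega)) n95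
theorem dn95 : ∀ m : ℤ, 6 - 96 ≤ m → m ≤ 96 - 1 → Done m := by
  have h := ext_both (s := 95) (fun m h1 h2 => dn94 m (by omega) (by omega))
    (by simpa using dp95) (by simpa using dq95)
  exact fun m h1 h2 => h m (by omega) (by omega)
theorem t96 : TabOK 96 1941 186 R96 C96 T96 G96 := ⟨r96, c96, g96⟩
theorem dp96 : Done (96 : ℕ) :=
  step_pos (s := 96) (B := 1941) (lim := 186) (lo := -90) (hi := 95) (by norm_num) (by norm_num)
    (by unfold disc; norm_num) (by norm_num) (by norm_num) t96 (by norm_num)
    (fun m h1 h2 => dn95 m (by omega) (by omega)) p96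
theorem dq96 : Done (5 - (96 : ℕ)) :=
  step_neg (s := 96) (B := 1941) (lim := 186) (lo := -90) (hi := 95) (by norm_num) (by norm_num)
    (by unfold disc; norm_num) (by norm_num) (by norm_num) t96 (by norm_num)
    (fun m h1 h2 => dn95 m (by omega) (by omega)) n96
theorem dn96 : ∀ m : ℤ, 6 - 97 ≤ m → m ≤ 97 - 1 → Done m := by
  have h := ext_both (s := 96) (fun m h1 h2 => dn95 m (by omega) (by omega))
    (by simpa using dp96) (by simpa using dq96)
  exact fun m h1 h2 => h m (by omega) (by omega)
theorem t97 : TabOK 97 1983 188 R97 C97 T97 G97 := ⟨r97, c97, g97⟩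
theorem dp97 : Done (97 : ℕ) :=
  step_pos (s := 97) (B := 1983) (lim := 188) (lo := -91) (hi := 96) (by norm_num) (by norm_num)
    (by unfold disc; norm_num) (by norm_num) (by norm_num) t97 (by norm_num)
    (fun m h1 h2 => dn96 m (by omega) (by omega)) p97
theorem dq97 : Done (5 - (97 : ℕ)) :=
  step_neg (s := 97) (B := 1983) (lim := 188) (lo := -91) (hi := 96) (by norm_num) (by norm_num)
    (by unfold disc; norm_num) (by norm_num) (by norm_num) t97 (by norm_num)
    (fun m h1 h2 => dn96 m (by omega) (by omega)) n97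
theorem dn97 : ∀ m : ℤ, 6 - 98 ≤ m → m ≤ 98 - 1 → Done m := by
  have h := ext_both (s := 97) (fun m h1 h2 => dn96 m (by omega) (by omega))
    (by simpa using dp97) (by simpa using dq97)
  exact fun m h1 h2 => h m (by omega) (by omega)
theorem t98 : TabOK 98 2025 190 R98 C98 T98 G98 := ⟨r98, c98, g98⟩
theorem dp98 : Done (98 : ℕ) :=
  step_pos (s := 98) (B := 2025) (lim := 190) (lo := -92) (hi := 97) (by norm_num) (by norm_num)
    (by unfold disc; norm_num) (by norm_num) (by norm_num) t98 (by norm_num)
    (fun m h1 h2 => dn97 m (by omega) (by omega)) p98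
theorem dq98 : Done (5 - (98 : ℕ)) :=
  step_neg (s := 98) (B := 2025) (lim := 190) (lo := -92) (hi := 97) (by norm_num) (by norm_num)
    (by unfold disc; norm_num) (by norm_num) (by norm_num) t98 (by norm_num)
    (fun m h1 h2 => dn97 m (by omega) (by omega)) n98
theorem dn98 : ∀ m : ℤ, 6 - 99 ≤ m → m ≤ 99 - 1 → Done m := by
  have h := ext_both (s := 98) (fun m h1 h2 => dn97 m (by omega) (by omega))
    (by simpa using dp98) (by simpa using dq98)
  exact fun m h1 h2 => h m (by omega) (by omega)
theorem t99 : TabOK 99 2068 192 R99 C99 T99 G99 := ⟨r99, c99, g99⟩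
theorem dp99 : Done (99 : ℕ) :=
  step_pos (s := 99) (B := 2068) (lim := 192) (lo := -93) (hi := 98) (by norm_num) (by norm_num)
    (by unfold disc; norm_num) (by norm_num) (by norm_num) t99 (by norm_num)
    (fun m h1 h2 => dn98 m (by omega) (by omega)) p99
theorem dq99 : Done (5 - (99 : ℕ)) :=
  step_neg (s := 99) (B := 2068) (lim := 192) (lo := -93) (hi := 98) (by norm_num) (by norm_num)
    (by unfold disc; norm_num) (by norm_num) (by norm_num) t99 (by norm_num)
    (fun m h1 h2 => dn98 m (by omega) (by omega)) n99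
theorem dn99 : ∀ m : ℤ, 6 - 100 ≤ m → m ≤ 100 - 1 → Done m := by
  have h := ext_both (s := 99) (fun m h1 h2 => dn98 m (by omega) (by omega))
    (by simpa using dp99) (by simpa using dq99)
  exact fun m h1 h2 => h m (by omega) (by omega)
theorem t100 : TabOK 100 2111 194 R100 C100 T100 G100 := ⟨r100, c100, g100⟩
theorem dp100 : Done (100 : ℕ) :=
  step_pos (s := 100) (B := 2111) (lim := 194) (lo := -94) (hi := 99) (by norm_num) (by norm_num)
    (by unfold disc; norm_num) (by norm_num) (by norm_num) t100 (by norm_num)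
    (fun m h1 h2 => dn99 m (by omega) (by omega)) p100
theorem dq100 : Done (5 - (100 : ℕ)) :=
  step_neg (s := 100) (B := 2111) (lim := 194) (lo := -94) (hi := 99) (by norm_num) (by norm_num)
    (by unfold disc; norm_num) (by norm_num) (by norm_num) t100 (by norm_num)
    (fun m h1 h2 => dn99 m (by omega) (by omega)) n100
theorem dn100 : ∀ m : ℤ, 6 - 101 ≤ m → m ≤ 101 - 1 → Done m := by
  have h := ext_both (s := 100) (fun m h1 h2 => dn99 m (by omega) (by omega))
    (by simpa using dp100) (by simpa using dq100)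
  exact fun m h1 h2 => h m (by omega) (by omega)
theorem t101 : TabOK 101 2155 196 R101 C101 T101 G101 := ⟨r101, c101, g101⟩
theorem dp101 : Done (101 : ℕ) :=
  step_pos (s := 101) (B := 2155) (lim := 196) (lo := -95) (hi := 100) (by norm_num) (by norm_num)
    (by unfold disc; norm_num) (by norm_num) (by norm_num) t101 (by norm_num)
    (fun m h1 h2 => dn100 m (by omega) (by omega)) p101
theorem dq101 : Done (5 - (101 : ℕ)) :=
  step_neg (s := 101) (B := 2155) (lim := 196) (lo := -95) (hi := 100) (by norm_num) (by norm_num)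
    (by unfold disc; norm_num) (by norm_num) (by norm_num) t101 (by norm_num)
    (fun m h1 h2 => dn100 m (by omega) (by omega)) n101
theorem dn101 : ∀ m : ℤ, 6 - 102 ≤ m → m ≤ 102 - 1 → Done m := by
  have h := ext_both (s := 101) (fun m h1 h2 => dn100 m (by omega) (by omega))
    (by simpa using dp101) (by simpa using dq101)
  exact fun m h1 h2 => h m (by omega) (by omega)
theorem t102 : TabOK 102 2199 198 R102 C102 T102 G102 := ⟨r102, c102, g102⟩
theorem dp102 : Done (102 : ℕ) :=
  step_pos (s := 102) (B := 2199) (lim := 198) (lo := -96) (hi := 101) (by norm_num) (by norm_num)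
    (by unfold disc; norm_num) (by norm_num) (by norm_num) t102 (by norm_num)
    (fun m h1 h2 => dn101 m (by omega) (by omega)) p102
theorem dq102 : Done (5 - (102 : ℕ)) :=
  step_neg (s := 102) (B := 2199) (lim := 198) (lo := -96) (hi := 101) (by norm_num) (by norm_num)
    (by unfold disc; norm_num) (by norm_num) (by norm_num) t102 (by norm_num)
    (fun m h1 h2 => dn101 m (by omega) (by omega)) n102
theorem dn102 : ∀ m : ℤ, 6 - 103 ≤ m → m ≤ 103 - 1 → Done m := by
  have h := ext_both (s := 102) (fun m h1 h2 => dn101 m (by omega) (by omega))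
    (by simpa using dp102) (by simpa using dq102)
  exact fun m h1 h2 => h m (by omega) (by omega)
theorem t103 : TabOK 103 2243 200 R103 C103 T103 G103 := ⟨r103, c103, g103⟩
theorem dp103 : Done (103 : ℕ) :=
  step_pos (s := 103) (B := 2243) (lim := 200) (lo := -97) (hi := 102) (by norm_num) (by norm_num)
    (by unfold disc; norm_num) (by norm_num) (by norm_num) t103 (by norm_num)
    (fun m h1 h2 => dn102 m (by omega) (by omega)) p103
theorem dq103 : Done (5 - (103 : ℕ)) :=
  step_neg (s := 103) (B := 2243) (lim := 200) (lo := -97) (hi := 102) (by norm_num) (by norm_num)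
    (by unfold disc; norm_num) (by norm_num) (by norm_num) t103 (by norm_num)
    (fun m h1 h2 => dn102 m (by omega) (by omega)) n103
theorem dn103 : ∀ m : ℤ, 6 - 104 ≤ m → m ≤ 104 - 1 → Done m := by
  have h := ext_both (s := 103) (fun m h1 h2 => dn102 m (by omega) (by omega))
    (by simpa using dp103) (by simpa using dq103)
  exact fun m h1 h2 => h m (by omega) (by omega)
theorem t104 : TabOK 104 2288 202 R104 C104 T104 G104 := ⟨r104, c104, g104⟩
theorem dp104 : Done (104 : ℕ) :=
  step_pos (s := 104) (B := 2288) (lim := 202) (lo := -98) (hi := 103) (by norm_num) (by norm_num)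
    (by unfold disc; norm_num) (by norm_num) (by norm_num) t104 (by norm_num)
    (fun m h1 h2 => dn103 m (by omega) (by omega)) p104
theorem dq104 : Done (5 - (104 : ℕ)) :=
  step_neg (s := 104) (B := 2288) (lim := 202) (lo := -98) (hi := 103) (by norm_num) (by norm_num)
    (by unfold disc; norm_num) (by norm_num) (by norm_num) t104 (by norm_num)
    (fun m h1 h2 => dn103 m (by omega) (by omega)) n104
theorem dn104 : ∀ m : ℤ, 6 - 105 ≤ m → m ≤ 105 - 1 → Done m := by
  have h := ext_both (s := 104) (fun m h1 h2 => dn103 m (by omega) (by omega))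
    (by simpa using dp104) (by simpa using dq104)
  exact fun m h1 h2 => h m (by omega) (by omega)
theorem t105 : TabOK 105 2333 204 R105 C105 T105 G105 := ⟨r105, c105, g105⟩
theorem dp105 : Done (105 : ℕ) :=
  step_pos (s := 105) (B := 2333) (lim := 204) (lo := -99) (hi := 104) (by norm_num) (by norm_num)
    (by unfold disc; norm_num) (by norm_num) (by norm_num) t105 (by norm_num)
    (fun m h1 h2 => dn104 m (by omega) (by omega)) p105
theorem dq105 : Done (5 - (105 : ℕ)) :=
  step_neg (s := 105) (B := 2333) (lim := 204) (lo := -99) (hi := 104) (by norm_num) (by norm_num)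
    (by unfold disc; norm_num) (by norm_num) (by norm_num) t105 (by norm_num)
    (fun m h1 h2 => dn104 m (by omega) (by omega)) n105
theorem dn105 : ∀ m : ℤ, 6 - 106 ≤ m → m ≤ 106 - 1 → Done m := by
  have h := ext_both (s := 105) (fun m h1 h2 => dn104 m (by omega) (by omega))
    (by simpa using dp105) (by simpa using dq105)
  exact fun m h1 h2 => h m (by omega) (by omega)
theorem t106 : TabOK 106 2379 206 R106 C106 T106 G106 := ⟨r106, c106, g106⟩
theorem dp106 : Done (106 : ℕ) :=
  step_pos (s := 106) (B := 2379) (lim := 206) (lo := -100) (hi := 105) (by norm_num) (by norm_num)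
    (by unfold disc; norm_num) (by norm_num) (by norm_num) t106 (by norm_num)
    (fun m h1 h2 => dn105 m (by omega) (by omega)) p106
theorem dq106 : Done (5 - (106 : ℕ)) :=
  step_neg (s := 106) (B := 2379) (lim := 206) (lo := -100) (hi := 105) (by norm_num) (by norm_num)
    (by unfold disc; norm_num) (by norm_num) (by norm_num) t106 (by norm_num)
    (fun m h1 h2 => dn105 m (by omega) (by omega)) n106
theorem dn106 : ∀ m : ℤ, 6 - 107 ≤ m → m ≤ 107 - 1 → Done m := by
  have h := ext_both (s := 106) (fun m h1 h2 => dn105 m (by omega) (by omega))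
    (by simpa using dp106) (by simpa using dq106)
  exact fun m h1 h2 => h m (by omega) (by omega)
theorem t107 : TabOK 107 2425 208 R107 C107 T107 G107 := ⟨r107, c107, g107⟩
theorem dp107 : Done (107 : ℕ) :=
  step_pos (s := 107) (B := 2425) (lim := 208) (lo := -101) (hi := 106) (by norm_num) (by norm_num)
    (by unfold disc; norm_num) (by norm_num) (by norm_num) t107 (by norm_num)
    (fun m h1 h2 => dn106 m (by omega) (by omega)) p107
theorem dq107 : Done (5 - (107 : ℕ)) :=
  step_neg (s := 107) (B := 2425) (lim := 208) (lo := -101) (hi := 106) (by norm_num) (by norm_num)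
    (by unfold disc; norm_num) (by norm_num) (by norm_num) t107 (by norm_num)
    (fun m h1 h2 => dn106 m (by omega) (by omega)) n107
theorem dn107 : ∀ m : ℤ, 6 - 108 ≤ m → m ≤ 108 - 1 → Done m := by
  have h := ext_both (s := 107) (fun m h1 h2 => dn106 m (by omega) (by omega))
    (by simpa using dp107) (by simpa using dq107)
  exact fun m h1 h2 => h m (by omega) (by omega)
theorem t108 : TabOK 108 2472 210 R108 C108 T108 G108 := ⟨r108, c108, g108⟩
theorem dp108 : Done (108 : ℕ) :=
  step_pos (s := 108) (B := 2472) (lim := 210) (lo := -102) (hi := 107) (by norm_num) (by norm_num)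
    (by unfold disc; norm_num) (by norm_num) (by norm_num) t108 (by norm_num)
    (fun m h1 h2 => dn107 m (by omega) (by omega)) p108
theorem dq108 : Done (5 - (108 : ℕ)) :=
  step_neg (s := 108) (B := 2472) (lim := 210) (lo := -102) (hi := 107) (by norm_num) (by norm_num)
    (by unfold disc; norm_num) (by norm_num) (by norm_num) t108 (by norm_num)
    (fun m h1 h2 => dn107 m (by omega) (by omega)) n108
theorem dn108 : ∀ m : ℤ, 6 - 109 ≤ m → m ≤ 109 - 1 → Done m := by
  have h := ext_both (s := 108) (fun m h1 h2 => dn107 m (by omega) (by omega))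
    (by simpa using dp108) (by simpa using dq108)
  exact fun m h1 h2 => h m (by omega) (by omega)
theorem t109 : TabOK 109 2519 212 R109 C109 T109 G109 := ⟨r109, c109, g109⟩
theorem dp109 : Done (109 : ℕ) :=
  step_pos (s := 109) (B := 2519) (lim := 212) (lo := -103) (hi := 108) (by norm_num) (by norm_num)
    (by unfold disc; norm_num) (by norm_num) (by norm_num) t109 (by norm_num)
    (fun m h1 h2 => dn108 m (by omega) (by omega)) p109
theorem dq109 : Done (5 - (109 : ℕ)) :=
  step_neg (s := 109) (B := 2519) (lim := 212) (lo := -103) (hi := 108) (by norm_num) (by norm_num)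
    (by unfold disc; norm_num) (by norm_num) (by norm_num) t109 (by norm_num)
    (fun m h1 h2 => dn108 m (by omega) (by omega)) n109
theorem dn109 : ∀ m : ℤ, 6 - 110 ≤ m → m ≤ 110 - 1 → Done m := by
  have h := ext_both (s := 109) (fun m h1 h2 => dn108 m (by omega) (by omega))
    (by simpa using dp109) (by simpa using dq109)
  exact fun m h1 h2 => h m (by omega) (by omega)
theorem t110 : TabOK 110 2567 214 R110 C110 T110 G110 := ⟨r110, c110, g110⟩
theorem dp110 : Done (110 : ℕ) :=
  step_pos (s := 110) (B := 2567) (lim := 214) (lo := -104) (hi := 109) (by norm_num) (by norm_num)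
    (by unfold disc; norm_num) (by norm_num) (by norm_num) t110 (by norm_num)
    (fun m h1 h2 => dn109 m (by omega) (by omega)) p110
theorem dq110 : Done (5 - (110 : ℕ)) :=
  step_neg (s := 110) (B := 2567) (lim := 214) (lo := -104) (hi := 109) (by norm_num) (by norm_num)
    (by unfold disc; norm_num) (by norm_num) (by norm_num) t110 (by norm_num)
    (fun m h1 h2 => dn109 m (by omega) (by omega)) n110
theorem dn110 : ∀ m : ℤ, 6 - 111 ≤ m → m ≤ 111 - 1 → Done m := by
  have h := ext_both (s := 110) (fun m h1 h2 => dn109 m (by omega) (by omega))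
    (by simpa using dp110) (by simpa using dq110)
  exact fun m h1 h2 => h m (by omega) (by omega)
theorem t111 : TabOK 111 2615 216 R111 C111 T111 G111 := ⟨r111, c111, g111⟩
theorem dp111 : Done (111 : ℕ) :=
  step_pos (s := 111) (B := 2615) (lim := 216) (lo := -105) (hi := 110) (by norm_num) (by norm_num)
    (by unfold disc; norm_num) (by norm_num) (by norm_num) t111 (by norm_num)
    (fun m h1 h2 => dn110 m (by omega) (by omega)) p111
theorem dq111 : Done (5 - (111 : ℕ)) :=
  step_neg (s := 111) (B := 2615) (lim := 216) (lo := -105) (hi := 110) (by norm_num) (by norm_num)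
    (by unfold disc; norm_num) (by norm_num) (by norm_num) t111 (by norm_num)
    (fun m h1 h2 => dn110 m (by omega) (by omega)) n111
theorem dn111 : ∀ m : ℤ, 6 - 112 ≤ m → m ≤ 112 - 1 → Done m := by
  have h := ext_both (s := 111) (fun m h1 h2 => dn110 m (by omega) (by omega))
    (by simpa using dp111) (by simpa using dq111)
  exact fun m h1 h2 => h m (by omega) (by omega)
theorem t112 : TabOK 112 2663 218 R112 C112 T112 G112 := ⟨r112, c112, g112⟩
theorem dp112 : Done (112 : ℕ) :=
  step_pos (s := 112) (B := 2663) (lim := 218) (lo := -106) (hi := 111) (by norm_num) (by norm_num)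
    (by unfold disc; norm_num) (by norm_num) (by norm_num) t112 (by norm_num)
    (fun m h1 h2 => dn111 m (by omega) (by omega)) p112
theorem dq112 : Done (5 - (112 : ℕ)) :=
  step_neg (s := 112) (B := 2663) (lim := 218) (lo := -106) (hi := 111) (by norm_num) (by norm_num)
    (by unfold disc; norm_num) (by norm_num) (by norm_num) t112 (by norm_num)
    (fun m h1 h2 => dn111 m (by omega) (by omega)) n112
theorem dn112 : ∀ m : ℤ, 6 - 113 ≤ m → m ≤ 113 - 1 → Done m := by
  have h := ext_both (s := 112) (fun m h1 h2 => dn111 m (by omega) (by omega))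
    (by simpa using dp112) (by simpa using dq112)
  exact fun m h1 h2 => h m (by omega) (by omega)
theorem t113 : TabOK 113 2712 220 R113 C113 T113 G113 := ⟨r113, c113, g113⟩
theorem dp113 : Done (113 : ℕ) :=
  step_pos (s := 113) (B := 2712) (lim := 220) (lo := -107) (hi := 112) (by norm_num) (by norm_num)
    (by unfold disc; norm_num) (by norm_num) (by norm_num) t113 (by norm_num)
    (fun m h1 h2 => dn112 m (by omega) (by omega)) p113
theorem dq113 : Done (5 - (113 : ℕ)) :=
  step_neg (s := 113) (B := 2712) (lim := 220) (lo := -107) (hi := 112) (by norm_num) (by norm_num)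
    (by unfold disc; norm_num) (by norm_num) (by norm_num) t113 (by norm_num)
    (fun m h1 h2 => dn112 m (by omega) (by omega)) n113
theorem dn113 : ∀ m : ℤ, 6 - 114 ≤ m → m ≤ 114 - 1 → Done m := by
  have h := ext_both (s := 113) (fun m h1 h2 => dn112 m (by omega) (by omega))
    (by simpa using dp113) (by simpa using dq113)
  exact fun m h1 h2 => h m (by omega) (by omega)
theorem t114 : TabOK 114 2761 222 R114 C114 T114 G114 := ⟨r114, c114, g114⟩
theorem dp114 : Done (114 : ℕ) :=
  step_pos (s := 114) (B := 2761) (lim := 222) (lo := -108) (hi := 113) (by norm_num) (by norm_num)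
    (by unfold disc; norm_num) (by norm_num) (by norm_num) t114 (by norm_num)
    (fun m h1 h2 => dn113 m (by omega) (by omega)) p114
theorem dq114 : Done (5 - (114 : ℕ)) :=
  step_neg (s := 114) (B := 2761) (lim := 222) (lo := -108) (hi := 113) (by norm_num) (by norm_num)
    (by unfold disc; norm_num) (by norm_num) (by norm_num) t114 (by norm_num)
    (fun m h1 h2 => dn113 m (by omega) (by omega)) n114
theorem dn114 : ∀ m : ℤ, 6 - 115 ≤ m → m ≤ 115 - 1 → Done m := by
  have h := ext_both (s := 114) (fun m h1 h2 => dn113 m (by omega) (by omega))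
    (by simpa using dp114) (by simpa using dq114)
  exact fun m h1 h2 => h m (by omega) (by omega)
theorem t115 : TabOK 115 2811 224 R115 C115 T115 G115 := ⟨r115, c115, g115⟩
theorem dp115 : Done (115 : ℕ) :=
  step_pos (s := 115) (B := 2811) (lim := 224) (lo := -109) (hi := 114) (by norm_num) (by norm_num)
    (by unfold disc; norm_num) (by norm_num) (by norm_num) t115 (by norm_num)
    (fun m h1 h2 => dn114 m (by omega) (by omega)) p115
theorem dq115 : Done (5 - (115 : ℕ)) :=
  step_neg (s := 115) (B := 2811) (lim := 224) (lo := -109) (hi := 114) (by norm_num) (by norm_num)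
    (by unfold disc; norm_num) (by norm_num) (by norm_num) t115 (by norm_num)
    (fun m h1 h2 => dn114 m (by omega) (by omega)) n115
theorem dn115 : ∀ m : ℤ, 6 - 116 ≤ m → m ≤ 116 - 1 → Done m := by
  have h := ext_both (s := 115) (fun m h1 h2 => dn114 m (by omega) (by omega))
    (by simpa using dp115) (by simpa using dq115)
  exact fun m h1 h2 => h m (by omega) (by omega)
theorem t116 : TabOK 116 2861 226 R116 C116 T116 G116 := ⟨r116, c116, g116⟩
theorem dp116 : Done (116 : ℕ) :=
  step_pos (s := 116) (B := 2861) (lim := 226) (lo := -110) (hi := 115) (by norm_num) (by norm_num)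
    (by unfold disc; norm_num) (by norm_num) (by norm_num) t116 (by norm_num)
    (fun m h1 h2 => dn115 m (by omega) (by omega)) p116
theorem dq116 : Done (5 - (116 : ℕ)) :=
  step_neg (s := 116) (B := 2861) (lim := 226) (lo := -110) (hi := 115) (by norm_num) (by norm_num)
    (by unfold disc; norm_num) (by norm_num) (by norm_num) t116 (by norm_num)
    (fun m h1 h2 => dn115 m (by omega) (by omega)) n116
theorem dn116 : ∀ m : ℤ, 6 - 117 ≤ m → m ≤ 117 - 1 → Done m := by
  have h := ext_both (s := 116) (fun m h1 h2 => dn115 m (by omega) (by omega))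
    (by simpa using dp116) (by simpa using dq116)
  exact fun m h1 h2 => h m (by omega) (by omega)
theorem t117 : TabOK 117 2912 228 R117 C117 T117 G117 := ⟨r117, c117, g117⟩
theorem dp117 : Done (117 : ℕ) :=
  step_pos (s := 117) (B := 2912) (lim := 228) (lo := -111) (hi := 116) (by norm_num) (by norm_num)
    (by unfold disc; norm_num) (by norm_num) (by norm_num) t117 (by norm_num)
    (fun m h1 h2 => dn116 m (by omega) (by omega)) p117
theorem dq117 : Done (5 - (117 : ℕ)) :=
  step_neg (s := 117) (B := 2912) (lim := 228) (lo := -111) (hi := 116) (by norm_num) (by norm_num)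
    (by unfold disc; norm_num) (by norm_num) (by norm_num) t117 (by norm_num)
    (fun m h1 h2 => dn116 m (by omega) (by omega)) n117
theorem dn117 : ∀ m : ℤ, 6 - 118 ≤ m → m ≤ 118 - 1 → Done m := by
  have h := ext_both (s := 117) (fun m h1 h2 => dn116 m (by omega) (by omega))
    (by simpa using dp117) (by simpa using dq117)
  exact fun m h1 h2 => h m (by omega) (by omega)
theorem t118 : TabOK 118 2963 230 R118 C118 T118 G118 := ⟨r118, c118, g118⟩
theorem dp118 : Done (118 : ℕ) :=
  step_pos (s := 118) (B := 2963) (lim := 230) (lo := -112) (hi := 117) (by norm_num) (by norm_num)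
    (by unfold disc; norm_num) (by norm_num) (by norm_num) t118 (by norm_num)
    (fun m h1 h2 => dn117 m (by omega) (by omega)) p118
theorem dq118 : Done (5 - (118 : ℕ)) :=
  step_neg (s := 118) (B := 2963) (lim := 230) (lo := -112) (hi := 117) (by norm_num) (by norm_num)
    (by unfold disc; norm_num) (by norm_num) (by norm_num) t118 (by norm_num)
    (fun m h1 h2 => dn117 m (by omega) (by omega)) n118
theorem dn118 : ∀ m : ℤ, 6 - 119 ≤ m → m ≤ 119 - 1 → Done m := by
  have h := ext_both (s := 118) (fun m h1 h2 => dn117 m (by omega) (by omega))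
    (by simpa using dp118) (by simpa using dq118)
  exact fun m h1 h2 => h m (by omega) (by omega)
theorem t119 : TabOK 119 3015 232 R119 C119 T119 G119 := ⟨r119, c119, g119⟩
theorem dp119 : Done (119 : ℕ) :=
  step_pos (s := 119) (B := 3015) (lim := 232) (lo := -113) (hi := 118) (by norm_num) (by norm_num)
    (by unfold disc; norm_num) (by norm_num) (by norm_num) t119 (by norm_num)
    (fun m h1 h2 => dn118 m (by omega) (by omega)) p119
theorem dq119 : Done (5 - (119 : ℕ)) :=
  step_neg (s := 119) (B := 3015) (lim := 232) (lo := -113) (hi := 118) (by norm_num) (by norm_num)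
    (by unfold disc; norm_num) (by norm_num) (by norm_num) t119 (by norm_num)
    (fun m h1 h2 => dn118 m (by omega) (by omega)) n119
theorem dn119 : ∀ m : ℤ, 6 - 120 ≤ m → m ≤ 120 - 1 → Done m := by
  have h := ext_both (s := 119) (fun m h1 h2 => dn118 m (by omega) (by omega))
    (by simpa using dp119) (by simpa using dq119)
  exact fun m h1 h2 => h m (by omega) (by omega)
theorem t120 : TabOK 120 3067 234 R120 C120 T120 G120 := ⟨r120, c120, g120⟩
theorem dp120 : Done (120 : ℕ) :=
  step_pos (s := 120) (B := 3067) (lim := 234) (lo := -114) (hi := 119) (by norm_num) (by norm_num)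
    (by unfold disc; norm_num) (by norm_num) (by norm_num) t120 (by norm_num)
    (fun m h1 h2 => dn119 m (by omega) (by omega)) p120
theorem dq120 : Done (5 - (120 : ℕ)) :=
  step_neg (s := 120) (B := 3067) (lim := 234) (lo := -114) (hi := 119) (by norm_num) (by norm_num)
    (by unfold disc; norm_num) (by norm_num) (by norm_num) t120 (by norm_num)
    (fun m h1 h2 => dn119 m (by omega) (by omega)) n120
theorem dn120 : ∀ m : ℤ, 6 - 121 ≤ m → m ≤ 121 - 1 → Done m := by
  have h := ext_both (s := 120) (fun m h1 h2 => dn119 m (by omega) (by omega))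
    (by simpa using dp120) (by simpa using dq120)
  exact fun m h1 h2 => h m (by omega) (by omega)
theorem t121 : TabOK 121 3119 236 R121 C121 T121 G121 := ⟨r121, c121, g121⟩
theorem dp121 : Done (121 : ℕ) :=
  step_pos (s := 121) (B := 3119) (lim := 236) (lo := -115) (hi := 120) (by norm_num) (by norm_num)
    (by unfold disc; norm_num) (by norm_num) (by norm_num) t121 (by norm_num)
    (fun m h1 h2 => dn120 m (by omega) (by omega)) p121
theorem dq121 : Done (5 - (121 : ℕ)) :=
  step_neg (s := 121) (B := 3119) (lim := 236) (lo := -115) (hi := 120) (by norm_num) (by norm_num)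
    (by unfold disc; norm_num) (by norm_num) (by norm_num) t121 (by norm_num)
    (fun m h1 h2 => dn120 m (by omega) (by omega)) n121
theorem dn121 : ∀ m : ℤ, 6 - 122 ≤ m → m ≤ 122 - 1 → Done m := by
  have h := ext_both (s := 121) (fun m h1 h2 => dn120 m (by omega) (by omega))
    (by simpa using dp121) (by simpa using dq121)
  exact fun m h1 h2 => h m (by omega) (by omega)
theorem t122 : TabOK 122 3172 238 R122 C122 T122 G122 := ⟨r122, c122, g122⟩
theorem dp122 : Done (122 : ℕ) :=
  step_pos (s := 122) (B := 3172) (lim := 238) (lo := -116) (hi := 121) (by norm_num) (by norm_num)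
    (by unfold disc; norm_num) (by norm_num) (by norm_num) t122 (by norm_num)
    (fun m h1 h2 => dn121 m (by omega) (by omega)) p122
theorem dq122 : Done (5 - (122 : ℕ)) :=
  step_neg (s := 122) (B := 3172) (lim := 238) (lo := -116) (hi := 121) (by norm_num) (by norm_num)
    (by unfold disc; norm_num) (by norm_num) (by norm_num) t122 (by norm_num)
    (fun m h1 h2 => dn121 m (by omega) (by omega)) n122
theorem dn122 : ∀ m : ℤ, 6 - 123 ≤ m → m ≤ 123 - 1 → Done m := by
  have h := ext_both (s := 122) (fun m h1 h2 => dn121 m (by omega) (by omega))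
    (by simpa using dp122) (by simpa using dq122)
  exact fun m h1 h2 => h m (by omega) (by omega)
theorem t123 : TabOK 123 3225 240 R123 C123 T123 G123 := ⟨r123, c123, g123⟩
theorem dp123 : Done (123 : ℕ) :=
  step_pos (s := 123) (B := 3225) (lim := 240) (lo := -117) (hi := 122) (by norm_num) (by norm_num)
    (by unfold disc; norm_num) (by norm_num) (by norm_num) t123 (by norm_num)
    (fun m h1 h2 => dn122 m (by omega) (by omega)) p123
theorem dq123 : Done (5 - (123 : ℕ)) :=
  step_neg (s := 123) (B := 3225) (lim := 240) (lo := -117) (hi := 122) (by norm_num) (by norm_num)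
    (by unfold disc; norm_num) (by norm_num) (by norm_num) t123 (by norm_num)
    (fun m h1 h2 => dn122 m (by omega) (by omega)) n123
theorem dn123 : ∀ m : ℤ, 6 - 124 ≤ m → m ≤ 124 - 1 → Done m := by
  have h := ext_both (s := 123) (fun m h1 h2 => dn122 m (by omega) (by omega))
    (by simpa using dp123) (by simpa using dq123)
  exact fun m h1 h2 => h m (by omega) (by omega)
theorem t124 : TabOK 124 3279 242 R124 C124 T124 G124 := ⟨r124, c124, g124⟩
theorem dp124 : Done (124 : ℕ) :=
  step_pos (s := 124) (B := 3279) (lim := 242) (lo := -118) (hi := 123) (by norm_num) (by norm_num)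
    (by unfold disc; norm_num) (by norm_num) (by norm_num) t124 (by norm_num)
    (fun m h1 h2 => dn123 m (by omega) (by omega)) p124
theorem dq124 : Done (5 - (124 : ℕ)) :=
  step_neg (s := 124) (B := 3279) (lim := 242) (lo := -118) (hi := 123) (by norm_num) (by norm_num)
    (by unfold disc; norm_num) (by norm_num) (by norm_num) t124 (by norm_num)
    (fun m h1 h2 => dn123 m (by omega) (by omega)) n124
theorem dn124 : ∀ m : ℤ, 6 - 125 ≤ m → m ≤ 125 - 1 → Done m := by
  have h := ext_both (s := 124) (fun m h1 h2 => dn123 m (by omega) (by omega))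
    (by simpa using dp124) (by simpa using dq124)
  exact fun m h1 h2 => h m (by omega) (by omega)
theorem t125 : TabOK 125 3333 244 R125 C125 T125 G125 := ⟨r125, c125, g125⟩
theorem dp125 : Done (125 : ℕ) :=
  step_pos (s := 125) (B := 3333) (lim := 244) (lo := -119) (hi := 124) (by norm_num) (by norm_num)
    (by unfold disc; norm_num) (by norm_num) (by norm_num) t125 (by norm_num)
    (fun m h1 h2 => dn124 m (by omega) (by omega)) p125
theorem dq125 : Done (5 - (125 : ℕ)) :=
  step_neg (s := 125) (B := 3333) (lim := 244) (lo := -119) (hi := 124) (by norm_num) (by norm_num)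
    (by unfold disc; norm_num) (by norm_num) (by norm_num) t125 (by norm_num)
    (fun m h1 h2 => dn124 m (by omega) (by omega)) n125
theorem dn125 : ∀ m : ℤ, 6 - 126 ≤ m → m ≤ 126 - 1 → Done m := by
  have h := ext_both (s := 125) (fun m h1 h2 => dn124 m (by omega) (by omega))
    (by simpa using dp125) (by simpa using dq125)
  exact fun m h1 h2 => h m (by omega) (by omega)
theorem t126 : TabOK 126 3388 246 R126 C126 T126 G126 := ⟨r126, c126, g126⟩
theorem dp126 : Done (126 : ℕ) :=
  step_pos (s := 126) (B := 3388) (lim := 246) (lo := -120) (hi := 125) (by norm_num) (by norm_num)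
    (by unfold disc; norm_num) (by norm_num) (by norm_num) t126 (by norm_num)
    (fun m h1 h2 => dn125 m (by omega) (by omega)) p126
theorem dq126 : Done (5 - (126 : ℕ)) :=
  step_neg (s := 126) (B := 3388) (lim := 246) (lo := -120) (hi := 125) (by norm_num) (by norm_num)
    (by unfold disc; norm_num) (by norm_num) (by norm_num) t126 (by norm_num)
    (fun m h1 h2 => dn125 m (by omega) (by omega)) n126
theorem dn126 : ∀ m : ℤ, 6 - 127 ≤ m → m ≤ 127 - 1 → Done m := by
  have h := ext_both (s := 126) (fun m h1 h2 => dn125 m (by omega) (by omega))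
    (by simpa using dp126) (by simpa using dq126)
  exact fun m h1 h2 => h m (by omega) (by omega)
theorem t127 : TabOK 127 3443 248 R127 C127 T127 G127 := ⟨r127, c127, g127⟩
theorem dp127 : Done (127 : ℕ) :=
  step_pos (s := 127) (B := 3443) (lim := 248) (lo := -121) (hi := 126) (by norm_num) (by norm_num)
    (by unfold disc; norm_num) (by norm_num) (by norm_num) t127 (by norm_num)
    (fun m h1 h2 => dn126 m (by omega) (by omega)) p127
theorem dq127 : Done (5 - (127 : ℕ)) :=
  step_neg (s := 127) (B := 3443) (lim := 248) (lo := -121) (hi := 126) (by norm_num) (by norm_num)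
    (by unfold disc; norm_num) (by norm_num) (by norm_num) t127 (by norm_num)
    (fun m h1 h2 => dn126 m (by omega) (by omega)) n127
theorem dn127 : ∀ m : ℤ, 6 - 128 ≤ m → m ≤ 128 - 1 → Done m := by
  have h := ext_both (s := 127) (fun m h1 h2 => dn126 m (by omega) (by omega))
    (by simpa using dp127) (by simpa using dq127)
  exact fun m h1 h2 => h m (by omega) (by omega)
theorem t128 : TabOK 128 3499 250 R128 C128 T128 G128 := ⟨r128, c128, g128⟩
theorem dp128 : Done (128 : ℕ) :=
  step_pos (s := 128) (B := 3499) (lim := 250) (lo := -122) (hi := 127) (by norm_num) (by norm_num)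
    (by unfold disc; norm_num) (by norm_num) (by norm_num) t128 (by norm_num)
    (fun m h1 h2 => dn127 m (by omega) (by omega)) p128
theorem dq128 : Done (5 - (128 : ℕ)) :=
  step_neg (s := 128) (B := 3499) (lim := 250) (lo := -122) (hi := 127) (by norm_num) (by norm_num)
    (by unfold disc; norm_num) (by norm_num) (by norm_num) t128 (by norm_num)
    (fun m h1 h2 => dn127 m (by omega) (by omega)) n128
theorem dn128 : ∀ m : ℤ, 6 - 129 ≤ m → m ≤ 129 - 1 → Done m := by
  have h := ext_both (s := 128) (fun m h1 h2 => dn127 m (by omega) (by omega))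
    (by simpa using dp128) (by simpa using dq128)
  exact fun m h1 h2 => h m (by omega) (by omega)
theorem t129 : TabOK 129 3555 252 R129 C129 T129 G129 := ⟨r129, c129, g129⟩
theorem dp129 : Done (129 : ℕ) :=
  step_pos (s := 129) (B := 3555) (lim := 252) (lo := -123) (hi := 128) (by norm_num) (by norm_num)
    (by unfold disc; norm_num) (by norm_num) (by norm_num) t129 (by norm_num)
    (fun m h1 h2 => dn128 m (by omega) (by omega)) p129
theorem dq129 : Done (5 - (129 : ℕ)) :=
  step_neg (s := 129) (B := 3555) (lim := 252) (lo := -123) (hi := 128) (by norm_num) (by norm_num)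
    (by unfold disc; norm_num) (by norm_num) (by norm_num) t129 (by norm_num)
    (fun m h1 h2 => dn128 m (by omega) (by omega)) n129
theorem dn129 : ∀ m : ℤ, 6 - 130 ≤ m → m ≤ 130 - 1 → Done m := by
  have h := ext_both (s := 129) (fun m h1 h2 => dn128 m (by omega) (by omega))
    (by simpa using dp129) (by simpa using dq129)
  exact fun m h1 h2 => h m (by omega) (by omega)
theorem t130 : TabOK 130 3611 254 R130 C130 T130 G130 := ⟨r130, c130, g130⟩
theorem dp130 : Done (130 : ℕ) :=
  step_pos (s := 130) (B := 3611) (lim := 254) (lo := -124) (hi := 129) (by norm_num) (by norm_num)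
    (by unfold disc; norm_num) (by norm_num) (by norm_num) t130 (by norm_num)
    (fun m h1 h2 => dn129 m (by omega) (by omega)) p130
theorem dq130 : Done (5 - (130 : ℕ)) :=
  step_neg (s := 130) (B := 3611) (lim := 254) (lo := -124) (hi := 129) (by norm_num) (by norm_num)
    (by unfold disc; norm_num) (by norm_num) (by norm_num) t130 (by norm_num)
    (fun m h1 h2 => dn129 m (by omega) (by omega)) n130
theorem dn130 : ∀ m : ℤ, 6 - 131 ≤ m → m ≤ 131 - 1 → Done m := by
  have h := ext_both (s := 130) (fun m h1 h2 => dn129 m (by omega) (by omega))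
    (by simpa using dp130) (by simpa using dq130)
  exact fun m h1 h2 => h m (by omega) (by omega)
theorem t131 : TabOK 131 3668 256 R131 C131 T131 G131 := ⟨r131, c131, g131⟩
theorem dp131 : Done (131 : ℕ) :=
  step_pos (s := 131) (B := 3668) (lim := 256) (lo := -125) (hi := 130) (by norm_num) (by norm_num)
    (by unfold disc; norm_num) (by norm_num) (by norm_num) t131 (by norm_num)
    (fun m h1 h2 => dn130 m (by omega) (by omega)) p131
theorem dq131 : Done (5 - (131 : ℕ)) :=
  step_neg (s := 131) (B := 3668) (lim := 256) (lo := -125) (hi := 130) (by norm_num) (by norm_num)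
    (by unfold disc; norm_num) (by norm_num) (by norm_num) t131 (by norm_num)
    (fun m h1 h2 => dn130 m (by omega) (by omega)) n131
theorem dn131 : ∀ m : ℤ, 6 - 132 ≤ m → m ≤ 132 - 1 → Done m := by
  have h := ext_both (s := 131) (fun m h1 h2 => dn130 m (by omega) (by omega))
    (by simpa using dp131) (by simpa using dq131)
  exact fun m h1 h2 => h m (by omega) (by omega)
theorem t132 : TabOK 132 3725 258 R132 C132 T132 G132 := ⟨r132, c132, g132⟩
theorem dp132 : Done (132 : ℕ) :=
  step_pos (s := 132) (B := 3725) (lim := 258) (lo := -126) (hi := 131) (by norm_num) (by norm_num)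
    (by unfold disc; norm_num) (by norm_num) (by norm_num) t132 (by norm_num)
    (fun m h1 h2 => dn131 m (by omega) (by omega)) p132
theorem dq132 : Done (5 - (132 : ℕ)) :=
  step_neg (s := 132) (B := 3725) (lim := 258) (lo := -126) (hi := 131) (by norm_num) (by norm_num)
    (by unfold disc; norm_num) (by norm_num) (by norm_num) t132 (by norm_num)
    (fun m h1 h2 => dn131 m (by omega) (by omega)) n132
theorem dn132 : ∀ m : ℤ, 6 - 133 ≤ m → m ≤ 133 - 1 → Done m := by
  have h := ext_both (s := 132) (fun m h1 h2 => dn131 m (by omega) (by omega))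
    (by simpa using dp132) (by simpa using dq132)
  exact fun m h1 h2 => h m (by omega) (by omega)
theorem t133 : TabOK 133 3783 260 R133 C133 T133 G133 := ⟨r133, c133, g133⟩
theorem dp133 : Done (133 : ℕ) :=
  step_pos (s := 133) (B := 3783) (lim := 260) (lo := -127) (hi := 132) (by norm_num) (by norm_num)
    (by unfold disc; norm_num) (by norm_num) (by norm_num) t133 (by norm_num)
    (fun m h1 h2 => dn132 m (by omega) (by omega)) p133
theorem dq133 : Done (5 - (133 : ℕ)) :=
  step_neg (s := 133) (B := 3783) (lim := 260) (lo := -127) (hi := 132) (by norm_num) (by norm_num)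
    (by unfold disc; norm_num) (by norm_num) (by norm_num) t133 (by norm_num)
    (fun m h1 h2 => dn132 m (by omega) (by omega)) n133
theorem dn133 : ∀ m : ℤ, 6 - 134 ≤ m → m ≤ 134 - 1 → Done m := by
  have h := ext_both (s := 133) (fun m h1 h2 => dn132 m (by omega) (by omega))
    (by simpa using dp133) (by simpa using dq133)
  exact fun m h1 h2 => h m (by omega) (by omega)
theorem t134 : TabOK 134 3841 262 R134 C134 T134 G134 := ⟨r134, c134, g134⟩
theorem dp134 : Done (134 : ℕ) :=
  step_pos (s := 134) (B := 3841) (lim := 262) (lo := -128) (hi := 133) (by norm_num) (by norm_num)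
    (by unfold disc; norm_num) (by norm_num) (by norm_num) t134 (by norm_num)
    (fun m h1 h2 => dn133 m (by omega) (by omega)) p134
theorem dq134 : Done (5 - (134 : ℕ)) :=
  step_neg (s := 134) (B := 3841) (lim := 262) (lo := -128) (hi := 133) (by norm_num) (by norm_num)
    (by unfold disc; norm_num) (by norm_num) (by norm_num) t134 (by norm_num)
    (fun m h1 h2 => dn133 m (by omega) (by omega)) n134
theorem dn134 : ∀ m : ℤ, 6 - 135 ≤ m → m ≤ 135 - 1 → Done m := by
  have h := ext_both (s := 134) (fun m h1 h2 => dn133 m (by omega) (by omega))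
    (by simpa using dp134) (by simpa using dq134)
  exact fun m h1 h2 => h m (by omega) (by omega)
theorem t135 : TabOK 135 3900 264 R135 C135 T135 G135 := ⟨r135, c135, g135⟩
theorem dp135 : Done (135 : ℕ) :=
  step_pos (s := 135) (B := 3900) (lim := 264) (lo := -129) (hi := 134) (by norm_num) (by norm_num)
    (by unfold disc; norm_num) (by norm_num) (by norm_num) t135 (by norm_num)
    (fun m h1 h2 => dn134 m (by omega) (by omega)) p135
theorem dq135 : Done (5 - (135 : ℕ)) :=
  step_neg (s := 135) (B := 3900) (lim := 264) (lo := -129) (hi := 134) (by norm_num) (by norm_num)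
    (by unfold disc; norm_num) (by norm_num) (by norm_num) t135 (by norm_num)
    (fun m h1 h2 => dn134 m (by omega) (by omega)) n135
theorem dn135 : ∀ m : ℤ, 6 - 136 ≤ m → m ≤ 136 - 1 → Done m := by
  have h := ext_both (s := 135) (fun m h1 h2 => dn134 m (by omega) (by omega))
    (by simpa using dp135) (by simpa using dq135)
  exact fun m h1 h2 => h m (by omega) (by omega)
theorem t136 : TabOK 136 3959 266 R136 C136 T136 G136 := ⟨r136, c136, g136⟩
theorem dp136 : Done (136 : ℕ) :=
  step_pos (s := 136) (B := 3959) (lim := 266) (lo := -130) (hi := 135) (by norm_num) (by norm_num)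
    (by unfold disc; norm_num) (by norm_num) (by norm_num) t136 (by norm_num)
    (fun m h1 h2 => dn135 m (by omega) (by omega)) p136
theorem dq136 : Done (5 - (136 : ℕ)) :=
  step_neg (s := 136) (B := 3959) (lim := 266) (lo := -130) (hi := 135) (by norm_num) (by norm_num)
    (by unfold disc; norm_num) (by norm_num) (by norm_num) t136 (by norm_num)
    (fun m h1 h2 => dn135 m (by omega) (by omega)) n136
theorem dn136 : ∀ m : ℤ, 6 - 137 ≤ m → m ≤ 137 - 1 → Done m := by
  have h := ext_both (s := 136) (fun m h1 h2 => dn135 m (by omega) (by omega))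
    (by simpa using dp136) (by simpa using dq136)
  exact fun m h1 h2 => h m (by omega) (by omega)
theorem t137 : TabOK 137 4019 268 R137 C137 T137 G137 := ⟨r137, c137, g137⟩
theorem dp137 : Done (137 : ℕ) :=
  step_pos (s := 137) (B := 4019) (lim := 268) (lo := -131) (hi := 136) (by norm_num) (by norm_num)
    (by unfold disc; norm_num) (by norm_num) (by norm_num) t137 (by norm_num)
    (fun m h1 h2 => dn136 m (by omega) (by omega)) p137
theorem dq137 : Done (5 - (137 : ℕ)) :=
  step_neg (s := 137) (B := 4019) (lim := 268) (lo := -131) (hi := 136) (by norm_num) (by norm_num)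
    (by unfold disc; norm_num) (by norm_num) (by norm_num) t137 (by norm_num)
    (fun m h1 h2 => dn136 m (by omega) (by omega)) n137
theorem dn137 : ∀ m : ℤ, 6 - 138 ≤ m → m ≤ 138 - 1 → Done m := by
  have h := ext_both (s := 137) (fun m h1 h2 => dn136 m (by omega) (by omega))
    (by simpa using dp137) (by simpa using dq137)
  exact fun m h1 h2 => h m (by omega) (by omega)
theorem t138 : TabOK 138 4079 270 R138 C138 T138 G138 := ⟨r138, c138, g138⟩
theorem dp138 : Done (138 : ℕ) :=
  step_pos (s := 138) (B := 4079) (lim := 270) (lo := -132) (hi := 137) (by norm_num) (by norm_num)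
    (by unfold disc; norm_num) (by norm_num) (by norm_num) t138 (by norm_num)
    (fun m h1 h2 => dn137 m (by omega) (by omega)) p138
theorem dq138 : Done (5 - (138 : ℕ)) :=
  step_neg (s := 138) (B := 4079) (lim := 270) (lo := -132) (hi := 137) (by norm_num) (by norm_num)
    (by unfold disc; norm_num) (by norm_num) (by norm_num) t138 (by norm_num)
    (fun m h1 h2 => dn137 m (by omega) (by omega)) n138
theorem dn138 : ∀ m : ℤ, 6 - 139 ≤ m → m ≤ 139 - 1 → Done m := by
  have h := ext_both (s := 138) (fun m h1 h2 => dn137 m (by omega) (by omega))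
    (by simpa using dp138) (by simpa using dq138)
  exact fun m h1 h2 => h m (by omega) (by omega)
theorem t139 : TabOK 139 4139 272 R139 C139 T139 G139 := ⟨r139, c139, g139⟩
theorem dp139 : Done (139 : ℕ) :=
  step_pos (s := 139) (B := 4139) (lim := 272) (lo := -133) (hi := 138) (by norm_num) (by norm_num)
    (by unfold disc; norm_num) (by norm_num) (by norm_num) t139 (by norm_num)
    (fun m h1 h2 => dn138 m (by omega) (by omega)) p139
theorem dq139 : Done (5 - (139 : ℕ)) :=
  step_neg (s := 139) (B := 4139) (lim := 272) (lo := -133) (hi := 138) (by norm_num) (by norm_num)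
    (by unfold disc; norm_num) (by norm_num) (by norm_num) t139 (by norm_num)
    (fun m h1 h2 => dn138 m (by omega) (by omega)) n139
theorem dn139 : ∀ m : ℤ, 6 - 140 ≤ m → m ≤ 140 - 1 → Done m := by
  have h := ext_both (s := 139) (fun m h1 h2 => dn138 m (by omega) (by omega))
    (by simpa using dp139) (by simpa using dq139)
  exact fun m h1 h2 => h m (by omega) (by omega)
theorem t140 : TabOK 140 4200 274 R140 C140 T140 G140 := ⟨r140, c140, g140⟩
theorem dp140 : Done (140 : ℕ) :=
  step_pos (s := 140) (B := 4200) (lim := 274) (lo := -134) (hi := 139) (by norm_num) (by norm_num)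
    (by unfold disc; norm_num) (by norm_num) (by norm_num) t140 (by norm_num)
    (fun m h1 h2 => dn139 m (by omega) (by omega)) p140
theorem dq140 : Done (5 - (140 : ℕ)) :=
  step_neg (s := 140) (B := 4200) (lim := 274) (lo := -134) (hi := 139) (by norm_num) (by norm_num)
    (by unfold disc; norm_num) (by norm_num) (by norm_num) t140 (by norm_num)
    (fun m h1 h2 => dn139 m (by omega) (by omega)) n140
theorem dn140 : ∀ m : ℤ, 6 - 141 ≤ m → m ≤ 141 - 1 → Done m := by
  have h := ext_both (s := 140) (fun m h1 h2 => dn139 m (by omega) (by omega))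
    (by simpa using dp140) (by simpa using dq140)
  exact fun m h1 h2 => h m (by omega) (by omega)
theorem t141 : TabOK 141 4261 276 R141 C141 T141 G141 := ⟨r141, c141, g141⟩
theorem dp141 : Done (141 : ℕ) :=
  step_pos (s := 141) (B := 4261) (lim := 276) (lo := -135) (hi := 140) (by norm_num) (by norm_num)
    (by unfold disc; norm_num) (by norm_num) (by norm_num) t141 (by norm_num)
    (fun m h1 h2 => dn140 m (by omega) (by omega)) p141
theorem dq141 : Done (5 - (141 : ℕ)) :=
  step_neg (s := 141) (B := 4261) (lim := 276) (lo := -135) (hi := 140) (by norm_num) (by norm_num)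
    (by unfold disc; norm_num) (by norm_num) (by norm_num) t141 (by norm_num)
    (fun m h1 h2 => dn140 m (by omega) (by omega)) n141
theorem dn141 : ∀ m : ℤ, 6 - 142 ≤ m → m ≤ 142 - 1 → Done m := by
  have h := ext_both (s := 141) (fun m h1 h2 => dn140 m (by omega) (by omega))
    (by simpa using dp141) (by simpa using dq141)
  exact fun m h1 h2 => h m (by omega) (by omega)
theorem t142 : TabOK 142 4323 278 R142 C142 T142 G142 := ⟨r142, c142, g142⟩
theorem dp142 : Done (142 : ℕ) :=
  step_pos (s := 142) (B := 4323) (lim := 278) (lo := -136) (hi := 141) (by norm_num) (by norm_num)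
    (by unfold disc; norm_num) (by norm_num) (by norm_num) t142 (by norm_num)
    (fun m h1 h2 => dn141 m (by omega) (by omega)) p142
theorem dq142 : Done (5 - (142 : ℕ)) :=
  step_neg (s := 142) (B := 4323) (lim := 278) (lo := -136) (hi := 141) (by norm_num) (by norm_num)
    (by unfold disc; norm_num) (by norm_num) (by norm_num) t142 (by norm_num)
    (fun m h1 h2 => dn141 m (by omega) (by omega)) n142
theorem dn142 : ∀ m : ℤ, 6 - 143 ≤ m → m ≤ 143 - 1 → Done m := by
  have h := ext_both (s := 142) (fun m h1 h2 => dn141 m (by omega) (by omega))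
    (by simpa using dp142) (by simpa using dq142)
  exact fun m h1 h2 => h m (by omega) (by omega)
theorem t143 : TabOK 143 4385 280 R143 C143 T143 G143 := ⟨r143, c143, g143⟩
theorem dp143 : Done (143 : ℕ) :=
  step_pos (s := 143) (B := 4385) (lim := 280) (lo := -137) (hi := 142) (by norm_num) (by norm_num)
    (by unfold disc; norm_num) (by norm_num) (by norm_num) t143 (by norm_num)
    (fun m h1 h2 => dn142 m (by omega) (by omega)) p143
theorem dq143 : Done (5 - (143 : ℕ)) :=
  step_neg (s := 143) (B := 4385) (lim := 280) (lo := -137) (hi := 142) (by norm_num) (by norm_num)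
    (by unfold disc; norm_num) (by norm_num) (by norm_num) t143 (by norm_num)
    (fun m h1 h2 => dn142 m (by omega) (by omega)) n143
theorem dn143 : ∀ m : ℤ, 6 - 144 ≤ m → m ≤ 144 - 1 → Done m := by
  have h := ext_both (s := 143) (fun m h1 h2 => dn142 m (by omega) (by omega))
    (by simpa using dp143) (by simpa using dq143)
  exact fun m h1 h2 => h m (by omega) (by omega)
theorem t144 : TabOK 144 4448 282 R144 C144 T144 G144 := ⟨r144, c144, g144⟩
theorem dp144 : Done (144 : ℕ) :=
  step_pos (s := 144) (B := 4448) (lim := 282) (lo := -138) (hi := 143) (by norm_num) (by norm_num)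
    (by unfold disc; norm_num) (by norm_num) (by norm_num) t144 (by norm_num)
    (fun m h1 h2 => dn143 m (by omega) (by omega)) p144
theorem dq144 : Done (5 - (144 : ℕ)) :=
  step_neg (s := 144) (B := 4448) (lim := 282) (lo := -138) (hi := 143) (by norm_num) (by norm_num)
    (by unfold disc; norm_num) (by norm_num) (by norm_num) t144 (by norm_num)
    (fun m h1 h2 => dn143 m (by omega) (by omega)) n144
theorem dn144 : ∀ m : ℤ, 6 - 145 ≤ m → m ≤ 145 - 1 → Done m := by
  have h := ext_both (s := 144) (fun m h1 h2 => dn143 m (by omega) (by omega))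
    (by simpa using dp144) (by simpa using dq144)
  exact fun m h1 h2 => h m (by omega) (by omega)
theorem t145 : TabOK 145 4511 284 R145 C145 T145 G145 := ⟨r145, c145, g145⟩
theorem dp145 : Done (145 : ℕ) :=
  step_pos (s := 145) (B := 4511) (lim := 284) (lo := -139) (hi := 144) (by norm_num) (by norm_num)
    (by unfold disc; norm_num) (by norm_num) (by norm_num) t145 (by norm_num)
    (fun m h1 h2 => dn144 m (by omega) (by omega)) p145
theorem dq145 : Done (5 - (145 : ℕ)) :=
  step_neg (s := 145) (B := 4511) (lim := 284) (lo := -139) (hi := 144) (by norm_num) (by norm_num)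
    (by unfold disc; norm_num) (by norm_num) (by norm_num) t145 (by norm_num)
    (fun m h1 h2 => dn144 m (by omega) (by omega)) n145
theorem dn145 : ∀ m : ℤ, 6 - 146 ≤ m → m ≤ 146 - 1 → Done m := by
  have h := ext_both (s := 145) (fun m h1 h2 => dn144 m (by omega) (by omega))
    (by simpa using dp145) (by simpa using dq145)
  exact fun m h1 h2 => h m (by omega) (by omega)
theorem t146 : TabOK 146 4575 286 R146 C146 T146 G146 := ⟨r146, c146, g146⟩
theorem dp146 : Done (146 : ℕ) :=
  step_pos (s := 146) (B := 4575) (lim := 286) (lo := -140) (hi := 145) (by norm_num) (by norm_num)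
    (by unfold disc; norm_num) (by norm_num) (by norm_num) t146 (by norm_num)
    (fun m h1 h2 => dn145 m (by omega) (by omega)) p146
theorem dq146 : Done (5 - (146 : ℕ)) :=
  step_neg (s := 146) (B := 4575) (lim := 286) (lo := -140) (hi := 145) (by norm_num) (by norm_num)
    (by unfold disc; norm_num) (by norm_num) (by norm_num) t146 (by norm_num)
    (fun m h1 h2 => dn145 m (by omega) (by omega)) n146
theorem dn146 : ∀ m : ℤ, 6 - 147 ≤ m → m ≤ 147 - 1 → Done m := by
  have h := ext_both (s := 146) (fun m h1 h2 => dn145 m (by omega) (by omega))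
    (by simpa using dp146) (by simpa using dq146)
  exact fun m h1 h2 => h m (by omega) (by omega)
theorem t147 : TabOK 147 4639 288 R147 C147 T147 G147 := ⟨r147, c147, g147⟩
theorem dp147 : Done (147 : ℕ) :=
  step_pos (s := 147) (B := 4639) (lim := 288) (lo := -141) (hi := 146) (by norm_num) (by norm_num)
    (by unfold disc; norm_num) (by norm_num) (by norm_num) t147 (by norm_num)
    (fun m h1 h2 => dn146 m (by omega) (by omega)) p147
theorem dq147 : Done (5 - (147 : ℕ)) :=
  step_neg (s := 147) (B := 4639) (lim := 288) (lo := -141) (hi := 146) (by norm_num) (by norm_num)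
    (by unfold disc; norm_num) (by norm_num) (by norm_num) t147 (by norm_num)
    (fun m h1 h2 => dn146 m (by omega) (by omega)) n147
theorem dn147 : ∀ m : ℤ, 6 - 148 ≤ m → m ≤ 148 - 1 → Done m := by
  have h := ext_both (s := 147) (fun m h1 h2 => dn146 m (by omega) (by omega))
    (by simpa using dp147) (by simpa using dq147)
  exact fun m h1 h2 => h m (by omega) (by omega)
theorem t148 : TabOK 148 4703 290 R148 C148 T148 G148 := ⟨r148, c148, g148⟩
theorem dp148 : Done (148 : ℕ) :=
  step_pos (s := 148) (B := 4703) (lim := 290) (lo := -142) (hi := 147) (by norm_num) (by norm_num)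
    (by unfold disc; norm_num) (by norm_num) (by norm_num) t148 (by norm_num)
    (fun m h1 h2 => dn147 m (by omega) (by omega)) p148
theorem dq148 : Done (5 - (148 : ℕ)) :=
  step_neg (s := 148) (B := 4703) (lim := 290) (lo := -142) (hi := 147) (by norm_num) (by norm_num)
    (by unfold disc; norm_num) (by norm_num) (by norm_num) t148 (by norm_num)
    (fun m h1 h2 => dn147 m (by omega) (by omega)) n148
theorem dn148 : ∀ m : ℤ, 6 - 149 ≤ m → m ≤ 149 - 1 → Done m := by
  have h := ext_both (s := 148) (fun m h1 h2 => dn147 m (by omega) (by omega))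
    (by simpa using dp148) (by simpa using dq148)
  exact fun m h1 h2 => h m (by omega) (by omega)
theorem t149 : TabOK 149 4768 292 R149 C149 T149 G149 := ⟨r149, c149, g149⟩
theorem dp149 : Done (149 : ℕ) :=
  step_pos (s := 149) (B := 4768) (lim := 292) (lo := -143) (hi := 148) (by norm_num) (by norm_num)
    (by unfold disc; norm_num) (by norm_num) (by norm_num) t149 (by norm_num)
    (fun m h1 h2 => dn148 m (by omega) (by omega)) p149
theorem dq149 : Done (5 - (149 : ℕ)) :=
  step_neg (s := 149) (B := 4768) (lim := 292) (lo := -143) (hi := 148) (by norm_num) (by norm_num)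
    (by unfold disc; norm_num) (by norm_num) (by norm_num) t149 (by norm_num)
    (fun m h1 h2 => dn148 m (by omega) (by omega)) n149
theorem dn149 : ∀ m : ℤ, 6 - 150 ≤ m → m ≤ 150 - 1 → Done m := by
  have h := ext_both (s := 149) (fun m h1 h2 => dn148 m (by omega) (by omega))
    (by simpa using dp149) (by simpa using dq149)
  exact fun m h1 h2 => h m (by omega) (by omega)
theorem t150 : TabOK 150 4833 294 R150 C150 T150 G150 := ⟨r150, c150, g150⟩
theorem dp150 : Done (150 : ℕ) :=
  step_pos (s := 150) (B := 4833) (lim := 294) (lo := -144) (hi := 149) (by norm_num) (by norm_num)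
    (by unfold disc; norm_num) (by norm_num) (by norm_num) t150 (by norm_num)
    (fun m h1 h2 => dn149 m (by omega) (by omega)) p150
theorem dq150 : Done (5 - (150 : ℕ)) :=
  step_neg (s := 150) (B := 4833) (lim := 294) (lo := -144) (hi := 149) (by norm_num) (by norm_num)
    (by unfold disc; norm_num) (by norm_num) (by norm_num) t150 (by norm_num)
    (fun m h1 h2 => dn149 m (by omega) (by omega)) n150
theorem dn150 : ∀ m : ℤ, 6 - 151 ≤ m → m ≤ 151 - 1 → Done m := by
  have h := ext_both (s := 150) (fun m h1 h2 => dn149 m (by omega) (by omega))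
    (by simpa using dp150) (by simpa using dq150)
  exact fun m h1 h2 => h m (by omega) (by omega)
theorem t151 : TabOK 151 4899 296 R151 C151 T151 G151 := ⟨r151, c151, g151⟩
theorem dp151 : Done (151 : ℕ) :=
  step_pos (s := 151) (B := 4899) (lim := 296) (lo := -145) (hi := 150) (by norm_num) (by norm_num)
    (by unfold disc; norm_num) (by norm_num) (by norm_num) t151 (by norm_num)
    (fun m h1 h2 => dn150 m (by omega) (by omega)) p151
theorem dq151 : Done (5 - (151 : ℕ)) :=
  step_neg (s := 151) (B := 4899) (lim := 296) (lo := -145) (hi := 150) (by norm_num) (by norm_num)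
    (by unfold disc; norm_num) (by norm_num) (by norm_num) t151 (by norm_num)
    (fun m h1 h2 => dn150 m (by omega) (by omega)) n151
theorem dn151 : ∀ m : ℤ, 6 - 152 ≤ m → m ≤ 152 - 1 → Done m := by
  have h := ext_both (s := 151) (fun m h1 h2 => dn150 m (by omega) (by omega))
    (by simpa using dp151) (by simpa using dq151)
  exact fun m h1 h2 => h m (by omega) (by omega)
theorem t152 : TabOK 152 4965 298 R152 C152 T152 G152 := ⟨r152, c152, g152⟩
theorem dp152 : Done (152 : ℕ) :=
  step_pos (s := 152) (B := 4965) (lim := 298) (lo := -146) (hi := 151) (by norm_num) (by norm_num)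
    (by unfold disc; norm_num) (by norm_num) (by norm_num) t152 (by norm_num)
    (fun m h1 h2 => dn151 m (by omega) (by omega)) p152
theorem dq152 : Done (5 - (152 : ℕ)) :=
  step_neg (s := 152) (B := 4965) (lim := 298) (lo := -146) (hi := 151) (by norm_num) (by norm_num)
    (by unfold disc; norm_num) (by norm_num) (by norm_num) t152 (by norm_num)
    (fun m h1 h2 => dn151 m (by omega) (by omega)) n152
theorem dn152 : ∀ m : ℤ, 6 - 153 ≤ m → m ≤ 153 - 1 → Done m := by
  have h := ext_both (s := 152) (fun m h1 h2 => dn151 m (by omega) (by omega))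
    (by simpa using dp152) (by simpa using dq152)
  exact fun m h1 h2 => h m (by omega) (by omega)
theorem t153 : TabOK 153 5032 300 R153 C153 T153 G153 := ⟨r153, c153, g153⟩
theorem dp153 : Done (153 : ℕ) :=
  step_pos (s := 153) (B := 5032) (lim := 300) (lo := -147) (hi := 152) (by norm_num) (by norm_num)
    (by unfold disc; norm_num) (by norm_num) (by norm_num) t153 (by norm_num)
    (fun m h1 h2 => dn152 m (by omega) (by omega)) p153
theorem dq153 : Done (5 - (153 : ℕ)) :=
  step_neg (s := 153) (B := 5032) (lim := 300) (lo := -147) (hi := 152) (by norm_num) (by norm_num)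
    (by unfold disc; norm_num) (by norm_num) (by norm_num) t153 (by norm_num)
    (fun m h1 h2 => dn152 m (by omega) (by omega)) n153
theorem dn153 : ∀ m : ℤ, 6 - 154 ≤ m → m ≤ 154 - 1 → Done m := by
  have h := ext_both (s := 153) (fun m h1 h2 => dn152 m (by omega) (by omega))
    (by simpa using dp153) (by simpa using dq153)
  exact fun m h1 h2 => h m (by omega) (by omega)
theorem t154 : TabOK 154 5099 302 R154 C154 T154 G154 := ⟨r154, c154, g154⟩
theorem dp154 : Done (154 : ℕ) :=
  step_pos (s := 154) (B := 5099) (lim := 302) (lo := -148) (hi := 153) (by norm_num) (by norm_num)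
    (by unfold disc; norm_num) (by norm_num) (by norm_num) t154 (by norm_num)
    (fun m h1 h2 => dn153 m (by omega) (by omega)) p154
theorem dq154 : Done (5 - (154 : ℕ)) :=
  step_neg (s := 154) (B := 5099) (lim := 302) (lo := -148) (hi := 153) (by norm_num) (by norm_num)
    (by unfold disc; norm_num) (by norm_num) (by norm_num) t154 (by norm_num)
    (fun m h1 h2 => dn153 m (by omega) (by omega)) n154
theorem dn154 : ∀ m : ℤ, 6 - 155 ≤ m → m ≤ 155 - 1 → Done m := by
  have h := ext_both (s := 154) (fun m h1 h2 => dn153 m (by omega) (by omega))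
    (by simpa using dp154) (by simpa using dq154)
  exact fun m h1 h2 => h m (by omega) (by omega)
theorem t155 : TabOK 155 5167 304 R155 C155 T155 G155 := ⟨r155, c155, g155⟩
theorem dp155 : Done (155 : ℕ) :=
  step_pos (s := 155) (B := 5167) (lim := 304) (lo := -149) (hi := 154) (by norm_num) (by norm_num)
    (by unfold disc; norm_num) (by norm_num) (by norm_num) t155 (by norm_num)
    (fun m h1 h2 => dn154 m (by omega) (by omega)) p155
theorem dq155 : Done (5 - (155 : ℕ)) :=
  step_neg (s := 155) (B := 5167) (lim := 304) (lo := -149) (hi := 154) (by norm_num) (by norm_num)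
    (by unfold disc; norm_num) (by norm_num) (by norm_num) t155 (by norm_num)
    (fun m h1 h2 => dn154 m (by omega) (by omega)) n155
theorem dn155 : ∀ m : ℤ, 6 - 156 ≤ m → m ≤ 156 - 1 → Done m := by
  have h := ext_both (s := 155) (fun m h1 h2 => dn154 m (by omega) (by omega))
    (by simpa using dp155) (by simpa using dq155)
  exact fun m h1 h2 => h m (by omega) (by omega)
theorem t156 : TabOK 156 5235 306 R156 C156 T156 G156 := ⟨r156, c156, g156⟩
theorem dp156 : Done (156 : ℕ) :=
  step_pos (s := 156) (B := 5235) (lim := 306) (lo := -150) (hi := 155) (by norm_num) (by norm_num)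
    (by unfold disc; norm_num) (by norm_num) (by norm_num) t156 (by norm_num)
    (fun m h1 h2 => dn155 m (by omega) (by omega)) p156
theorem dq156 : Done (5 - (156 : ℕ)) :=
  step_neg (s := 156) (B := 5235) (lim := 306) (lo := -150) (hi := 155) (by norm_num) (by norm_num)
    (by unfold disc; norm_num) (by norm_num) (by norm_num) t156 (by norm_num)
    (fun m h1 h2 => dn155 m (by omega) (by omega)) n156
theorem dn156 : ∀ m : ℤ, 6 - 157 ≤ m → m ≤ 157 - 1 → Done m := by
  have h := ext_both (s := 156) (fun m h1 h2 => dn155 m (by omega) (by omega))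
    (by simpa using dp156) (by simpa using dq156)
  exact fun m h1 h2 => h m (by omega) (by omega)
theorem t157 : TabOK 157 5303 308 R157 C157 T157 G157 := ⟨r157, c157, g157⟩
theorem dq157 : Done (5 - (157 : ℕ)) :=
  step_neg (s := 157) (B := 5303) (lim := 308) (lo := -151) (hi := 156) (by norm_num) (by norm_num)
    (by unfold disc; norm_num) (by norm_num) (by norm_num) t157 (by norm_num)
    (fun m h1 h2 => dn156 m (by omega) (by omega)) n157
theorem dn157 : ∀ m : ℤ, 6 - 158 ≤ m → m ≤ 156 → Done m := by
  intro m h1 h2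
  rcases eq_or_ne m (5 - 157) with rfl | h
  · simpa using dq157
  · exact dn156 m (by omega) (by omega)
theorem t158 : TabOK 158 5372 309 R158 C158 T158 G158 := ⟨r158, c158, g158⟩
theorem dq158 : Done (5 - (158 : ℕ)) :=
  step_neg (s := 158) (B := 5372) (lim := 309) (lo := -152) (hi := 156) (by norm_num) (by norm_num)
    (by unfold disc; norm_num) (by norm_num) (by norm_num) t158 (by norm_num)
    (fun m h1 h2 => dn157 m (by omega) (by omega)) n158
theorem dn158 : ∀ m : ℤ, 6 - 159 ≤ m → m ≤ 156 → Done m := by
  intro m h1 h2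
  rcases eq_or_ne m (5 - 158) with rfl | h
  · simpa using dq158
  · exact dn157 m (by omega) (by omega)
theorem t159 : TabOK 159 5441 310 R159 C159 T159 G159 := ⟨r159, c159, g159⟩
theorem dq159 : Done (5 - (159 : ℕ)) :=
  step_neg (s := 159) (B := 5441) (lim := 310) (lo := -153) (hi := 156) (by norm_num) (by norm_num)
    (by unfold disc; norm_num) (by norm_num) (by norm_num) t159 (by norm_num)
    (fun m h1 h2 => dn158 m (by omega) (by omega)) n159
theorem dn159 : ∀ m : ℤ, 6 - 160 ≤ m → m ≤ 156 → Done m := by
  intro m h1 h2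
  rcases eq_or_ne m (5 - 159) with rfl | h
  · simpa using dq159
  · exact dn158 m (by omega) (by omega)
theorem t160 : TabOK 160 5511 311 R160 C160 T160 G160 := ⟨r160, c160, g160⟩
theorem dq160 : Done (5 - (160 : ℕ)) :=
  step_neg (s := 160) (B := 5511) (lim := 311) (lo := -154) (hi := 156) (by norm_num) (by norm_num)
    (by unfold disc; norm_num) (by norm_num) (by norm_num) t160 (by norm_num)
    (fun m h1 h2 => dn159 m (by omega) (by omega)) n160
theorem dn160 : ∀ m : ℤ, 6 - 161 ≤ m → m ≤ 156 → Done m := by
  intro m h1 h2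
  rcases eq_or_ne m (5 - 160) with rfl | h
  · simpa using dq160
  · exact dn159 m (by omega) (by omega)
theorem t161 : TabOK 161 5581 312 R161 C161 T161 G161 := ⟨r161, c161, g161⟩
theorem dq161 : Done (5 - (161 : ℕ)) :=
  step_neg (s := 161) (B := 5581) (lim := 312) (lo := -155) (hi := 156) (by norm_num) (by norm_num)
    (by unfold disc; norm_num) (by norm_num) (by norm_num) t161 (by norm_num)
    (fun m h1 h2 => dn160 m (by omega) (by omega)) n161
theorem dn161 : ∀ m : ℤ, 6 - 162 ≤ m → m ≤ 156 → Done m := by
  intro m h1 h2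
  rcases eq_or_ne m (5 - 161) with rfl | h
  · simpa using dq161
  · exact dn160 m (by omega) (by omega)
theorem t162 : TabOK 162 5652 313 R162 C162 T162 G162 := ⟨r162, c162, g162⟩
theorem dq162 : Done (5 - (162 : ℕ)) :=
  step_neg (s := 162) (B := 5652) (lim := 313) (lo := -156) (hi := 156) (by norm_num) (by norm_num)
    (by unfold disc; norm_num) (by norm_num) (by norm_num) t162 (by norm_num)
    (fun m h1 h2 => dn161 m (by omega) (by omega)) n162
theorem dn162 : ∀ m : ℤ, 6 - 163 ≤ m → m ≤ 156 → Done m := by
  intro m h1 h2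
  rcases eq_or_ne m (5 - 162) with rfl | h
  · simpa using dq162
  · exact dn161 m (by omega) (by omega)
theorem t163 : TabOK 163 5723 314 R163 C163 T163 G163 := ⟨r163, c163, g163⟩
theorem dq163 : Done (5 - (163 : ℕ)) :=
  step_neg (s := 163) (B := 5723) (lim := 314) (lo := -157) (hi := 156) (by norm_num) (by norm_num)
    (by unfold disc; norm_num) (by norm_num) (by norm_num) t163 (by norm_num)
    (fun m h1 h2 => dn162 m (by omega) (by omega)) n163
theorem dn163 : ∀ m : ℤ, 6 - 164 ≤ m → m ≤ 156 → Done m := by
  intro m h1 h2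
  rcases eq_or_ne m (5 - 163) with rfl | h
  · simpa using dq163
  · exact dn162 m (by omega) (by omega)

/-- Every Cappell-Shaneson matrix of trace `-158 ≤ n ≤ 156` is equivalent to `A0`. -/
theorem done_all (n : ℤ) (h1 : -158 ≤ n) (h2 : n ≤ 156) : Done n := dn163 n (by omega) (by omega)

end Pool.Agent.CSA
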