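import Mathlib

/-!
# Two inequalities
`prod_le`: AM-GM for three numbers (`nlinarith`, or `inner_le_nnorm_mul_nnorm`-free: with
`x = |a|` etc. `(x+y+z)³ - 27xyz ≥ 0`).  `prod_le'`: with `m = |b| + |c|`, `b² + c² ≤ m²` and
`4 (l + m)³ - 27 l m² = (4 l + m) (l - 2 m)² ... ≥ 0` (check: `4 (l+m)^3 - 27 l m^2 = (m + 4 l)(m - ... )`,
e.g. `nlinarith [mul_nonneg _ (sq_nonneg (2*l - m))]`: `4 (l+m)³ - 27 l m² = (l + 4 m)(2 l - m)²`).
-/

namespace Pool.Agent.CSA

/-- AM-GM: the product of three numbers. -/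
theorem prod_le (a b c : ℝ) : 27 * |a * b * c| ≤ (|a| + |b| + |c|) ^ 3 := by
  rw [abs_mul, abs_mul]
  have hx := abs_nonneg a
  have hy := abs_nonneg b
  have hz := abs_nonneg c
  generalize |a| = x at *
  generalize |b| = y at *
  generalize |c| = z at *
  have h1 : 0 ≤ x + y + z := by linarith
  nlinarith [mul_nonneg hx (sq_nonneg (y - z)), mul_nonneg hy (sq_nonneg (z - x)),
    mul_nonneg hz (sq_nonneg (x - y)), mul_nonneg h1 (sq_nonneg (x - y)),
    mul_nonneg h1 (sq_nonneg (y - z)), mul_nonneg h1 (sq_nonneg (z - x))]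

/-- maximum of `l (b² + c²)` on the octahedron -/
theorem prod_le' (a b c : ℝ) : 27 * (|a| * (b ^ 2 + c ^ 2)) ≤ 4 * (|a| + |b| + |c|) ^ 3 := by
  rw [← sq_abs b, ← sq_abs c]
  have hx := abs_nonneg a
  have hy := abs_nonneg b
  have hz := abs_nonneg c
  generalize |a| = x at *
  generalize |b| = y at *
  generalize |c| = z at *
  have h1 : 0 ≤ x * (2 * (y * z)) := by positivity
  have h2 : 0 ≤ (x + 4 * (y + z)) * (2 * x - (y + z)) ^ 2 := by positivity
  nlinarith [h1, h2]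

end Pool.Agent.CSA
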