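import Mathlib

/-!
# Kernel-checkable tables for Cappell-Shaneson matrices: the check functions

All functions are written for fast evaluation in the kernel (`Nat.rec`, `Nat.mul` etc. are used
directly).
-/

namespace Pool.Agent.CSA


/-- evaluate a natural number before passing it on (only for speed) -/
def st {α : Type} (n : ℕ) (k : ℕ → α) : α := Nat.rec (k 0) (fun m _ => k (m + 1)) n

/-- `if b then x else y` -/
def cond' {α : Type} (b : Bool) (x y : α) : α := Bool.rec y x b

/-! ### roots -/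

/-- `m ∣ f_s(c)`, `f_s(x) = x^3 - s x^2 + (s-1) x - 1`, natural number version (`1 ≤ s`). -/
def isRoot (s m c : ℕ) : Bool :=
  Nat.beq (Nat.mod (Nat.mul c (Nat.add (Nat.mul c c) (Nat.sub s 1))) m) (Nat.mod (Nat.add (Nat.mul s (Nat.mul c c)) 1) m)

/-- the lifts `c, c + d, …` (`n` of them) of `c` which are roots modulo `m`, in front of `acc`. -/
def liftAux (s d m : ℕ) (n c : ℕ) (acc : List ℕ) : List ℕ :=
  Nat.rec (motive := fun _ => ℕ → List ℕ → List ℕ) (fun _ acc => acc)
    (fun _ ih c acc => st c fun c' =>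
      Bool.rec (ih (Nat.add c' d) acc) (ih (Nat.add c' d) (c' :: acc)) (isRoot s m c')) n c acc

/-- all lifts modulo `d * q` of the residues in `rs` modulo `d`. -/
def lifts (s d q : ℕ) : List ℕ → List ℕ
  | [] => []
  | c :: cs => liftAux s d (Nat.mul d q) q c (lifts s d q cs)

/-- depth first enumeration of multiples of `d` by primes in `ps` (ascending) up to `B`. -/
def dfs (s B : ℕ) : ℕ → ℕ → List ℕ → List ℕ → List (ℕ × List ℕ) → List (ℕ × List ℕ)
  | 0, _, _, _, acc => acc
  | _ + 1, _, _, [], acc => acc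
  | k + 1, d, rs, q :: qs, acc =>
    match Nat.ble (Nat.mul d q) B with
    | false => acc
    | true => match lifts s d q rs with
      | [] => dfs s B k d rs qs acc
      | r :: rs' => st (Nat.mul d q) fun d' =>
          (d', r :: rs') :: dfs s B k d' (r :: rs') (q :: qs) (dfs s B k d rs qs acc)

/-! ### root certificates modulo primes -/

/-- square of a polynomial modulo `x^3 = s x^2 + u x + 1` and modulo `p`. -/
def sq (s u p a0 a1 a2 : ℕ) (k : ℕ → ℕ → ℕ → Bool) : Bool :=
  st (Nat.mod (Nat.mul a2 a2) p) fun c4 => st (Nat.mod (Nat.add (Nat.mul 2 (Nat.mul a1 a2)) (Nat.mul c4 s)) p) fun c3 =>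
  st (Nat.mod (Nat.add (Nat.mul a0 a0) c3) p) fun c0 => st (Nat.mod (Nat.add (Nat.add (Nat.mul 2 (Nat.mul a0 a1)) (Nat.mul c3 u)) c4) p) fun c1 =>
  st (Nat.mod (Nat.add (Nat.add (Nat.add (Nat.mul 2 (Nat.mul a0 a2)) (Nat.mul a1 a1)) (Nat.mul c3 s)) (Nat.mul c4 u)) p) fun c2 => k c0 c1 c2

/-- multiplication by `x` -/
def mx (s u p a0 a1 a2 : ℕ) (k : ℕ → ℕ → ℕ → Bool) : Bool :=
  st (Nat.mod (Nat.add a0 (Nat.mul a2 u)) p) fun c1 => st (Nat.mod (Nat.add a1 (Nat.mul a2 s)) p) fun c2 => k a2 c1 c2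

/-- `x ^ n` modulo `(f, p)`; `n` is given by its binary digits, most significant first. -/
def pw (s u p : ℕ) : List Bool → ℕ → ℕ → ℕ → (ℕ → ℕ → ℕ → Bool) → Bool
  | [], a0, a1, a2, k => k a0 a1 a2
  | b :: bs, a0, a1, a2, k => sq s u p a0 a1 a2 fun c0 c1 c2 =>
      match b with
      | true => mx s u p c0 c1 c2 fun e0 e1 e2 => pw s u p bs e0 e1 e2 k
      | false => pw s u p bs c0 c1 c2 k

/-- binary digits, most significant first, in front of `acc` -/
def bits : ℕ → ℕ → List Bool → List Bool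
  | 0, _, acc => acc
  | k + 1, n, acc => st n fun n => match n with
    | 0 => acc
    | m + 1 => bits k (Nat.div (m + 1) 2) (Nat.beq (Nat.mod (m + 1) 2) 1 :: acc)

/-- `f_s` has no root modulo the prime `p`: the resultant of `x^p - x` and `f_s` is not zero. -/
def noRoot (s p : ℕ) : Bool :=
  st (Nat.mod s p) fun s' => st (Nat.mod (Nat.sub (Nat.mul p s) (Nat.sub s 1)) p) fun u =>
  pw s' u p (bits 30 p []) 1 0 0 fun r0 a1 r2 => st (Nat.add a1 (Nat.sub p 1)) fun r1 =>
  mx s' u p r0 r1 r2 fun x0 x1 x2 => mx s' u p x0 x1 x2 fun y0 y1 y2 =>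
  !(Nat.beq (Nat.mod (Nat.add (Nat.add (Nat.mul r0 (Nat.mul x1 y2)) (Nat.mul r1 (Nat.mul x2 y0))) (Nat.mul r2 (Nat.mul x0 y1))) p)
    (Nat.mod (Nat.add (Nat.add (Nat.mul r0 (Nat.mul x2 y1)) (Nat.mul r1 (Nat.mul x0 y2))) (Nat.mul r2 (Nat.mul x1 y0))) p))

/-- `r` is the only root of `f_s` modulo the prime `p`: the discriminant of the other factor is
not a square. -/
def oneRoot (s p r : ℕ) : Bool :=
  Nat.blt r p && isRoot s p r &&
  Nat.beq (Nat.mod (Nat.pow (Nat.mod (Nat.add (Nat.add (Nat.add (Nat.mul s s) (Nat.mul 2 (Nat.mul r s))) 4) (Nat.mul (Nat.sub p 1) (Nat.add (Nat.mul 3 (Nat.mul r r)) (Nat.mul 4 s)))) p) (Nat.div (Nat.sub p 1) 2)) p) (Nat.sub p 1)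

/-- `f_s` is `(x - a) (x - b) (x - c)` modulo the prime `p`. -/
def tri (s p a b c : ℕ) : Bool :=
  Nat.blt a p && Nat.blt b p && Nat.blt c p &&
  Nat.beq (Nat.mod (Nat.add (Nat.add a b) c) p) (Nat.mod s p) &&
  Nat.beq (Nat.mod (Nat.add (Nat.add (Nat.mul a b) (Nat.mul a c)) (Nat.mul b c)) p) (Nat.mod (Nat.sub s 1) p) &&
  Nat.beq (Nat.mod (Nat.mul a (Nat.mul b c)) p) (Nat.mod 1 p)

/-- a root certificate: kind and up to three roots -/
structure RC where
  k : ℕ
  a : ℕ
  b : ℕ
  c : ℕ

/-- the roots given by the certificate -/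
def RC.roots (x : RC) : List ℕ :=
  match x.k with
  | 0 => []
  | 1 => [x.a]
  | 2 => [x.a, x.c]
  | _ => [x.a, x.b, x.c]

/-- validity of a certificate -/
def RC.ok (s p : ℕ) (x : RC) : Bool :=
  match x.k with
  | 0 => noRoot s p
  | 1 => oneRoot s p x.a || tri s p x.a x.a x.a
  | 2 => tri s p x.a x.a x.c
  | _ => tri s p x.a x.b x.c

/-- all certificates (for the primes `ps`, up to `B`) are correct -/
def rcsOK (s B : ℕ) : List ℕ → List RC → Bool
  | [], _ => true
  | p :: ps, rs => match Nat.ble p B with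
    | false => true
    | true => match rs with
      | [] => false
      | r :: rs => r.ok s p && rcsOK s B ps rs

/-- primes `q` of the list with `q ≤ p` and `q * p ≤ B` -/
def cut (p B : ℕ) : List ℕ → List ℕ
  | [] => []
  | q :: qs => match Nat.ble q p with
    | false => []
    | true => match Nat.ble (Nat.mul q p) B with
      | false => []
      | true => q :: cut p B qs

/-- all `(d, roots modulo d)`, `3 ≤ d ≤ B`, `d` odd. -/
def forms (s B : ℕ) (SP : List ℕ) : List ℕ → List RC → List (ℕ × List ℕ)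
  | [], _ => []
  | p :: ps, rs => match Nat.ble p B with
    | false => []
    | true => match rs with
      | [] => []
      | r :: rs' => match r.roots with
        | [] => forms s B SP ps rs'
        | c :: cs => (p, c :: cs) :: dfs s B 60 p (c :: cs) (cut p B SP) (forms s B SP ps rs')

/-! ### certificates for the forms -/

/-- the modulus `2^256` for signed arithmetic -/
def MM : ℕ := 115792089237316195423570985008687907853269984665640564039457584007913129639936

/-- absolute value of a residue modulo `MM` -/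
def ab (a : ℕ) : ℕ := Bool.rec (Nat.sub MM a) a (Nat.ble (Nat.mul 2 a) MM)

/-- Signed arithmetic modulo `MM`.  The vector `(x, y, z)` is coded by
`(x + 2^21) + 2^22 (y + 128) + 2^30 (z + 128)`.  It has content one and norm smaller than `lim` in
absolute value, for the matrix with columns `(al, g, 0), (be, de, b), (ga, ep, ze)`. -/
def vecOK (al g be de b ga ep ze code lim : ℕ) : Bool :=
  st (Nat.mod code 4194304) fun x' => st (Nat.mod (Nat.div code 4194304) 256) fun y' =>
  st (Nat.mod (Nat.div code 1073741824) 256) fun z' =>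
  st (Nat.add x' (Nat.sub MM 2097152)) fun x => st (Nat.add y' (Nat.sub MM 128)) fun y =>
  st (Nat.add z' (Nat.sub MM 128)) fun z =>
  st (Nat.add (Nat.add (Nat.mul al x) (Nat.mul be y)) (Nat.mul ga z)) fun p0 =>
  st (Nat.add (Nat.add (Nat.mul g x) (Nat.mul de y)) (Nat.mul ep z)) fun p1 =>
  st (Nat.add (Nat.mul b y) (Nat.mul ze z)) fun p2 =>
  st (Nat.mod (Nat.add (Nat.mul y p2) (Nat.mul (Nat.sub (Nat.add MM 128) z') p1)) MM) fun w0 =>
  st (Nat.mod (Nat.add (Nat.mul z p0) (Nat.mul (Nat.sub (Nat.add MM 2097152) x') p2)) MM) fun w1 =>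
  st (Nat.mod (Nat.add (Nat.mul x p1) (Nat.mul (Nat.sub (Nat.add MM 128) y') p0)) MM) fun w2 =>
  Nat.beq (Nat.gcd (Nat.gcd (ab w0) (ab w1)) (ab w2)) 1 &&
    Nat.blt (ab (Nat.mod (Nat.add (Nat.add (Nat.mul w0 (Nat.add (Nat.add (Nat.mul al p0) (Nat.mul be p1)) (Nat.mul ga p2))) (Nat.mul w1 (Nat.add (Nat.add (Nat.mul g p0) (Nat.mul de p1)) (Nat.mul ep p2)))) (Nat.mul w2 (Nat.add (Nat.mul b p1) (Nat.mul ze p2)))) MM)) lim

/-- the same for the form `(d, c)`, with `e = d - c`: columns
`(0, 1, 0), (-(e + 1) (s + e - 1), s + e, d), ((1 + e (e + 1) (s + e - 1)) / d, 0, -e)`,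
and limit `d`. -/
def vecOK1 (s d c code : ℕ) : Bool :=
  st (Nat.sub d c) fun e => st (Nat.mul (Nat.add e 1) (Nat.sub (Nat.add s e) 1)) fun t =>
  vecOK 0 1 (Nat.sub MM t) (Nat.add s e) d (Nat.div (Nat.add 1 (Nat.mul e t)) d) 0 (Nat.sub MM e) code d

/-- check of the forms `(d, c)` for fixed `d`; the code `0` means that the form is terminal -/
def chkRs (s d : ℕ) : List ℕ → List ℕ → List (ℕ × ℕ) →
    (List ℕ → List (ℕ × ℕ) → Bool) → Bool
  | [], cs, T, k => k cs T
  | c :: rs, cs, T, k => match cs with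
    | [] => false
    | code :: cs => match code with
      | 0 => match T with
        | [] => false
        | (d', c') :: T => Nat.beq d d' && Nat.beq c c' && chkRs s d rs cs T k
      | code + 1 => vecOK1 s d c (code + 1) && chkRs s d rs cs T k

/-- check of all forms `(d, c)` with `lim < d` -/
def chk1 (s lim : ℕ) : List (ℕ × List ℕ) → List ℕ → List (ℕ × ℕ) → Bool
  | [], _, _ => true
  | (d, rs) :: l, cs, T => match Nat.ble d lim with
    | true => chk1 s lim l cs T
    | false => chkRs s d rs cs T (chk1 s lim l)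

/-- `β` from `0` to `n - 1` with `g β = Q mod b` -/
def betas (g b Q n : ℕ) : List ℕ → List ℕ :=
  Nat.rec (fun acc => acc) (fun n ih acc =>
    Bool.rec (ih acc) (ih (n :: acc)) (Nat.beq (Nat.mod (Nat.mul g n) b) Q)) n

/-- residue modulo `MM` of an integer -/
def res (a : ℤ) : ℕ := (Int.emod a (Int.ofNat MM)).toNat

/-- check of the forms with content `g` at least 3 for given `g, b, al, ze` -/
def chkB (s g b al ze lim : ℕ) : List ℕ → List ℕ → (List ℕ → Bool) → Bool
  | [], cs, k => k cs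
  | be :: bes, cs, k =>
    let de : ℤ := Int.sub (Int.sub (Int.ofNat s) (Int.ofNat al)) (Int.ofNat ze)
    let e : ℤ := Int.sub (Int.add (Int.sub (Int.mul (Int.ofNat al) de) (Int.ofNat (Nat.mul g be))) (Int.mul (Int.add (Int.ofNat al) de) (Int.ofNat ze))) (Int.sub (Int.ofNat s) 1)
    let t : ℤ := Int.add (Int.sub 1 (Int.mul (Int.ofNat al) (Int.sub (Int.mul de (Int.ofNat ze)) e))) (Int.mul (Int.ofNat be) (Int.ofNat (Nat.mul g ze)))
    match (Int.emod t (Int.ofNat (Nat.mul g b))).natAbs with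
    | _ + 1 => chkB s g b al ze lim bes cs k
    | 0 => match cs with
      | [] => false
      | code :: cs => vecOK al g be (res de) b (res (Int.ediv t (Int.ofNat (Nat.mul g b))))
          (res (Int.ediv e (Int.ofNat b))) ze code lim && chkB s g b al ze lim bes cs k

/-- the residue of `g β` modulo `b` -/
def Qres (s b al ze : ℕ) : ℕ :=
  let de : ℤ := Int.sub (Int.sub (Int.ofNat s) (Int.ofNat al)) (Int.ofNat ze)
  (Int.emod (Int.sub (Int.add (Int.mul (Int.ofNat al) de) (Int.mul (Int.add (Int.ofNat al) de) (Int.ofNat ze))) (Int.sub (Int.ofNat s) 1))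
    (Int.ofNat b)).toNat

/-- all `ze` -/
def chkZ (s g b al lim : ℕ) : List ℕ → List ℕ → (List ℕ → Bool) → Bool
  | [], cs, k => k cs
  | ze :: zes, cs, k => st (Qres s b al ze) fun Q => chkB s g b al ze lim (betas g b Q b []) cs
      fun cs => chkZ s g b al lim zes cs k

/-- all `al` -/
def chkA (s g b lim : ℕ) (zes : List ℕ) : List ℕ → List ℕ → (List ℕ → Bool) → Bool
  | [], cs, k => k cs
  | al :: als, cs, k => chkZ s g b al lim zes cs fun cs => chkA s g b lim zes als cs k

/-- all `b` -/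
def chkb (s B g : ℕ) (als : List ℕ) : List (ℕ × List ℕ) → List ℕ → (List ℕ → Bool) → Bool
  | [], cs, k => k cs
  | (b, zes) :: l, cs, k => match Nat.ble (Nat.mul g (Nat.mul g b)) B with
    | false => chkb s B g als l cs k
    | true => chkA s g b (Nat.add B 1) zes als cs fun cs => chkb s B g als l cs k

/-- all `g` -/
def chkg (s B : ℕ) (l0 : List (ℕ × List ℕ)) : List (ℕ × List ℕ) → List ℕ → Bool
  | [], _ => true
  | (g, als) :: l, cs => match Nat.ble (Nat.mul g g) B with
    | false => chkg s B l0 l cs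
    | true => chkb s B g als ((1, [0]) :: l0) cs fun cs => chkg s B l0 l cs

/-- entries with first component at most `m` -/
def small (m : ℕ) : List (ℕ × List ℕ) → List (ℕ × List ℕ)
  | [] => []
  | (d, rs) :: l => match Nat.ble d m with
    | true => (d, rs) :: small m l
    | false => small m l

/-! ### chains of moves -/

/-- One step of a chain: the vector `(x, y, z)` has norm `± m` and residue `c1`; then Gompf's move
(`e = false`) to the trace `n'`, or the move `E1` (`e = true`) to `(m, c2)` at the trace `n'`. -/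
structure Step where
  x : ℤ
  y : ℤ
  z : ℤ
  m : ℤ
  c1 : ℤ
  e : Bool
  c2 : ℤ
  n' : ℤ

/-- divisibility -/
def dvd (m a : ℤ) : Bool := Nat.beq (Nat.mod a.natAbs m.natAbs) 0

/-- validity of a step from the form `(d, c)` with trace `n` -/
def stepOK (n d c : ℤ) (q : Step) : Bool :=
  let be := Int.mul (Int.sub c 1) (Int.sub (Int.sub n c) 1)
  let de := Int.sub n c
  let ga := Int.ediv (Int.add 1 (Int.mul c be)) d
  let p0 := Int.add (Int.mul be q.y) (Int.mul ga q.z)
  let p1 := Int.add q.x (Int.mul de q.y)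
  let p2 := Int.add (Int.mul d q.y) (Int.mul c q.z)
  let w0 := Int.sub (Int.mul q.y p2) (Int.mul q.z p1)
  let w1 := Int.sub (Int.mul q.z p0) (Int.mul q.x p2)
  let w2 := Int.sub (Int.mul q.x p1) (Int.mul q.y p0)
  Nat.beq (Nat.gcd (Nat.gcd w0.natAbs w1.natAbs) w2.natAbs) 1 &&
  Nat.beq (Int.add (Int.add (Int.mul w0 (Int.add (Int.mul be p1) (Int.mul ga p2))) (Int.mul w1 (Int.add p0 (Int.mul de p1)))) (Int.mul w2 (Int.add (Int.mul d p1) (Int.mul c p2)))).natAbs q.m.natAbs &&
  dvd q.m (Int.sub w1 (Int.mul q.c1 w0)) &&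
  dvd q.m (Int.sub (Int.add (Int.add (Int.mul w0 be) (Int.mul w1 de)) (Int.mul w2 d)) (Int.mul q.c1 w1)) &&
  dvd q.m (Int.sub (Int.add (Int.mul w0 ga) (Int.mul w2 c)) (Int.mul q.c1 w2)) &&
  (match q.e with
  | false => Nat.beq (Int.sub q.c2 q.c1).natAbs 0 && dvd q.m (Int.sub q.n' n)
  | true => dvd q.m (Int.sub (Int.mul q.c1 q.c2) 1) &&
      dvd q.m (Int.sub q.n' (Int.sub (Int.add n 1) (Int.mul (Int.mul 2 q.c1) (Int.sub (Int.sub n q.c1) 1)))))

/-- `lo ≤ n ≤ hi` -/
def inI (lo hi n : ℤ) : Bool := Nat.beq (Int.sub lo n).toNat 0 && Nat.beq (Int.sub n hi).toNat 0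

/-- a chain of steps ending at a trace between `lo` and `hi` -/
def chainOK (lo hi : ℤ) : ℤ → ℤ → ℤ → List Step → Bool
  | n, _, _, [] => inI lo hi n
  | n, d, c, q :: qs => stepOK n d c q && chainOK lo hi q.n' q.m q.c2 qs

/-- chains for all forms of the list `T` at the trace `n`; `g` changes the residue -/
def chainsOK (lo hi n : ℤ) (g : ℤ → ℤ → ℤ) : List (ℕ × ℕ) → List (List Step) → Bool
  | [], _ => true
  | _ :: _, [] => false
  | (d, c) :: T, l :: L =>
      chainOK lo hi n (Int.ofNat d) (g (Int.ofNat d) (Int.ofNat c)) l && chainsOK lo hi n g T L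

/-- residue for the trace `s` itself -/
def resP (_ c : ℤ) : ℤ := c

/-- residue of the form at the trace `5 - s` corresponding to `(d, c)` at the trace `s` -/
def resN (s : ℤ) (d c : ℤ) : ℤ := Int.emod (Int.sub 1 (Int.mul c (Int.sub (Int.sub s c) 1))) d

/-! ### decoding of the tables -/

/-- decode `n` root certificates: base 4 digit `k`, then `k` roots (for `k = 2` the roots `a, c`)
in base `2^14` -/
def decR : ℕ → ℕ → List RC
  | 0, _ => []
  | n + 1, N => st N fun N => st (Nat.div N 4) fun N1 =>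
    match Nat.mod N 4 with
    | 0 => ⟨0, 0, 0, 0⟩ :: decR n N1
    | 1 => st (Nat.mod N1 16384) fun a => ⟨1, a, 0, 0⟩ :: decR n (Nat.div N1 16384)
    | 2 => st (Nat.mod N1 16384) fun a => st (Nat.div N1 16384) fun N2 =>
        st (Nat.mod N2 16384) fun c => ⟨2, a, 0, c⟩ :: decR n (Nat.div N2 16384)
    | _ => st (Nat.mod N1 16384) fun a => st (Nat.div N1 16384) fun N2 =>
        st (Nat.mod N2 16384) fun b => st (Nat.div N2 16384) fun N3 =>
        st (Nat.mod N3 16384) fun c => ⟨3, a, b, c⟩ :: decR n (Nat.div N3 16384)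

/-- decode `n` numbers of 38 bits -/
def decV (n N : ℕ) : List ℕ :=
  Nat.rec (motive := fun _ => ℕ → List ℕ) (fun _ => [])
    (fun _ ih N => st N fun N => st (Nat.mod N 274877906944) fun a => a :: ih (Nat.div N 274877906944)) n N

/-- decode `n` pairs, two digits in base `2^14` -/
def decT : ℕ → ℕ → List (ℕ × ℕ)
  | 0, _ => []
  | n + 1, N => st N fun N => st (Nat.mod N 16384) fun a => st (Nat.div N 16384) fun N1 =>
    st (Nat.mod N1 16384) fun b => (a, b) :: decT n (Nat.div N1 16384)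

/-- concatenation over chunks `(count, code)` -/
def cat {α : Type} (f : ℕ → ℕ → List α) : List (ℕ × ℕ) → List α
  | [] => []
  | (n, N) :: l => f n N ++ cat f l

end Pool.Agent.CSA
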