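import Pool.Agent.CSA.Defs
import Pool.Agent.CSA.Check

/-!
# Common definitions for the soundness proofs
-/

namespace Pool.Agent.CSA

open Matrix

theorem st_eq {α : Type} (n : ℕ) (k : ℕ → α) : st n k = k n := by
  cases n <;> rfl

/-- `rs` contains all roots modulo `d`. -/
def Comp (s d : ℕ) (rs : List ℕ) : Prop := ∀ c < d, (d : ℤ) ∣ f s c → c ∈ rs

/-- the real matrix of an integer matrix -/
noncomputable def re (A : M3) : Matrix (Fin 3) (Fin 3) ℝ := A.map (fun x : ℤ => (x : ℝ))

/-- `A* = 1 + (A - 1)⁻¹` -/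
def star (A : M3) : M3 := 1 + (A - 1).adjugate

end Pool.Agent.CSA
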