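import Pool.Agent.CSA.Defs

/-!
# Vectors of content one and the normal form `X a d c n`

`J A d c`: there are `v, t` with `w · t = 1`, `w = v × A v`, `w · A² v = d`, `w · A t = c + k d`.

* `J.conj_X`.  Replace `t` by `t - k A v` (now `w · A t = c`, because `w · A (A v) = d`,
  `w · A v = 0`), then by `t + l v` with `l = - (t × v) · A t` (`w · A t` is unchanged as
  `w · A v = 0`; the new value of `(t × v) · A t` is `0`, because `(t × v) · A v = w · t = 1`).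
  Let `P` be the matrix with columns `v, A v, t`; `det P = w · t = 1`, so `Q := P.adjugate` is its
  inverse, and the rows of `Q` are `A v × t`, `t × v`, `w`.  `B = Q A P` has columns
  `Q (A v) = e₁`, `Q (A² v) = (β, δ, d)`, `Q (A t) = (a, 0, c)`.  `det B = 1` gives
  `a d = 1 + c β`, `det (B - 1) = 1` and this give `β = (c - 1) (δ - 1)`, the trace gives
  `δ = n - c`.  Hence `B = X a d c n` and `a d = - f n c`.
* `J.exists_c` is trivial (`c = w · A t`, `k = 0`).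
* `Nv_ne`: if `Nv A v = 0` then `J A 0 c` for some `c`, so `0 = a * 0 = - f n c`, but `f n c ≠ 0`.
* `J.neg`: use `- v` (`w` does not change, `k` becomes `-k`).
-/

namespace Pool.Agent.CSA

open Matrix

theorem JX_dot (x y : V3) : x ⬝ᵥ y = x 0 * y 0 + x 1 * y 1 + x 2 * y 2 := by
  simp [dotProduct, Fin.sum_univ_three]

theorem JX_c0 (x y : V3) : (x ⨯₃ y) 0 = x 1 * y 2 - x 2 * y 1 := by
  simp [cross_apply]

theorem JX_c1 (x y : V3) : (x ⨯₃ y) 1 = x 2 * y 0 - x 0 * y 2 := by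
  simp [cross_apply]

theorem JX_c2 (x y : V3) : (x ⨯₃ y) 2 = x 0 * y 1 - x 1 * y 0 := by
  simp [cross_apply]

theorem JX_QP (v u t : V3) (h : (v ⨯₃ u) ⬝ᵥ t = 1) :
    Matrix.of ![u ⨯₃ t, t ⨯₃ v, v ⨯₃ u] * (Matrix.of ![v, u, t])ᵀ = 1 := by
  simp only [JX_dot, JX_c0, JX_c1, JX_c2] at h
  ext i j
  fin_cases i <;> fin_cases j <;>
    simp [Matrix.mul_apply, Fin.sum_univ_three, JX_c0, JX_c1, JX_c2] <;>
    linear_combination (norm := ring_nf) (0 : ℤ) * h <;> linear_combination h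

theorem JX_AP (A : M3) (v u t : V3) :
    A * (Matrix.of ![v, u, t])ᵀ = (Matrix.of ![A *ᵥ v, A *ᵥ u, A *ᵥ t])ᵀ := by
  ext i j
  fin_cases j <;> simp [Matrix.mul_apply, Matrix.mulVec, dotProduct]

theorem JX_aux {A : M3} {n d c : ℤ} (hA : CS n A) (v t : V3) (h1 : wv A v ⬝ᵥ t = 1)
    (h2 : Nv A v = d) (h3 : wv A v ⬝ᵥ (A *ᵥ t) = c) (h4 : (t ⨯₃ v) ⬝ᵥ (A *ᵥ t) = 0) :
    ∃ a, a * d = -f n c ∧ Conj A (X a d c n) := by
  unfold wv at h1 h3
  unfold Nv wv at h2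
  set u : V3 := A *ᵥ v with hu
  set u' : V3 := A *ᵥ u with hu'
  set s : V3 := A *ᵥ t with hs
  set P : M3 := (Matrix.of ![v, u, t])ᵀ with hP
  set Q : M3 := Matrix.of ![u ⨯₃ t, t ⨯₃ v, v ⨯₃ u] with hQ
  have hQP : Q * P = 1 := JX_QP v u t h1
  have hPQ : P * Q = 1 := mul_eq_one_comm.1 hQP
  have hAP : A * P = (Matrix.of ![u, u', s])ᵀ := by rw [hP, JX_AP, ← hu, ← hu', ← hs]
  set β : ℤ := (u ⨯₃ t) ⬝ᵥ u' with hβ
  set δ : ℤ := (t ⨯₃ v) ⬝ᵥ u' with hδ
  set a : ℤ := (u ⨯₃ t) ⬝ᵥ s with ha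
  have hB : Q * A * P = !![0, β, a; 1, δ, 0; 0, d, c] := by
    rw [Matrix.mul_assoc, hAP, hQ]
    simp only [JX_dot, JX_c0, JX_c1, JX_c2] at h1 h2 h3 h4 hβ hδ ha
    ext i j
    fin_cases i <;> fin_cases j <;>
      simp [Matrix.mul_apply, Fin.sum_univ_three, JX_c0, JX_c1, JX_c2]
    · ring
    · rw [hβ]
    · rw [ha]
    · linear_combination h1
    · rw [hδ]
    · linear_combination h4
    · ring
    · linear_combination h2
    · linear_combination h3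
  have hc : Conj A (Q * A * P) := ⟨Q, P, hQP, rfl⟩
  have hCS := hA.conj hc
  rw [hB] at hCS hc
  have e1 := hCS.det
  have e2 := hCS.det'
  have e3 := hCS.tr
  rw [Matrix.det_fin_three] at e1 e2
  rw [Matrix.trace_fin_three] at e3
  simp at e1 e2 e3
  have e4 : δ = n - c := by linear_combination e3
  have e5 : β = (c - 1) * (n - c - 1) := by
    rw [e4] at e2
    linear_combination e2 - e1
  refine ⟨a, ?_, ?_⟩
  · unfold f
    rw [e5] at e1
    linear_combination e1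
  · unfold X
    rw [← e5, ← e4]
    exact hc

theorem J.conj_X {A : M3} {n d c : ℤ} (hA : CS n A) (h : J A d c) :
    ∃ a, a * d = -f n c ∧ Conj A (X a d c n) := by
  obtain ⟨v, t, k, h1, h2, h3⟩ := h
  set l : ℤ := -(((t - k • (A *ᵥ v)) ⨯₃ v) ⬝ᵥ (A *ᵥ (t - k • (A *ᵥ v)))) with hl
  refine JX_aux hA v (t - k • (A *ᵥ v) + l • v) ?_ h2 ?_ ?_
  · unfold wv at h1 ⊢
    set u : V3 := A *ᵥ v with hu
    simp only [JX_dot, JX_c0, JX_c1, JX_c2] at h1 ⊢
    simp only [Pi.add_apply, Pi.sub_apply, Pi.smul_apply, smul_eq_mul]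
    linear_combination h1
  · unfold wv at h3 ⊢
    unfold Nv wv at h2
    rw [Matrix.mulVec_add, Matrix.mulVec_sub, Matrix.mulVec_smul, Matrix.mulVec_smul]
    set u : V3 := A *ᵥ v with hu
    set u' : V3 := A *ᵥ u with hu'
    set s : V3 := A *ᵥ t with hs
    simp only [JX_dot, JX_c0, JX_c1, JX_c2] at h2 h3 ⊢
    simp only [Pi.add_apply, Pi.sub_apply, Pi.smul_apply, smul_eq_mul]
    linear_combination h3 - k * h2
  · unfold wv at h1
    have e : A *ᵥ (t - k • (A *ᵥ v) + l • v) = A *ᵥ (t - k • (A *ᵥ v)) + l • (A *ᵥ v) := by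
      rw [Matrix.mulVec_add, Matrix.mulVec_smul]
    rw [e]
    set u : V3 := A *ᵥ v with hu
    set s : V3 := A *ᵥ (t - k • u) with hs
    simp only [JX_dot, JX_c0, JX_c1, JX_c2] at h1 hl ⊢
    simp only [Pi.add_apply, Pi.sub_apply, Pi.smul_apply, smul_eq_mul] at hl ⊢
    linear_combination l * h1 + hl

theorem J.exists_c {A : M3} {v t : V3} (h : wv A v ⬝ᵥ t = 1) : ∃ c, J A (Nv A v) c :=
  ⟨wv A v ⬝ᵥ (A *ᵥ t), v, t, 0, h, rfl, by ring⟩

theorem Nv_ne {A : M3} {n : ℤ} (hA : CS n A) {v t : V3} (h : wv A v ⬝ᵥ t = 1) : Nv A v ≠ 0 := by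
  intro h0
  obtain ⟨c, hc⟩ := J.exists_c h
  rw [h0] at hc
  obtain ⟨a, ha, _⟩ := J.conj_X hA hc
  exact f_ne n c (by linarith)

theorem J.neg {A : M3} {d c : ℤ} (h : J A d c) : J A (-d) c := by
  obtain ⟨v, t, k, h1, h2, h3⟩ := h
  have hw : wv A (-v) = wv A v := by
    unfold wv
    rw [Matrix.mulVec_neg]
    simp
  refine ⟨-v, t, -k, ?_, ?_, ?_⟩
  · rw [hw, h1]
  · unfold Nv at h2 ⊢
    rw [hw, Matrix.mulVec_neg, Matrix.mulVec_neg, dotProduct_neg, h2]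
  · rw [hw, h3]; ring

theorem J.shift {A : M3} {d c : ℤ} (k : ℤ) (h : J A d c) : J A d (c + k * d) := by
  obtain ⟨v, t, l, h1, h2, h3⟩ := h
  exact ⟨v, t, l - k, h1, h2, by rw [h3]; ring⟩

/-- the symbol of a normal form -/
theorem X_J (a d c n : ℤ) : J (X a d c n) d c := by
  have hu : X a d c n *ᵥ ![1, 0, 0] = ![0, 1, 0] := by
    unfold X
    ext i
    fin_cases i <;> simp [Matrix.mulVec, dotProduct, Fin.sum_univ_three]
  have hw : wv (X a d c n) ![1, 0, 0] = ![0, 0, 1] := by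
    unfold wv
    rw [hu]
    ext i
    fin_cases i <;> simp [cross_apply]
  refine ⟨![1, 0, 0], ![0, 0, 1], 0, ?_, ?_, ?_⟩
  · rw [hw]; simp [JX_dot]
  · unfold Nv
    rw [hw, hu]
    unfold X
    simp [JX_dot, Matrix.mulVec, dotProduct, Fin.sum_univ_three]
  · rw [hw]
    unfold X
    simp [JX_dot, Matrix.mulVec, dotProduct, Fin.sum_univ_three]

end Pool.Agent.CSA
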