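import Pool.Agent.CSA.Base
import Pool.Agent.CSA.JX

/-!
# From a vector of content one to a form
`small_of_vec`: `Nv ≠ 0` (`Nv_ne`), `J.exists_c`, `J.neg` to make the norm positive, residue modulo
the norm (`J.shift`), `J.conj_X`.
`res_eq`: `res a` is the residue of `a`.
-/

namespace Pool.Agent.CSA

open Matrix

theorem small_of_vec {n : ℤ} {A : M3} (hA : CS n A) {lim : ℕ}
    (h : ∃ v t : V3, wv A v ⬝ᵥ t = 1 ∧ |Nv A v| < lim) :
    ∃ (m c : ℕ) (a : ℤ), 1 ≤ m ∧ m < lim ∧ c < m ∧ a * m = -f n c ∧ Conj A (X a m c n) := by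
  obtain ⟨v, t, h1, h2⟩ := h
  have h0 := Nv_ne hA h1
  obtain ⟨c0, hc0⟩ := J.exists_c h1
  have hJ : J A ((Nv A v).natAbs : ℤ) c0 := by
    rcases le_total 0 (Nv A v) with h3 | h3
    · rw [Int.natAbs_of_nonneg h3]; exact hc0
    · have : ((Nv A v).natAbs : ℤ) = -Nv A v := by
        rw [← Int.natAbs_neg, Int.natAbs_of_nonneg (by linarith)]
      rw [this]; exact hc0.neg
  have hm : 1 ≤ (Nv A v).natAbs := Int.natAbs_pos.2 h0
  have hm' : (0 : ℤ) < ((Nv A v).natAbs : ℤ) := by exact_mod_cast hm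
  have hJ2 := hJ.shift (-(c0 / ((Nv A v).natAbs : ℤ)))
  have e1 : c0 + -(c0 / ((Nv A v).natAbs : ℤ)) * ((Nv A v).natAbs : ℤ) =
      ((c0 % ((Nv A v).natAbs : ℤ)).toNat : ℤ) := by
    rw [Int.toNat_of_nonneg (Int.emod_nonneg _ hm'.ne')]
    have := Int.emod_add_mul_ediv c0 ((Nv A v).natAbs : ℤ)
    linarith
  rw [e1] at hJ2
  obtain ⟨a, ha, hc⟩ := J.conj_X hA hJ2
  refine ⟨(Nv A v).natAbs, (c0 % ((Nv A v).natAbs : ℤ)).toNat, a, hm, ?_, ?_, ha, hc⟩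
  · have : ((Nv A v).natAbs : ℤ) < lim := by rw [Int.natCast_natAbs]; exact h2
    exact_mod_cast this
  · have h5 := Int.emod_lt_of_pos c0 hm'
    have h6 := Int.emod_nonneg c0 hm'.ne'
    omega

theorem res_eq (a : ℤ) : (res a : ℤ) ≡ a [ZMOD (MM : ℤ)] := by
  have hM : (0 : ℤ) < (MM : ℤ) := by unfold MM; norm_num
  have e : (res a : ℤ) = a % (MM : ℤ) := by
    unfold res
    exact Int.toNat_of_nonneg (Int.emod_nonneg a hM.ne')
  rw [e]
  exact Int.mod_modEq a _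

end Pool.Agent.CSA
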