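import Pool.Agent.CSA.VecOK
import Pool.Agent.CSA.Cert

/-!
# `vecOK1_sound`
Let `e = d - c`, `c' = c - d = - e`; by `X_J`, `J.shift` and `J.conj_X` the matrix
`X a d c s` is conjugate to `X a₁ d (-e) s`, `a₁ d = - f s (-e) = 1 + e (e+1) (s + e - 1)`, i.e.
`X a₁ d (-e) s = H 0 1 (-(e+1)(s+e-1)) (s+e) d a₁ 0 (-e)` (`(c'-1)(s-c'-1) = -(e+1)(s+e-1)`);
`Nat.div` in the test is exact, so its value is `a₁`.  All sizes are at most `2^60` as `s, d < 2^14`.
`vecOK_sound`, `small_of_vec`, `Conj.trans`.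
-/

namespace Pool.Agent.CSA

open Matrix

theorem vecOK1_sound {s d c code : ℕ} {a : ℤ} (hs : 1 ≤ s) (hs' : s < 2 ^ 14) (hd' : d < 2 ^ 14)
    (hc : c < d) (ha : a * d = -f s c) (h : vecOK1 s d c code = true) :
    ∃ (m c' : ℕ) (a' : ℤ), 1 ≤ m ∧ m < d ∧ c' < m ∧ a' * m = -f s c' ∧
      Conj (X a d c s) (X a' m c' s) := by
  have hCS := X_CS ha
  have hJ : J (X a d c s) d ((c : ℤ) + (-1) * d) := (X_J a d c s).shift (-1)
  obtain ⟨a₁, ha₁, hconj⟩ := hJ.conj_X hCS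
  obtain ⟨e, he⟩ : ∃ e : ℕ, e = d - c := ⟨_, rfl⟩
  have hec : (c : ℤ) + (-1) * d = -(e : ℤ) := by
    rw [he, Nat.cast_sub hc.le]; ring
  have hd0 : 0 < d := lt_of_le_of_lt (Nat.zero_le _) hc
  have he1 : 1 ≤ e := by omega
  have hed : e ≤ d := by omega
  rw [hec] at ha₁ hconj
  obtain ⟨t, ht⟩ : ∃ t : ℕ, t = (e + 1) * (s + e - 1) := ⟨_, rfl⟩
  have htz : (t : ℤ) = (e + 1) * (s + e - 1) := by
    rw [ht]; push_cast [Nat.cast_sub (show 1 ≤ s + e by omega)]; ring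
  have ha₁' : a₁ * d = 1 + e * t := by
    rw [ha₁, htz]; unfold f; ring
  have ha₁0 : 0 ≤ a₁ := by
    have : 0 < a₁ * d := by rw [ha₁']; positivity
    have hdz : (0 : ℤ) < d := by exact_mod_cast hd0
    exact (pos_of_mul_pos_left this hdz.le).le
  lift a₁ to ℕ using ha₁0
  have ha₂ : a₁ * d = 1 + e * t := by exact_mod_cast ha₁'
  have hdiv : (1 + e * t) / d = a₁ := by rw [← ha₂, Nat.mul_div_cancel _ hd0]
  have hX : X a₁ d (-(e : ℤ)) s = H 0 1 (-(t : ℤ)) (s + e) d a₁ 0 (-(e : ℤ)) := by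
    unfold X H
    rw [htz]
    ext i j
    fin_cases i <;> fin_cases j <;> simp <;> ring
  have hMM : (MM : ℤ) = 2 ^ 256 := by unfold MM; norm_num
  have ht30 : t ≤ 2 ^ 30 := by
    rw [ht]
    calc (e + 1) * (s + e - 1) ≤ 2 ^ 14 * 2 ^ 15 := Nat.mul_le_mul (by omega) (by omega)
      _ ≤ 2 ^ 30 := by norm_num
  have ha60 : a₁ ≤ 2 ^ 60 := by
    have h1 : a₁ ≤ a₁ * d := Nat.le_mul_of_pos_right _ hd0
    have h2 : e * t ≤ 2 ^ 14 * 2 ^ 30 := Nat.mul_le_mul (by omega) ht30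
    have h3 : (2 : ℕ) ^ 14 * 2 ^ 30 + 1 ≤ 2 ^ 60 := by norm_num
    omega
  have hMMn : MM = 2 ^ 256 := by exact_mod_cast hMM
  have htM : t ≤ MM := by
    rw [hMMn]; exact ht30.trans (Nat.pow_le_pow_right (by norm_num) (by norm_num))
  have heM : e ≤ MM := by
    rw [hMMn]
    have : (2 : ℕ) ^ 14 ≤ 2 ^ 256 := Nat.pow_le_pow_right (by norm_num) (by norm_num)
    omega
  have hv : vecOK 0 1 (MM - t) (s + e) d ((1 + e * t) / d) 0 (MM - e) code d = true := by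
    have h' := h
    unfold vecOK1 at h'
    simp only [st_eq] at h'
    have e1 : Nat.sub d c = e := he.symm
    rw [e1] at h'
    have e2 : Nat.mul (Nat.add e 1) (Nat.sub (Nat.add s e) 1) = t := ht.symm
    rw [e2] at h'
    exact h'
  rw [hdiv] at hv
  have key := vecOK_sound (al := 0) (g := 1) (be := -(t : ℤ)) (de := s + e) (b := d)
    (ga := a₁) (ep := 0) (ze := -(e : ℤ)) (al' := 0) (g' := 1) (be' := MM - t) (de' := s + e)
    (b' := d) (ga' := a₁) (ep' := 0) (ze' := MM - e) (code := code) (lim := d)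
    (by simp) (by simp)
    (by rw [Nat.cast_sub htM]; exact (Int.modEq_iff_dvd.2 ⟨-1, by ring⟩))
    (by push_cast; exact Int.ModEq.refl _) (Int.ModEq.refl _) (Int.ModEq.refl _) (by simp)
    (by rw [Nat.cast_sub heM]; exact (Int.modEq_iff_dvd.2 ⟨-1, by ring⟩))
    (by norm_num) (by norm_num)
    (by rw [abs_neg, Nat.abs_cast]; exact_mod_cast ht30.trans (by norm_num))
    (by
      have : s + e ≤ 2 ^ 60 := by omega
      rw [← Nat.cast_add, Nat.abs_cast]; exact_mod_cast this)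
    (by
      have : d ≤ 2 ^ 60 := by omega
      rw [Nat.abs_cast]; exact_mod_cast this)
    (by rw [Nat.abs_cast]; exact_mod_cast ha60) (by norm_num)
    (by
      have : e ≤ 2 ^ 60 := by omega
      rw [abs_neg, Nat.abs_cast]; exact_mod_cast this) hv
  rw [← hX] at key
  obtain ⟨m, c', a', h1, h2, h3, h4, h5⟩ := small_of_vec (hCS.conj hconj) key
  exact ⟨m, c', a', h1, h2, h3, h4, hconj.trans h5⟩

end Pool.Agent.CSA
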