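import Pool.Agent.CSA.Base

/-!
# Arithmetic of Hessenberg matrices

`hess_arith`: from `CS n (H al g be de b ga ep ze)`: the trace; `det H = 1` is the third equation, and
`det (H - 1) = 1` together with the others gives the second coefficient
`al de - g be + al ze + de ze - b ep = n - 1`.
`g ∣ f n al`: `f n al = g (be (ze - al) - b ga)`; `b ∣ f n ze`: `f n ze = b ((al - ze) ep - g ga)`
(`f n x = - det (H - x)`; or linear combinations of the three equations).
`hess_one`: `v = e₀`, `H v = (al, 1, 0)`, `w = v × H v = e₂`, `w · H (H v) = b`, `t = e₂`,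
`w · H t = ze`, `k = 0`.
-/

namespace Pool.Agent.CSA

open Matrix

theorem hess_arith {n : ℤ} {al g be de b ga ep ze : ℤ} (h : CS n (H al g be de b ga ep ze)) :
    de = n - al - ze ∧ b * ep = al * de - g * be + (al + de) * ze - (n - 1) ∧
      g * b * ga = 1 - al * (de * ze - b * ep) + be * (g * ze) ∧
      g ∣ f n al ∧ b ∣ f n ze := by
  have h1 := h.det
  have h2 := h.det'
  have h3 := h.tr
  unfold H at h1 h2 h3
  rw [Matrix.det_fin_three] at h1 h2
  rw [Matrix.trace_fin_three] at h3
  simp [Matrix.sub_apply] at h1 h2 h3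
  refine ⟨by linarith, by linear_combination h2 - h1 - h3, by linear_combination h1, ?_, ?_⟩
  · refine ⟨be * (ze - al) - b * ga, ?_⟩
    unfold f
    linear_combination (1 - al) * h1 + (al ^ 2 - al) * h3 + al * h2
  · refine ⟨(al - ze) * ep - g * ga, ?_⟩
    unfold f
    linear_combination (1 - ze) * h1 + (ze ^ 2 - ze) * h3 + ze * h2

theorem hess_one (al be de b ga ep ze : ℤ) : J (H al 1 be de b ga ep ze) b ze := by
  refine ⟨![1, 0, 0], ![0, 0, 1], 0, ?_, ?_, ?_⟩ <;>
    simp [wv, Nv, H, cross_apply, Matrix.mulVec, dotProduct, Fin.sum_univ_three]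

end Pool.Agent.CSA
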