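import Pool.Agent.CSA.VecOK
import Pool.Agent.CSA.Cert
import Pool.Agent.CSA.HessA

/-!
# `vecOKg_sound`
-/

namespace Pool.Agent.CSA

open Matrix

theorem CertG_abs_le {b x K : ℤ} (hb : 1 ≤ b) (h : |b * x| ≤ K) : |x| ≤ K := by
  rw [abs_mul, abs_of_pos (by omega : (0 : ℤ) < b)] at h
  have h1 : 0 ≤ |x| := abs_nonneg x
  nlinarith

theorem vecOKg_sound {s al g be b ze code lim : ℕ} {de ga ep : ℤ} (hs' : s < 2 ^ 14)
    (hg' : g < 2 ^ 14) (hb' : b < 2 ^ 14) (h1 : 1 ≤ g) (h2 : 1 ≤ b)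
    (hal : al < g) (hze : ze < b) (hbe : be < b)
    (hA : CS s (H al g be de b ga ep ze))
    (h : vecOK al g be (res de) b (res ga) (res ep) ze code lim = true) :
    ∃ (m c : ℕ) (a : ℤ), 1 ≤ m ∧ m < lim ∧ c < m ∧ a * m = -f s c ∧
      Conj (H al g be de b ga ep ze) (X a m c s) := by
  obtain ⟨e1, e2, e3, -, -⟩ := hess_arith hA
  have s1 : (0 : ℤ) ≤ s := Int.natCast_nonneg s
  have s2 : (s : ℤ) < 2 ^ 14 := by exact_mod_cast hs'
  have g1 : (1 : ℤ) ≤ g := by exact_mod_cast h1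
  have g2 : (g : ℤ) < 2 ^ 14 := by exact_mod_cast hg'
  have b1 : (1 : ℤ) ≤ b := by exact_mod_cast h2
  have b2 : (b : ℤ) < 2 ^ 14 := by exact_mod_cast hb'
  have a1 : (0 : ℤ) ≤ al := Int.natCast_nonneg al
  have a2 : (al : ℤ) < g := by exact_mod_cast hal
  have z1 : (0 : ℤ) ≤ ze := Int.natCast_nonneg ze
  have z2 : (ze : ℤ) < b := by exact_mod_cast hze
  have f1 : (0 : ℤ) ≤ be := Int.natCast_nonneg be
  have f2 : (be : ℤ) < b := by exact_mod_cast hbe
  have a3 : (al : ℤ) ≤ 2 ^ 14 := by omega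
  have z3 : (ze : ℤ) ≤ 2 ^ 14 := by omega
  have f3 : (be : ℤ) ≤ 2 ^ 14 := by omega
  have kde : |de| ≤ 2 ^ 15 := by
    rw [abs_le]
    constructor <;> omega
  have kbep : |(b : ℤ) * ep| ≤ 2 ^ 33 := by
    rw [e2]
    have t1 : |(al : ℤ) * de| ≤ 2 ^ 14 * 2 ^ 15 := by
      rw [abs_mul, abs_of_nonneg a1]
      exact mul_le_mul a3 kde (abs_nonneg _) (by norm_num)
    have t2 : |(g : ℤ) * be| ≤ 2 ^ 14 * 2 ^ 14 := by
      rw [abs_mul, abs_of_nonneg (by omega), abs_of_nonneg f1]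
      exact mul_le_mul (by omega) f3 f1 (by norm_num)
    have t3 : |((al : ℤ) + de) * ze| ≤ (2 ^ 14 + 2 ^ 15) * 2 ^ 14 := by
      rw [abs_mul, abs_of_nonneg z1]
      refine mul_le_mul ?_ z3 z1 (by norm_num)
      refine (abs_add_le _ _).trans ?_
      rw [abs_of_nonneg a1]
      omega
    have t4 : |(s : ℤ) - 1| ≤ 2 ^ 14 := by
      rw [abs_le]
      constructor <;> omega
    rw [abs_le] at *
    norm_num at *
    constructor <;> omega
  have kep : |ep| ≤ 2 ^ 33 := CertG_abs_le b1 kbep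
  have kgbga : |(g : ℤ) * b * ga| ≤ 2 ^ 60 := by
    rw [e3]
    have t1 : |(al : ℤ) * (de * ze - b * ep)| ≤ 2 ^ 14 * (2 ^ 15 * 2 ^ 14 + 2 ^ 33) := by
      rw [abs_mul, abs_of_nonneg a1]
      refine mul_le_mul a3 ?_ (abs_nonneg _) (by norm_num)
      refine (abs_sub _ _).trans ?_
      refine add_le_add ?_ kbep
      rw [abs_mul, abs_of_nonneg z1]
      exact mul_le_mul kde z3 z1 (by norm_num)
    have t2 : |(be : ℤ) * (g * ze)| ≤ 2 ^ 14 * (2 ^ 14 * 2 ^ 14) := by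
      rw [abs_mul, abs_of_nonneg f1, abs_mul, abs_of_nonneg z1, abs_of_nonneg (by omega)]
      refine mul_le_mul f3 ?_ (by positivity) (by norm_num)
      exact mul_le_mul (by omega) z3 z1 (by norm_num)
    rw [abs_le] at *
    norm_num at *
    constructor <;> omega
  have kga : |ga| ≤ 2 ^ 60 := by
    have h3 : (1 : ℤ) ≤ (g : ℤ) * b := by nlinarith
    exact CertG_abs_le h3 kgbga
  have hv := vecOK_sound (al := al) (g := g) (be := be) (de := de) (b := b) (ga := ga) (ep := ep)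
    (ze := ze) (Int.ModEq.refl _) (Int.ModEq.refl _) (Int.ModEq.refl _) (res_eq de)
    (Int.ModEq.refl _) (res_eq ga) (res_eq ep) (Int.ModEq.refl _)
    (by rw [abs_of_nonneg a1]; norm_num at *; omega)
    (by rw [abs_of_nonneg (by omega)]; norm_num at *; omega)
    (by rw [abs_of_nonneg f1]; norm_num at *; omega)
    (kde.trans (by norm_num))
    (by rw [abs_of_nonneg (by omega)]; norm_num at *; omega)
    kga (kep.trans (by norm_num))
    (by rw [abs_of_nonneg z1]; norm_num at *; omega) h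
  exact small_of_vec hA hv

end Pool.Agent.CSA
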