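import Pool.Agent.CSA.MovE
import Pool.Agent.CSA.Check

/-!
# Soundness of the chains of moves

`stepOK n d c q = true` says (with `a d = - f n c`, so `ga = a` because
`1 + c (c-1)(n-c-1) = - f n c`): the vector `v = (q.x, q.y, q.z)` has for `A = X a d c n`
`wv A v = (w0, w1, w2)` with gcd one, `|Nv A v| = |m|`, and `w A = c1 w mod m`.  Take `t` with
`w · t = 1`; then `w · A t = c1 mod m`, so `J A (± m) c1`, hence `J A m c1` (`J.neg`).  By
`good_of_J` it is enough that `Good n m c1`, which follows from `good_gompf` or `good_e1` and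
`Good n' m c2`.
-/

namespace Pool.Agent.CSA

open Matrix

theorem Chain_mul (a b : ℤ) : Int.mul a b = a * b := rfl
theorem Chain_add (a b : ℤ) : Int.add a b = a + b := rfl
theorem Chain_sub (a b : ℤ) : Int.sub a b = a - b := rfl
theorem Chain_ediv (a b : ℤ) : Int.ediv a b = a / b := rfl

theorem Chain_dvd {m a : ℤ} : dvd m a = true ↔ m ∣ a := by
  unfold dvd
  rw [Nat.beq_eq]
  have : Nat.mod a.natAbs m.natAbs = a.natAbs % m.natAbs := rfl
  rw [this, ← Nat.dvd_iff_mod_eq_zero, Int.natAbs_dvd_natAbs]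

theorem Chain_bezout {w0 w1 w2 : ℤ} (h : Nat.gcd (Nat.gcd w0.natAbs w1.natAbs) w2.natAbs = 1) :
    ∃ t0 t1 t2 : ℤ, w0 * t0 + w1 * t1 + w2 * t2 = 1 := by
  have h1 := Int.gcd_eq_gcd_ab w0 w1
  have h2 := Int.gcd_eq_gcd_ab (Int.gcd w0 w1 : ℤ) w2
  have h3 : Int.gcd (Int.gcd w0 w1 : ℤ) w2 = 1 := by
    unfold Int.gcd
    rw [Int.natAbs_natCast]
    exact h
  rw [h3] at h2
  refine ⟨Int.gcdA w0 w1 * Int.gcdA (Int.gcd w0 w1) w2,
    Int.gcdB w0 w1 * Int.gcdA (Int.gcd w0 w1) w2, Int.gcdB (Int.gcd w0 w1) w2, ?_⟩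
  have h4 : (1 : ℤ) = (Int.gcd w0 w1 : ℤ) * Int.gcdA (Int.gcd w0 w1) w2 +
      w2 * Int.gcdB (Int.gcd w0 w1) w2 := by exact_mod_cast h2
  linear_combination -h4 - Int.gcdA (Int.gcd w0 w1) w2 * h1

theorem Chain_core {n d c x y z m c1 a w0 w1 w2 p0 p1 p2 : ℤ} (ha : a * d = -f n c)
    (hp0 : p0 = (c - 1) * (n - c - 1) * y + a * z) (hp1 : p1 = x + (n - c) * y)
    (hp2 : p2 = d * y + c * z)
    (hw0 : w0 = y * p2 - z * p1) (hw1 : w1 = z * p0 - x * p2) (hw2 : w2 = x * p1 - y * p0)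
    (hg : Nat.gcd (Nat.gcd w0.natAbs w1.natAbs) w2.natAbs = 1)
    (hN : (w0 * ((c - 1) * (n - c - 1) * p1 + a * p2) + w1 * (p0 + (n - c) * p1) +
      w2 * (d * p1 + c * p2)).natAbs = m.natAbs)
    (h0 : m ∣ w1 - c1 * w0)
    (h1 : m ∣ w0 * ((c - 1) * (n - c - 1)) + w1 * (n - c) + w2 * d - c1 * w1)
    (h2 : m ∣ w0 * a + w2 * c - c1 * w2) (hG : Good n m c1) : Eqv (X a d c n) A0 := by
  obtain ⟨t0, t1, t2, ht⟩ := Chain_bezout hg
  have hv : X a d c n *ᵥ ![x, y, z] = ![p0, p1, p2] := by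
    unfold X
    ext i
    fin_cases i
    · simp [hp0, vecHead, vecTail]
      ring
    · simp [hp1, vecHead, vecTail]
      ring
    · simp [hp2, vecHead, vecTail]
      ring
  have hw : wv (X a d c n) ![x, y, z] = ![w0, w1, w2] := by
    unfold wv
    rw [hv]
    ext i
    fin_cases i
    · simp [cross_apply, hw0]
    · simp [cross_apply, hw1]
    · simp [cross_apply, hw2]
  have hNv : Nv (X a d c n) ![x, y, z] =
      w0 * ((c - 1) * (n - c - 1) * p1 + a * p2) + w1 * (p0 + (n - c) * p1) +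
      w2 * (d * p1 + c * p2) := by
    unfold Nv
    rw [hw, hv]
    unfold X
    simp [vecHead, vecTail]
    ring
  obtain ⟨k0, hk0⟩ := h0
  obtain ⟨k1, hk1⟩ := h1
  obtain ⟨k2, hk2⟩ := h2
  have hA : wv (X a d c n) ![x, y, z] ⬝ᵥ (X a d c n *ᵥ ![t0, t1, t2]) =
      c1 + (k0 * t0 + k1 * t1 + k2 * t2) * m := by
    rw [hw]
    unfold X
    simp [vecHead, vecTail]
    linear_combination t0 * hk0 + t1 * hk1 + t2 * hk2 + c1 * ht
  have hwt : wv (X a d c n) ![x, y, z] ⬝ᵥ ![t0, t1, t2] = 1 := by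
    rw [hw]
    simp [vecHead, vecTail]
    linear_combination ht
  have hJ : J (X a d c n) m c1 := by
    rcases Int.natAbs_eq_natAbs_iff.1 hN with h | h
    · exact ⟨_, _, k0 * t0 + k1 * t1 + k2 * t2, hwt, by rw [hNv, h], hA⟩
    · have : J (X a d c n) (-m) c1 :=
        ⟨_, _, -(k0 * t0 + k1 * t1 + k2 * t2), hwt, by rw [hNv, h], by rw [hA]; ring⟩
      have := this.neg
      rwa [neg_neg] at this
  exact good_of_J (X_CS ha) hJ hG

theorem stepOK_sound {n d c : ℤ} {q : Step} (h : stepOK n d c q = true)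
    (hg : Good q.n' q.m q.c2) : Good n d c := by
  intro a ha
  have hd : d ≠ 0 := by
    rintro rfl
    apply f_ne n c
    linarith
  have hga : (1 + c * ((c - 1) * (n - c - 1))) / d = a := by
    have : 1 + c * ((c - 1) * (n - c - 1)) = a * d := by
      rw [ha]
      unfold f
      ring
    rw [this, Int.mul_ediv_cancel _ hd]
  simp only [stepOK, Chain_mul, Chain_add, Chain_sub, Chain_ediv, hga, Bool.and_eq_true,
    Nat.beq_eq, Chain_dvd] at h
  obtain ⟨⟨⟨⟨⟨h1, h2⟩, h3⟩, h4⟩, h5⟩, h6⟩ := h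
  refine Chain_core (m := q.m) (c1 := q.c1) (x := q.x) (y := q.y) (z := q.z) ha rfl rfl rfl
    rfl rfl rfl h1 h2 h3 h4 h5 ?_
  cases he : q.e with
  | false =>
    rw [he] at h6
    simp only [Bool.and_eq_true, Nat.beq_eq, Chain_dvd, Int.natAbs_eq_zero] at h6
    obtain ⟨h7, k, hk⟩ := h6
    have h8 : q.c2 = q.c1 := by linarith
    rw [h8] at hg
    refine good_gompf k ?_
    have : n + k * q.m = q.n' := by linarith
    rwa [this]
  | true =>
    rw [he] at h6
    simp only [Bool.and_eq_true, Chain_dvd] at h6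
    exact good_e1 h6.1 h6.2 hg

theorem inI_iff {lo hi n : ℤ} : inI lo hi n = true ↔ lo ≤ n ∧ n ≤ hi := by
  simp only [inI, Chain_sub, Bool.and_eq_true, Nat.beq_eq]
  omega

theorem chainOK_sound {lo hi : ℤ} (H : ∀ n, lo ≤ n → n ≤ hi → ∀ d c, Good n d c) :
    ∀ (l : List Step) (n d c : ℤ), chainOK lo hi n d c l = true → Good n d c := by
  intro l
  induction l with
  | nil =>
    intro n d c h
    have h' : inI lo hi n = true := h
    rw [inI_iff] at h'
    exact H n h'.1 h'.2 d c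
  | cons q qs ih =>
    intro n d c h
    have h' : (stepOK n d c q && chainOK lo hi q.n' q.m q.c2 qs) = true := h
    rw [Bool.and_eq_true] at h'
    exact stepOK_sound h'.1 (ih _ _ _ h'.2)

theorem chainsOK_sound {lo hi n : ℤ} {g : ℤ → ℤ → ℤ}
    (H : ∀ n, lo ≤ n → n ≤ hi → ∀ d c, Good n d c) :
    ∀ (T : List (ℕ × ℕ)) (L : List (List Step)), chainsOK lo hi n g T L = true →
      ∀ d c : ℕ, (d, c) ∈ T → Good n d (g d c) := by
  intro T
  induction T with
  | nil =>
    intro L _ d c hm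
    simp at hm
  | cons t T ih =>
    intro L hL d c hm
    obtain ⟨d', c'⟩ := t
    cases L with
    | nil => exact absurd hL (by simp [chainsOK])
    | cons l L =>
      have h' : (chainOK lo hi n (Int.ofNat d') (g (Int.ofNat d') (Int.ofNat c')) l &&
        chainsOK lo hi n g T L) = true := hL
      rw [Bool.and_eq_true] at h'
      rcases List.mem_cons.1 hm with h | h
      · obtain ⟨rfl, rfl⟩ := Prod.mk.inj h
        exact chainOK_sound H _ _ _ _ h'.1
      · exact ih L h'.2 d c h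

end Pool.Agent.CSA
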