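import Pool.Agent.CSA.Base

/-!
# `complex_roots`: one real root and two complex ones for `0 ≤ n ≤ 5`

`f_n(0) = -1`, `f_n(n + 1) = (n+1) n * 2 - 1 > 0` (for `n ≥ 1`; `f_0(1) = -1`, take `2` there): there is
a real root `r`.  Put `μ = (n - r)/2`, `N = r^2 - n r + n - 1`; then
`f_n(x) = (x - r)(x^2 - 2 μ x + N)`, so `2 μ r + N = n - 1`, `r N = 1`.
`4 (N - μ²) ((r - μ)² + (N - μ²))² = - disc n`: polynomial identity modulo `r + 2 μ = n`,
`2 μ r + N = n - 1`, `r N = 1`.  As `- disc n > 0` for `n = 0, …, 5` (`23` or `31`), `N - μ² > 0`; let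
`ω` be its square root.
-/

namespace Pool.Agent.CSA

theorem complex_roots {n : ℤ} (h0 : 0 ≤ n) (h5 : n ≤ 5) : ∃ r μ ω : ℝ, 0 < ω ∧
    r ^ 3 - n * r ^ 2 + (n - 1) * r - 1 = 0 ∧ r + 2 * μ = n ∧
    μ ^ 2 + ω ^ 2 + 2 * μ * r = n - 1 ∧ r * (μ ^ 2 + ω ^ 2) = 1 ∧
    4 * (ω * ((r - μ) ^ 2 + ω ^ 2)) ^ 2 = -(disc n : ℝ) := by
  have h0' : (0 : ℝ) ≤ (n : ℝ) := by exact_mod_cast h0
  have hdisc : disc n < 0 := by
    unfold disc
    interval_cases n <;> norm_num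
  have hdisc' : (disc n : ℝ) < 0 := by exact_mod_cast hdisc
  have hd : (disc n : ℝ) = ((n : ℝ) ^ 2 - 5 * n) ^ 2 + 6 * ((n : ℝ) ^ 2 - 5 * n) - 23 := by
    unfold disc
    push_cast
    ring
  rw [hd] at hdisc' ⊢
  generalize (n : ℝ) = N at *
  have hc : Continuous (fun x : ℝ => x ^ 3 - N * x ^ 2 + (N - 1) * x - 1) := by fun_prop
  obtain ⟨r, ⟨hr0, hr1⟩, hr⟩ := intermediate_value_Icc (a := (0 : ℝ)) (b := N + 2) (by linarith)
    hc.continuousOn (show (0 : ℝ) ∈ Set.Icc _ _ from by constructor <;> norm_num <;> nlinarith)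
  simp only at hr
  set μ : ℝ := (N - r) / 2 with hμ
  set M : ℝ := r ^ 2 - N * r + N - 1 with hM
  have e1 : r + 2 * μ = N := by rw [hμ]; ring
  have e2 : M + 2 * μ * r = N - 1 := by rw [hμ, hM]; ring
  have e3 : r * M = 1 := by rw [hM]; linear_combination hr
  have key : 4 * (M - μ ^ 2) * ((r - μ) ^ 2 + (M - μ ^ 2)) ^ 2
      = -((N ^ 2 - 5 * N) ^ 2 + 6 * (N ^ 2 - 5 * N) - 23) := by
    have hD : 4 * (M - μ ^ 2) * ((r - μ) ^ 2 + (M - μ ^ 2)) ^ 2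
      = -((r + 2 * μ) ^ 2 * (M + 2 * μ * r) ^ 2 - 4 * (M + 2 * μ * r) ^ 3
        - 4 * (r + 2 * μ) ^ 3 * (r * M)
        + 18 * (r + 2 * μ) * (M + 2 * μ * r) * (r * M) - 27 * (r * M) ^ 2) := by
      ring
    rw [hD, e1, e2, e3]
    ring
  have hpos : 0 < M - μ ^ 2 := by
    by_contra hneg
    push Not at hneg
    have := mul_nonneg (neg_nonneg.2 hneg) (sq_nonneg ((r - μ) ^ 2 + (M - μ ^ 2)))
    nlinarith
  refine ⟨r, μ, Real.sqrt (M - μ ^ 2), Real.sqrt_pos.2 hpos, hr, e1, ?_, ?_, ?_⟩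
  · rw [Real.sq_sqrt hpos.le]; linear_combination e2
  · rw [Real.sq_sqrt hpos.le]; linear_combination e3
  · rw [mul_pow, Real.sq_sqrt hpos.le]; linear_combination key

end Pool.Agent.CSA
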