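import Pool.Agent.CSA.Fam

/-!
# The criterion in final form
-/

namespace Pool.Agent.CSA

open Matrix

theorem crit_det3 (A : M3) (x y z : V3) :
    ((A *ᵥ x) ⨯₃ (A *ᵥ y)) ⬝ᵥ (A *ᵥ z) = A.det * ((x ⨯₃ y) ⬝ᵥ z) := by
  rw [Matrix.det_fin_three]
  simp only [cross_apply, dotProduct, Matrix.mulVec, Fin.sum_univ_three]
  simp
  ring

theorem crit_inv {A B : M3} (hA : A.det = 1) (h : B * A = 1) {v t : V3}
    (ht : wv A v ⬝ᵥ t = 1) :
    wv B (A *ᵥ v) ⬝ᵥ (-t) = 1 ∧ Nv B (A *ᵥ v) = -Nv A v := by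
  have h' : A * B = 1 := mul_eq_one_comm.1 h
  have e1 : B *ᵥ (A *ᵥ v) = v := by rw [Matrix.mulVec_mulVec, h, Matrix.one_mulVec]
  have e2 : A *ᵥ (B *ᵥ v) = v := by rw [Matrix.mulVec_mulVec, h', Matrix.one_mulVec]
  have e3 : wv B (A *ᵥ v) = -wv A v := by
    unfold wv
    rw [e1, ← cross_anticomm]
  refine ⟨by rw [e3]; simp [ht], ?_⟩
  unfold Nv
  rw [e3, e1, neg_dotProduct]
  have h3 := crit_det3 A v (A *ᵥ v) (B *ᵥ v)
  rw [e2, hA, one_mul] at h3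
  have h4 : wv A v ⬝ᵥ (B *ᵥ v) = wv A v ⬝ᵥ (A *ᵥ (A *ᵥ v)) := by
    unfold wv
    rw [← h3]
    simp only [cross_apply, dotProduct, Fin.sum_univ_three]
    simp
    ring
  rw [h4]

theorem crit_pos {n : ℤ} {A : M3} (hA : CS n A)
    (h : (-158 ≤ n ∧ n ≤ 156) ∨ (∃ v t : V3, wv A v ⬝ᵥ t = 1 ∧ |Nv A v| ≤ 315) ∨
      (∃ v t : V3, wv Aᵀ v ⬝ᵥ t = 1 ∧ |Nv Aᵀ v| ≤ 157)) : Eqv A A0 := by
  rcases h with h | ⟨v, t, h1, h2⟩ | ⟨v, t, h1, h2⟩
  · exact eqv_main hA (Or.inl h)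
  · obtain ⟨c, hJ⟩ := J.exists_c h1
    obtain ⟨m, hm, hm'⟩ := exists_win (x := n) (Nv_ne hA h1) h2
    exact eqv_main hA (Or.inr ⟨_, c, m, hm, Or.inl ⟨hJ, Or.inl hm'⟩⟩)
  · obtain ⟨c, hJ⟩ := J.exists_c h1
    have h0 : 2 * Nv Aᵀ v ≠ 0 := mul_ne_zero two_ne_zero (Nv_ne hA.transpose h1)
    have h3 : |2 * Nv Aᵀ v| ≤ 315 := by
      rw [abs_mul, abs_two]
      linarith
    obtain ⟨m, hm, hm'⟩ := exists_win (x := n) h0 h3
    exact eqv_main hA (Or.inr ⟨_, c, m, hm, Or.inr ⟨hJ, Or.inl hm'⟩⟩)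

/-- **Criterion.** Let `A` be an integral `3 × 3` matrix with `det A = 1`, `det (A - 1) = ± 1`.  Suppose
that the trace of `A` is between `-158` and `155`, or that there is a vector `v` with `v × A v` primitive
and `|det (v, A v, A² v)| ≤ 315`, or that the transposed matrix has such a vector with `157` in place
of `315`.  Then `A` can be joined to the base matrix by the moves. -/
theorem eqv_crit {A : M3} (hA : A.det = 1) (hA' : (A - 1).det = 1 ∨ (A - 1).det = -1)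
    (h : (-158 ≤ A.trace ∧ A.trace ≤ 155) ∨ (∃ v t : V3, wv A v ⬝ᵥ t = 1 ∧ |Nv A v| ≤ 315) ∨
      (∃ v t : V3, wv Aᵀ v ⬝ᵥ t = 1 ∧ |Nv Aᵀ v| ≤ 157)) : Eqv A A0 := by
  rcases hA' with hA1 | hA1
  · refine crit_pos (n := A.trace) ⟨hA, hA1, rfl⟩ ?_
    rcases h with h | h | h
    · exact Or.inl ⟨h.1, by omega⟩
    · exact Or.inr (Or.inl h)
    · exact Or.inr (Or.inr h)
  · obtain ⟨B, hB⟩ : ∃ B : M3, B = A.adjugate := ⟨_, rfl⟩
    have hAB : A * B = 1 := by rw [hB, Matrix.mul_adjugate, hA, one_smul]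
    have hBA : B * A = 1 := mul_eq_one_comm.1 hAB
    have hBt : Bᵀ * Aᵀ = 1 := by rw [← Matrix.transpose_mul, hAB, Matrix.transpose_one]
    have hBdet : B.det = 1 := by
      have h1 : A.det * B.det = 1 := by rw [← Matrix.det_mul, hAB, Matrix.det_one]
      rw [hA, one_mul] at h1
      exact h1
    have hB1 : (B - 1).det = 1 := by
      have e : B - 1 = -(B * (A - 1)) := by
        rw [Matrix.mul_sub, hBA, mul_one]; abel
      rw [e, Matrix.det_neg, Matrix.det_mul, hBdet, hA1]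
      simp
    have htr : B.trace = A.trace + 1 := by
      have h3 := hA1
      rw [Matrix.det_fin_three] at h3
      have h4 := hA
      rw [Matrix.det_fin_three] at h4
      rw [hB, Matrix.adjugate_fin_three]
      rw [Matrix.trace_fin_three, Matrix.trace_fin_three]
      simp at h3 ⊢
      linear_combination h4 - h3
    have hBCS : CS (A.trace + 1) B := ⟨hBdet, hB1, htr⟩
    have hE : Eqv B A0 := by
      refine crit_pos hBCS ?_
      rcases h with h | ⟨v, t, h1, h2⟩ | ⟨v, t, h1, h2⟩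
      · exact Or.inl ⟨by omega, by omega⟩
      · obtain ⟨h3, h4⟩ := crit_inv hA hBA h1
        exact Or.inr (Or.inl ⟨_, _, h3, by rw [h4, abs_neg]; exact h2⟩)
      · obtain ⟨h3, h4⟩ := crit_inv (A := Aᵀ) (by rw [Matrix.det_transpose]; exact hA) hBt h1
        exact Or.inr (Or.inr ⟨_, _, h3, by rw [h4, abs_neg]; exact h2⟩)
    exact (Eqv.of (Mv.inv A B hA (Or.inr hA1) hAB)).trans hE

end Pool.Agent.CSA
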