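import Pool.Agent.CSA.Base

/-!
# `cut`
`SP` ascending: `q ∈ SP`, `q ≤ p`, `q * p ≤ B` implies `q ∈ cut p B SP` (all earlier members are
smaller, so both tests succeed); `cut` is a prefix.
-/

namespace Pool.Agent.CSA

theorem Cut_cons_true {p B x : ℕ} {xs : List ℕ} (h1 : x ≤ p) (h2 : x * p ≤ B) :
    cut p B (x :: xs) = x :: cut p B xs := by
  have e1 : Nat.ble x p = true := Nat.ble_eq_true_of_le h1
  have e2 : Nat.ble (Nat.mul x p) B = true := Nat.ble_eq_true_of_le h2
  simp only [cut, e1, e2]

theorem cut_mem {p B : ℕ} {SP : List ℕ} (hS : SP.Pairwise (· < ·)) {q : ℕ} (hq : q ∈ SP)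
    (h1 : q ≤ p) (h2 : q * p ≤ B) : q ∈ cut p B SP := by
  induction SP with
  | nil => simp at hq
  | cons x xs ih =>
    rw [List.pairwise_cons] at hS
    rcases List.mem_cons.1 hq with rfl | hq'
    · rw [Cut_cons_true h1 h2]
      exact List.mem_cons_self
    · have hx : x < q := hS.1 q hq'
      rw [Cut_cons_true (hx.le.trans h1) ((Nat.mul_le_mul_right p hx.le).trans h2)]
      exact List.mem_cons_of_mem _ (ih hS.2 hq')

theorem cut_prefix (p B : ℕ) (SP : List ℕ) : cut p B SP <+: SP := by
  induction SP with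
  | nil => exact List.prefix_rfl
  | cons x xs ih =>
    unfold cut
    split
    · exact List.nil_prefix
    · split
      · exact List.nil_prefix
      · rw [List.cons_prefix_cons]
        exact ⟨rfl, ih⟩

end Pool.Agent.CSA
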