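import Mathlib

/-!
# Cappell-Shaneson matrices: moves and normal forms

`Mv` are the elementary moves on integer matrices under which the homotopy 4-spheres do not
change; `Eqv` is the equivalence relation they generate.
-/

namespace Pool.Agent.CSA

open Matrix

/-- `3 × 3` integer matrices. -/
abbrev M3 := Matrix (Fin 3) (Fin 3) ℤ

/-- integer vectors -/
abbrev V3 := Fin 3 → ℤ

/-- Cappell-Shaneson matrices of trace `n`. -/
structure CS (n : ℤ) (A : M3) : Prop where
  det : A.det = 1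
  det' : (A - 1).det = 1
  tr : A.trace = n

/-- The elementary moves: conjugation, inverse, the move `E1`, and Gompf's move.  In the last two
`A e₀ = e₀ + e₁`. -/
inductive Mv : M3 → M3 → Prop
  | conj (A P Q : M3) (hA : A.det = 1) (hA' : (A - 1).det = 1) (h : P * Q = 1) : Mv A (P * A * Q)
  | inv (A B : M3) (hA : A.det = 1) (hA' : (A - 1).det = 1 ∨ (A - 1).det = -1)
      (h : A * B = 1) : Mv A B
  | e1 (A : M3) (hA : A.det = 1) (hA' : (A - 1).det = 1)
      (h0 : A 0 0 = 1) (h1 : A 1 0 = 1) (h2 : A 2 0 = 0) :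
      Mv A (!![1, 0, 0; -2, 1, 0; 0, 0, 1] * A)
  | gompf (A : M3) (k : ℤ) (hA : A.det = 1) (hA' : (A - 1).det = 1)
      (h0 : A 0 0 = 1) (h1 : A 1 0 = 1) (h2 : A 2 0 = 0) :
      Mv A (!![1, 0, 0; 0, 1, k; 0, 0, 1] * A)

/-- the equivalence relation generated by the moves -/
def Eqv : M3 → M3 → Prop := Relation.EqvGen Mv

theorem Eqv.refl (A : M3) : Eqv A A := Relation.EqvGen.refl A
theorem Eqv.symm {A B : M3} (h : Eqv A B) : Eqv B A := Relation.EqvGen.symm _ _ h
theorem Eqv.trans {A B C : M3} (h : Eqv A B) (h' : Eqv B C) : Eqv A C :=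
  Relation.EqvGen.trans _ _ _ h h'
theorem Eqv.of {A B : M3} (h : Mv A B) : Eqv A B := Relation.EqvGen.rel _ _ h

/-- similarity over the integers -/
def Conj (A B : M3) : Prop := ∃ P Q : M3, P * Q = 1 ∧ B = P * A * Q

/-- `f_n(x) = x^3 - n x^2 + (n-1) x - 1`, the value of the characteristic polynomial. -/
def f (n x : ℤ) : ℤ := x ^ 3 - n * x ^ 2 + (n - 1) * x - 1

/-- discriminant of `f_n` -/
def disc (n : ℤ) : ℤ := (n ^ 2 - 5 * n) ^ 2 + 6 * (n ^ 2 - 5 * n) - 23

/-- The normal form with columns `(0, 1, 0)`, `((c-1)(n-c-1), n-c, d)`, `(a, 0, c)`; used when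
`a d = - f_n(c)`. -/
def X (a d c n : ℤ) : M3 := !![0, (c - 1) * (n - c - 1), a; 1, n - c, 0; 0, d, c]

/-- the base matrix (trace `-1`) -/
def A0 : M3 := !![0, 0, 1; 1, 0, 2; 0, 1, -1]

/-- the covector `v × A v` -/
def wv (A : M3) (v : V3) : V3 := v ⨯₃ (A *ᵥ v)

/-- the norm `det (v, A v, A² v)` -/
def Nv (A : M3) (v : V3) : ℤ := wv A v ⬝ᵥ (A *ᵥ (A *ᵥ v))

/-- `A` has a vector `v` with `v × A v` primitive, of norm `d` and with residue `c`. -/
def J (A : M3) (d c : ℤ) : Prop :=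
  ∃ (v t : V3) (k : ℤ), wv A v ⬝ᵥ t = 1 ∧ Nv A v = d ∧ wv A v ⬝ᵥ (A *ᵥ t) = c + k * d

/-- Upper Hessenberg matrix with columns `(al, g, 0)`, `(be, de, b)`, `(ga, ep, ze)`. -/
def H (al g be de b ga ep ze : ℤ) : M3 := !![al, be, ga; g, de, ep; 0, b, ze]

/-- The form with symbol `(d, c)` and trace `n` is equivalent to the base matrix. -/
def Good (n d c : ℤ) : Prop := ∀ a : ℤ, a * d = -f n c → Eqv (X a d c n) A0

theorem Conj.refl (A : M3) : Conj A A := ⟨1, 1, by simp, by simp⟩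

theorem Conj.symm {A B : M3} (h : Conj A B) : Conj B A := by
  obtain ⟨P, Q, h1, rfl⟩ := h
  have h2 : Q * P = 1 := mul_eq_one_comm.1 h1
  refine ⟨Q, P, h2, ?_⟩
  calc A = (Q * P) * A * (Q * P) := by rw [h2, one_mul, mul_one]
    _ = Q * (P * A * Q) * P := by simp only [Matrix.mul_assoc]

theorem Conj.trans {A B C : M3} (h : Conj A B) (h' : Conj B C) : Conj A C := by
  obtain ⟨P, Q, h1, rfl⟩ := h
  obtain ⟨P', Q', h1', rfl⟩ := h'
  refine ⟨P' * P, Q * Q', ?_, by simp only [Matrix.mul_assoc]⟩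
  calc P' * P * (Q * Q') = P' * (P * Q) * Q' := by simp only [Matrix.mul_assoc]
    _ = 1 := by rw [h1, mul_one, h1']

theorem det_conj {P Q A : M3} (h : P * Q = 1) : (P * A * Q).det = A.det := by
  have h1 : P.det * Q.det = 1 := by rw [← Matrix.det_mul, h, Matrix.det_one]
  rw [Matrix.det_mul, Matrix.det_mul]
  linear_combination A.det * h1

theorem CS.conj {n : ℤ} {A B : M3} (hA : CS n A) (h : Conj A B) : CS n B := by
  obtain ⟨P, Q, h1, rfl⟩ := h
  have h2 : Q * P = 1 := mul_eq_one_comm.1 h1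
  refine ⟨by rw [det_conj h1, hA.det], ?_, ?_⟩
  · have : P * A * Q - 1 = P * (A - 1) * Q := by
      rw [Matrix.mul_sub, Matrix.sub_mul, mul_one, h1]
    rw [this, det_conj h1, hA.det']
  · rw [Matrix.trace_mul_comm, ← Matrix.mul_assoc, h2, one_mul, hA.tr]

theorem CS.eqv {n : ℤ} {A B : M3} (hA : CS n A) (h : Conj A B) : Eqv A B := by
  obtain ⟨P, Q, h1, rfl⟩ := h
  exact Eqv.of (Mv.conj A P Q hA.det hA.det' h1)

theorem f_odd (n x : ℤ) : f n x % 2 = 1 := by
  have h : f n x = x * (x - 1) * (x - n + 1) - 1 := by unfold f; ring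
  rw [h]
  have h1 : (x * (x - 1)) % 2 = 0 := by
    rcases Int.emod_two_eq_zero_or_one x with h | h <;> simp [Int.mul_emod, Int.sub_emod, h]
  have h2 : (x * (x - 1) * (x - n + 1)) % 2 = 0 := by rw [Int.mul_emod, h1]; simp
  omega

theorem f_ne (n x : ℤ) : f n x ≠ 0 := by
  intro h
  have := f_odd n x
  rw [h] at this
  simp at this

theorem X_CS {a d c n : ℤ} (h : a * d = -f n c) : CS n (X a d c n) := by
  unfold f at h
  refine ⟨?_, ?_, ?_⟩
  · unfold X
    rw [Matrix.det_fin_three]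
    simp
    linear_combination h
  · unfold X
    rw [Matrix.det_fin_three]
    simp
    linear_combination h
  · unfold X
    rw [Matrix.trace_fin_three]
    simp

end Pool.Agent.CSA
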