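import Pool.Agent.CSA.Lft

/-!
# Completeness of the depth first search

`dfs_acc`: entries of `acc` stay in the result (induction on `k`).
`dfs_complete`, by induction on the fuel `k`.  `ps` is ascending with all members at least `3`; the
fuel is sufficient if `ps.length + j ≤ k` and `B < d * 3^j`.  Claim: for every `m > 1` all of whose prime
factors are in `ps`, `d * m ≤ B`, and every root `c < d m` modulo `d m`, some
`(d * m, rs')` with `c ∈ rs'` is in the result.  For `ps = q :: qs`: if `q ∣ m`, `m = q m'`, then
`d q ≤ B`, so the test succeeds, `c % (d q)` is in `lifts s d q rs` (`root_mod`, `lifts_complete`), which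
is therefore not empty; either `m' = 1` and we are at the new entry, or use the claim for
`(d q, q :: qs, j - 1)` (`j ≥ 1` as `B < d` is false; the prime factors of `m'` are prime factors of
`m`).  If `q ∤ m` then the prime factors of `m` are in `qs`; one of them is `> q`, hence `d q ≤ B`, and
the claim for `(d, qs, j)` applies (in the case of empty `lifts` directly, otherwise the result of
`dfs s B k d rs qs acc` is contained in the final list by `dfs_acc`).  `ps = []`: `m > 1` has a prime
factor, contradiction.  (`j = 0`: `B < d`, contradiction to `d * m ≤ B`.)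
-/

namespace Pool.Agent.CSA

theorem dfs_acc {s B : ℕ} : ∀ (k d : ℕ) (rs ps : List ℕ) (acc : List (ℕ × List ℕ)),
    ∀ x ∈ acc, x ∈ dfs s B k d rs ps acc := by
  intro k
  induction k with
  | zero => intro d rs ps acc x hx; simpa [dfs] using hx
  | succ k ih =>
    intro d rs ps acc x hx
    cases ps with
    | nil => simpa [dfs] using hx
    | cons q qs =>
      unfold dfs
      split
      · exact hx
      · split
        · exact ih _ _ _ _ x hx
        · rw [st_eq]
          exact List.mem_cons_of_mem _ (ih _ _ _ _ x (ih _ _ _ _ x hx))

theorem Dfs_small {B d m j : ℕ} (h : B < d * 3 ^ j) (hm : 1 < m) (hd : d * m ≤ B) : 1 ≤ j := by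
  by_contra hj
  have hj0 : j = 0 := by omega
  subst hj0
  rw [pow_zero, mul_one] at h
  have : d * 1 ≤ d * m := Nat.mul_le_mul_left d hm.le
  omega

theorem dfs_complete {s B : ℕ} (hs : 1 ≤ s) : ∀ (k j d : ℕ) (rs ps : List ℕ)
    (acc : List (ℕ × List ℕ)), ps.length + j ≤ k → B < d * 3 ^ j → 1 ≤ d → Comp s d rs →
    ps.Pairwise (· < ·) → (∀ q ∈ ps, 3 ≤ q) →
    ∀ m c, 1 < m → d * m ≤ B → (∀ q, q.Prime → q ∣ m → q ∈ ps) → c < d * m →
      ((d * m : ℕ) : ℤ) ∣ f s c → ∃ rs', (d * m, rs') ∈ dfs s B k d rs ps acc ∧ c ∈ rs' := by
  intro k
  induction k with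
  | zero =>
    intro j d rs ps acc hk hB hd hrs hps hps3 m c hm hdm hpf hc hf
    exfalso
    have := Dfs_small hB hm hdm
    omega
  | succ k ih =>
    intro j d rs ps acc hk hB hd hrs hps hps3 m c hm hdm hpf hc hf
    have hj := Dfs_small hB hm hdm
    obtain ⟨r0, hr0p, hr0⟩ := Nat.exists_prime_and_dvd (n := m) (by omega)
    cases ps with
    | nil => exact absurd (hpf r0 hr0p hr0) (by simp)
    | cons q qs =>
      have hq3 : 3 ≤ q := hps3 q (by simp)
      rw [List.pairwise_cons] at hps
      simp only [List.length_cons] at hk
      by_cases hqm : q ∣ m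
      · obtain ⟨m', rfl⟩ := hqm
        have hm'0 : 0 < m' := by
          rcases Nat.eq_zero_or_pos m' with h | h
          · rw [h] at hm; omega
          · exact h
        have hdq : d * q ≤ B := by
          refine le_trans ?_ hdm
          exact Nat.mul_le_mul_left d (Nat.le_mul_of_pos_right q hm'0)
        have hble : Nat.ble (Nat.mul d q) B = true := by rw [Nat.ble_eq]; exact hdq
        have hcomp := lifts_complete (q := q) hs hd hrs
        have hdvd : d * q ∣ d * (q * m') := ⟨m', by ring⟩
        have hcm : c % (d * q) ∈ lifts s d q rs :=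
          hcomp _ (Nat.mod_lt _ (by positivity)) (root_mod hdvd hf)
        unfold dfs
        rw [hble]
        simp only
        split
        · rename_i heq
          rw [heq] at hcm
          exact absurd hcm (by simp)
        · rename_i r rs' heq
          rw [st_eq]
          rw [heq] at hcm
          by_cases hm' : m' = 1
          · subst hm'
            refine ⟨r :: rs', ?_, ?_⟩
            · rw [mul_one]
              exact List.mem_cons_self
            · rw [mul_one] at hc
              rwa [Nat.mod_eq_of_lt hc] at hcm
          · have hj1 : (j - 1) + 1 = j := by omega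
            have hB' : B < d * q * 3 ^ (j - 1) := by
              refine lt_of_lt_of_le hB ?_
              rw [← hj1, pow_succ, Nat.add_sub_cancel]
              calc d * (3 ^ (j - 1) * 3) = d * 3 * 3 ^ (j - 1) := by ring
                _ ≤ d * q * 3 ^ (j - 1) :=
                  Nat.mul_le_mul_right _ (Nat.mul_le_mul_left d hq3)
            have hassoc : d * q * m' = d * (q * m') := by ring
            obtain ⟨rs'', h1, h2⟩ := ih (j - 1) (d * q) (r :: rs') (q :: qs)
              (dfs s B k d rs qs acc) (by simp only [List.length_cons]; omega) hB'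
              (Nat.mul_pos hd (by omega)) (by rw [← heq]; exact hcomp)
              (List.pairwise_cons.2 hps) hps3 m' c (by omega) (by rw [hassoc]; exact hdm)
              (fun p hp hpm => hpf p hp (Dvd.dvd.mul_left hpm q)) (by rw [hassoc]; exact hc)
              (by rw [hassoc]; exact hf)
            rw [hassoc] at h1
            exact ⟨rs'', List.mem_cons_of_mem _ h1, h2⟩
      · have hpf' : ∀ p, p.Prime → p ∣ m → p ∈ qs := by
          intro p hp hpm
          rcases List.mem_cons.1 (hpf p hp hpm) with h | h
          · rw [h] at hpm
            exact absurd hpm hqm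
          · exact h
        have hr0q : q < r0 := hps.1 r0 (hpf' r0 hr0p hr0)
        have hr0m : r0 ≤ m := Nat.le_of_dvd (by omega) hr0
        have hdq : d * q ≤ B := by
          refine le_trans ?_ hdm
          exact Nat.mul_le_mul_left d (by omega)
        have hble : Nat.ble (Nat.mul d q) B = true := by rw [Nat.ble_eq]; exact hdq
        obtain ⟨rs'', h1, h2⟩ := ih j d rs qs acc (by omega) hB hd hrs hps.2
          (fun p hp => hps3 p (List.mem_cons_of_mem _ hp)) m c hm hdm hpf' hc hf
        unfold dfs
        rw [hble]
        simp only
        split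
        · exact ⟨rs'', h1, h2⟩
        · rw [st_eq]
          exact ⟨rs'', List.mem_cons_of_mem _ (dfs_acc _ _ _ _ _ _ h1), h2⟩

end Pool.Agent.CSA
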