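import Pool.Agent.CSA.Base

/-!
# `char_eval`, `left_eig`: a real root of `f_n` is an eigenvalue for row vectors

`char_eval`: `det (A - x) = - f_n(x)`: expand with `Matrix.det_fin_three`; from `CS n A` we have the
integer equations `det A = 1`, `det (A - 1) = 1`, `trace A = n` (expand them with
`Matrix.det_fin_three`, `Matrix.trace_fin_three` and cast to `ℝ`); the result is a linear combination:
`det (A - x) = det A - e₂(A) x + (tr A) x² - x³` and `1 = det (A - 1) = det A - e₂(A) + tr A - 1`.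
`left_eig`: `Matrix.exists_vecMul_eq_zero_iff` for `re A - x • 1`.
-/

namespace Pool.Agent.CSA

open Matrix

theorem char_eval {n : ℤ} {A : M3} (hA : CS n A) (x : ℝ) :
    (re A - x • (1 : Matrix (Fin 3) (Fin 3) ℝ)).det
      = -(x ^ 3 - n * x ^ 2 + (n - 1) * x - 1) := by
  have h1 := hA.det
  have h2 := hA.det'
  have h3 := hA.tr
  rw [Matrix.det_fin_three] at h1 h2 ⊢
  rw [Matrix.trace_fin_three] at h3
  simp only [Matrix.sub_apply, Matrix.one_apply, Matrix.smul_apply, re, Matrix.map_apply,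
    smul_eq_mul, Fin.isValue, if_true, Fin.reduceEq, if_false, mul_one, mul_zero, sub_zero] at h2 ⊢
  have h1' := congrArg (fun z : ℤ => (z : ℝ)) h1
  have h2' := congrArg (fun z : ℤ => (z : ℝ)) h2
  have h3' := congrArg (fun z : ℤ => (z : ℝ)) h3
  push_cast at h1' h2' h3'
  linear_combination (1 - x) * h1' + (x ^ 2 - x) * h3' + x * h2'

theorem left_eig {n : ℤ} {A : M3} (hA : CS n A) {x : ℝ}
    (hx : x ^ 3 - n * x ^ 2 + (n - 1) * x - 1 = 0) :
    ∃ y : Fin 3 → ℝ, y ≠ 0 ∧ y ᵥ* re A = x • y := by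
  have hdet : (re A - x • (1 : Matrix (Fin 3) (Fin 3) ℝ)).det = 0 := by
    rw [char_eval hA x, hx, neg_zero]
  obtain ⟨y, hy, h⟩ := Matrix.exists_vecMul_eq_zero_iff.mpr hdet
  refine ⟨y, hy, ?_⟩
  rw [Matrix.vecMul_sub, Matrix.vecMul_smul, Matrix.vecMul_one, sub_eq_zero] at h
  exact h

end Pool.Agent.CSA
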