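import Pool.Agent.CSA.Eig

/-!
# `left_eig2`: the invariant plane of row vectors

Real rows `a, b`, not both zero, with `a A = μ a - ω b`, `b A = ω a + μ b`: the real and imaginary part
of a complex left eigenvector `a + i b` for `μ + i ω`.
Elementary proof: let `M = A² - 2 μ A + (μ² + ω²)` (real matrices).  By Cayley-Hamilton and
`f_n(x) = (x - r) (x² - 2 μ x + μ² + ω²)` we have `(A - r) M = 0`
(`A³ - n A² + (n-1) A - 1 = 0`: `Matrix.aeval_self_charpoly`, or entrywise from `CS n A`).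
`A - r ≠ 0` (a scalar integer matrix `A = r` would have `det A = r³ = 1`, `det (A-1) = (r-1)³ = 1`), so a
nonzero row `a` of `A - r` satisfies `a M = 0`; put `b = (μ a - a A) / ω`; then
`b A = (μ a A - a A²)/ω = (μ a A - 2 μ a A + (μ²+ω²) a)/ω = ω a + μ (μ a - a A)/ω = ω a + μ b`.
-/

namespace Pool.Agent.CSA

open Matrix

theorem Eig2_CH (A : M3) (e : ℤ) (he : A 0 0 * A 1 1 - A 0 1 * A 1 0 + A 0 0 * A 2 2 -
    A 0 2 * A 2 0 + A 1 1 * A 2 2 - A 1 2 * A 2 1 = e) :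
    A * A * A - A.trace • (A * A) + e • A - A.det • (1 : M3) = 0 := by
  subst he
  ext i j
  rw [Matrix.trace_fin_three, Matrix.det_fin_three]
  fin_cases i <;> fin_cases j <;>
    simp only [Matrix.sub_apply, Matrix.add_apply, Matrix.smul_apply, smul_eq_mul,
      Matrix.zero_apply, Matrix.mul_apply, Fin.sum_univ_three, Fin.zero_eta, Fin.mk_one,
      Fin.reduceFinMk, Matrix.one_apply, Fin.reduceEq, if_true, if_false, Fin.isValue] <;> ring1

theorem Eig2_CH' {n : ℤ} {A : M3} (hA : CS n A) :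
    A * A * A - n • (A * A) + (n - 1) • A - 1 = 0 := by
  have h2 := hA.det
  have h3 := hA.det'
  have h4 := hA.tr
  have h5 : A 0 0 * A 1 1 - A 0 1 * A 1 0 + A 0 0 * A 2 2 - A 0 2 * A 2 0 + A 1 1 * A 2 2
      - A 1 2 * A 2 1 = n - 1 := by
    rw [Matrix.det_fin_three] at h2 h3
    rw [Matrix.trace_fin_three] at h4
    simp at h3
    linear_combination h2 - h3 + h4
  have h1 := Eig2_CH A _ h5
  rw [h2, h4, one_smul] at h1
  exact h1

theorem left_eig2 {n : ℤ} {A : M3} (hA : CS n A) {r μ ω : ℝ} (hω : 0 < ω)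
    (h1 : r + 2 * μ = n) (h2 : μ ^ 2 + ω ^ 2 + 2 * μ * r = n - 1)
    (h3 : r * (μ ^ 2 + ω ^ 2) = 1) :
    ∃ a b : Fin 3 → ℝ, (a ≠ 0 ∨ b ≠ 0) ∧ a ᵥ* re A = μ • a - ω • b ∧ b ᵥ* re A = ω • a + μ • b := by
  have hCH : re A * re A * re A - (n : ℝ) • (re A * re A) + ((n : ℝ) - 1) • re A - 1 = 0 := by
    have h := congrArg (fun B : M3 => (Int.castRingHom ℝ).mapMatrix B) (Eig2_CH' hA)
    simp only [map_sub, map_add, map_mul, map_one, map_zero, map_zsmul] at h
    have hr : (Int.castRingHom ℝ).mapMatrix A = re A := rfl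
    rw [hr] at h
    rw [← h]
    rw [← Int.cast_smul_eq_zsmul ℝ n, ← Int.cast_smul_eq_zsmul ℝ (n - 1)]
    push_cast
    rfl
  have hfac : (re A - r • (1 : Matrix (Fin 3) (Fin 3) ℝ)) *
      (re A * re A - (2 * μ) • re A + (μ ^ 2 + ω ^ 2) • (1 : Matrix (Fin 3) (Fin 3) ℝ)) = 0 := by
    have e0 : (re A - r • (1 : Matrix (Fin 3) (Fin 3) ℝ)) *
      (re A * re A - (2 * μ) • re A + (μ ^ 2 + ω ^ 2) • (1 : Matrix (Fin 3) (Fin 3) ℝ))
      = re A * re A * re A - (r + 2 * μ) • (re A * re A) + (μ ^ 2 + ω ^ 2 + 2 * μ * r) • re A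
        - (r * (μ ^ 2 + ω ^ 2)) • (1 : Matrix (Fin 3) (Fin 3) ℝ) := by
      simp only [sub_mul, mul_add, mul_sub, smul_mul_assoc, mul_smul_comm, one_mul, mul_one,
        ← mul_assoc]
      module
    rw [e0, h1, h2, h3, one_smul]
    exact hCH
  generalize hR : re A = R at *
  generalize hM : R * R - (2 * μ) • R + (μ ^ 2 + ω ^ 2) • (1 : Matrix (Fin 3) (Fin 3) ℝ) = M at hfac
  have hne : ∃ i, (R - r • (1 : Matrix (Fin 3) (Fin 3) ℝ)) i ≠ 0 := by
    by_contra hcon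
    push Not at hcon
    have hij : ∀ i j, (A i j : ℝ) = r * (1 : Matrix (Fin 3) (Fin 3) ℝ) i j := by
      intro i j
      have := congrFun (hcon i) j
      have h' : R i j - r * (1 : Matrix (Fin 3) (Fin 3) ℝ) i j = 0 := by simpa using this
      rw [← hR] at h'
      have h'' : re A i j = (A i j : ℝ) := rfl
      rw [h''] at h'
      linarith
    have d1 := hA.det
    have d2 := hA.det'
    rw [Matrix.det_fin_three] at d1 d2
    have d1' := congrArg (Int.cast : ℤ → ℝ) d1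
    have d2' := congrArg (Int.cast : ℤ → ℝ) d2
    simp at d1' d2'
    rw [hij 0 0, hij 1 1, hij 2 2, hij 0 1, hij 0 2, hij 1 0, hij 1 2, hij 2 0, hij 2 1] at d1' d2'
    simp at d1' d2'
    nlinarith [sq_nonneg (2 * r - 1)]
  obtain ⟨i, hi⟩ := hne
  set a := (R - r • (1 : Matrix (Fin 3) (Fin 3) ℝ)) i with ha
  have haM : a ᵥ* M = 0 := by
    rw [ha, ← Matrix.mul_apply_eq_vecMul, hfac]
    rfl
  have haM' : (a ᵥ* R) ᵥ* R - (2 * μ) • (a ᵥ* R) + (μ ^ 2 + ω ^ 2) • a = 0 := by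
    rw [← haM, ← hM, Matrix.vecMul_add, Matrix.vecMul_sub, Matrix.vecMul_smul, Matrix.vecMul_smul,
      Matrix.vecMul_one, Matrix.vecMul_vecMul]
  refine ⟨a, ω⁻¹ • (μ • a - a ᵥ* R), Or.inl hi, ?_, ?_⟩
  · rw [smul_smul, mul_inv_cancel₀ hω.ne', one_smul]
    abel
  · rw [Matrix.smul_vecMul, Matrix.sub_vecMul, Matrix.smul_vecMul]
    have h4 : (a ᵥ* R) ᵥ* R = (2 * μ) • (a ᵥ* R) - (μ ^ 2 + ω ^ 2) • a := by
      have := haM'
      linear_combination (exp := 1) this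
    rw [h4]
    ext j
    simp
    field_simp
    ring

end Pool.Agent.CSA
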