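import Pool.Agent.CSA.IsR

/-!
# The certificate for no roots

Suppose that `c` is a root of `f_s` modulo the prime `p`; work in `ZMod p`.  For a triple
`(a0, a1, a2)` let `ev = a0 + a1 c + a2 c²`.  Because `c³ = s c² + u c + 1` (`u = -(s - 1)`),
`sq` squares `ev`, `mx` multiplies it by `c`, so `pw` computes: if the accumulated exponent is `e`
(`ev = c^e`), after the digits `bs` it is `2^(length) e + (value of bs)`.  `bits 30 p []` are the digits
of `p` (`p < 2^30`), so at the end `ev (r0, a1, r2) = c^p = c` (Fermat, `ZMod.pow_card`), i.e.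
`r = (r0, a1 - 1, r2)` has `ev r = 0`, and `ev (x r) = ev (x² r) = 0`.  The `3 × 3` matrix with rows
`r, x r, x² r` kills the vector `(1, c, c²) ≠ 0`, so its determinant is zero in `ZMod p`; but `noRoot`
tests that the positive and the negative part of the determinant are different modulo `p`.
(Prove for CPS functions: `sq s u p a0 a1 a2 k = k c0 c1 c2` for some `c0 c1 c2` with
`ev (c0, c1, c2) = ev (a0, a1, a2)^2` in `ZMod p`, etc.)
-/

namespace Pool.Agent.CSA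

/-- value of a polynomial at `c` -/
def NoRoot_ev (p : ℕ) (c : ZMod p) (a0 a1 a2 : ℕ) : ZMod p :=
  (a0 : ZMod p) + (a1 : ZMod p) * c + (a2 : ZMod p) * c ^ 2

theorem NoRoot_mod (p a : ℕ) : ((Nat.mod a p : ℕ) : ZMod p) = (a : ZMod p) :=
  ZMod.natCast_mod a p

theorem NoRoot_mul (p a b : ℕ) : ((Nat.mul a b : ℕ) : ZMod p) = (a : ZMod p) * b :=
  Nat.cast_mul a b

theorem NoRoot_add (p a b : ℕ) : ((Nat.add a b : ℕ) : ZMod p) = (a : ZMod p) + b :=
  Nat.cast_add a b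

theorem NoRoot_sq {p : ℕ} {c : ZMod p} {s u : ℕ}
    (hc : c ^ 3 = (s : ZMod p) * c ^ 2 + (u : ZMod p) * c + 1) (a0 a1 a2 : ℕ) :
    ∃ c0 c1 c2, (∀ k, sq s u p a0 a1 a2 k = k c0 c1 c2) ∧
      NoRoot_ev p c c0 c1 c2 = NoRoot_ev p c a0 a1 a2 ^ 2 := by
  let c4 := Nat.mod (Nat.mul a2 a2) p
  let c3 := Nat.mod (Nat.add (Nat.mul 2 (Nat.mul a1 a2)) (Nat.mul c4 s)) p
  refine ⟨Nat.mod (Nat.add (Nat.mul a0 a0) c3) p,
    Nat.mod (Nat.add (Nat.add (Nat.mul 2 (Nat.mul a0 a1)) (Nat.mul c3 u)) c4) p,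
    Nat.mod (Nat.add (Nat.add (Nat.add (Nat.mul 2 (Nat.mul a0 a2)) (Nat.mul a1 a1))
      (Nat.mul c3 s)) (Nat.mul c4 u)) p, fun k => by simp only [sq, st_eq]; rfl, ?_⟩
  simp only [c3, c4, NoRoot_ev, NoRoot_mod, NoRoot_mul, NoRoot_add, Nat.cast_ofNat]
  have hc4 : c ^ 4 = (s : ZMod p) * c ^ 3 + (u : ZMod p) * c ^ 2 + c := by
    linear_combination c * hc
  linear_combination (-2 * (a1 : ZMod p) * a2 - (a2 : ZMod p) ^ 2 * s) * hc
    - (a2 : ZMod p) ^ 2 * hc4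

theorem NoRoot_mx {p : ℕ} {c : ZMod p} {s u : ℕ}
    (hc : c ^ 3 = (s : ZMod p) * c ^ 2 + (u : ZMod p) * c + 1) (a0 a1 a2 : ℕ) :
    ∃ c0 c1 c2, (∀ k, mx s u p a0 a1 a2 k = k c0 c1 c2) ∧
      NoRoot_ev p c c0 c1 c2 = NoRoot_ev p c a0 a1 a2 * c := by
  refine ⟨a2, Nat.mod (Nat.add a0 (Nat.mul a2 u)) p, Nat.mod (Nat.add a1 (Nat.mul a2 s)) p,
    fun k => by simp only [mx, st_eq], ?_⟩
  simp only [NoRoot_ev, NoRoot_mod, NoRoot_mul, NoRoot_add]
  linear_combination (-(a2 : ZMod p)) * hc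

/-- value of binary digits after an initial value -/
def NoRoot_val (bs : List Bool) (e : ℕ) : ℕ := bs.foldl (fun e b => 2 * e + b.toNat) e

theorem NoRoot_pw {p : ℕ} {c : ZMod p} {s u : ℕ}
    (hc : c ^ 3 = (s : ZMod p) * c ^ 2 + (u : ZMod p) * c + 1) :
    ∀ (bs : List Bool) (a0 a1 a2 : ℕ), ∃ c0 c1 c2,
      (∀ k, pw s u p bs a0 a1 a2 k = k c0 c1 c2) ∧
      ∀ e, NoRoot_ev p c a0 a1 a2 = c ^ e → NoRoot_ev p c c0 c1 c2 = c ^ NoRoot_val bs e := by
  intro bs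
  induction bs with
  | nil =>
    intro a0 a1 a2
    exact ⟨a0, a1, a2, fun k => rfl, fun e he => he⟩
  | cons b bs ih =>
    intro a0 a1 a2
    obtain ⟨b0, b1, b2, hb, hb'⟩ := NoRoot_sq hc a0 a1 a2
    cases b with
    | true =>
      obtain ⟨d0, d1, d2, hd, hd'⟩ := NoRoot_mx hc b0 b1 b2
      obtain ⟨c0, c1, c2, h1, h2⟩ := ih d0 d1 d2
      refine ⟨c0, c1, c2, fun k => ?_, fun e he => ?_⟩
      · simp only [pw]
        rw [hb, hd, h1]
      · have h3 := h2 (2 * e + 1) (by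
          rw [hd', hb', he]
          ring)
        exact h3
    | false =>
      obtain ⟨c0, c1, c2, h1, h2⟩ := ih b0 b1 b2
      refine ⟨c0, c1, c2, fun k => ?_, fun e he => ?_⟩
      · simp only [pw]
        rw [hb, h1]
      · have h3 := h2 (2 * e) (by
          rw [hb', he]
          ring)
        exact h3

theorem NoRoot_bits : ∀ (k n : ℕ) (acc : List Bool), n < 2 ^ k →
    NoRoot_val (bits k n acc) 0 = NoRoot_val acc n := by
  intro k
  induction k with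
  | zero =>
    intro n acc hn
    have : n = 0 := by simpa using hn
    subst this
    rfl
  | succ k ih =>
    intro n acc hn
    simp only [bits, st_eq]
    cases n with
    | zero => rfl
    | succ m =>
      change NoRoot_val (bits k ((m + 1) / 2) (Nat.beq ((m + 1) % 2) 1 :: acc)) 0 = _
      have h1 : (m + 1) / 2 < 2 ^ k := by
        rw [pow_succ] at hn
        omega
      rw [ih _ _ h1]
      change NoRoot_val acc (2 * ((m + 1) / 2) + (Nat.beq ((m + 1) % 2) 1).toNat) = _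
      congr 1
      rcases Nat.mod_two_eq_zero_or_one (m + 1) with h | h
      · rw [h]
        have : (Nat.beq 0 1).toNat = 0 := rfl
        rw [this]
        omega
      · rw [h]
        have : (Nat.beq 1 1).toNat = 1 := rfl
        rw [this]
        omega

theorem noRoot_sound {s p c : ℕ} (hp : p.Prime) (hp' : p < 2 ^ 30) (hs : 1 ≤ s)
    (h : noRoot s p = true) : ¬ (p : ℤ) ∣ f s c := by
  intro hf
  have : Fact p.Prime := ⟨hp⟩
  simp only [noRoot, st_eq] at h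
  set s' := Nat.mod s p with hs'
  set u := Nat.mod (Nat.sub (Nat.mul p s) (Nat.sub s 1)) p with hu
  have hp2 := hp.two_le
  have hs1 : ((s' : ℕ) : ZMod p) = s := NoRoot_mod p s
  have hu1 : ((u : ℕ) : ZMod p) = 1 - s := by
    rw [hu, NoRoot_mod]
    have h1 : Nat.sub (Nat.mul p s) (Nat.sub s 1) = p * s - (s - 1) := rfl
    have h2 : s - 1 ≤ p * s := by nlinarith [Nat.sub_le s 1]
    rw [h1, Nat.cast_sub h2, Nat.cast_mul, Nat.cast_sub hs]
    simp
  have hroot : ((f s c : ℤ) : ZMod p) = 0 := (ZMod.intCast_zmod_eq_zero_iff_dvd _ _).2 hf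
  have hc : (c : ZMod p) ^ 3 = (s' : ZMod p) * (c : ZMod p) ^ 2 + (u : ZMod p) * c + 1 := by
    rw [hs1, hu1]
    unfold f at hroot
    push_cast at hroot
    linear_combination hroot
  obtain ⟨r0, a1, r2, hr, hr'⟩ := NoRoot_pw hc (bits 30 p []) 1 0 0
  have hev : NoRoot_ev p (c : ZMod p) r0 a1 r2 = c := by
    have h1 := hr' 0 (by simp [NoRoot_ev])
    rw [NoRoot_bits 30 p [] hp'] at h1
    have h2 : NoRoot_val [] p = p := rfl
    rw [h1, h2, ZMod.pow_card]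
  rw [hr] at h
  obtain ⟨x0, x1, x2, hx, hx'⟩ := NoRoot_mx hc r0 (Nat.add a1 (Nat.sub p 1)) r2
  rw [hx] at h
  obtain ⟨y0, y1, y2, hy, hy'⟩ := NoRoot_mx hc x0 x1 x2
  rw [hy] at h
  set r1 := Nat.add a1 (Nat.sub p 1) with hr1
  have hr1' : ((r1 : ℕ) : ZMod p) = (a1 : ZMod p) - 1 := by
    rw [hr1, NoRoot_add]
    have h1 : Nat.sub p 1 = p - 1 := rfl
    rw [h1, Nat.cast_sub (by omega)]
    simp
    ring
  have e1 : NoRoot_ev p (c : ZMod p) r0 r1 r2 = 0 := by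
    unfold NoRoot_ev at hev ⊢
    rw [hr1']
    linear_combination hev
  have e2 : NoRoot_ev p (c : ZMod p) x0 x1 x2 = 0 := by rw [hx', e1, zero_mul]
  have e3 : NoRoot_ev p (c : ZMod p) y0 y1 y2 = 0 := by rw [hy', e2, zero_mul]
  have hdet : (((r0 * (x1 * y2) + r1 * (x2 * y0) + r2 * (x0 * y1) : ℕ)) : ZMod p) =
      ((r0 * (x2 * y1) + r1 * (x0 * y2) + r2 * (x1 * y0) : ℕ) : ZMod p) := by
    push_cast
    unfold NoRoot_ev at e1 e2 e3
    linear_combination ((x1 : ZMod p) * y2 - x2 * y1) * e1 - ((r1 : ZMod p) * y2 - r2 * y1) * e2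
      + ((r1 : ZMod p) * x2 - r2 * x1) * e3
  have h5 := (ZMod.natCast_eq_natCast_iff' _ _ _).1 hdet
  have h6 : Nat.beq ((r0 * (x1 * y2) + r1 * (x2 * y0) + r2 * (x0 * y1)) % p)
      ((r0 * (x2 * y1) + r1 * (x0 * y2) + r2 * (x1 * y0)) % p) = true := by
    rw [Nat.beq_eq, h5]
  have h7 : (!(Nat.beq ((r0 * (x1 * y2) + r1 * (x2 * y0) + r2 * (x0 * y1)) % p)
      ((r0 * (x2 * y1) + r1 * (x0 * y2) + r2 * (x1 * y0)) % p))) = true := h
  rw [h6] at h7
  exact absurd h7 (by decide)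

end Pool.Agent.CSA
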