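import Pool.Agent.CSA.IsR

/-!
# `oneRoot_sound`
-/

namespace Pool.Agent.CSA

theorem oneRoot_sound {s p r c : ℕ} (hp : p.Prime) (hp2 : p ≠ 2) (hs : 1 ≤ s)
    (h : oneRoot s p r = true) (hc : c < p) (hf : (p : ℤ) ∣ f s c) : c = r := by
  have := Fact.mk hp
  unfold oneRoot at h
  rw [Bool.and_eq_true, Bool.and_eq_true] at h
  obtain ⟨⟨h1, h2⟩, h3⟩ := h
  have hr : r < p := by
    simpa using h1
  have hfr : (p : ℤ) ∣ f s r := (isRoot_iff hs).1 h2
  have h4 := Nat.eq_of_beq_eq_true h3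
  -- in `ZMod p`
  have hfc' : ((f s c : ℤ) : ZMod p) = 0 := (ZMod.intCast_zmod_eq_zero_iff_dvd _ _).2 hf
  have hfr' : ((f s r : ℤ) : ZMod p) = 0 := (ZMod.intCast_zmod_eq_zero_iff_dvd _ _).2 hfr
  unfold f at hfc' hfr'
  push_cast at hfc' hfr'
  have hp1 : 1 ≤ p := hp.one_lt.le
  have hpos : ((p - 1 : ℕ) : ZMod p) = -1 := by
    rw [Nat.cast_sub hp1]
    simp
  have h5 : ((s : ZMod p) ^ 2 + 2 * (r * s) + 4 + (-1) * (3 * (r * r) + 4 * s)) ^ ((p - 1) / 2)
      = -1 := by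
    have h6 := congrArg (fun n : ℕ => (n : ZMod p)) h4
    change (((((s * s + 2 * (r * s) + 4 + (p - 1) * (3 * (r * r) + 4 * s)) % p) ^ ((p - 1) / 2)) % p
      : ℕ) : ZMod p) = ((p - 1 : ℕ) : ZMod p) at h6
    rw [ZMod.natCast_mod, Nat.cast_pow, ZMod.natCast_mod, hpos] at h6
    push_cast at h6
    rw [hpos] at h6
    have e : (s : ZMod p) ^ 2 + 2 * (r * s) + 4 + (-1) * (3 * (r * r) + 4 * s) =
        (s : ZMod p) * s + 2 * (r * s) + 4 + (-1) * (3 * (r * r) + 4 * s) := by ring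
    rw [e]
    exact h6
  by_contra hne
  have hne' : (c : ZMod p) - (r : ZMod p) ≠ 0 := by
    intro h0
    apply hne
    have h7 : (c : ZMod p) = (r : ZMod p) := sub_eq_zero.1 h0
    have h8 := (ZMod.natCast_eq_natCast_iff' c r p).1 h7
    rwa [Nat.mod_eq_of_lt hc, Nat.mod_eq_of_lt hr] at h8
  have h9 : ((c : ZMod p) - r) * (c ^ 2 + (r - s) * c + (r ^ 2 - s * r + s - 1)) = 0 := by
    linear_combination hfc' - hfr'
  have h10 : (c : ZMod p) ^ 2 + (r - s) * c + (r ^ 2 - s * r + s - 1) = 0 :=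
    (mul_eq_zero.1 h9).resolve_left hne'
  have h11 : (2 * (c : ZMod p) + r - s) ^ 2 =
      (s : ZMod p) ^ 2 + 2 * (r * s) + 4 + (-1) * (3 * (r * r) + 4 * s) := by
    linear_combination 4 * h10
  rw [← h11, ← pow_mul] at h5
  have hodd : 2 * ((p - 1) / 2) = p - 1 := by
    have := hp.eq_two_or_odd
    omega
  rw [hodd] at h5
  have h2ne : (2 : ZMod p) ≠ 0 := by
    intro h0
    have h12 : ((2 : ℕ) : ZMod p) = 0 := by exact_mod_cast h0
    rw [ZMod.natCast_eq_zero_iff] at h12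
    have := (Nat.prime_dvd_prime_iff_eq hp Nat.prime_two).1 h12
    exact hp2 this
  by_cases hz : 2 * (c : ZMod p) + r - s = 0
  · rw [hz] at h5
    have : p - 1 ≠ 0 := by
      have := hp.two_le
      omega
    rw [zero_pow this] at h5
    have : (1 : ZMod p) = 0 := by linear_combination h5
    exact one_ne_zero this
  · rw [ZMod.pow_card_sub_one_eq_one hz] at h5
    apply h2ne
    linear_combination h5

end Pool.Agent.CSA
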