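import Pool.Agent.CSA.Dfs
import Pool.Agent.CSA.NoRoot
import Pool.Agent.CSA.OneR
import Pool.Agent.CSA.Cut

/-!
# The list `forms` is complete

`ok_sound`: the four kinds of certificates, from `noRoot_sound`, `oneRoot_sound`, `tri_sound` (kind 1:
one simple root or a triple root).
`forms_complete`: induction on `ps` with `rs`.  Let `2 ≤ d ≤ B` have the root `c`.  `d` is odd
(`f_odd`).  Let `p` be the largest prime factor of `d`, `d = p m`; `p` is a member of `ps` (which
contains all odd primes up to `B`).  When the recursion reaches `p` its root list is complete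
(`ok_sound`) and not empty (`c % p` is a root), so the entry `(p, ..)` and the result of `dfs` are in
the list; if `m = 1` we are done; otherwise the prime factors `q` of `m` satisfy `q ≤ p`,
`q * p ≤ d ≤ B`, `q * q ≤ B`, so they are in `SP` and in `cut p B SP`; apply `dfs_complete`
with `j = 15`, `B < 3^15`, `SP.length ≤ 45`.
(State the induction for a fixed `p ∈ ps` and `d`, `c` with `p` prime factor of `d` and all prime factors
of `d` at most `p`.)
-/
namespace Pool.Agent.CSA

theorem ok_sound {s p : ℕ} {x : RC} (hp : p.Prime) (hp2 : p ≠ 2) (hp' : p < 2 ^ 30) (hs : 1 ≤ s)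
    (h : x.ok s p = true) : Comp s p x.roots := by
  intro c hc hf
  obtain ⟨k, a, b, d⟩ := x
  match k, h with
  | 0, h => exact absurd hf (noRoot_sound hp hp' hs h)
  | 1, h =>
    have h' : (oneRoot s p a || tri s p a a a) = true := h
    show c ∈ [a]
    rw [Bool.or_eq_true] at h'
    rcases h' with h' | h'
    · have := oneRoot_sound hp hp2 hs h' hc hf
      simp [this]
    · rcases tri_sound hp hs h' hc hf with h | h | h <;> simp [h]
  | 2, h =>
    have h' : tri s p a a d = true := h
    show c ∈ [a, d]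
    rcases tri_sound hp hs h' hc hf with h | h | h <;> simp [h]
  | (k + 3), h =>
    have h' : tri s p a b d = true := h
    show c ∈ [a, b, d]
    rcases tri_sound hp hs h' hc hf with h | h | h <;> simp [h]

theorem Enum_forms_cons {s B : ℕ} {SP : List ℕ} {q : ℕ} {qs : List ℕ} {r : RC} {rs : List RC}
    (hq : q ≤ B) {c0 : ℕ} {cs : List ℕ} (h : r.roots = c0 :: cs) :
    forms s B SP (q :: qs) (r :: rs) =
      (q, c0 :: cs) :: dfs s B 60 q (c0 :: cs) (cut q B SP) (forms s B SP qs rs) := by
  have hq' : Nat.ble q B = true := by rw [Nat.ble_eq]; exact hq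
  simp only [forms, hq', h]

theorem Enum_forms_nil {s B : ℕ} {SP : List ℕ} {q : ℕ} {qs : List ℕ} {r : RC} {rs : List RC}
    (hq : q ≤ B) (h : r.roots = []) :
    forms s B SP (q :: qs) (r :: rs) = forms s B SP qs rs := by
  have hq' : Nat.ble q B = true := by rw [Nat.ble_eq]; exact hq
  simp only [forms, hq', h]

theorem Enum_rcs_nil {s B q : ℕ} {qs : List ℕ} (hq : q ≤ B) : rcsOK s B (q :: qs) [] = false := by
  have hq' : Nat.ble q B = true := by rw [Nat.ble_eq]; exact hq
  simp only [rcsOK, hq']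

theorem Enum_rcs_cons {s B q : ℕ} {qs : List ℕ} {r : RC} {rs : List RC} (hq : q ≤ B) :
    rcsOK s B (q :: qs) (r :: rs) = (r.ok s q && rcsOK s B qs rs) := by
  have hq' : Nat.ble q B = true := by rw [Nat.ble_eq]; exact hq
  simp only [rcsOK, hq']

theorem Enum_main {s B : ℕ} {SP : List ℕ} (hs : 1 ≤ s) (hB : B < 3 ^ 13)
    (hSP : ∀ p ∈ SP, 3 ≤ p) (hSsort : SP.Pairwise (· < ·)) (hlen : SP.length ≤ 45)
    (hScomp : ∀ q, q.Prime → q ≠ 2 → q * q ≤ B → q ∈ SP)
    {d c p : ℕ} (hdB : d ≤ B) (hc : c < d) (hf : (d : ℤ) ∣ f s c) (hp : p.Prime) (hpd : p ∣ d)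
    (hpmax : ∀ q, q.Prime → q ∣ d → q ≤ p) (hd2 : ¬ 2 ∣ d) :
    ∀ (ps : List ℕ) (rs : List RC), rcsOK s B ps rs = true → (∀ p ∈ ps, p.Prime ∧ 3 ≤ p) →
      ps.Pairwise (· < ·) → p ∈ ps → ∃ rs', (d, rs') ∈ forms s B SP ps rs ∧ c ∈ rs' := by
  have hd0 : 0 < d := by omega
  have hpB : p ≤ B := (Nat.le_of_dvd hd0 hpd).trans hdB
  intro ps
  induction ps with
  | nil => intro rs _ _ _ h; exact absurd h (by simp)
  | cons q qs ih =>
    intro rs hok hps hsort hmem
    have hqp : q ≤ p := by
      rcases List.mem_cons.1 hmem with h | h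
      · exact h.ge
      · exact (List.rel_of_pairwise_cons hsort h).le
    have hqB : q ≤ B := hqp.trans hpB
    cases rs with
    | nil => rw [Enum_rcs_nil hqB] at hok; exact absurd hok (by simp)
    | cons r rs0 =>
      rw [Enum_rcs_cons hqB, Bool.and_eq_true] at hok
      obtain ⟨hr, hok'⟩ := hok
      rcases List.mem_cons.1 hmem with heq | hmem'
      · -- p = q
        subst heq
        have hp3 : 3 ≤ p := (hps p (List.mem_cons_self ..)).2
        have hcomp : Comp s p r.roots := ok_sound hp (by omega) (lt_of_le_of_lt hpB (hB.trans (by norm_num))) hs hr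
        have hroot : (p : ℤ) ∣ f s ((c % p : ℕ) : ℤ) := root_mod hpd hf
        have hcr : c % p ∈ r.roots := hcomp _ (Nat.mod_lt _ hp.pos) hroot
        obtain ⟨c0, cs, hcs⟩ : ∃ c0 cs, r.roots = c0 :: cs := by
          cases hrr : r.roots with
          | nil => rw [hrr] at hcr; exact absurd hcr (by simp)
          | cons c0 cs => exact ⟨c0, cs, rfl⟩
        rw [Enum_forms_cons hqB hcs]
        rw [hcs] at hcomp
        obtain ⟨m, rfl⟩ := hpd
        have hm0 : m ≠ 0 := by rintro rfl; simp at hd0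
        by_cases hm : m = 1
        · subst hm
          rw [mul_one] at hc hf ⊢
          exact ⟨c0 :: cs, List.mem_cons_self .., hcomp c hc hf⟩
        · have hm1 : 1 < m := by omega
          have hpre := cut_prefix p B SP
          have hsub := hpre.sublist
          have hlen' : (cut p B SP).length ≤ 45 := hsub.length_le.trans hlen
          obtain ⟨rs', h1, h2⟩ := dfs_complete hs 60 15 p (c0 :: cs) (cut p B SP)
            (forms s B SP qs rs0) (by omega) (by
              calc B < 3 ^ 13 := hB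
                _ ≤ 1 * 3 ^ 15 := by norm_num
                _ ≤ p * 3 ^ 15 := Nat.mul_le_mul_right _ hp.pos) hp.pos hcomp
            (hSsort.sublist hsub) (fun q hq => hSP q (hsub.subset hq)) m c hm1 hdB
            (by
              intro q hq hqm
              have hqd : q ∣ p * m := Dvd.dvd.mul_left hqm p
              have hq_le : q ≤ p := hpmax q hq hqd
              have hq2 : q ≠ 2 := by rintro rfl; exact hd2 hqd
              have hqp2 : q * p ≤ B := by
                calc q * p ≤ m * p := Nat.mul_le_mul_right _ (Nat.le_of_dvd (by omega) hqm)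
                  _ = p * m := Nat.mul_comm _ _
                  _ ≤ B := hdB
              have hqq : q * q ≤ B := (Nat.mul_le_mul_left q hq_le).trans hqp2
              exact cut_mem hSsort (hScomp q hq hq2 hqq) hq_le hqp2) hc hf
          exact ⟨rs', List.mem_cons_of_mem _ h1, h2⟩
      · obtain ⟨rs', h1, h2⟩ := ih rs0 hok' (fun x hx => hps x (List.mem_cons_of_mem _ hx))
          (List.Pairwise.of_cons hsort) hmem'
        refine ⟨rs', ?_, h2⟩
        cases hrr : r.roots with
        | nil => rw [Enum_forms_nil hqB hrr]; exact h1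
        | cons c0 cs =>
          rw [Enum_forms_cons hqB hrr]
          exact List.mem_cons_of_mem _ (dfs_acc _ _ _ _ _ _ h1)

theorem forms_complete {s B : ℕ} {SP ps : List ℕ} {rs : List RC} (hs : 1 ≤ s) (hB : B < 3 ^ 13)
    (hok : rcsOK s B ps rs = true)
    (hps : ∀ p ∈ ps, p.Prime ∧ 3 ≤ p) (hsort : ps.Pairwise (· < ·))
    (hcomp : ∀ q, q.Prime → q ≠ 2 → q ≤ B → q ∈ ps)
    (hSP : ∀ p ∈ SP, 3 ≤ p) (hSsort : SP.Pairwise (· < ·)) (hlen : SP.length ≤ 45)
    (hScomp : ∀ q, q.Prime → q ≠ 2 → q * q ≤ B → q ∈ SP)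
    {d c : ℕ} (hd : 2 ≤ d) (hdB : d ≤ B) (hc : c < d) (hf : (d : ℤ) ∣ f s c) :
    ∃ rs', (d, rs') ∈ forms s B SP ps rs ∧ c ∈ rs' := by
  have hd2 : ¬ 2 ∣ d := by
    intro h
    have h1 : (2 : ℤ) ∣ f s c := (by exact_mod_cast h : (2 : ℤ) ∣ (d : ℤ)).trans hf
    have h2 := f_odd s c
    omega
  have hne : d.primeFactors.Nonempty := Nat.nonempty_primeFactors.2 (by omega)
  obtain ⟨p, hp, hpmax⟩ := Finset.exists_max_image d.primeFactors id hne
  have hd0 : d ≠ 0 := by omega
  have hp' := Nat.prime_of_mem_primeFactors hp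
  have hpd := Nat.dvd_of_mem_primeFactors hp
  have hp2 : p ≠ 2 := by rintro rfl; exact hd2 hpd
  exact Enum_main hs hB hSP hSsort hlen hScomp hdB hc hf hp' hpd
    (fun q hq hqd => hpmax q (Nat.mem_primeFactors.2 ⟨hq, hqd, hd0⟩)) hd2 ps rs hok hps hsort
    (hcomp p hp' hp2 ((Nat.le_of_dvd (by omega) hpd).trans hdB))

end Pool.Agent.CSA
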