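import Pool.Agent.CSA.MovE

/-!
# The move `E1` on transposed normal forms (covectors of content one)

`Y = (X a d c n)ᵀ`, covector `w = e₀`, `v = (1, 1, j)`, `u = (Y - 1) v = (0, u₁, u₂)` with
`u₁ = β + δ - 1 + d j`, `u₂ = a + (c - 1) j`, `(1 - c) u₁ + d u₂ = 1`.
-/

namespace Pool.Agent.CSA

open Matrix

/-- all matrices with the transposed normal form are equivalent to the base matrix -/
def GoodT (n d c : ℤ) : Prop := ∀ a : ℤ, a * d = -f n c → Eqv (X a d c n)ᵀ A0

theorem CS.transpose {n : ℤ} {A : M3} (h : CS n A) : CS n Aᵀ := by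
  refine ⟨by rw [Matrix.det_transpose]; exact h.det, ?_, by rw [Matrix.trace_transpose]; exact h.tr⟩
  have : Aᵀ - 1 = (A - 1)ᵀ := by rw [Matrix.transpose_sub, Matrix.transpose_one]
  rw [this, Matrix.det_transpose]
  exact h.det'

theorem goodT_of_J {A : M3} {n d c : ℤ} (hA : CS n A) (h : J Aᵀ d c) (hg : GoodT n d c) :
    Eqv A A0 := by
  obtain ⟨a, ha, P, Q, hPQ, hX⟩ := J.conj_X hA.transpose h
  have h1 : Conj A (X a d c n)ᵀ := by
    refine ⟨Qᵀ, Pᵀ, ?_, ?_⟩
    · rw [← Matrix.transpose_mul, hPQ, Matrix.transpose_one]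
    · rw [hX, Matrix.transpose_mul, Matrix.transpose_mul, Matrix.transpose_transpose,
        Matrix.mul_assoc]
  exact (hA.eqv h1).trans (hg a ha)

theorem goodT_shift {n d c : ℤ} (k : ℤ) (h : GoodT n d (c + k * d)) : GoodT n d c := by
  intro a ha
  refine goodT_of_J (X_CS ha).transpose ?_ h
  rw [Matrix.transpose_transpose]
  exact (X_J a d c n).shift k

theorem good_e1T {n d c n' c' : ℤ} (h1 : d ∣ c * c' - 1)
    (h2 : 2 * d ∣ n' - (n + 1 - 2 * c * (n - c - 1))) (h : GoodT n' d c') : GoodT n d c := by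
  intro a ha
  obtain ⟨m, hm⟩ := h1
  obtain ⟨k, hk⟩ := h2
  have hX := (X_CS ha).transpose
  have had : a * d = 1 + c * ((c - 1) * (n - c - 1)) := by
    rw [ha]; unfold f; ring
  generalize hβ : (c - 1) * (n - c - 1) = β at had
  generalize hδ : n - c = δ
  have hXe : (X a d c n)ᵀ = !![0, 1, 0; β, δ, d; a, 0, c] := by
    unfold X; rw [hβ, hδ]
    ext i j; fin_cases i <;> fin_cases j <;> simp
  have hβ' : β = (c - 1) * (δ - 1) := by rw [← hβ, ← hδ]
  obtain ⟨j, hj⟩ : ∃ j, j = -k := ⟨_, rfl⟩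
  obtain ⟨u₁, hu₁⟩ : ∃ u, u = β + δ - 1 + d * j := ⟨_, rfl⟩
  obtain ⟨u₂, hu₂⟩ : ∃ u, u = a + (c - 1) * j := ⟨_, rfl⟩
  have hu : (1 - c) * u₁ + d * u₂ = 1 := by
    rw [hu₁, hu₂]; linear_combination had + hβ'
  obtain ⟨E, hE⟩ : ∃ E : M3, E = !![1, 0, 0; -2, 1, 0; 0, 0, 1] := ⟨_, rfl⟩
  obtain ⟨Q, hQ⟩ : ∃ Q : M3, Q = !![1, 0, 0; -(1 - c + d * j), 1 - c, d; u₂ - u₁ * j, -u₂, u₁] :=
    ⟨_, rfl⟩
  obtain ⟨P, hP⟩ : ∃ P : M3, P = !![1, 0, 0; 1, u₁, -d; j, u₂, 1 - c] := ⟨_, rfl⟩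
  obtain ⟨Y, hY⟩ : ∃ Y : M3, Y = !![0, 1, 0; β, δ, d; a, 0, c] := ⟨_, rfl⟩
  obtain ⟨A₁, hA₁⟩ : ∃ A₁ : M3, A₁ = !![0, 1, 0; β, δ - 2 * u₁, d; a, -2 * u₂, c] := ⟨_, rfl⟩
  obtain ⟨B, hB⟩ : ∃ B : M3, B = !![-2 * c * u₁ + c * δ + 2 * d * u₂, -c, d;
    a * d - c * β, 0, 0; 2 * a * u₁ - a * δ - 2 * u₂ * β, a, -β] := ⟨_, rfl⟩
  have hQP : Q * P = 1 := by
    rw [hQ, hP]
    ext i j; fin_cases i <;> fin_cases j <;> simp [Matrix.mul_apply, Fin.sum_univ_three]
    all_goals first | ring1 | linear_combination hu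
  have hPQ : P * Q = 1 := mul_eq_one_comm.1 hQP
  have hAB : A₁ * B = 1 := by
    rw [hA₁, hB]
    ext i j; fin_cases i <;> fin_cases j <;> simp [Matrix.mul_apply, Fin.sum_univ_three]
    all_goals first | ring1 | linear_combination had
  have hEQ : E * Q * Y = Q * A₁ := by
    rw [hE, hQ, hY, hA₁]
    ext i j; fin_cases i <;> fin_cases j <;> simp [Matrix.mul_apply, Fin.sum_univ_three]
    all_goals first | ring1 | linear_combination 2 * hu | linear_combination -2 * hu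
  have hX' : CS n Y := by rw [hY, ← hXe]; exact hX
  have s1 : Eqv Y (Q * Y * P) := hX'.eqv ⟨Q, P, hQP, rfl⟩
  have hC1 : CS n (Q * Y * P) := hX'.conj ⟨Q, P, hQP, rfl⟩
  have s2 : Eqv (Q * Y * P) (E * (Q * Y * P)) := by
    rw [hE]
    apply Eqv.of
    apply Mv.e1 _ hC1.det hC1.det'
    · rw [hQ, hY, hP]
      simp [Matrix.mul_apply, Fin.sum_univ_three]
    · rw [hQ, hY, hP]
      simp [Matrix.mul_apply, Fin.sum_univ_three]
      linear_combination had + hβ'
    · rw [hQ, hY, hP]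
      simp [Matrix.mul_apply, Fin.sum_univ_three]
      linear_combination u₂ * hu₁ - u₁ * hu₂
  have e1 : E * (Q * Y * P) = Q * A₁ * P := by
    rw [← hEQ]; simp only [Matrix.mul_assoc]
  rw [e1] at s2
  have s3 : Eqv (Q * A₁ * P) (Q * B * P) := by
    apply Eqv.of
    apply Mv.inv
    · rw [det_conj hQP, hA₁, Matrix.det_fin_three]
      simp
      linear_combination had
    · right
      have e2 : Q * A₁ * P - 1 = Q * (A₁ - 1) * P := by
        rw [Matrix.mul_sub, Matrix.sub_mul, mul_one, hQP]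
      rw [e2, det_conj hQP, hA₁, Matrix.det_fin_three]
      simp
      linear_combination had + hβ' - 2 * hu
    · calc Q * A₁ * P * (Q * B * P) = Q * (A₁ * (P * Q) * B) * P := by
            simp only [Matrix.mul_assoc]
        _ = 1 := by rw [hPQ, mul_one, hAB, mul_one, hQP]
  have hBCS : CS n' B := by
    refine ⟨?_, ?_, ?_⟩
    · rw [hB, Matrix.det_fin_three]
      simp
      linear_combination (a * d - c * β + 1) * had
    · rw [hB, Matrix.det_fin_three]
      simp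
      linear_combination (2 * u₁ - δ + 1 + a * d - c * (β + 1)) * had + 2 * hu - hβ'
    · rw [hB, Matrix.trace_fin_three]
      simp
      rw [hu₁, hu₂, hj]
      linear_combination 2 * had - hβ' - hk + (2 * c - 1) * hδ
  have s4 : Eqv B (Q * B * P) := hBCS.eqv ⟨Q, P, hQP, rfl⟩
  have hJ : J Bᵀ d (-β) := by
    have : J Bᵀ (-d) (-β) := by
      have hBv : Bᵀ *ᵥ ![0, 1, 0] = ![1, 0, 0] := by
        rw [hB]
        ext i; fin_cases i <;> simp [Matrix.mulVec, dotProduct, Fin.sum_univ_three]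
        all_goals first | ring1 | linear_combination had
      have hw : wv Bᵀ ![0, 1, 0] = ![0, 0, -1] := by
        unfold wv
        rw [hBv, cross_apply]
        simp
      refine ⟨![0, 1, 0], ![0, 0, -1], 0, ?_, ?_, ?_⟩
      · rw [hw]; simp [dotProduct, Fin.sum_univ_three]
      · unfold Nv
        rw [hw, hBv, hB]
        simp [dotProduct, Matrix.mulVec, Fin.sum_univ_three]
      · rw [hw, hB]
        simp [dotProduct, Matrix.mulVec, Fin.sum_univ_three]
    simpa using this.neg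
  have hg : GoodT n' d (-β) := by
    apply goodT_shift (a * c' - β * m)
    have e : -β + (a * c' - β * m) * d = c' := by
      linear_combination β * hm + c' * had
    rw [e]
    exact h
  have s5 := goodT_of_J hBCS hJ hg
  rw [hXe, ← hY]
  exact s1.trans (s2.trans (s3.trans (s4.symm.trans s5)))

end Pool.Agent.CSA
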