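import Pool.Agent.CSA.All
import Pool.Agent.CSA.MovT

/-!
# Infinite families, all traces
-/

namespace Pool.Agent.CSA

open Matrix

theorem exists_inv {n d c : ℤ} {a : ℤ} (h : a * d = -f n c) :
    d ∣ c * (-((c - 1) * (n - c - 1))) - 1 :=
  ⟨-a, by unfold f at h; linear_combination h⟩

theorem good_of_window {n d c m : ℤ} (h1 : -158 ≤ m) (h2 : m ≤ 156)
    (h : d ∣ m - n ∨ d ∣ m - (n + 1 - 2 * c * (n - c - 1))) : Good n d c := by
  rcases h with ⟨k, hk⟩ | h
  · apply good_gompf k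
    have e : n + k * d = m := by linear_combination (-1 : ℤ) * hk
    rw [e]
    exact good_of_done (done_all m h1 h2) d c
  · intro a ha
    exact good_e1 (exists_inv ha) h (good_of_done (done_all m h1 h2) d _) a ha

theorem goodT_of_done {n : ℤ} (h : Done n) (d c : ℤ) : GoodT n d c :=
  fun _ ha => h _ (X_CS ha).transpose

theorem goodT_of_window {n d c m : ℤ} (h1 : -158 ≤ m) (h2 : m ≤ 156)
    (h : 2 * d ∣ m - n ∨ 2 * d ∣ m - (n + 1 - 2 * c * (n - c - 1))) : GoodT n d c := by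
  intro a ha
  rcases h with ⟨k, hk⟩ | h
  · have h3 := exists_inv ha
    refine good_e1T (n' := n + 1 - 2 * c * (n - c - 1)) h3 (by simp) ?_ a ha
    have h4 : d ∣ -((c - 1) * (n - c - 1)) * c - 1 := by
      rw [mul_comm]; exact h3
    refine good_e1T (n' := m) h4 ⟨k - a * (1 - (n - c - 1)), ?_⟩
      (goodT_of_done (done_all m h1 h2) d c)
    unfold f at ha
    linear_combination hk + (2 * (1 - (n - c - 1))) * ha
  · exact good_e1T (exists_inv ha) h (goodT_of_done (done_all m h1 h2) d _) a ha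

/-- Criterion for a Cappell-Shaneson matrix `A` of arbitrary trace `n` to be equivalent to the base
matrix: the trace is between `-158` and `156`, or `A` has a vector `v` with `v × A v` primitive, of norm
`d` and residue `c`, and one of `n`, `n + 1 - 2 c (n - c - 1)` is congruent to a number between `-158`
and `156` modulo `d`, or the same for the transposed matrix modulo `2 d`. -/
theorem eqv_main {n : ℤ} {A : M3} (hA : CS n A)
    (h : (-158 ≤ n ∧ n ≤ 156) ∨ ∃ d c m : ℤ, (-158 ≤ m ∧ m ≤ 156) ∧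
      ((J A d c ∧ (d ∣ m - n ∨ d ∣ m - (n + 1 - 2 * c * (n - c - 1)))) ∨
       (J Aᵀ d c ∧ (2 * d ∣ m - n ∨ 2 * d ∣ m - (n + 1 - 2 * c * (n - c - 1)))))) :
    Eqv A A0 := by
  rcases h with ⟨h1, h2⟩ | ⟨d, c, m, ⟨h1, h2⟩, ⟨hJ, h⟩ | ⟨hJ, h⟩⟩
  · exact done_all n h1 h2 A hA
  · exact good_of_J hA hJ (good_of_window h1 h2 h)
  · exact goodT_of_J hA hJ (goodT_of_window h1 h2 h)

theorem exists_win {x d : ℤ} (h0 : d ≠ 0) (h : |d| ≤ 315) :
    ∃ m : ℤ, (-158 ≤ m ∧ m ≤ 156) ∧ d ∣ m - x := by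
  have hd : 1 ≤ |d| := Int.one_le_abs h0
  refine ⟨-158 + (x + 158) % |d|, ⟨?_, ?_⟩, ?_⟩
  · have := Int.emod_nonneg (x + 158) (by omega : |d| ≠ 0)
    omega
  · have := Int.emod_lt_of_pos (x + 158) (by omega : 0 < |d|)
    omega
  · rw [← abs_dvd]
    refine ⟨-((x + 158) / |d|), ?_⟩
    have := Int.emod_add_mul_ediv (x + 158) |d|
    linear_combination this

end Pool.Agent.CSA
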