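import Pool.Agent.CSA.StarA
import Pool.Agent.CSA.JX

/-!
# `star` of a normal form

* `star_X`: `Y = star (X a d c n)` has `J Y (-d) (1 - c (n - c - 1))`: `v = (X-1) e₀ = (-1, 1, 0)`,
  `Y v = v + e₀ = e₁` (`(X - 1)⁻¹ v = e₀`), `v × Y v = - e₂`, `t = - e₂`,
  `- e₂ · Y (Y v) = - Y 2 1 = - d`, `- e₂ · Y t = Y 2 2 = 1 - c (n - c - 1)`
  (entries of `1 + adjugate (X - 1)`).  Then `J.neg`.
* `star_main`: `A = star (star A)` is conjugate to `star (X a d c s)` (`star_conj`; `star A` is
  `CS s` by `star_CS`), which is `CS (5 - s)` and has the symbol of `star_X`; `J.conj_X`.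
-/

namespace Pool.Agent.CSA

open Matrix

theorem StarX_eq (a d c n : ℤ) : star (X a d c n) =
    !![1 + (n - c - 1) * (c - 1), a * d - (c - 1) * (n - c - 1) * (c - 1), -a * (n - c - 1);
      1 - c, 1 + (1 - c), a;
      d, d, 1 - c * (n - c - 1)] := by
  unfold star X
  rw [Matrix.adjugate_fin_three]
  ext i j
  fin_cases i <;> fin_cases j <;> simp <;> ring

theorem star_X {a d c n : ℤ} (h : a * d = -f n c) :
    J (star (X a d c n)) d (1 - c * (n - c - 1)) := by
  have hv : star (X a d c n) *ᵥ ![-1, 1, 0] = ![0, 1, 0] := by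
    rw [StarX_eq]
    unfold f at h
    ext i
    fin_cases i
    · simp
      linear_combination h
    · simp
      ring
    · simp
  have hw : wv (star (X a d c n)) ![-1, 1, 0] = ![0, 0, -1] := by
    unfold wv
    rw [hv]
    ext i
    fin_cases i <;> simp [cross_apply]
  have key : J (star (X a d c n)) (-d) (1 - c * (n - c - 1)) := by
    refine ⟨![-1, 1, 0], ![0, 0, -1], 0, ?_, ?_, ?_⟩
    · rw [hw]
      simp
    · unfold Nv
      rw [hw, hv, StarX_eq]
      simp [vecHead, vecTail]
    · rw [hw, StarX_eq]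
      simp [vecHead, vecTail]
  have := key.neg
  rwa [neg_neg] at this

theorem star_main {s a d c : ℤ} {A : M3} (hA : CS (5 - s) A) (ha : a * d = -f s c)
    (h : Conj (star A) (X a d c s)) :
    ∃ a', a' * d = -f (5 - s) (1 - c * (s - c - 1)) ∧
      Conj A (X a' d (1 - c * (s - c - 1)) (5 - s)) := by
  have h1 : Conj (star (star A)) (star (X a d c s)) := star_conj (star_CS hA) h
  rw [star_star hA] at h1
  obtain ⟨a', h2, h3⟩ := (star_X ha).conj_X (star_CS (X_CS ha))
  exact ⟨a', h2, h1.trans h3⟩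

end Pool.Agent.CSA
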