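import Pool.Agent.CSA.Tab
import Pool.Agent.CSA.Chain
import Pool.Agent.CSA.StarX

/-!
# The induction on the trace
-/

namespace Pool.Agent.CSA

open Matrix

/-- all Cappell-Shaneson matrices of trace `n` are equivalent to `A0` -/
def Done (n : ℤ) : Prop := ∀ A, CS n A → Eqv A A0

theorem good_of_done {n : ℤ} (h : Done n) (d c : ℤ) : Good n d c := fun _ ha => h _ (X_CS ha)

/-- `minkC`, `hess`: `g² b = |N| ≤ 2`, and `b ∣ f n ze` is odd, so `g = b = 1`; `hess_one`,
`good_of_J`, `good_one`. -/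
theorem done_small {n : ℤ} (h0 : 0 ≤ n) (h5 : n ≤ 5) : Done n := by
  intro A hA
  obtain ⟨v, u, h1, h2⟩ := minkC hA h0 h5
  obtain ⟨g, b, al, ze, be, de, ga, ep, k1, k2, k3, k4, k5, k6, k7⟩ := hess hA h1
  have hH : CS n (H al g be de b ga ep ze) := hA.conj k7
  obtain ⟨e1, e2, e3, e4, e5⟩ := hess_arith hH
  have hb2 : b % 2 = 1 := by
    rcases Nat.mod_two_eq_zero_or_one b with h | h
    · exfalso
      obtain ⟨q, hq⟩ := e5
      have h3 := f_odd n ze
      rw [hq] at h3
      have h4 : ((b : ℤ) * q) % 2 = 0 := by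
        rw [Int.mul_emod]
        have : (b : ℤ) % 2 = 0 := by omega
        rw [this]; simp
      omega
    · exact h
  have h3 : (g : ℤ) ^ 2 * b ≤ 2 := by rw [k6]; exact h2
  have hg1 : g = 1 := by
    by_contra hne
    have : 2 ≤ g := by omega
    have h5 : (2 : ℤ) ≤ g := by exact_mod_cast this
    have h6 : (1 : ℤ) ≤ b := by exact_mod_cast k2
    nlinarith
  subst hg1
  have hb1 : b = 1 := by
    have : (b : ℤ) ≤ 2 := by simpa using h3
    have : b ≤ 2 := by exact_mod_cast this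
    omega
  subst hb1
  have hJ := hess_one al be de 1 ga ep ze
  have hH' : CS n (H al 1 be de 1 ga ep ze) := by simpa using hH
  have h7 := good_of_J hH' hJ (good_one n ze)
  have h8 : Eqv A (H al 1 be de 1 ga ep ze) := by
    have := hA.eqv k7
    simpa using this
  exact h8.trans h7

theorem exists_shift {lo hi n : ℤ} {d : ℤ} (hd : 1 ≤ d) (h : lo + d ≤ hi + 1) :
    ∃ k : ℤ, lo ≤ n + k * d ∧ n + k * d ≤ hi := by
  refine ⟨-((n - lo) / d), ?_⟩
  have h1 := Int.emod_add_mul_ediv (n - lo) d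
  have h2 := Int.emod_nonneg (n - lo) (by omega : d ≠ 0)
  have h3 := Int.emod_lt_of_pos (n - lo) (by omega : 0 < d)
  constructor <;> nlinarith

theorem good_small {lo hi n d c : ℤ} (H : ∀ m, lo ≤ m → m ≤ hi → Done m) (hd : 1 ≤ d)
    (h : lo + d ≤ hi + 1) : Good n d c := by
  obtain ⟨k, h1, h2⟩ := exists_shift (n := n) hd h
  exact good_gompf k (good_of_done (H _ h1 h2) d c)

theorem step_pos {s B lim : ℕ} {R : List RC} {C : List ℕ} {T : List (ℕ × ℕ)} {G : List ℕ}
    {L : List (List Step)} {lo hi : ℤ} (hs : 6 ≤ s) (hs' : s < 2 ^ 14)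
    (hd : 4 * disc s < 81 * ((B : ℤ) + 1) ^ 2)
    (hB : B ≤ 8191) (hl : 1 ≤ lim) (h : TabOK s B lim R C T G) (hw : lo + lim ≤ hi + 1)
    (IH : ∀ m, lo ≤ m → m ≤ hi → Done m) (hL : chainsOK lo hi s resP T L = true) :
    Done s := by
  intro A hA
  obtain ⟨d, c, a, h1, h2, h3, h4, h5⟩ := tab hs hs' hd hB hl h hA
  have hg : Good s d c := by
    rcases h5 with h5 | h5
    · exact good_small IH (by exact_mod_cast h1) (by
        have : (d : ℤ) ≤ lim := by exact_mod_cast h5
        omega)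
    · exact chainsOK_sound (fun m k1 k2 d c => good_of_done (IH m k1 k2) d c) T L hL d c h5
  exact (hA.eqv h4).trans (hg a h3)

theorem step_neg {s B lim : ℕ} {R : List RC} {C : List ℕ} {T : List (ℕ × ℕ)} {G : List ℕ}
    {L : List (List Step)} {lo hi : ℤ} (hs : 6 ≤ s) (hs' : s < 2 ^ 14)
    (hd : 4 * disc s < 81 * ((B : ℤ) + 1) ^ 2)
    (hB : B ≤ 8191) (hl : 1 ≤ lim) (h : TabOK s B lim R C T G) (hw : lo + lim ≤ hi + 1)
    (IH : ∀ m, lo ≤ m → m ≤ hi → Done m)
    (hL : chainsOK lo hi (5 - s) (resN s) T L = true) : Done (5 - s) := by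
  intro A hA
  have hA' : CS s (star A) := by
    have := star_CS hA
    have e : (5 : ℤ) - (5 - s) = s := by ring
    rwa [e] at this
  obtain ⟨d, c, a, h1, h2, h3, h4, h5⟩ := tab hs hs' hd hB hl h hA'
  obtain ⟨a', k1, k2⟩ := star_main hA h3 h4
  have hg : Good (5 - s) d (1 - c * (s - c - 1)) := by
    rcases h5 with h5 | h5
    · exact good_small IH (by exact_mod_cast h1) (by
        have : (d : ℤ) ≤ lim := by exact_mod_cast h5
        omega)
    · have h6 := chainsOK_sound (fun m k1 k2 d c => good_of_done (IH m k1 k2) d c) T L hL d c h5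
      refine good_shift (-((1 - c * (s - c - 1)) / (d : ℤ))) ?_
      have e : (1 - (c : ℤ) * (s - c - 1)) + -((1 - c * (s - c - 1)) / (d : ℤ)) * d
          = resN s d c := by
        have : resN s d c = (1 - (c : ℤ) * (s - c - 1)) % d := rfl
        rw [this]
        have := Int.emod_add_mul_ediv (1 - (c : ℤ) * (s - c - 1)) d
        linear_combination (-1 : ℤ) * this
      rw [e]
      exact h6
  exact (hA.eqv k2).trans (hg a' k1)

/-- the traces are enlarged one by one -/
theorem ext_both {s : ℤ} (h : ∀ m, 6 - s ≤ m → m ≤ s - 1 → Done m) (h1 : Done s)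
    (h2 : Done (5 - s)) : ∀ m, 6 - (s + 1) ≤ m → m ≤ (s + 1) - 1 → Done m := by
  intro m k1 k2
  rcases eq_or_ne m s with rfl | h3
  · exact h1
  rcases eq_or_ne m (5 - s) with rfl | h4
  · exact h2
  exact h m (by omega) (by omega)

end Pool.Agent.CSA
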