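import Pool.Agent.CSA.HessA

/-!
# Reduction of a matrix with first column `(al, p, q)`

All statements are for `CS n` matrices `A`; conjugacy is `Conj`.
* `red1`: if the first column of `A` is arbitrary, `A` is conjugate to an upper Hessenberg matrix
  `H al g be de b ga ep ze` with `g ≥ 1`, `b ≥ 1`: `(p, q) = (A 1 0, A 2 0) ≠ (0, 0)` since otherwise
  `A 0 0` is an integer root of `f_n` (`f n (A 0 0) = 0`, contradiction to `f_ne`; from `CS` by
  `det_fin_three`); `g = gcd (p, q)`; conjugate by the inverse of `1 ⊕ (p/g, -y; q/g, x)`,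
  `x p + y q = g`; the first column becomes `(A 0 0, g, 0)` and `e₀` is fixed.  Then the entry `(2, 1)`
  is not zero (otherwise `(2, 2)` is an integer root), and conjugation by `diag (1, 1, -1)` changes its
  sign.  The conjugating matrices fix `e₀`, which is part of the statement (`P e₀ = e₀`).
* `red2`: `H al g be de b ga ep ze` is conjugate, by a unipotent upper triangular matrix, to the one with
  `0 ≤ al < g`, `0 ≤ ze < b`, `0 ≤ be < b` and the same `g, b`: `e₁ → e₁ + s e₀` changes `al` by `- g s`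
  (and `de` by `+ g s`), `e₂ → e₂ + s e₁` changes `ze` by `+ b s` (and `de` by `- b s`),
  `e₂ → e₂ + s e₀` changes `be` by `- b s`; in this order.
-/

namespace Pool.Agent.CSA

open Matrix

theorem HessR_f {n : ℤ} {A : M3} (hA : CS n A) (x : ℤ) : f n x =
    -((A 0 0 - x) * ((A 1 1 - x) * (A 2 2 - x) - A 1 2 * A 2 1)
      - A 0 1 * (A 1 0 * (A 2 2 - x) - A 1 2 * A 2 0)
      + A 0 2 * (A 1 0 * A 2 1 - (A 1 1 - x) * A 2 0)) := by
  have h1 := hA.det
  have h2 := hA.det'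
  have h3 := hA.tr
  rw [det_fin_three] at h1 h2
  rw [trace_fin_three] at h3
  simp only [Matrix.sub_apply, Matrix.one_apply, Fin.isValue, Fin.reduceEq, if_true, if_false] at h2
  unfold f
  linear_combination (x ^ 2 - x) * h3 + (1 - x) * h1 + x * h2

theorem HessR_eta (A : M3) {al g be de b ga ep ze : ℤ} (h00 : A 0 0 = al) (h10 : A 1 0 = g)
    (h20 : A 2 0 = 0) (h01 : A 0 1 = be) (h11 : A 1 1 = de) (h21 : A 2 1 = b) (h02 : A 0 2 = ga)
    (h12 : A 1 2 = ep) (h22 : A 2 2 = ze) : A = H al g be de b ga ep ze := by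
  rw [Matrix.eta_fin_three A, H, h00, h10, h20, h01, h11, h21, h02, h12, h22]

theorem HessR_gcd {p q : ℤ} (h : ¬ (p = 0 ∧ q = 0)) : ∃ g p' q' x y : ℤ, 1 ≤ g ∧ p = g * p' ∧
    q = g * q' ∧ x * p' + y * q' = 1 := by
  have hg : 0 < Int.gcd p q := by
    apply Nat.pos_of_ne_zero
    intro h0
    exact h (Int.gcd_eq_zero_iff.1 h0)
  obtain ⟨p', hp⟩ := Int.gcd_dvd_left p q
  obtain ⟨q', hq⟩ := Int.gcd_dvd_right p q
  refine ⟨Int.gcd p q, p', q', Int.gcdA p q, Int.gcdB p q, by exact_mod_cast hg, hp, hq, ?_⟩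
  have h1 := Int.gcd_eq_gcd_ab p q
  have hg' : ((Int.gcd p q : ℕ) : ℤ) ≠ 0 := by exact_mod_cast hg.ne'
  apply mul_left_cancel₀ hg'
  have h2 : ((Int.gcd p q : ℕ) : ℤ) * (Int.gcdA p q * p' + Int.gcdB p q * q') =
      ((Int.gcd p q : ℕ) * p') * Int.gcdA p q + ((Int.gcd p q : ℕ) * q') * Int.gcdB p q := by ring
  rw [h2, ← hp, ← hq, mul_one, ← h1]

theorem HessR_PQ {x y p q : ℤ} (h : x * p + y * q = 1) :
    (!![1, 0, 0; 0, x, y; 0, -q, p] : M3) * !![1, 0, 0; 0, p, -y; 0, q, x] = 1 := by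
  ext i j
  fin_cases i <;> fin_cases j <;>
    simp [Matrix.mul_apply, Fin.sum_univ_three] <;> first | linear_combination h | ring1

theorem HessR_sign (B : M3) (h20 : B 2 0 = 0) : ∃ (D : M3) (be de ga ep : ℤ), D * D = 1 ∧
    D *ᵥ ![1, 0, 0] = ![1, 0, 0] ∧ D * B * D = H (B 0 0) (B 1 0) be de (-B 2 1) ga ep (B 2 2) := by
  refine ⟨!![1, 0, 0; 0, 1, 0; 0, 0, -1], B 0 1, B 1 1, -B 0 2, -B 1 2, ?_, ?_, ?_⟩
  · ext i j
    fin_cases i <;> fin_cases j <;> simp [Matrix.mul_apply, Fin.sum_univ_three]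
  · ext i
    fin_cases i <;> simp [Matrix.mulVec, dotProduct, Fin.sum_univ_three]
  · unfold H
    ext i j
    fin_cases i <;> fin_cases j <;>
      simp [Matrix.mul_apply, Matrix.vecMul, dotProduct, Fin.sum_univ_three, h20]

theorem HessR_e0 {P1 P2 : M3} (h1 : P1 *ᵥ ![1, 0, 0] = ![1, 0, 0])
    (h2 : P2 *ᵥ ![1, 0, 0] = ![1, 0, 0]) : (P2 * P1) *ᵥ ![1, 0, 0] = ![1, 0, 0] := by
  rw [← Matrix.mulVec_mulVec, h1, h2]

theorem HessR_inv {P1 Q1 P2 Q2 : M3} (h1 : P1 * Q1 = 1) (h2 : P2 * Q2 = 1) :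
    P2 * P1 * (Q1 * Q2) = 1 := by
  calc P2 * P1 * (Q1 * Q2) = P2 * (P1 * Q1) * Q2 := by simp only [Matrix.mul_assoc]
    _ = 1 := by rw [h1, mul_one, h2]

theorem red1 {n : ℤ} {A : M3} (hA : CS n A) : ∃ (P Q : M3) (al g be de b ga ep ze : ℤ),
    P * Q = 1 ∧ P *ᵥ ![1, 0, 0] = ![1, 0, 0] ∧ 1 ≤ g ∧ 1 ≤ b ∧
      P * A * Q = H al g be de b ga ep ze := by
  have h0 : ¬ (A 1 0 = 0 ∧ A 2 0 = 0) := by
    rintro ⟨h1, h2⟩
    apply f_ne n (A 0 0)
    rw [HessR_f hA, h1, h2]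
    ring
  obtain ⟨g, p', q', x, y, hg, hp, hq, hxy⟩ := HessR_gcd h0
  have hPQ := HessR_PQ hxy
  generalize hP1 : (!![1, 0, 0; 0, x, y; 0, -q', p'] : M3) = P1 at hPQ
  generalize hQ1 : (!![1, 0, 0; 0, p', -y; 0, q', x] : M3) = Q1 at hPQ
  have hP0 : P1 *ᵥ ![1, 0, 0] = ![1, 0, 0] := by
    rw [← hP1]
    ext i
    fin_cases i <;> simp [Matrix.mulVec, dotProduct, Fin.sum_univ_three]
  have hB : CS n (P1 * A * Q1) := hA.conj ⟨P1, Q1, hPQ, rfl⟩
  have hB1 : (P1 * A * Q1) 1 0 = g := by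
    rw [← hP1, ← hQ1]
    simp [Matrix.mul_apply, Matrix.vecMul, dotProduct, Fin.sum_univ_three]
    rw [hp, hq]
    linear_combination g * hxy
  have hB2 : (P1 * A * Q1) 2 0 = 0 := by
    rw [← hP1, ← hQ1]
    simp [Matrix.mul_apply, Matrix.vecMul, dotProduct, Fin.sum_univ_three]
    rw [hp, hq]
    ring
  generalize hBdef : P1 * A * Q1 = B at hB hB1 hB2
  have h21 : B 2 1 ≠ 0 := by
    intro h21
    apply f_ne n (B 2 2)
    rw [HessR_f hB, h21, hB2]
    ring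
  rcases lt_or_gt_of_ne h21 with h | h
  · obtain ⟨D, be, de, ga, ep, hD, hD0, hDB⟩ := HessR_sign B hB2
    refine ⟨D * P1, Q1 * D, B 0 0, B 1 0, be, de, -B 2 1, ga, ep, B 2 2, HessR_inv hPQ hD,
      HessR_e0 hP0 hD0, by rw [hB1]; exact hg, by omega, ?_⟩
    rw [← hDB, ← hBdef]
    simp only [Matrix.mul_assoc]
  · refine ⟨P1, Q1, B 0 0, B 1 0, B 0 1, B 1 1, B 2 1, B 0 2, B 1 2, B 2 2, hPQ, hP0,
      by rw [hB1]; exact hg, by omega, ?_⟩
    rw [hBdef]
    exact HessR_eta B rfl rfl hB2 rfl rfl rfl rfl rfl rfl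

/-- the three elementary matrices -/
def Ua (s : ℤ) : M3 := !![1, s, 0; 0, 1, 0; 0, 0, 1]
def Ub (s : ℤ) : M3 := !![1, 0, 0; 0, 1, s; 0, 0, 1]
def Uc (s : ℤ) : M3 := !![1, 0, s; 0, 1, 0; 0, 0, 1]

theorem HessR_Ua (s : ℤ) : Ua s * Ua (-s) = 1 := by
  unfold Ua
  ext i j
  fin_cases i <;> fin_cases j <;> simp [Matrix.mul_apply, Fin.sum_univ_three]

theorem HessR_Ub (s : ℤ) : Ub s * Ub (-s) = 1 := by
  unfold Ub
  ext i j
  fin_cases i <;> fin_cases j <;> simp [Matrix.mul_apply, Fin.sum_univ_three]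

theorem HessR_Uc (s : ℤ) : Uc s * Uc (-s) = 1 := by
  unfold Uc
  ext i j
  fin_cases i <;> fin_cases j <;> simp [Matrix.mul_apply, Fin.sum_univ_three]

theorem HessR_Ua0 (s : ℤ) : Ua s *ᵥ ![1, 0, 0] = ![1, 0, 0] := by
  unfold Ua
  ext i
  fin_cases i <;> simp [Matrix.mulVec, dotProduct, Fin.sum_univ_three]

theorem HessR_Ub0 (s : ℤ) : Ub s *ᵥ ![1, 0, 0] = ![1, 0, 0] := by
  unfold Ub
  ext i
  fin_cases i <;> simp [Matrix.mulVec, dotProduct, Fin.sum_univ_three]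

theorem HessR_Uc0 (s : ℤ) : Uc s *ᵥ ![1, 0, 0] = ![1, 0, 0] := by
  unfold Uc
  ext i
  fin_cases i <;> simp [Matrix.mulVec, dotProduct, Fin.sum_univ_three]

theorem HessR_ca (s al g be de b ga ep ze : ℤ) : Ua s * H al g be de b ga ep ze * Ua (-s) =
    H (al + s * g) g (be + s * de - s * (al + s * g)) (de - s * g) b (ga + s * ep) ep ze := by
  unfold Ua H
  ext i j
  fin_cases i <;> fin_cases j <;> simp [Matrix.mul_apply, Fin.sum_univ_three] <;> ring

theorem HessR_cb (s al g be de b ga ep ze : ℤ) : Ub s * H al g be de b ga ep ze * Ub (-s) =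
    H al g be (de + s * b) b (ga - s * be) (ep + s * ze - s * (de + s * b)) (ze - s * b) := by
  unfold Ub H
  ext i j
  fin_cases i <;> fin_cases j <;> simp [Matrix.mul_apply, Fin.sum_univ_three] <;> ring

theorem HessR_cc (s al g be de b ga ep ze : ℤ) : Uc s * H al g be de b ga ep ze * Uc (-s) =
    H al g (be + s * b) de b (ga + s * ze - s * al) (ep - s * g) ze := by
  unfold Uc H
  ext i j
  fin_cases i <;> fin_cases j <;> simp [Matrix.mul_apply, Fin.sum_univ_three] <;> ring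

theorem HessR_mod (x g : ℤ) : x + -(x / g) * g = x % g := by
  have := Int.emod_add_mul_ediv x g
  linear_combination -this

theorem red2 {al g be de b ga ep ze : ℤ} (hg : 1 ≤ g) (hb : 1 ≤ b) :
    ∃ (P Q : M3) (al' be' de' ga' ep' ze' : ℤ), P * Q = 1 ∧
      P *ᵥ ![1, 0, 0] = ![1, 0, 0] ∧ 0 ≤ al' ∧ al' < g ∧ 0 ≤ ze' ∧ ze' < b ∧ 0 ≤ be' ∧ be' < b ∧
      P * H al g be de b ga ep ze * Q = H al' g be' de' b ga' ep' ze' := by
  have e1 := HessR_ca (-(al / g)) al g be de b ga ep ze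
  rw [HessR_mod] at e1
  generalize be + -(al / g) * de - -(al / g) * (al % g) = be1 at e1
  generalize de - -(al / g) * g = de1 at e1
  generalize ga + -(al / g) * ep = ga1 at e1
  have e2 := HessR_cb (ze / b) (al % g) g be1 de1 b ga1 ep ze
  have h2 : ze - ze / b * b = ze % b := by rw [← HessR_mod ze b]; ring
  rw [h2] at e2
  generalize de1 + ze / b * b = de2 at e2
  generalize ga1 - ze / b * be1 = ga2 at e2
  generalize ep + ze / b * ze - ze / b * de2 = ep2 at e2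
  have e3 := HessR_cc (-(be1 / b)) (al % g) g be1 de2 b ga2 ep2 (ze % b)
  rw [HessR_mod] at e3
  refine ⟨Uc (-(be1 / b)) * (Ub (ze / b) * Ua (-(al / g))),
    Ua (- -(al / g)) * Ub (-(ze / b)) * Uc (- -(be1 / b)), al % g, be1 % b, de2,
    ga2 + -(be1 / b) * (ze % b) - -(be1 / b) * (al % g), ep2 - -(be1 / b) * g, ze % b,
    HessR_inv (HessR_inv (HessR_Ua _) (HessR_Ub _)) (HessR_Uc _),
    HessR_e0 (HessR_e0 (HessR_Ua0 _) (HessR_Ub0 _)) (HessR_Uc0 _),
    Int.emod_nonneg _ (by omega), Int.emod_lt_of_pos _ (by omega),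
    Int.emod_nonneg _ (by omega), Int.emod_lt_of_pos _ (by omega),
    Int.emod_nonneg _ (by omega), Int.emod_lt_of_pos _ (by omega), ?_⟩
  rw [← e3, ← e2, ← e1]
  simp only [Matrix.mul_assoc]

end Pool.Agent.CSA
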