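import Pool.Agent.CSA.HessP
import Pool.Agent.CSA.HessR

/-!
# Hessenberg form of a matrix with respect to a primitive vector

Let `u · v = 1`.  By `exists_col` there are `P, Q` with `P e₀ = v`; `A₁ = Q A P` is conjugate to `A` and
`|Nv A₁ e₀| = |Nv A v|` (`Nv_conj`, `abs_det`; `e₀ = Q v`).  Then `red1`, `red2` (the conjugating
matrices fix `e₀`, so the absolute value of the norm of `e₀` does not change), and
`Nv (H al g be de b ga ep ze) e₀ = g * (g * b)` (`e₀ × H e₀ = (0, 0, g)`, `H² e₀` has last entry `g b`).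
-/

namespace Pool.Agent.CSA

open Matrix

theorem Nv_H_aux (al g be de b ga ep ze : ℤ) :
    Nv (H al g be de b ga ep ze) ![1, 0, 0] = g ^ 2 * b := by
  unfold Nv wv H
  simp [cross_apply, Matrix.mulVec, dotProduct, Fin.sum_univ_three, vecHead, vecTail]
  ring

theorem hess {n : ℤ} {A : M3} (hA : CS n A) {v u : V3} (hv : u ⬝ᵥ v = 1) :
    ∃ (g b al ze be : ℕ) (de ga ep : ℤ), 1 ≤ g ∧ 1 ≤ b ∧ al < g ∧ ze < b ∧ be < b ∧
      (g : ℤ) ^ 2 * b = |Nv A v| ∧ Conj A (H al g be de b ga ep ze) := by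
  obtain ⟨P, Q, h1, h2, h3⟩ := exists_col hv
  have hQv : Q *ᵥ v = ![1, 0, 0] := by
    rw [← h3, Matrix.mulVec_mulVec, h2, Matrix.one_mulVec]
  have hN1 : |Nv (Q * A * P) ![1, 0, 0]| = |Nv A v| := by
    rw [← hQv, Nv_conj h2, abs_mul, abs_det h2, one_mul]
  have hC1 : Conj A (Q * A * P) := ⟨Q, P, h2, rfl⟩
  have hA1 := hA.conj hC1
  obtain ⟨P1, Q1, al, g, be, de, b, ga, ep, ze, e1, e2, hg, hb, e3⟩ := red1 hA1
  obtain ⟨P2, Q2, al', be', de', ga', ep', ze', f1, f2, l1, l2, l3, l4, l5, l6, f3⟩ :=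
    red2 (al := al) (be := be) (de := de) (ga := ga) (ep := ep) (ze := ze) hg hb
  have hN2 : |Nv (H al g be de b ga ep ze) ![1, 0, 0]| = |Nv A v| := by
    rw [← hN1, ← e3]
    have := Nv_conj (A := Q * A * P) e1 ![1, 0, 0]
    rw [e2] at this
    rw [this, abs_mul, abs_det e1, one_mul]
  rw [Nv_H_aux, abs_of_nonneg (by positivity)] at hN2
  have hC : Conj A (H al' g be' de' b ga' ep' ze') :=
    hC1.trans (Conj.trans ⟨P1, Q1, e1, e3.symm⟩ ⟨P2, Q2, f1, f3.symm⟩)
  lift g to ℕ using by linarith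
  lift b to ℕ using by linarith
  lift al' to ℕ using l1
  lift ze' to ℕ using l3
  lift be' to ℕ using l5
  exact ⟨g, b, al', ze', be', de', ga', ep', by exact_mod_cast hg, by exact_mod_cast hb,
    by exact_mod_cast l2, by exact_mod_cast l4, by exact_mod_cast l6, hN2, hC⟩

end Pool.Agent.CSA
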