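import Pool.Agent.CSA.Base

/-!
# A primitive vector is the first column of a unimodular matrix; the norm under conjugation

* `exists_col`: let `u · v = 1`.  There are `P, Q` with `P Q = 1`, `Q P = 1` and `P e₀ = v`.
* `Nv_conj`: `Nv (P A Q) (P v) = det P * Nv A v` if `P Q = 1`: `Nv A v` is the determinant of the matrix
  with columns `v, A v, A² v` (`Nv_det`).
* `abs_det`: `P Q = 1` gives `|det P| = 1`.
-/

namespace Pool.Agent.CSA

open Matrix

theorem exists_col {u v : V3} (h : u ⬝ᵥ v = 1) :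
    ∃ P Q : M3, P * Q = 1 ∧ Q * P = 1 ∧ P *ᵥ ![1, 0, 0] = v := by
  have h0 : u 0 * v 0 + u 1 * v 1 + u 2 * v 2 = 1 := by
    rw [← h]; simp [dotProduct, Fin.sum_univ_three]
  suffices H : ∃ P Q : M3, P * Q = 1 ∧ P *ᵥ ![1, 0, 0] = v by
    obtain ⟨P, Q, h1, h2⟩ := H
    exact ⟨P, Q, h1, mul_eq_one_comm.1 h1, h2⟩
  by_cases hg : Int.gcd (v 1) (v 2) = 0
  · obtain ⟨h1, h2⟩ := Int.gcd_eq_zero_iff.1 hg
    rw [h1, h2] at h0
    refine ⟨!![v 0, 0, 0; 0, 1, 0; 0, 0, 1], !![u 0, 0, 0; 0, 1, 0; 0, 0, 1], ?_, ?_⟩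
    · ext i j
      fin_cases i <;> fin_cases j <;> simp [Matrix.mul_apply, Fin.sum_univ_three, Matrix.one_apply]
      linear_combination h0
    · ext i
      fin_cases i <;> simp [Matrix.mulVec, dotProduct, Fin.sum_univ_three, h1, h2]
  · obtain ⟨b', hb⟩ : (Int.gcd (v 1) (v 2) : ℤ) ∣ v 1 := Int.gcd_dvd_left ..
    obtain ⟨c', hc⟩ : (Int.gcd (v 1) (v 2) : ℤ) ∣ v 2 := Int.gcd_dvd_right ..
    have hbz := Int.gcd_eq_gcd_ab (v 1) (v 2)
    set g : ℤ := (Int.gcd (v 1) (v 2) : ℤ) with hgd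
    have hg0 : g ≠ 0 := by rw [hgd]; exact_mod_cast hg
    set x := Int.gcdA (v 1) (v 2)
    set y := Int.gcdB (v 1) (v 2)
    have hxy : b' * x + c' * y = 1 := by
      have : g * (b' * x + c' * y) = g * 1 := by
        rw [mul_one]
        calc g * (b' * x + c' * y) = (g * b') * x + (g * c') * y := by ring
          _ = v 1 * x + v 2 * y := by rw [← hb, ← hc]
          _ = g := hbz.symm
      exact mul_left_cancel₀ hg0 this
    have hpq : u 0 * v 0 + (u 1 * b' + u 2 * c') * g = 1 := by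
      rw [← h0, hb, hc]; ring
    set q := u 1 * b' + u 2 * c'
    have hM1 : (!![1, 0, 0; 0, b', -y; 0, c', x] : M3) * !![1, 0, 0; 0, x, y; 0, -c', b'] = 1 := by
      ext i j
      fin_cases i <;> fin_cases j <;> simp [Matrix.mul_apply, Fin.sum_univ_three, Matrix.one_apply] <;>
        first | ring1 | linear_combination hxy
    have hM2 : (!![v 0, -q, 0; g, u 0, 0; 0, 0, 1] : M3) * !![u 0, q, 0; -g, v 0, 0; 0, 0, 1] = 1 := by
      ext i j
      fin_cases i <;> fin_cases j <;> simp [Matrix.mul_apply, Fin.sum_univ_three, Matrix.one_apply] <;>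
        first | ring1 | linear_combination hpq
    refine ⟨(!![1, 0, 0; 0, b', -y; 0, c', x] : M3) * !![v 0, -q, 0; g, u 0, 0; 0, 0, 1],
      (!![u 0, q, 0; -g, v 0, 0; 0, 0, 1] : M3) * !![1, 0, 0; 0, x, y; 0, -c', b'], ?_, ?_⟩
    · rw [Matrix.mul_assoc, ← Matrix.mul_assoc (!![v 0, -q, 0; g, u 0, 0; 0, 0, 1] : M3), hM2,
        Matrix.one_mul, hM1]
    · ext i
      fin_cases i
      · simp [Matrix.mulVec, dotProduct, Fin.sum_univ_three, Matrix.mul_apply]
      · simp [Matrix.mulVec, dotProduct, Fin.sum_univ_three, Matrix.mul_apply]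
        linear_combination -hb
      · simp [Matrix.mulVec, dotProduct, Fin.sum_univ_three, Matrix.mul_apply]
        linear_combination -hc

theorem Nv_det (A : M3) (v : V3) :
    Nv A v = (Matrix.of ![v, A *ᵥ v, A *ᵥ (A *ᵥ v)]).det := by
  unfold Nv wv
  generalize A *ᵥ (A *ᵥ v) = z
  generalize A *ᵥ v = y
  rw [Matrix.det_fin_three, cross_apply]
  simp [dotProduct, Fin.sum_univ_three]
  ring

theorem Nv_conj {A P Q : M3} (h : P * Q = 1) (v : V3) :
    Nv (P * A * Q) (P *ᵥ v) = P.det * Nv A v := by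
  have h' : Q * P = 1 := mul_eq_one_comm.1 h
  have e : ∀ w : V3, (P * A * Q) *ᵥ (P *ᵥ w) = P *ᵥ (A *ᵥ w) := by
    intro w
    rw [Matrix.mulVec_mulVec, Matrix.mul_assoc (P * A), h', Matrix.mul_one, Matrix.mulVec_mulVec]
  rw [Nv_det, Nv_det, e, e]
  have : (Matrix.of ![P *ᵥ v, P *ᵥ (A *ᵥ v), P *ᵥ (A *ᵥ (A *ᵥ v))] : M3) =
      (Matrix.of ![v, A *ᵥ v, A *ᵥ (A *ᵥ v)] : M3) * Pᵀ := by
    generalize A *ᵥ (A *ᵥ v) = z
    generalize A *ᵥ v = y
    ext i j
    fin_cases i <;> simp [Matrix.mul_apply, Matrix.mulVec, dotProduct, Fin.sum_univ_three] <;> ring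
  rw [this, Matrix.det_mul, Matrix.det_transpose, mul_comm]

theorem abs_det {P Q : M3} (h : P * Q = 1) : |P.det| = 1 := by
  have h1 : P.det * Q.det = 1 := by rw [← Matrix.det_mul, h, Matrix.det_one]
  exact Int.isUnit_iff_abs_eq.1 (IsUnit.of_mul_eq_one _ h1)

end Pool.Agent.CSA
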