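import Pool.Agent.CSA.Base

/-!
# `isRoot_iff`, `tri_sound`

* `isRoot_iff`: the two sides of the test differ by `f s c` (`c (c² + (s-1)) - (s c² + 1)`, `1 ≤ s`);
  `Nat.ModEq`, `Int.natCast_mod_cast`, `(Nat.modEq_iff_dvd)`.
* `tri_sound`: in `ZMod p` (a field) or by divisibility: `f s c ≡ (c - a)(c - b)(c - d)` modulo `p` by
  the three tests, so `p` divides one factor, and all numbers are `< p`.
-/
namespace Pool.Agent.CSA

theorem IsR_beq {a b m : ℕ} : Nat.beq (a % m) (b % m) = true ↔ (m : ℤ) ∣ (a : ℤ) - b := by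
  rw [Nat.beq_eq]
  constructor
  · intro h
    exact (Nat.modEq_iff_dvd (a := b) (b := a)).1 h.symm
  · intro h
    exact ((Nat.modEq_iff_dvd (a := b) (b := a)).2 h).symm

theorem isRoot_iff {s m c : ℕ} (hs : 1 ≤ s) : isRoot s m c = true ↔ (m : ℤ) ∣ f s c := by
  have h0 : isRoot s m c = Nat.beq ((c * (c * c + (s - 1))) % m) ((s * (c * c) + 1) % m) := rfl
  rw [h0, IsR_beq]
  have h1 : ((c * (c * c + (s - 1)) : ℕ) : ℤ) - ((s * (c * c) + 1 : ℕ) : ℤ) = f s c := by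
    unfold f
    push_cast [Nat.cast_sub hs]
    ring
  rw [h1]

theorem tri_sound {s p a b d c : ℕ} (hp : p.Prime) (hs : 1 ≤ s) (h : tri s p a b d = true)
    (hc : c < p) (hf : (p : ℤ) ∣ f s c) : c = a ∨ c = b ∨ c = d := by
  unfold tri at h
  simp only [Bool.and_eq_true] at h
  obtain ⟨⟨⟨⟨⟨ha, hb⟩, hd⟩, h1⟩, h2⟩, h3⟩ := h
  rw [Nat.blt_eq] at ha hb hd
  have h1' : (p : ℤ) ∣ ((a + b + d : ℕ) : ℤ) - (s : ℕ) := IsR_beq.1 h1
  have h2' : (p : ℤ) ∣ ((a * b + a * d + b * d : ℕ) : ℤ) - ((s - 1 : ℕ) : ℤ) := IsR_beq.1 h2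
  have h3' : (p : ℤ) ∣ ((a * (b * d) : ℕ) : ℤ) - ((1 : ℕ) : ℤ) := IsR_beq.1 h3
  have h4 : (p : ℤ) ∣ ((c : ℤ) - a) * ((c : ℤ) - b) * ((c : ℤ) - d) := by
    have h5 : ((c : ℤ) - a) * ((c : ℤ) - b) * ((c : ℤ) - d) = f s c -
        (((a + b + d : ℕ) : ℤ) - (s : ℕ)) * c ^ 2 +
        (((a * b + a * d + b * d : ℕ) : ℤ) - ((s - 1 : ℕ) : ℤ)) * c -
        (((a * (b * d) : ℕ) : ℤ) - ((1 : ℕ) : ℤ)) := by
      unfold f
      push_cast [Nat.cast_sub hs]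
      ring
    rw [h5]
    exact dvd_sub (dvd_add (dvd_sub hf (Dvd.dvd.mul_right h1' _)) (Dvd.dvd.mul_right h2' _)) h3'
  have hpi : Prime (p : ℤ) := Nat.prime_iff_prime_int.1 hp
  have key : ∀ x : ℕ, x < p → (p : ℤ) ∣ (c : ℤ) - x → c = x := by
    intro x hx hdv
    have := Int.eq_zero_of_abs_lt_dvd hdv (by rw [abs_lt]; omega)
    omega
  rcases hpi.dvd_or_dvd h4 with h6 | h6
  · rcases hpi.dvd_or_dvd h6 with h7 | h7
    · exact Or.inl (key a ha h7)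
    · exact Or.inr (Or.inl (key b hb h7))
  · exact Or.inr (Or.inr (key d hd h6))

end Pool.Agent.CSA
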