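import Pool.Agent.CSA.IsR

/-!
# `lifts_complete`

If `c < d q` is a root modulo `d q`, then `c % d` is a root modulo `d` (`root_mod`), so it is in `rs`, and
`c = c % d + (c / d) d` with `c / d < q`, so it is found by `liftAux` (which tests
`c % d, c % d + d, …`, `q` numbers).
-/

namespace Pool.Agent.CSA

theorem root_mod {s d m c : ℕ} (h : d ∣ m) (hc : (m : ℤ) ∣ f s c) :
    (d : ℤ) ∣ f s ((c % d : ℕ) : ℤ) := by
  have h1 : (d : ℤ) ∣ f s c := dvd_trans (by exact_mod_cast h) hc
  have h2 : ((c % d : ℕ) : ℤ) ≡ (c : ℤ) [ZMOD (d : ℤ)] := by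
    rw [Int.natCast_mod]
    exact Int.mod_modEq _ _
  have h3 : f s ((c % d : ℕ) : ℤ) ≡ f s (c : ℤ) [ZMOD (d : ℤ)] := by
    unfold f
    exact (((h2.pow 3).sub ((h2.pow 2).mul_left _)).add (h2.mul_left _)).sub (Int.ModEq.refl 1)
  have h4 : f s ((c % d : ℕ) : ℤ) = f s (c : ℤ) - (f s (c : ℤ) - f s ((c % d : ℕ) : ℤ)) := by ring
  rw [h4]
  exact dvd_sub h1 h3.dvd

theorem liftAux_zero' (s d m c : ℕ) (acc : List ℕ) : liftAux s d m 0 c acc = acc := rfl

theorem liftAux_succ' (s d m n c : ℕ) (acc : List ℕ) : liftAux s d m (n + 1) c acc =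
    st c fun c' => Bool.rec (liftAux s d m n (Nat.add c' d) acc)
      (liftAux s d m n (Nat.add c' d) (c' :: acc)) (isRoot s m c') := rfl

theorem liftAux_mono' (s d m : ℕ) : ∀ (n c : ℕ) (acc : List ℕ) (x : ℕ), x ∈ acc →
    x ∈ liftAux s d m n c acc
  | 0, c, acc, x, h => h
  | n + 1, c, acc, x, h => by
    rw [liftAux_succ', st_eq]
    cases isRoot s m c with
    | false => exact liftAux_mono' s d m n _ _ x h
    | true => exact liftAux_mono' s d m n _ _ x (List.mem_cons_of_mem _ h)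

theorem liftAux_mem' (s d m : ℕ) : ∀ (n c : ℕ) (acc : List ℕ) (j : ℕ), j < n →
    isRoot s m (c + j * d) = true → c + j * d ∈ liftAux s d m n c acc
  | 0, c, acc, j, h, _ => absurd h (Nat.not_lt_zero _)
  | n + 1, c, acc, 0, h, hr => by
    rw [liftAux_succ', st_eq]
    rw [Nat.zero_mul, Nat.add_zero] at hr ⊢
    rw [hr]
    exact liftAux_mono' s d m n _ _ c List.mem_cons_self
  | n + 1, c, acc, j + 1, h, hr => by
    rw [liftAux_succ', st_eq]
    have e : c + (j + 1) * d = (c + d) + j * d := by ring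
    rw [e] at hr ⊢
    cases isRoot s m c with
    | false => exact liftAux_mem' s d m n (c + d) acc j (by omega) hr
    | true => exact liftAux_mem' s d m n (c + d) (c :: acc) j (by omega) hr

theorem lifts_mem' (s d q : ℕ) : ∀ (rs : List ℕ) (c : ℕ), c ∈ rs → ∀ j < q,
    isRoot s (d * q) (c + j * d) = true → c + j * d ∈ lifts s d q rs
  | [], c, h, _, _, _ => absurd h List.not_mem_nil
  | a :: rs, c, h, j, hj, hr => by
    show c + j * d ∈ liftAux s d (d * q) q a (lifts s d q rs)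
    rcases List.mem_cons.1 h with rfl | h
    · exact liftAux_mem' s d (d * q) q c _ j hj hr
    · exact liftAux_mono' s d (d * q) q a _ _ (lifts_mem' s d q rs c h j hj hr)

theorem lifts_complete {s d q : ℕ} {rs : List ℕ} (hs : 1 ≤ s) (hd : 1 ≤ d)
    (h : Comp s d rs) : Comp s (d * q) (lifts s d q rs) := by
  intro c hc hf
  have h1 : c % d ∈ rs := h _ (Nat.mod_lt _ hd) (root_mod (dvd_mul_right d q) hf)
  have h2 : c / d < q := (Nat.div_lt_iff_lt_mul hd).2 (by rw [mul_comm]; exact hc)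
  have e : c % d + c / d * d = c := by rw [mul_comm (c / d)]; exact Nat.mod_add_div c d
  have h3 := lifts_mem' s d q rs (c % d) h1 (c / d) h2 (by
    rw [e]; exact (isRoot_iff hs).2 hf)
  rwa [e] at h3

end Pool.Agent.CSA
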