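import Mathlib

/-!
# Minkowski's theorem for three linear forms and the octahedron

Let `Y` be a real `3 × 3` matrix with `det Y ≠ 0`.  There is an integer vector `v ≠ 0` with
`(∑ i, |(Y v) i|) ^ 3 ≤ 6 |det Y|`.

Proof.  The set `S = {x | ∑ |x i| ≤ t}` with `t ^ 3 = 6 |det Y|` has volume `8 t^3 / 6`
(`MeasureTheory.volume_sum_rpow_le` or `..._lt` with `p = 1`, `Real.Gamma_nat_eq_factorial`), it is
compact, convex and symmetric.  Its preimage under `Y` (`Matrix.toLin'`) has volume
`8 t^3 / (6 |det Y|) = 8 = 2^3 * covolume (ℤ^3)` (`MeasureTheory.Measure.addHaar_preimage_linearMap`).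
Apply `MeasureTheory.exists_ne_zero_mem_lattice_of_measure_mul_two_pow_le_measure` (compact version, with
`≤`) to the lattice `ℤ^3` (fundamental domain: `ZSpan.isAddFundamentalDomain (Pi.basisFun ℝ (Fin 3))`,
volume one).
-/

namespace Pool.Agent.CSA

open Matrix MeasureTheory

theorem LinF_vol (t : ℝ) (ht : 0 ≤ t) :
    volume {x : Fin 3 → ℝ | ∑ i, |x i| ≤ t} = ENNReal.ofReal (t ^ 3 * (8 / 6)) := by
  have h := MeasureTheory.volume_sum_rpow_le (ι := Fin 3) (p := 1) le_rfl t
  have h1 : {x : Fin 3 → ℝ | (∑ i, |x i| ^ (1 : ℝ)) ^ (1 / (1 : ℝ)) ≤ t} =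
      {x : Fin 3 → ℝ | ∑ i, |x i| ≤ t} := by
    ext x
    simp
  rw [h1] at h
  rw [h]
  have h2 : Real.Gamma (1 / 1 + 1) = 1 := by
    norm_num
  have h3 : Real.Gamma ((Fintype.card (Fin 3) : ℝ) / 1 + 1) = 6 := by
    have := Real.Gamma_nat_eq_factorial 3
    simp only [Fintype.card_fin, div_one]
    rw [this]
    norm_num [Nat.factorial]
  rw [h2, h3, Fintype.card_fin, ← ENNReal.ofReal_pow ht, ← ENNReal.ofReal_mul (by positivity)]
  norm_num

theorem linForms (Y : Matrix (Fin 3) (Fin 3) ℝ) (hY : Y.det ≠ 0) :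
    ∃ v : Fin 3 → ℤ, v ≠ 0 ∧ (∑ i, |∑ j, Y i j * (v j : ℝ)|) ^ 3 ≤ 6 * |Y.det| := by
  set D : ℝ := |Y.det| with hD
  have hD0 : 0 < D := abs_pos.2 hY
  set t : ℝ := (6 * D) ^ ((3 : ℕ) : ℝ)⁻¹ with ht
  have ht3 : t ^ 3 = 6 * D := Real.rpow_inv_natCast_pow (by positivity) (by norm_num)
  have ht0 : 0 ≤ t := by positivity
  set S : Set (Fin 3 → ℝ) := {x | ∑ i, |x i| ≤ t} with hS
  set f : (Fin 3 → ℝ) →ₗ[ℝ] (Fin 3 → ℝ) := Matrix.toLin' Y with hf
  have hdet : LinearMap.det f = Y.det := by rw [hf, LinearMap.det_toLin']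
  have hdet0 : LinearMap.det f ≠ 0 := by rw [hdet]; exact hY
  set b := Pi.basisFun ℝ (Fin 3) with hb
  have fund := ZSpan.isAddFundamentalDomain' b (volume : Measure (Fin 3 → ℝ))
  have hvolF : volume (ZSpan.fundamentalDomain b) = 1 := by
    rw [hb, ZSpan.fundamentalDomain_pi_basisFun, Real.volume_pi_Ico]
    simp
  have hvol : volume (f ⁻¹' S) = 8 := by
    rw [Measure.addHaar_preimage_linearMap volume hdet0, LinF_vol t ht0, hdet, abs_inv, ← hD,
      ← ENNReal.ofReal_mul (by positivity), ht3]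
    have : D⁻¹ * (6 * D * (8 / 6)) = 8 := by
      field_simp
    rw [this]
    norm_num
  have hScl : IsClosed S := by
    refine isClosed_le ?_ continuous_const
    fun_prop
  have hSb : Bornology.IsBounded S := by
    refine (Metric.isBounded_closedBall (x := (0 : Fin 3 → ℝ)) (r := t)).subset ?_
    intro x hx
    rw [mem_closedBall_zero_iff, pi_norm_le_iff_of_nonneg ht0]
    intro i
    refine le_trans ?_ hx
    exact Finset.single_le_sum (f := fun i => |x i|) (fun j _ => abs_nonneg _) (Finset.mem_univ i)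
  have hScpt : IsCompact S := Metric.isCompact_of_isClosed_isBounded hScl hSb
  have hcpt : IsCompact (f ⁻¹' S) := by
    have h1 := ((f.equivOfDetNeZero hdet0).toContinuousLinearEquiv.toHomeomorph).isCompact_preimage.2
      hScpt
    exact h1
  have hsymm : ∀ x ∈ f ⁻¹' S, -x ∈ f ⁻¹' S := by
    intro x hx
    change ∑ i, |f (-x) i| ≤ t
    have h1 : ∑ i, |f x i| ≤ t := hx
    simpa using h1
  have hconvS : Convex ℝ S := by
    intro x hx y hy a c ha hc hac
    change ∑ i, |(a • x + c • y) i| ≤ t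
    have hx' : ∑ i, |x i| ≤ t := hx
    have hy' : ∑ i, |y i| ≤ t := hy
    have h1 : ∑ i, |(a • x + c • y) i| ≤ ∑ i, (a * |x i| + c * |y i|) := by
      refine Finset.sum_le_sum fun i _ => ?_
      refine (abs_add_le _ _).trans ?_
      simp [abs_mul, abs_of_nonneg ha, abs_of_nonneg hc]
    rw [Finset.sum_add_distrib, ← Finset.mul_sum, ← Finset.mul_sum] at h1
    have h2 : a * ∑ i, |x i| ≤ a * t := mul_le_mul_of_nonneg_left hx' ha
    have h3 : c * ∑ i, |y i| ≤ c * t := mul_le_mul_of_nonneg_left hy' hc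
    have h4 : a * t + c * t = t := by rw [← add_mul, hac, one_mul]
    linarith
  have hconv : Convex ℝ (f ⁻¹' S) := hconvS.linear_preimage f
  have : Countable (Submodule.span ℤ (Set.range b)).toAddSubgroup := by
    change Countable (Submodule.span ℤ (Set.range b))
    infer_instance
  have hmain := MeasureTheory.exists_ne_zero_mem_lattice_of_measure_mul_two_pow_le_measure
    (μ := (volume : Measure (Fin 3 → ℝ))) fund hsymm hconv hcpt (by
      rw [hvolF, hvol]
      simp
      norm_num)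
  obtain ⟨⟨x, hxL⟩, hx0, hxS⟩ := hmain
  have hxL' : x ∈ Submodule.span ℤ (Set.range b) := hxL
  rw [b.mem_span_iff_repr_mem ℤ x] at hxL'
  choose v hv using hxL'
  refine ⟨v, ?_, ?_⟩
  · rintro rfl
    apply hx0
    ext i
    have := hv i
    simpa [hb] using this.symm
  · have hxv : ∀ i, x i = (v i : ℝ) := by
      intro i
      have := hv i
      simpa [hb] using this.symm
    have h1 : ∑ i, |f x i| ≤ t := hxS
    have h2 : ∀ i, f x i = ∑ j, Y i j * (v j : ℝ) := by
      intro i
      rw [hf, Matrix.toLin'_apply]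
      simp only [Matrix.mulVec, dotProduct, hxv]
    simp only [h2] at h1
    calc (∑ i, |∑ j, Y i j * (v j : ℝ)|) ^ 3 ≤ t ^ 3 := by
          refine pow_le_pow_left₀ ?_ h1 3
          exact Finset.sum_nonneg fun i _ => abs_nonneg _
      _ = 6 * D := ht3

end Pool.Agent.CSA
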