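import Pool.Agent.CSA.Base

/-!
# The list loop `chk1`

Pure list inductions; `chkRs` is in continuation passing style: show
`chkRs s d rs cs T k = true → (∀ c ∈ rs, (d, c) ∈ T ∨ ∃ code, vecOK1 s d c code = true) ∧
∃ cs' T', (∀ x ∈ T', x ∈ T) ∧ k cs' T' = true`.
-/

namespace Pool.Agent.CSA

theorem Lst1_rs {s d : ℕ} (k : List ℕ → List (ℕ × ℕ) → Bool) : ∀ (rs cs : List ℕ)
    (T : List (ℕ × ℕ)), chkRs s d rs cs T k = true →
    (∀ c ∈ rs, (d, c) ∈ T ∨ ∃ code, vecOK1 s d c code = true) ∧
      ∃ cs' T', (∀ x ∈ T', x ∈ T) ∧ k cs' T' = true := by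
  intro rs
  induction rs with
  | nil =>
    intro cs T h
    exact ⟨fun c hc => absurd hc List.not_mem_nil, cs, T, fun _ h => h, h⟩
  | cons c rs ih =>
    intro cs T h
    cases cs with
    | nil => exact absurd h Bool.false_ne_true
    | cons code cs =>
      cases code with
      | zero =>
        cases T with
        | nil => exact absurd h Bool.false_ne_true
        | cons x T =>
          obtain ⟨d', c'⟩ := x
          change (Nat.beq d d' && Nat.beq c c' && chkRs s d rs cs T k) = true at h
          rw [Bool.and_eq_true, Bool.and_eq_true] at h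
          obtain ⟨⟨h1, h2⟩, h3⟩ := h
          have h1' : d = d' := Nat.eq_of_beq_eq_true h1
          have h2' : c = c' := Nat.eq_of_beq_eq_true h2
          subst h1' h2'
          obtain ⟨g1, cs', T', g2, g3⟩ := ih cs T h3
          refine ⟨?_, cs', T', fun x hx => List.mem_cons_of_mem _ (g2 x hx), g3⟩
          intro c0 hc0
          rcases List.mem_cons.1 hc0 with h4 | h4
          · left; rw [h4]; exact List.mem_cons_self
          · rcases g1 c0 h4 with h5 | h5
            · left; exact List.mem_cons_of_mem _ h5
            · right; exact h5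
      | succ code =>
        change (vecOK1 s d c (code + 1) && chkRs s d rs cs T k) = true at h
        rw [Bool.and_eq_true] at h
        obtain ⟨h1, h3⟩ := h
        obtain ⟨g1, cs', T', g2, g3⟩ := ih cs T h3
        refine ⟨?_, cs', T', g2, g3⟩
        intro c0 hc0
        rcases List.mem_cons.1 hc0 with h4 | h4
        · right; rw [h4]; exact ⟨code + 1, h1⟩
        · exact g1 c0 h4

theorem chk1_sound {s lim : ℕ} : ∀ (F : List (ℕ × List ℕ)) (cs : List ℕ) (T : List (ℕ × ℕ)),
    chk1 s lim F cs T = true → ∀ d rs, (d, rs) ∈ F → lim < d → ∀ c ∈ rs,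
      (d, c) ∈ T ∨ ∃ code, vecOK1 s d c code = true := by
  intro F
  induction F with
  | nil => intro cs T _ d rs h; exact absurd h List.not_mem_nil
  | cons x F ih =>
    obtain ⟨d0, rs0⟩ := x
    intro cs T h d rs hm hd c hc
    cases hb : Nat.ble d0 lim with
    | true =>
      have h1 : chk1 s lim F cs T = true := by
        simp only [chk1, hb] at h
        exact h
      rcases List.mem_cons.1 hm with h2 | h2
      · have h3 : d = d0 := congrArg Prod.fst h2
        have h4 : d0 ≤ lim := Nat.le_of_ble_eq_true hb
        omega
      · exact ih cs T h1 d rs h2 hd c hc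
    | false =>
      have h1 : chkRs s d0 rs0 cs T (chk1 s lim F) = true := by
        simp only [chk1, hb] at h
        exact h
      obtain ⟨g1, cs', T', g2, g3⟩ := Lst1_rs (chk1 s lim F) rs0 cs T h1
      rcases List.mem_cons.1 hm with h2 | h2
      · have h3 : d = d0 := congrArg Prod.fst h2
        have h4 : rs = rs0 := congrArg Prod.snd h2
        subst h3 h4
        exact g1 c hc
      · rcases ih cs' T' g3 d rs h2 hd c hc with h5 | h5
        · left; exact g2 _ h5
        · right; exact h5

theorem small_mem {m : ℕ} {F : List (ℕ × List ℕ)} {d : ℕ} {rs : List ℕ} (h : (d, rs) ∈ F)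
    (hd : d ≤ m) : (d, rs) ∈ small m F := by
  induction F with
  | nil => exact absurd h List.not_mem_nil
  | cons x F ih =>
    obtain ⟨d0, rs0⟩ := x
    cases hb : Nat.ble d0 m with
    | true =>
      have h1 : small m ((d0, rs0) :: F) = (d0, rs0) :: small m F := by
        simp only [small, hb]
      rw [h1]
      rcases List.mem_cons.1 h with h2 | h2
      · rw [h2]; exact List.mem_cons_self
      · exact List.mem_cons_of_mem _ (ih h2)
    | false =>
      have h1 : small m ((d0, rs0) :: F) = small m F := by
        simp only [small, hb]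
      rw [h1]
      rcases List.mem_cons.1 h with h2 | h2
      · have h3 : d = d0 := congrArg Prod.fst h2
        have h4 : Nat.ble d0 m = true := Nat.ble_eq_true_of_le (by omega)
        rw [hb] at h4
        exact absurd h4 Bool.false_ne_true
      · exact ih h2

end Pool.Agent.CSA
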