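import Pool.Agent.CSA.Base

/-!
# The list loops `chkg, chkb, chkA, chkZ, chkB`

`betas_mem`: `be < n`, `(g * be) % b = Q` implies `be ∈ betas g b Q n acc` (defined with `Nat.rec`).
`chkg_sound`: list inductions in continuation passing style (each loop: if the value is `true` then the
claim holds for all members, and the continuation is `true` for some list).  Conclusion for all
`g, b, al, ze, be`; with `e = al de - g be + (al + de) ze - (s - 1) = b ep` and
`t = 1 - al (de ze - e) + be (g ze) = g b ga`: the number `be` is visited because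
`(g be) % b = Qres s b al ze` (`b ∣ e`), the test `t % (g b) = 0` succeeds, and then
`vecOK ...` is `true` with `t / (g b) = ga`, `e / b = ep`.
-/

namespace Pool.Agent.CSA

theorem LstG_betas_acc {g b Q n : ℕ} : ∀ {acc : List ℕ} {x : ℕ}, x ∈ acc →
    x ∈ betas g b Q n acc := by
  induction n with
  | zero => intro acc x h; exact h
  | succ n ih =>
    intro acc x h
    show x ∈ (Bool.rec (betas g b Q n acc) (betas g b Q n (n :: acc))
      (Nat.beq ((Nat.mul g n) % b) Q) : List ℕ)
    cases Nat.beq ((Nat.mul g n) % b) Q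
    · exact ih h
    · exact ih (List.mem_cons_of_mem _ h)

theorem betas_mem {g b Q be n : ℕ} {acc : List ℕ} (h1 : be < n) (h2 : (g * be) % b = Q) :
    be ∈ betas g b Q n acc := by
  induction n generalizing acc with
  | zero => omega
  | succ n ih =>
    show be ∈ (Bool.rec (betas g b Q n acc) (betas g b Q n (n :: acc))
      (Nat.beq ((Nat.mul g n) % b) Q) : List ℕ)
    rcases Nat.lt_succ_iff_lt_or_eq.1 h1 with h | h
    · cases Nat.beq ((Nat.mul g n) % b) Q
      · exact ih h
      · exact ih h
    · subst h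
      have : Nat.beq ((Nat.mul g be) % b) Q = true := by
        rw [Nat.beq_eq]; exact h2
      rw [this]
      exact LstG_betas_acc List.mem_cons_self

theorem LstG_B {s g b al ze lim : ℕ} : ∀ (bes cs : List ℕ) (k : List ℕ → Bool),
    chkB s g b al ze lim bes cs k = true →
      (∃ cs', k cs' = true) ∧ ∀ be ∈ bes, ∀ (de e t ga ep : ℤ), de = s - al - ze →
        e = al * de - g * be + (al + de) * ze - (s - 1) →
        t = 1 - al * (de * ze - e) + be * (g * ze) →
        t % (g * b : ℤ) = 0 → t / (g * b : ℤ) = ga → e / (b : ℤ) = ep →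
        ∃ code, vecOK al g be (res de) b (res ga) (res ep) ze code lim = true := by
  intro bes
  induction bes with
  | nil =>
    intro cs k h
    exact ⟨⟨cs, h⟩, by simp⟩
  | cons be' bes ih =>
    intro cs k h
    unfold chkB at h
    simp only at h
    split at h
    · rename_i n hn
      obtain ⟨h1, h2⟩ := ih cs k h
      refine ⟨h1, ?_⟩
      intro be hbe de e t ga ep hde he ht htm hga hep
      rcases List.mem_cons.1 hbe with hb | hb
      · exfalso
        subst hb
        have : (Int.emod t (Int.ofNat (Nat.mul g b))).natAbs = n + 1 := by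
          rw [ht, he, hde]
          exact hn
        have h3 : Int.emod t (Int.ofNat (Nat.mul g b)) = 0 := by
          have : (Int.ofNat (Nat.mul g b)) = ((g : ℤ) * b) := by
            show ((Nat.mul g b : ℕ) : ℤ) = _
            rw [Nat.mul_eq]; push_cast; ring
          rw [this]; exact htm
        rw [h3] at this
        simp at this
      · exact h2 be hb de e t ga ep hde he ht htm hga hep
    · rename_i hn
      cases cs with
      | nil => simp at h
      | cons code cs =>
        simp only [Bool.and_eq_true] at h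
        obtain ⟨hv, hr⟩ := h
        obtain ⟨h1, h2⟩ := ih cs k hr
        refine ⟨h1, ?_⟩
        intro be hbe de e t ga ep hde he ht htm hga hep
        rcases List.mem_cons.1 hbe with hb | hb
        · subst hb
          refine ⟨code, ?_⟩
          rw [← hga, ← hep, ht, he, hde]
          exact hv
        · exact h2 be hb de e t ga ep hde he ht htm hga hep

theorem LstG_Z {s g b al lim : ℕ} : ∀ (zes cs : List ℕ) (k : List ℕ → Bool),
    chkZ s g b al lim zes cs k = true →
      (∃ cs', k cs' = true) ∧ ∀ ze ∈ zes, ∃ (cs1 : List ℕ) (k1 : List ℕ → Bool),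
        chkB s g b al ze lim (betas g b (Qres s b al ze) b []) cs1 k1 = true := by
  intro zes
  induction zes with
  | nil =>
    intro cs k h
    exact ⟨⟨cs, h⟩, by simp⟩
  | cons ze' zes ih =>
    intro cs k h
    unfold chkZ at h
    rw [st_eq] at h
    obtain ⟨⟨cs', hcs'⟩, -⟩ := LstG_B _ _ _ h
    obtain ⟨h1, h2⟩ := ih _ _ hcs'
    refine ⟨h1, ?_⟩
    intro ze hze
    rcases List.mem_cons.1 hze with hb | hb
    · subst hb
      exact ⟨_, _, h⟩
    · exact h2 ze hb

theorem LstG_A {s g b lim : ℕ} {zes : List ℕ} : ∀ (als cs : List ℕ) (k : List ℕ → Bool),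
    chkA s g b lim zes als cs k = true →
      (∃ cs', k cs' = true) ∧ ∀ al ∈ als, ∃ (cs1 : List ℕ) (k1 : List ℕ → Bool),
        chkZ s g b al lim zes cs1 k1 = true := by
  intro als
  induction als with
  | nil =>
    intro cs k h
    exact ⟨⟨cs, h⟩, by simp⟩
  | cons al' als ih =>
    intro cs k h
    unfold chkA at h
    obtain ⟨⟨cs', hcs'⟩, -⟩ := LstG_Z _ _ _ h
    obtain ⟨h1, h2⟩ := ih _ _ hcs'
    refine ⟨h1, ?_⟩
    intro al hal
    rcases List.mem_cons.1 hal with hb | hb
    · subst hb
      exact ⟨_, _, h⟩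
    · exact h2 al hb

theorem LstG_b {s B g : ℕ} {als : List ℕ} : ∀ (l : List (ℕ × List ℕ)) (cs : List ℕ)
    (k : List ℕ → Bool), chkb s B g als l cs k = true →
      (∃ cs', k cs' = true) ∧ ∀ b zes, (b, zes) ∈ l → g * (g * b) ≤ B →
        ∃ (cs1 : List ℕ) (k1 : List ℕ → Bool), chkA s g b (B + 1) zes als cs1 k1 = true := by
  intro l
  induction l with
  | nil =>
    intro cs k h
    exact ⟨⟨cs, h⟩, by simp⟩
  | cons p l ih =>
    obtain ⟨b', zes'⟩ := p
    intro cs k h
    unfold chkb at h
    split at h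
    · rename_i hle
      obtain ⟨h1, h2⟩ := ih _ _ h
      refine ⟨h1, ?_⟩
      intro b zes hm hb
      rcases List.mem_cons.1 hm with hp | hp
      · exfalso
        obtain ⟨rfl, rfl⟩ := Prod.mk.inj hp
        have : Nat.ble (g * (g * b)) B = true := by rw [Nat.ble_eq]; exact hb
        have h' : Nat.ble (g * (g * b)) B = false := hle
        rw [this] at h'
        cases h'
      · exact h2 b zes hp hb
    · obtain ⟨⟨cs', hcs'⟩, -⟩ := LstG_A _ _ _ h
      obtain ⟨h1, h2⟩ := ih _ _ hcs'
      refine ⟨h1, ?_⟩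
      intro b zes hm hb
      rcases List.mem_cons.1 hm with hp | hp
      · obtain ⟨rfl, rfl⟩ := Prod.mk.inj hp
        exact ⟨_, _, h⟩
      · exact h2 b zes hp hb

theorem LstG_g {s B : ℕ} {l0 : List (ℕ × List ℕ)} : ∀ (l : List (ℕ × List ℕ)) (cs : List ℕ),
    chkg s B l0 l cs = true → ∀ g als, (g, als) ∈ l → g * g ≤ B →
      ∃ (cs1 : List ℕ) (k1 : List ℕ → Bool),
        chkb s B g als ((1, [0]) :: l0) cs1 k1 = true := by
  intro l
  induction l with
  | nil =>
    intro cs h g als hm
    simp at hm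
  | cons p l ih =>
    obtain ⟨g', als'⟩ := p
    intro cs h g als hm hg
    unfold chkg at h
    split at h
    · rename_i hle
      rcases List.mem_cons.1 hm with hp | hp
      · exfalso
        obtain ⟨rfl, rfl⟩ := Prod.mk.inj hp
        have : Nat.ble (g * g) B = true := by rw [Nat.ble_eq]; exact hg
        have h' : Nat.ble (g * g) B = false := hle
        rw [this] at h'
        cases h'
      · exact ih _ h g als hp hg
    · rcases List.mem_cons.1 hm with hp | hp
      · obtain ⟨rfl, rfl⟩ := Prod.mk.inj hp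
        exact ⟨_, _, h⟩
      · obtain ⟨⟨cs', hcs'⟩, -⟩ := LstG_b _ _ _ h
        exact ih _ hcs' g als hp hg

theorem chkg_sound {s B : ℕ} {l0 : List (ℕ × List ℕ)} :
    ∀ (l : List (ℕ × List ℕ)) (cs : List ℕ), chkg s B l0 l cs = true →
      ∀ (g b al ze be : ℕ) (als zes : List ℕ) (de ga ep : ℤ), (g, als) ∈ l →
        ((b, zes) = (1, [0]) ∨ (b, zes) ∈ l0) → g * g * b ≤ B → 1 ≤ g → 1 ≤ b → al ∈ als →
        ze ∈ zes → be < b →
        de = s - al - ze → b * ep = al * de - g * be + (al + de) * ze - (s - 1) →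
        g * b * ga = 1 - al * (de * ze - b * ep) + be * (g * ze) →
        ∃ code, vecOK al g be (res de) b (res ga) (res ep) ze code (B + 1) = true := by
  intro l cs h g b al ze be als zes de ga ep hg hb hB hg1 hb1 hal hze hbe hde hep hga
  have hgg : g * g ≤ B := le_trans (Nat.le_mul_of_pos_right _ hb1) hB
  obtain ⟨cs1, k1, h1⟩ := LstG_g l cs h g als hg hgg
  have hmem : (b, zes) ∈ ((1, [0]) :: l0 : List (ℕ × List ℕ)) := by
    rcases hb with hb | hb
    · rw [hb]; exact List.mem_cons_self
    · exact List.mem_cons_of_mem _ hb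
  obtain ⟨-, h2⟩ := LstG_b _ _ _ h1
  obtain ⟨cs2, k2, h3⟩ := h2 b zes hmem (by rw [← mul_assoc]; exact hB)
  obtain ⟨-, h4⟩ := LstG_A _ _ _ h3
  obtain ⟨cs3, k3, h5⟩ := h4 al hal
  obtain ⟨-, h6⟩ := LstG_Z _ _ _ h5
  obtain ⟨cs4, k4, h7⟩ := h6 ze hze
  obtain ⟨-, h8⟩ := LstG_B _ _ _ h7
  have hbZ : (b : ℤ) ≠ 0 := by exact_mod_cast (by omega : b ≠ 0)
  have hgZ : (g : ℤ) ≠ 0 := by exact_mod_cast (by omega : g ≠ 0)
  refine h8 be ?_ de (b * ep) (g * b * ga) ga ep hde (by rw [hep]) (by rw [hga]) ?_ ?_ ?_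
  · apply betas_mem hbe
    have hQ : Qres s b al ze = (((al : ℤ) * (s - al - ze) + (al + (s - al - ze)) * ze - (s - 1))
        % (b : ℤ)).toNat := rfl
    rw [hQ, ← hde]
    have : (al : ℤ) * de + (al + de) * ze - (s - 1) = g * be + b * ep := by
      rw [hep]; ring
    rw [this, Int.add_mul_emod_self_left]
    have h9 : ((g : ℤ) * be) % (b : ℤ) = ((g * be % b : ℕ) : ℤ) := by push_cast; rfl
    rw [h9, Int.toNat_natCast]
  · rw [Int.mul_emod_right]
  · rw [Int.mul_ediv_cancel_left _ (mul_ne_zero hgZ hbZ)]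
  · rw [Int.mul_ediv_cancel_left _ hbZ]

end Pool.Agent.CSA
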