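import Pool.Agent.CSA.Base

/-!
# `norm_complex`, `indep2`

`norm_complex`: with `Y` the matrix with rows `y, a, b` and `V` the matrix with columns
`v, A v, A² v` (`det V = Nv A v`), the rows of `Y V` are, with `p = a·v`, `q = b·v`,
`(y·v)(1, r, r^2)`, `(p, μ p - ω q, (μ²-ω²) p - 2 μ ω q)`, `(q, ω p + μ q, 2 μ ω p + (μ²-ω²) q)`;
its determinant is `(y·v) (p² + q²) ω ((r - μ)² + ω²)` (`ring`).
`indep2`: suppose `x0 y + x1 a + x2 b = 0`, `x ≠ 0`.  Apply `A² - 2 μ A + (μ² + ω²)`, which kills `a` and `b`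
and multiplies `y` by `(r - μ)² + ω² > 0`: `x0 = 0`.  Then `x1 a + x2 b = 0`; applying `A`:
`x1 (μ a - ω b) + x2 (ω a + μ b) = 0`, so `ω (x2 a - x1 b) = 0`; hence `(x1² + x2²) a = 0` and
`(x1² + x2²) b = 0`, so `x1 = x2 = 0`.
-/

namespace Pool.Agent.CSA

open Matrix

theorem NormC_cast (A : M3) (v : V3) :
    (fun j => ((A *ᵥ v) j : ℝ)) = re A *ᵥ (fun j => (v j : ℝ)) := by
  funext j
  simp only [Matrix.mulVec, dotProduct, re, Matrix.map_apply]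
  push_cast
  rfl

theorem NormC_det (A : M3) (v : V3) : (Nv A v : ℝ) =
    (Matrix.of ![(fun j => (v j : ℝ)), re A *ᵥ (fun j => (v j : ℝ)),
      re A *ᵥ (re A *ᵥ (fun j => (v j : ℝ)))]).det := by
  rw [← NormC_cast A v, ← NormC_cast A (A *ᵥ v), Matrix.det_fin_three]
  simp only [Nv, wv, cross_apply, dotProduct, Fin.sum_univ_three, Matrix.of_apply,
    Matrix.cons_val_zero, Matrix.cons_val_one, Matrix.cons_val, Fin.isValue]
  push_cast
  ring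

theorem norm_complex {A : M3} {r μ ω : ℝ} {y a b : Fin 3 → ℝ} (hy : y ᵥ* re A = r • y)
    (ha : a ᵥ* re A = μ • a - ω • b) (hb : b ᵥ* re A = ω • a + μ • b) (v : V3) :
    (Matrix.of ![y, a, b]).det * (Nv A v : ℝ) =
      (∑ j, y j * (v j : ℝ)) * ((∑ j, a j * (v j : ℝ)) ^ 2 + (∑ j, b j * (v j : ℝ)) ^ 2) *
        (ω * ((r - μ) ^ 2 + ω ^ 2)) := by
  rw [NormC_det]
  obtain ⟨w, hw⟩ : ∃ w : Fin 3 → ℝ, w = fun j => (v j : ℝ) := ⟨_, rfl⟩
  have hs : ∀ u : Fin 3 → ℝ, (∑ j, u j * (v j : ℝ)) = u ⬝ᵥ w := by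
    intro u
    rw [hw]
    rfl
  rw [hs, hs, hs, ← hw]
  have hy1 : ∀ u : Fin 3 → ℝ, y ⬝ᵥ (re A *ᵥ u) = r * (y ⬝ᵥ u) := by
    intro u
    rw [Matrix.dotProduct_mulVec, hy, smul_dotProduct, smul_eq_mul]
  have ha1 : ∀ u : Fin 3 → ℝ, a ⬝ᵥ (re A *ᵥ u) = μ * (a ⬝ᵥ u) - ω * (b ⬝ᵥ u) := by
    intro u
    rw [Matrix.dotProduct_mulVec, ha, sub_dotProduct, smul_dotProduct, smul_dotProduct,
      smul_eq_mul, smul_eq_mul]
  have hb1 : ∀ u : Fin 3 → ℝ, b ⬝ᵥ (re A *ᵥ u) = ω * (a ⬝ᵥ u) + μ * (b ⬝ᵥ u) := by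
    intro u
    rw [Matrix.dotProduct_mulVec, hb, add_dotProduct, smul_dotProduct, smul_dotProduct,
      smul_eq_mul, smul_eq_mul]
  rw [← Matrix.det_transpose (Matrix.of ![w, re A *ᵥ w, re A *ᵥ (re A *ᵥ w)]), ← Matrix.det_mul,
    Matrix.det_fin_three]
  have hent : ∀ i j, ((Matrix.of ![y, a, b]) *
      (Matrix.of ![w, re A *ᵥ w, re A *ᵥ (re A *ᵥ w)])ᵀ) i j =
      (![y, a, b] i) ⬝ᵥ (![w, re A *ᵥ w, re A *ᵥ (re A *ᵥ w)] j) := by
    intro i j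
    rfl
  rw [hent, hent, hent, hent, hent, hent, hent, hent, hent]
  simp only [Matrix.cons_val_zero, Matrix.cons_val_one, Matrix.cons_val, Fin.isValue]
  rw [hy1 w, hy1 (re A *ᵥ w), hy1 w, ha1 w, ha1 (re A *ᵥ w), ha1 w, hb1 w, hb1 (re A *ᵥ w),
    hb1 w, ha1 w]
  ring

theorem indep2 {A : Matrix (Fin 3) (Fin 3) ℝ} {r μ ω : ℝ} (hω : 0 < ω) {y a b : Fin 3 → ℝ}
    (h0 : y ≠ 0) (h1 : a ≠ 0 ∨ b ≠ 0) (hy : y ᵥ* A = r • y)
    (ha : a ᵥ* A = μ • a - ω • b) (hb : b ᵥ* A = ω • a + μ • b) :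
    (Matrix.of ![y, a, b]).det ≠ 0 := by
  intro hdet
  obtain ⟨x, hx, h⟩ := Matrix.exists_vecMul_eq_zero_iff.mpr hdet
  have e0 : ∀ j, x 0 * y j + x 1 * a j + x 2 * b j = 0 := by
    intro j
    have := congrFun h j
    simpa [Matrix.vecMul, dotProduct, Fin.sum_univ_three] using this
  have hlin : ∀ (c0 c1 c2 : ℝ), (∀ j, c0 * y j + c1 * a j + c2 * b j = 0) →
      ∀ j, (c0 * r) * y j + (c1 * μ + c2 * ω) * a j + (c2 * μ - c1 * ω) * b j = 0 := by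
    intro c0 c1 c2 hc j
    have hv : c0 • y + c1 • a + c2 • b = 0 := by
      funext j
      simpa using hc j
    have h2 : (c0 • y + c1 • a + c2 • b) ᵥ* A = 0 := by
      rw [hv, Matrix.zero_vecMul]
    rw [Matrix.add_vecMul, Matrix.add_vecMul, Matrix.smul_vecMul, Matrix.smul_vecMul,
      Matrix.smul_vecMul, hy, ha, hb] at h2
    have h3 := congrFun h2 j
    simp only [Pi.add_apply, Pi.smul_apply, Pi.sub_apply, smul_eq_mul, Pi.zero_apply] at h3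
    linear_combination h3
  have e1 := hlin _ _ _ e0
  have e2 := hlin _ _ _ e1
  have hpos : 0 < (r - μ) ^ 2 + ω ^ 2 := by positivity
  have f0 : x 0 = 0 := by
    obtain ⟨j, hj⟩ := Function.ne_iff.mp h0
    have h3 : x 0 * y j * ((r - μ) ^ 2 + ω ^ 2) = 0 := by
      linear_combination e2 j - 2 * μ * e1 j + (μ ^ 2 + ω ^ 2) * e0 j
    rcases mul_eq_zero.mp h3 with h4 | h4
    · rcases mul_eq_zero.mp h4 with h5 | h5
      · exact h5
      · exact absurd h5 hj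
    · exact absurd h4 hpos.ne'
  have g1 : ∀ j, x 1 * a j + x 2 * b j = 0 := by
    intro j
    have := e0 j
    rw [f0] at this
    linarith
  have g2 : ∀ j, x 2 * a j - x 1 * b j = 0 := by
    intro j
    have h3 : ω * (x 2 * a j - x 1 * b j) = 0 := by
      linear_combination e1 j - μ * g1 j - r * y j * f0
    exact (mul_eq_zero.mp h3).resolve_left hω.ne'
  have g3 : ∀ j, (x 1 ^ 2 + x 2 ^ 2) * a j = 0 := fun j => by
    linear_combination x 1 * g1 j + x 2 * g2 j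
  have g4 : ∀ j, (x 1 ^ 2 + x 2 ^ 2) * b j = 0 := fun j => by
    linear_combination x 2 * g1 j - x 1 * g2 j
  have g5 : x 1 ^ 2 + x 2 ^ 2 = 0 := by
    rcases h1 with h1 | h1
    · obtain ⟨j, hj⟩ := Function.ne_iff.mp h1
      exact (mul_eq_zero.mp (g3 j)).resolve_right hj
    · obtain ⟨j, hj⟩ := Function.ne_iff.mp h1
      exact (mul_eq_zero.mp (g4 j)).resolve_right hj
  have g6 : x 1 = 0 := by nlinarith [sq_nonneg (x 1), sq_nonneg (x 2)]
  have g7 : x 2 = 0 := by nlinarith [sq_nonneg (x 1), sq_nonneg (x 2)]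
  apply hx
  funext j
  fin_cases j
  · exact f0
  · exact g6
  · exact g7

end Pool.Agent.CSA
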