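import Pool.Agent.CSA.Base

/-!
# `norm_real`, `indep`
-/

namespace Pool.Agent.CSA

open Matrix

/-- the real vector of an integer vector -/
noncomputable def NormR_rv (v : V3) : Fin 3 → ℝ := fun i => (v i : ℝ)

theorem NormR_mulVec (A : M3) (v : V3) : re A *ᵥ NormR_rv v = NormR_rv (A *ᵥ v) := by
  funext i
  simp [re, NormR_rv, Matrix.mulVec, dotProduct, Fin.sum_univ_three]

theorem NormR_cast (A : M3) (v : V3) :
    (Nv A v : ℝ) = (Matrix.of ![NormR_rv v, re A *ᵥ NormR_rv v,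
      re A *ᵥ (re A *ᵥ NormR_rv v)]).transpose.det := by
  rw [Matrix.det_transpose, NormR_mulVec, NormR_mulVec, Matrix.det_fin_three]
  generalize hw : A *ᵥ (A *ᵥ v) = w
  unfold Nv wv
  rw [hw]
  generalize A *ᵥ v = u
  simp only [cross_apply, dotProduct, Fin.sum_univ_three, Matrix.of_apply]
  simp [NormR_rv]
  ring

theorem norm_real {A : M3} (Y : Matrix (Fin 3) (Fin 3) ℝ) (r : Fin 3 → ℝ)
    (h : ∀ i, Y i ᵥ* re A = r i • Y i) (v : V3) :
    Y.det * (Nv A v : ℝ) = (∏ i, ∑ j, Y i j * (v j : ℝ)) *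
      ((r 1 - r 0) * (r 2 - r 0) * (r 2 - r 1)) := by
  rw [NormR_cast, ← Matrix.det_mul]
  have h1 : ∀ (i : Fin 3) (w : Fin 3 → ℝ), Y i ⬝ᵥ (re A *ᵥ w) = r i * (Y i ⬝ᵥ w) := by
    intro i w
    rw [Matrix.dotProduct_mulVec, h i, smul_dotProduct, smul_eq_mul]
  have h2 : ∀ i : Fin 3, (∑ j, Y i j * (v j : ℝ)) = Y i ⬝ᵥ NormR_rv v := by
    intro i
    rfl
  have h3 : ∀ i j : Fin 3, (Y * (Matrix.of ![NormR_rv v, re A *ᵥ NormR_rv v,
      re A *ᵥ (re A *ᵥ NormR_rv v)]).transpose) i j =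
      Y i ⬝ᵥ (![NormR_rv v, re A *ᵥ NormR_rv v, re A *ᵥ (re A *ᵥ NormR_rv v)] j) := by
    intro i j
    rfl
  rw [Matrix.det_fin_three]
  simp only [h3, h2, Fin.prod_univ_three]
  simp only [Matrix.cons_val_zero, Matrix.cons_val_one, Matrix.cons_val_two,
    Matrix.head_cons, Matrix.tail_cons, h1]
  ring

theorem indep {A : Matrix (Fin 3) (Fin 3) ℝ} (Y : Matrix (Fin 3) (Fin 3) ℝ) (r : Fin 3 → ℝ)
    (h : ∀ i, Y i ᵥ* A = r i • Y i) (h0 : ∀ i, Y i ≠ 0) (h01 : r 0 ≠ r 1) (h02 : r 0 ≠ r 2)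
    (h12 : r 1 ≠ r 2) : Y.det ≠ 0 := by
  intro hdet
  obtain ⟨x, hx, hx0⟩ := Matrix.exists_vecMul_eq_zero_iff.2 hdet
  have e0 : x 0 • Y 0 + x 1 • Y 1 + x 2 • Y 2 = 0 := by
    funext j
    have hj := congrFun hx0 j
    simp only [Matrix.vecMul, dotProduct, Fin.sum_univ_three, Pi.zero_apply] at hj
    simpa using hj
  have e1 : (x 0 * r 0) • Y 0 + (x 1 * r 1) • Y 1 + (x 2 * r 2) • Y 2 = 0 := by
    have := congrArg (fun w => w ᵥ* A) e0
    simp only [Matrix.add_vecMul, Matrix.smul_vecMul, h, Matrix.zero_vecMul, smul_smul] at this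
    exact this
  have e2 : (x 0 * r 0 * r 0) • Y 0 + (x 1 * r 1 * r 1) • Y 1 + (x 2 * r 2 * r 2) • Y 2 = 0 := by
    have := congrArg (fun w => w ᵥ* A) e1
    simp only [Matrix.add_vecMul, Matrix.smul_vecMul, h, Matrix.zero_vecMul, smul_smul] at this
    exact this
  have g0 : ∀ j, x 0 * Y 0 j + x 1 * Y 1 j + x 2 * Y 2 j = 0 := fun j => by
    have := congrFun e0 j
    simpa using this
  have g1 : ∀ j, x 0 * r 0 * Y 0 j + x 1 * r 1 * Y 1 j + x 2 * r 2 * Y 2 j = 0 := fun j => by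
    have := congrFun e1 j
    simpa using this
  have g2 : ∀ j, x 0 * r 0 * r 0 * Y 0 j + x 1 * r 1 * r 1 * Y 1 j + x 2 * r 2 * r 2 * Y 2 j = 0 :=
    fun j => by
    have := congrFun e2 j
    simpa using this
  have k0 : x 0 = 0 := by
    by_contra hne
    apply h0 0
    funext j
    have : x 0 * ((r 0 - r 1) * (r 0 - r 2)) * Y 0 j = 0 := by
      linear_combination g2 j - (r 1 + r 2) * g1 j + r 1 * r 2 * g0 j
    rcases mul_eq_zero.1 this with h | h
    · exfalso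
      exact (mul_ne_zero hne (mul_ne_zero (sub_ne_zero.2 h01) (sub_ne_zero.2 h02))) h
    · simpa using h
  have k1 : x 1 = 0 := by
    by_contra hne
    apply h0 1
    funext j
    have : x 1 * ((r 1 - r 0) * (r 1 - r 2)) * Y 1 j = 0 := by
      linear_combination g2 j - (r 0 + r 2) * g1 j + r 0 * r 2 * g0 j
    rcases mul_eq_zero.1 this with h | h
    · exfalso
      exact (mul_ne_zero hne (mul_ne_zero (sub_ne_zero.2 h01.symm) (sub_ne_zero.2 h12))) h
    · simpa using h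
  have k2 : x 2 = 0 := by
    by_contra hne
    apply h0 2
    funext j
    have : x 2 * ((r 2 - r 0) * (r 2 - r 1)) * Y 2 j = 0 := by
      linear_combination g2 j - (r 0 + r 1) * g1 j + r 0 * r 1 * g0 j
    rcases mul_eq_zero.1 this with h | h
    · exfalso
      exact (mul_ne_zero hne (mul_ne_zero (sub_ne_zero.2 h02.symm) (sub_ne_zero.2 h12.symm))) h
    · simpa using h
  apply hx
  funext i
  fin_cases i <;> simp [k0, k1, k2]

end Pool.Agent.CSA
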