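import Pool.Agent.CSA.Base

/-!
# `real_roots`: three real roots for `6 ≤ n`

`f_n(0) = -1 < 0`, `f_n(1/2) = n/4 - 11/8 > 0`, `f_n(1) = -1 < 0`, `f_n(n) = n^2 - n - 1 > 0`;
intermediate value theorem on `[0, 1/2]`, `[1/2, 1]`, `[1, n]`: roots `0 < r < 1/2 < s < 1 < t`.
Then `r + s + t = n`, `r s + r t + s t = n - 1`, `r s t = 1` (subtract the equations `f(r) = f(s)`,
divide by `r - s`: `r² + r s + s² - n (r + s) + n - 1 = 0`; the same for `r, t`; subtract again and
divide by `s - t`: `r + s + t = n`; then the others).  Finally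
`((s - r) (t - r) (t - s))^2 = disc n`: the discriminant in terms of the elementary symmetric
functions, `e₁² e₂² - 4 e₂³ - 4 e₁³ e₃ + 18 e₁ e₂ e₃ - 27 e₃²` with `e₁ = n, e₂ = n - 1, e₃ = 1`, is
`(n² - 5 n)² + 6 (n² - 5 n) - 23`.  (Tip: substitute `t = n - r - s` first, or prove the symmetric
identity by `ring` and then rewrite.)
-/

namespace Pool.Agent.CSA

theorem real_roots {n : ℤ} (hn : 6 ≤ n) : ∃ r s t : ℝ, r ≠ s ∧ r ≠ t ∧ s ≠ t ∧
    r + s + t = n ∧ r * s + r * t + s * t = n - 1 ∧ r * s * t = 1 ∧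
    ((s - r) * (t - r) * (t - s)) ^ 2 = (disc n : ℝ) := by
  have hn' : (6 : ℝ) ≤ (n : ℝ) := by exact_mod_cast hn
  generalize hN : (n : ℝ) = N at hn'
  have hc : Continuous (fun x : ℝ => x ^ 3 - N * x ^ 2 + (N - 1) * x - 1) := by fun_prop
  obtain ⟨r, ⟨hr0, hr1⟩, hr⟩ := intermediate_value_Icc (a := (0 : ℝ)) (b := 1 / 2) (by norm_num)
    hc.continuousOn (show (0 : ℝ) ∈ Set.Icc _ _ from by constructor <;> norm_num <;> linarith)
  obtain ⟨s, ⟨hs0, hs1⟩, hs⟩ := intermediate_value_Icc' (a := (1 / 2 : ℝ)) (b := 1) (by norm_num)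
    hc.continuousOn (show (0 : ℝ) ∈ Set.Icc _ _ from by constructor <;> norm_num <;> linarith)
  obtain ⟨t, ⟨ht0, ht1⟩, ht⟩ := intermediate_value_Icc (a := (1 : ℝ)) (b := N) (by linarith)
    hc.continuousOn (show (0 : ℝ) ∈ Set.Icc _ _ from by constructor <;> norm_num <;> nlinarith)
  simp only at hr hs ht
  have hrs : r ≠ s := by
    intro h
    have h1 : r = 1 / 2 := by linarith
    rw [h1] at hr
    norm_num at hr
    linarith
  have hst : s ≠ t := by
    intro h
    have h1 : s = 1 := by linarith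
    rw [h1] at hs
    norm_num at hs
  have hrt : r ≠ t := by
    intro h
    linarith
  have E1 : r ^ 2 + r * s + s ^ 2 - N * (r + s) + (N - 1) = 0 := by
    apply mul_left_cancel₀ (sub_ne_zero.2 hrs)
    linear_combination hr - hs
  have E2 : r ^ 2 + r * t + t ^ 2 - N * (r + t) + (N - 1) = 0 := by
    apply mul_left_cancel₀ (sub_ne_zero.2 hrt)
    linear_combination hr - ht
  have E3 : r + s + t = N := by
    have : (s - t) * (r + s + t - N) = 0 := by linear_combination E1 - E2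
    rcases mul_eq_zero.1 this with h | h
    · exact absurd (sub_eq_zero.1 h) hst
    · linarith
  have E4 : r * s + r * t + s * t = N - 1 := by
    linear_combination -E1 + (r + s) * E3
  have E5 : r * s * t = 1 := by
    linear_combination hr - r ^ 2 * E3 + r * E4
  refine ⟨r, s, t, hrs, hrt, hst, E3, E4, E5, ?_⟩
  have hd : (disc n : ℝ) = (N ^ 2 - 5 * N) ^ 2 + 6 * (N ^ 2 - 5 * N) - 23 := by
    unfold disc
    push_cast
    rw [hN]
  have hD : ((s - r) * (t - r) * (t - s)) ^ 2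
      = (r + s + t) ^ 2 * (r * s + r * t + s * t) ^ 2 - 4 * (r * s + r * t + s * t) ^ 3
        - 4 * (r + s + t) ^ 3 * (r * s * t)
        + 18 * (r + s + t) * (r * s + r * t + s * t) * (r * s * t) - 27 * (r * s * t) ^ 2 := by
    ring
  rw [hD, E3, E4, E5, hd]
  ring

end Pool.Agent.CSA
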