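import Pool.Agent.CSA.LinF
import Pool.Agent.CSA.Amgm
import Pool.Agent.CSA.RealR
import Pool.Agent.CSA.CplxR
import Pool.Agent.CSA.Eig2
import Pool.Agent.CSA.NormR
import Pool.Agent.CSA.NormC

/-!
# Small vectors

* `exists_prim`: `v ≠ 0` is `g • v'` with `v'` primitive and `g ≠ 0` (`g` the gcd of the entries).
* `Nv_smul`: `Nv A (g • v) = g^3 * Nv A v`.  So a small vector can be replaced by a primitive one.
* `mink` (`6 ≤ n`): `real_roots`, `left_eig` three times, `indep`, `linForms` for the matrix `Y` of the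
  three left eigenvectors: `v ≠ 0` with `(∑ |y i · v|)^3 ≤ 6 |det Y|`; by `prod_le`
  `27 |∏ y i · v| ≤ 6 |det Y|`; by `norm_real` `|det Y| |N(v)| = |∏ y i · v| |V|`, `V^2 = disc n`;
  so `27 |N(v)| ≤ 6 |V|`, `81 N(v)^2 ≤ 4 disc n`.
* `minkC` (`0 ≤ n ≤ 5`): `complex_roots`, `left_eig`, `left_eig2`, `indep2`, `linForms`, `prod_le'`:
  `27 |y v| ((a v)^2 + (b v)^2) ≤ 24 |det Y|`, so `27 |N(v)| ≤ 24 K`, `4 K^2 = - disc n ≤ 31`, hence
  `729 * 4 * N(v)^2 ≤ 576 * 31`, `N(v)^2 ≤ 6`, `|N(v)| ≤ 2`.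
-/

namespace Pool.Agent.CSA

open Matrix

theorem exists_prim {v : V3} (hv : v ≠ 0) :
    ∃ (g : ℤ) (v' u : V3), g ≠ 0 ∧ v = g • v' ∧ u ⬝ᵥ v' = 1 := by
  set g1 : ℤ := ((Int.gcd (v 0) (v 1) : ℕ) : ℤ) with hg1
  set g : ℤ := ((Int.gcd g1 (v 2) : ℕ) : ℤ) with hg
  have hd1 : g ∣ g1 := Int.gcd_dvd_left ..
  have hd2 : g ∣ v 2 := Int.gcd_dvd_right ..
  have hd3 : g ∣ v 0 := hd1.trans (Int.gcd_dvd_left ..)
  have hd4 : g ∣ v 1 := hd1.trans (Int.gcd_dvd_right ..)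
  have hg0 : g ≠ 0 := by
    intro h0
    apply hv
    funext i
    have h0' := h0
    rw [h0] at hd2 hd3 hd4
    fin_cases i
    · exact Int.zero_dvd.1 hd3
    · exact Int.zero_dvd.1 hd4
    · exact Int.zero_dvd.1 hd2
  obtain ⟨a0, h0⟩ := hd3
  obtain ⟨a1, h1⟩ := hd4
  obtain ⟨a2, h2⟩ := hd2
  have e1 : g1 = v 0 * Int.gcdA (v 0) (v 1) + v 1 * Int.gcdB (v 0) (v 1) :=
    Int.gcd_eq_gcd_ab _ _
  have e2 : g = g1 * Int.gcdA g1 (v 2) + v 2 * Int.gcdB g1 (v 2) :=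
    Int.gcd_eq_gcd_ab _ _
  set p := Int.gcdA (v 0) (v 1)
  set q := Int.gcdB (v 0) (v 1)
  set p' := Int.gcdA g1 (v 2)
  set q' := Int.gcdB g1 (v 2)
  refine ⟨g, ![a0, a1, a2], ![p * p', q * p', q'], hg0, ?_, ?_⟩
  · funext i
    fin_cases i
    · simpa using h0
    · simpa using h1
    · simpa using h2
  · have : g * (![p * p', q * p', q'] ⬝ᵥ ![a0, a1, a2]) = g * 1 := by
      simp only [dotProduct, Fin.sum_univ_three, Matrix.cons_val_zero, Matrix.cons_val_one,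
        Matrix.cons_val]
      rw [mul_one]
      calc g * (p * p' * a0 + q * p' * a1 + q' * a2)
          = (g * a0 * p + g * a1 * q) * p' + (g * a2) * q' := by ring
        _ = (v 0 * p + v 1 * q) * p' + v 2 * q' := by rw [← h0, ← h1, ← h2]
        _ = g := by rw [← e1, ← e2]
    exact mul_left_cancel₀ hg0 this

theorem Nv_smul (A : M3) (g : ℤ) (v : V3) : Nv A (g • v) = g ^ 3 * Nv A v := by
  unfold Nv wv
  simp only [Matrix.mulVec_smul, LinearMap.map_smul, LinearMap.smul_apply, smul_dotProduct,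
    dotProduct_smul, smul_eq_mul]
  ring

theorem Mink_sq {A : M3} {v v' : V3} {g : ℤ} (hg : g ≠ 0) (h : v = g • v') :
    (Nv A v') ^ 2 ≤ (Nv A v) ^ 2 := by
  rw [h, Nv_smul]
  have h1 : 1 ≤ g ^ 2 := by
    have := sq_nonneg g
    have h2 : g ^ 2 ≠ 0 := pow_ne_zero 2 hg
    omega
  have h2 : 1 ≤ (g ^ 2) ^ 3 := one_le_pow₀ h1
  have h3 : 0 ≤ (Nv A v') ^ 2 := sq_nonneg _
  nlinarith

theorem mink {n : ℤ} {A : M3} (hA : CS n A) (hn : 6 ≤ n) :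
    ∃ v u : V3, u ⬝ᵥ v = 1 ∧ 81 * (Nv A v) ^ 2 ≤ 4 * disc n := by
  obtain ⟨r, s, t, hrs, hrt, hst, h1, h2, h3, hD⟩ := real_roots hn
  have hroot : ∀ x : ℝ, (x - r) * (x - s) * (x - t) = 0 →
      x ^ 3 - n * x ^ 2 + (n - 1) * x - 1 = 0 := by
    intro x hx
    linear_combination hx + x ^ 2 * h1 - x * h2 + h3
  obtain ⟨y0, hy0, hy0'⟩ := left_eig hA (hroot r (by ring))
  obtain ⟨y1, hy1, hy1'⟩ := left_eig hA (hroot s (by ring))
  obtain ⟨y2, hy2, hy2'⟩ := left_eig hA (hroot t (by ring))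
  set Y : Matrix (Fin 3) (Fin 3) ℝ := Matrix.of ![y0, y1, y2] with hY
  set rr : Fin 3 → ℝ := ![r, s, t] with hrr
  have hYe : ∀ i, Y i ᵥ* re A = rr i • Y i := by
    intro i
    fin_cases i
    · exact hy0'
    · exact hy1'
    · exact hy2'
  have hY0 : ∀ i, Y i ≠ 0 := by
    intro i
    fin_cases i
    · exact hy0
    · exact hy1
    · exact hy2
  have hdet : Y.det ≠ 0 := indep Y rr hYe hY0 hrs hrt hst
  obtain ⟨v, hv, hle⟩ := linForms Y hdet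
  obtain ⟨g, v', u, hg, hvg, hu⟩ := exists_prim hv
  refine ⟨v', u, hu, ?_⟩
  have hN := norm_real Y rr hYe v
  have hpr : 27 * |∏ i, ∑ j, Y i j * (v j : ℝ)| ≤ 6 * |Y.det| := by
    rw [Fin.prod_univ_three]
    rw [Fin.sum_univ_three] at hle
    exact (prod_le _ _ _).trans hle
  have hV : ((rr 1 - rr 0) * (rr 2 - rr 0) * (rr 2 - rr 1)) ^ 2 = (disc n : ℝ) := hD
  set V := (rr 1 - rr 0) * (rr 2 - rr 0) * (rr 2 - rr 1) with hVd
  set P := ∏ i, ∑ j, Y i j * (v j : ℝ) with hP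
  have habs : |Y.det| * |(Nv A v : ℝ)| = |P| * |V| := by
    rw [← abs_mul, hN, abs_mul]
  have hpos : 0 < |Y.det| := abs_pos.2 hdet
  have h5 : 27 * |(Nv A v : ℝ)| ≤ 6 * |V| := by
    have : |Y.det| * (27 * |(Nv A v : ℝ)|) ≤ |Y.det| * (6 * |V|) := by
      calc |Y.det| * (27 * |(Nv A v : ℝ)|) = 27 * (|Y.det| * |(Nv A v : ℝ)|) := by ring
        _ = (27 * |P|) * |V| := by rw [habs]; ring
        _ ≤ (6 * |Y.det|) * |V| := mul_le_mul_of_nonneg_right hpr (abs_nonneg _)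
        _ = |Y.det| * (6 * |V|) := by ring
    exact le_of_mul_le_mul_left this hpos
  have h6 : 81 * (Nv A v : ℝ) ^ 2 ≤ 4 * (disc n : ℝ) := by
    have h7 : (27 * |(Nv A v : ℝ)|) ^ 2 ≤ (6 * |V|) ^ 2 :=
      pow_le_pow_left₀ (by positivity) h5 2
    rw [mul_pow, mul_pow, sq_abs, sq_abs, hV] at h7
    linarith
  have h7 : 81 * (Nv A v) ^ 2 ≤ 4 * disc n := by exact_mod_cast h6
  have h8 := Mink_sq (A := A) hg hvg
  linarith

theorem minkC {n : ℤ} {A : M3} (hA : CS n A) (h0 : 0 ≤ n) (h5 : n ≤ 5) :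
    ∃ v u : V3, u ⬝ᵥ v = 1 ∧ |Nv A v| ≤ 2 := by
  obtain ⟨r, μ, ω, hω, hr, h1, h2, h3, hD⟩ := complex_roots h0 h5
  obtain ⟨y, hy, hy'⟩ := left_eig hA hr
  obtain ⟨a, b, hab, ha, hb⟩ := left_eig2 hA hω h1 h2 h3
  set Y : Matrix (Fin 3) (Fin 3) ℝ := Matrix.of ![y, a, b] with hY
  have hdet : Y.det ≠ 0 := indep2 hω hy hab hy' ha hb
  obtain ⟨v, hv, hle⟩ := linForms Y hdet
  obtain ⟨g, v', u, hg, hvg, hu⟩ := exists_prim hv
  refine ⟨v', u, hu, ?_⟩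
  have hN := norm_complex hy' ha hb v
  have hpr : 27 * (|∑ j, y j * (v j : ℝ)| *
      ((∑ j, a j * (v j : ℝ)) ^ 2 + (∑ j, b j * (v j : ℝ)) ^ 2)) ≤ 24 * |Y.det| := by
    have h := prod_le' (∑ j, y j * (v j : ℝ)) (∑ j, a j * (v j : ℝ)) (∑ j, b j * (v j : ℝ))
    rw [Fin.sum_univ_three (f := fun i => |∑ j, Y i j * (v j : ℝ)|)] at hle
    have hle' : (|∑ j, y j * (v j : ℝ)| + |∑ j, a j * (v j : ℝ)| +
      |∑ j, b j * (v j : ℝ)|) ^ 3 ≤ 6 * |Y.det| := hle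
    linarith
  set K := ω * ((r - μ) ^ 2 + ω ^ 2) with hK
  set P := ∑ j, y j * (v j : ℝ) with hP
  set Q := (∑ j, a j * (v j : ℝ)) ^ 2 + (∑ j, b j * (v j : ℝ)) ^ 2 with hQ
  have hQ0 : 0 ≤ Q := by positivity
  have hK0 : 0 ≤ K := by positivity
  have habs : |Y.det| * |(Nv A v : ℝ)| = |P| * Q * K := by
    rw [← abs_mul, hN, abs_mul, abs_mul, abs_of_nonneg hQ0, abs_of_nonneg hK0]
  have hpos : 0 < |Y.det| := abs_pos.2 hdet
  have h5' : 27 * |(Nv A v : ℝ)| ≤ 24 * K := by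
    have : |Y.det| * (27 * |(Nv A v : ℝ)|) ≤ |Y.det| * (24 * K) := by
      calc |Y.det| * (27 * |(Nv A v : ℝ)|) = 27 * (|Y.det| * |(Nv A v : ℝ)|) := by ring
        _ = (27 * (|P| * Q)) * K := by rw [habs]; ring
        _ ≤ (24 * |Y.det|) * K := mul_le_mul_of_nonneg_right hpr hK0
        _ = |Y.det| * (24 * K) := by ring
    exact le_of_mul_le_mul_left this hpos
  have h6 : 729 * (Nv A v : ℝ) ^ 2 ≤ 144 * (-(disc n : ℝ)) := by
    have h7 : (27 * |(Nv A v : ℝ)|) ^ 2 ≤ (24 * K) ^ 2 :=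
      pow_le_pow_left₀ (by positivity) h5' 2
    rw [mul_pow, mul_pow, sq_abs] at h7
    linarith
  have h7 : 729 * (Nv A v) ^ 2 ≤ 144 * (-disc n) := by exact_mod_cast h6
  have h8 := Mink_sq (A := A) hg hvg
  have h9 : -disc n ≤ 31 := by
    unfold disc
    interval_cases n <;> norm_num
  have h10 : (Nv A v') ^ 2 ≤ 6 := by nlinarith
  rw [abs_le]
  constructor <;> nlinarith

end Pool.Agent.CSA
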