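import Pool.Agent.CSA.JX

/-!
# Simple facts on equivalence of forms

* `A0_CS`: `A0 = !![0, 0, 1; 1, 0, 2; 0, 1, -1]`, compute.
* `A0_J`: `v = e₀`, `A0 v = e₁`, `w = e₂`, `w · A0² e₀ = 1`, `t = e₂`, `w · A0 e₂ = -1 = 0 + (-1) * 1`.
* `good_of_J`: `J.conj_X`, `CS.eqv` and the definition of `Good`.
* `good_neg`, `good_shift`: for `X = X a d c n` (`X_CS`) use `X_J`, `J.neg`, `J.shift`, `good_of_J`.
-/

namespace Pool.Agent.CSA

open Matrix

theorem A0_CS : CS (-1) A0 := by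
  refine ⟨?_, ?_, ?_⟩
  · unfold A0; rw [Matrix.det_fin_three]; simp
  · unfold A0; rw [Matrix.det_fin_three]; simp
  · unfold A0; rw [Matrix.trace_fin_three]; simp

theorem A0_J : J A0 1 0 := by
  have hu : A0 *ᵥ ![1, 0, 0] = ![0, 1, 0] := by
    unfold A0
    ext i
    fin_cases i <;> simp [Matrix.mulVec, dotProduct, Fin.sum_univ_three]
  have hw : wv A0 ![1, 0, 0] = ![0, 0, 1] := by
    unfold wv
    rw [hu]
    ext i
    fin_cases i <;> simp [cross_apply]
  refine ⟨![1, 0, 0], ![0, 0, 1], -1, ?_, ?_, ?_⟩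
  · rw [hw]; simp
  · unfold Nv
    rw [hw, hu]
    unfold A0
    simp [Matrix.mulVec, dotProduct, Fin.sum_univ_three]
  · rw [hw]
    unfold A0
    simp [Matrix.mulVec, dotProduct, Fin.sum_univ_three]

theorem good_of_J {A : M3} {n d c : ℤ} (hA : CS n A) (h : J A d c) (hg : Good n d c) :
    Eqv A A0 := by
  obtain ⟨a, ha, hc⟩ := J.conj_X hA h
  exact (hA.eqv hc).trans (hg a ha)

theorem good_neg {n d c : ℤ} (h : Good n (-d) c) : Good n d c := fun a ha =>
  good_of_J (X_CS ha) (X_J a d c n).neg h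

theorem good_shift {n d c : ℤ} (k : ℤ) (h : Good n d (c + k * d)) : Good n d c := fun a ha =>
  good_of_J (X_CS ha) ((X_J a d c n).shift k) h

end Pool.Agent.CSA
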