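import Pool.Agent.CSA.MovG

/-!
# The move `E1` on normal forms

Let `X = X a d c n`, `a d = - f n c`, `β = (c-1)(n-c-1)`, `δ = n - c`; so `a d = 1 + c β`.
Let `P` have the columns `e₀, e₁ - e₀, e₂`; then `P⁻¹ X P e₀ = e₀ + e₁`; `Mv.e1` applied to
`P⁻¹ X P` gives `P⁻¹ A₁ P` with `A₁ = (1 - 2 u ⊗ w) X`, `u = e₁ - e₀`, `w = (1, 1, 0)`
(`w P = (1, 0, 0)`), with columns
`(2, -1, 0)`, `(3β + 2δ, -δ - 2β, d)`, `(3a, -2a, c)`.
`det A₁ = 1`, `det (A₁ - 1) = -1`.  By `Mv.inv` `P⁻¹ A₁ P` is equivalent to its inverse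
`P⁻¹ B P`, `B = adjugate A₁`, `det (B - 1) = 1`, and this is conjugate to `B`.
`B` is `CS n₀` with `n₀ = trace B = n + 1 - 2 c (n - c - 1)`
(`-β + 2c - cδ - 2βc + 2ad` and `a d = 1 + c β`).
`J B (-d) (-β)`: `v = (2, -1, 0)`, `B v = e₀`, `w' = v × B v = e₂`, `w' · B e₀ = B 2 0 = -d`, `t = e₂`,
`w' · B e₂ = B 2 2 = 2(-δ - 2β) + (3β + 2δ) = -β`.
Since `c (-β) = 1 - a d`, and `d ∣ c c' - 1`, we get `-β = c' mod d`.  So `J B d c'` up to a multiple of
`d` (`J.neg`, `J.shift`).  Now `Good n' d c'`, `n' = n₀ + k d`, gives `Good n₀ d c'`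
(`good_gompf`), hence `Eqv B A0` (`good_of_J`) and `Eqv X A0`.
(`d ≠ 0` because `a d = - f n c ≠ 0`; the statement is for all `a` with `a d = - f n c`.)
-/

namespace Pool.Agent.CSA

open Matrix

theorem good_e1 {n d c n' c' : ℤ} (h1 : d ∣ c * c' - 1)
    (h2 : d ∣ n' - (n + 1 - 2 * c * (n - c - 1))) (h : Good n' d c') : Good n d c := by
  intro a ha
  obtain ⟨m, hm⟩ := h1
  obtain ⟨k, hk⟩ := h2
  have hX := X_CS ha
  have had : a * d = 1 + c * ((c - 1) * (n - c - 1)) := by
    rw [ha]; unfold f; ring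
  generalize hβ : (c - 1) * (n - c - 1) = β at had
  generalize hδ : n - c = δ
  have hXe : X a d c n = !![0, β, a; 1, δ, 0; 0, d, c] := by
    unfold X; rw [hβ, hδ]
  have hβ' : β = (c - 1) * (δ - 1) := by rw [← hβ, ← hδ]
  have hPiP : (!![1, 1, 0; 0, 1, 0; 0, 0, 1] : M3) * !![1, -1, 0; 0, 1, 0; 0, 0, 1] = 1 := by
    ext i j; fin_cases i <;> fin_cases j <;> simp [Matrix.mul_apply, Fin.sum_univ_three]
  have hPPi : (!![1, -1, 0; 0, 1, 0; 0, 0, 1] : M3) * !![1, 1, 0; 0, 1, 0; 0, 0, 1] = 1 := by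
    ext i j; fin_cases i <;> fin_cases j <;> simp [Matrix.mul_apply, Fin.sum_univ_three]
  have s1 := Eqv.of (Mv.conj _ _ _ hX.det hX.det' hPiP)
  have hB1 := hX.conj ⟨_, _, hPiP, rfl⟩
  have hB1e : (!![1, 1, 0; 0, 1, 0; 0, 0, 1] : M3) * X a d c n * !![1, -1, 0; 0, 1, 0; 0, 0, 1]
      = !![1, β + δ - 1, a; 1, δ - 1, 0; 0, d, c] := by
    rw [hXe]
    ext i j; fin_cases i <;> fin_cases j <;>
      simp [Matrix.mul_apply, Fin.sum_univ_three] <;> ring
  rw [hB1e] at s1 hB1
  have s2 := Eqv.of (Mv.e1 _ hB1.det hB1.det' (by simp) (by simp) (by simp))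
  -- the matrices `A₁` and `B` conjugated
  have hE : (!![1, 0, 0; -2, 1, 0; 0, 0, 1] : M3) * !![1, β + δ - 1, a; 1, δ - 1, 0; 0, d, c]
      = !![1, β + δ - 1, a; -1, -2 * β - δ + 1, -2 * a; 0, d, c] := by
    ext i j; fin_cases i <;> fin_cases j <;>
      simp [Matrix.mul_apply, Fin.sum_univ_three] <;> ring
  rw [hE] at s2
  set B : M3 := !![-c * δ - 2 * β * c + 2 * (a * d), -3 * β * c - 2 * δ * c + 3 * (a * d), -a * δ;
    c, 2 * c, a; -d, -2 * d, -β] with hB
  have hB2 : (!![1, 1, 0; 0, 1, 0; 0, 0, 1] : M3) * B * !![1, -1, 0; 0, 1, 0; 0, 0, 1]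
      = !![c - c * δ - 2 * β * c + 2 * (a * d), -β * c - δ * c + a * d + c, a - a * δ;
        c, c, a; -d, -d, -β] := by
    rw [hB]
    ext i j; fin_cases i <;> fin_cases j <;>
      simp [Matrix.mul_apply, Fin.sum_univ_three] <;> ring
  have hBCS : CS (n + 1 - 2 * c * (n - c - 1)) B := by
    refine ⟨?_, ?_, ?_⟩
    · rw [hB, Matrix.det_fin_three]
      simp
      linear_combination (a * d - c * β + 1) * had
    · rw [hB, Matrix.det_fin_three]
      simp
      linear_combination ((a * d - c * β + 1) - (2 - δ - 2 * β + c) + 2) * had + hβ'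
    · rw [hB, Matrix.trace_fin_three]
      simp
      linear_combination 2 * had - hβ' - (1 - 2 * c) * hδ
  have s3 := Eqv.of (Mv.inv !![1, β + δ - 1, a; -1, -2 * β - δ + 1, -2 * a; 0, d, c]
      !![c - c * δ - 2 * β * c + 2 * (a * d), -β * c - δ * c + a * d + c,
        a - a * δ; c, c, a; -d, -d, -β]
      (by
        rw [Matrix.det_fin_three]
        simp
        linear_combination had)
      (Or.inr (by
        rw [Matrix.det_fin_three]
        simp
        linear_combination -had - hβ'))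
      (by
        ext i j; fin_cases i <;> fin_cases j <;>
          simp [Matrix.mul_apply, Fin.sum_univ_three]
        all_goals first | ring1 | linear_combination had))
  have s4 := Eqv.of (Mv.conj _ _ _ hBCS.det hBCS.det' hPiP)
  rw [hB2] at s4
  have hJ : J B d (-β) := by
    have : J B (-d) (-β) := by
      have hBv : B *ᵥ ![2, -1, 0] = ![1, 0, 0] := by
        rw [hB]
        ext i; fin_cases i <;> simp [Matrix.mulVec, dotProduct, Fin.sum_univ_three]
        all_goals first | ring1 | linear_combination had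
      have hw : wv B ![2, -1, 0] = ![0, 0, 1] := by
        unfold wv
        rw [hBv, cross_apply]
        simp
      refine ⟨![2, -1, 0], ![0, 0, 1], 0, ?_, ?_, ?_⟩
      · rw [hw]; simp [dotProduct, Fin.sum_univ_three]
      · unfold Nv
        rw [hw, hBv, hB]
        simp [dotProduct, Matrix.mulVec, Fin.sum_univ_three]
      · rw [hw, hB]
        simp [dotProduct, Matrix.mulVec, Fin.sum_univ_three]
    simpa using this.neg
  have hg : Good (n + 1 - 2 * c * (n - c - 1)) d (-β) := by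
    apply good_shift (a * c' - β * m)
    have e : -β + (a * c' - β * m) * d = c' := by
      linear_combination β * hm + c' * had
    rw [e]
    apply good_gompf k
    have e2 : n + 1 - 2 * c * (n - c - 1) + k * d = n' := by linear_combination -hk
    rw [e2]
    exact h
  have s5 := good_of_J hBCS hJ hg
  exact s1.trans (s2.trans (s3.trans (s4.symm.trans s5)))

end Pool.Agent.CSA
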