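import Pool.Agent.CSA.MovA

/-!
# Gompf's move on normal forms

* `good_gompf`: let `X = X a d c n`, `a d = - f n c`.  With the matrix `P` with columns
  `e₀, e₁ - e₀, e₂` one has `P⁻¹ X P e₀ = P⁻¹ e₁ = e₀ + e₁`; `B := P⁻¹ X P` is `CS n`; apply `Mv.gompf`
  with `k` to `B` and conjugate back: the result is `B' = P (1 + k E₁₂) P⁻¹ X =
  X + k (e₁ - e₀) ⊗ (0, d, c)`, with columns `(0, 1, 0)`, `((c-1)(n-c-1) - k d, n - c + k d, d)`,
  `(a - k c, k c, c)`.  It is `CS (n + k d)` (`det_fin_three`, linear combination of `a d = - f n c`)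
  and `J B' d c` (`v = e₀`, `t = e₂`, `w = e₀ × e₁ = e₂`).  Use `good_of_J`.
* `good_one`: `Good n 1 c`: by `good_shift` and `good_gompf` to `Good (-1) 1 0`; for this, `A0` is
  conjugate to some `X a' 1 0 (-1)`, `a' * 1 = - f (-1) 0` (`A0_J`, `J.conj_X`), and `a = a'`.
-/

namespace Pool.Agent.CSA

open Matrix

/-- columns `e₀, e₁ - e₀, e₂` -/
def MovG_P : M3 := !![1, -1, 0; 0, 1, 0; 0, 0, 1]

def MovG_Q : M3 := !![1, 1, 0; 0, 1, 0; 0, 0, 1]

def MovG_X (a d c n k : ℤ) : M3 :=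
  !![0, (c - 1) * (n - c - 1) - k * d, a - k * c; 1, n - c + k * d, k * c; 0, d, c]

theorem MovG_PQ : MovG_P * MovG_Q = 1 := by
  unfold MovG_P MovG_Q
  ext i j
  fin_cases i <;> fin_cases j <;> simp [Matrix.mul_apply, Fin.sum_univ_three]

theorem MovG_QP : MovG_Q * MovG_P = 1 := mul_eq_one_comm.1 MovG_PQ

theorem MovG_eq (a d c n k : ℤ) : MovG_Q * MovG_X a d c n k * MovG_P =
    !![1, 0, 0; 0, 1, k; 0, 0, 1] * (MovG_Q * X a d c n * MovG_P) := by
  unfold MovG_P MovG_Q MovG_X X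
  ext i j
  fin_cases i <;> fin_cases j <;> simp [Matrix.mul_apply, Fin.sum_univ_three] <;> ring

theorem MovG_CS {a d c n : ℤ} (k : ℤ) (h : a * d = -f n c) :
    CS (n + k * d) (MovG_X a d c n k) := by
  unfold f at h
  refine ⟨?_, ?_, ?_⟩
  · unfold MovG_X
    rw [Matrix.det_fin_three]
    simp
    linear_combination h
  · unfold MovG_X
    rw [Matrix.det_fin_three]
    simp
    linear_combination h
  · unfold MovG_X
    rw [Matrix.trace_fin_three]
    simp
    ring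

theorem MovG_J (a d c n k : ℤ) : J (MovG_X a d c n k) d c := by
  refine ⟨![1, 0, 0], ![0, 0, 1], 0, ?_, ?_, ?_⟩ <;>
    simp [wv, Nv, MovG_X, cross_apply, Matrix.mulVec, dotProduct, Fin.sum_univ_three]

theorem good_gompf {n d c : ℤ} (k : ℤ) (h : Good (n + k * d) d c) : Good n d c := by
  intro a ha
  have hX : CS n (X a d c n) := X_CS ha
  have hX' := MovG_CS k ha
  have hB : CS n (MovG_Q * X a d c n * MovG_P) := hX.conj ⟨MovG_Q, MovG_P, MovG_QP, rfl⟩
  have hc' : Conj (MovG_X a d c n k) (MovG_Q * MovG_X a d c n k * MovG_P) :=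
    ⟨MovG_Q, MovG_P, MovG_QP, rfl⟩
  have s1 : Eqv (X a d c n) (MovG_Q * X a d c n * MovG_P) :=
    hX.eqv ⟨MovG_Q, MovG_P, MovG_QP, rfl⟩
  have s2 : Eqv (MovG_Q * X a d c n * MovG_P)
      (!![1, 0, 0; 0, 1, k; 0, 0, 1] * (MovG_Q * X a d c n * MovG_P)) := by
    apply Eqv.of
    apply Mv.gompf _ k hB.det hB.det'
    · unfold MovG_P MovG_Q X
      simp [Matrix.mul_apply, Fin.sum_univ_three]
    · unfold MovG_P MovG_Q X
      simp [Matrix.mul_apply, Fin.sum_univ_three]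
    · unfold MovG_P MovG_Q X
      simp [Matrix.mul_apply, Fin.sum_univ_three]
  rw [← MovG_eq] at s2
  have s3 : Eqv (MovG_Q * MovG_X a d c n k * MovG_P) (MovG_X a d c n k) :=
    (hX'.eqv hc').symm
  have s4 : Eqv (MovG_X a d c n k) A0 := good_of_J hX' (MovG_J a d c n k) h
  exact s1.trans (s2.trans (s3.trans s4))

theorem good_one (n c : ℤ) : Good n 1 c := by
  apply good_gompf (-1 - n)
  apply good_shift (-c)
  have e1 : n + (-1 - n) * 1 = -1 := by ring
  have e2 : c + -c * 1 = 0 := by ring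
  rw [e1, e2]
  intro a ha
  obtain ⟨a', ha', hc⟩ := J.conj_X A0_CS A0_J
  have : a = a' := by linarith
  subst this
  exact (A0_CS.eqv hc).symm

end Pool.Agent.CSA
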