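import Pool.Agent.CSA.PrimesL

/-!
# The list of odd primes up to 8191: properties

`PL_prime`, `PL_comp`: by a check with trial division by the primes up to 89 (`decide +kernel` for a
Boolean function on `List.range 8192`; a composite number `n ≤ 8191` has a prime factor at most `90`,
`Nat.minFac_sq_le_self`).
-/

namespace Pool.Agent.CSA

/-- no divisor from the list, other than the number itself -/
def primesTD (n : ℕ) : Bool := (2 :: SPL).all (fun p => Nat.beq p n || !(Nat.beq (Nat.mod n p) 0))

/-- sorted check -/
def primesSorted : List ℕ → Bool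
  | [] => true
  | [_] => true
  | a :: b :: l => Nat.blt a b && primesSorted (b :: l)

/-- walk through `n, n+1, …` (`k` steps) and the list -/
def primesWalk : ℕ → ℕ → List ℕ → Bool
  | 0, _, l => l.isEmpty
  | k + 1, n, [] => !(primesTD n) && primesWalk k (n + 1) []
  | k + 1, n, a :: l =>
      match Nat.beq a n with
      | true => primesTD n && primesWalk k (n + 1) l
      | false => !(primesTD n) && primesWalk k (n + 1) (a :: l)

theorem primesWalk_spec : ∀ (k n : ℕ) (l : List ℕ), primesWalk k n l = true →
    (∀ p ∈ l, n ≤ p ∧ primesTD p = true) ∧ (∀ q, n ≤ q → q < n + k → primesTD q = true → q ∈ l) := by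
  intro k
  induction k with
  | zero =>
    intro n l h
    have hl : l = [] := by
      simpa [primesWalk] using h
    subst hl
    exact ⟨by simp, by intro q h1 h2; omega⟩
  | succ k ih =>
    intro n l h
    cases l with
    | nil =>
      simp only [primesWalk, Bool.and_eq_true, Bool.not_eq_true'] at h
      obtain ⟨h1, h2⟩ := ih (n + 1) [] h.2
      refine ⟨by simp, ?_⟩
      intro q hq1 hq2 hq3
      rcases Nat.eq_or_lt_of_le hq1 with h3 | h3
      · subst h3; rw [h.1] at hq3; exact absurd hq3 (by simp)
      · exact h2 q (by omega) (by omega) hq3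
    | cons a l =>
      unfold primesWalk at h
      cases hb : Nat.beq a n with
      | true =>
        rw [hb] at h
        simp only [Bool.and_eq_true] at h
        have han : a = n := Nat.eq_of_beq_eq_true hb
        subst han
        obtain ⟨h1, h2⟩ := ih (a + 1) l h.2
        refine ⟨?_, ?_⟩
        · intro p hp
          rcases List.mem_cons.1 hp with h3 | h3
          · subst h3; exact ⟨le_refl _, h.1⟩
          · have := h1 p h3
            exact ⟨by omega, this.2⟩
        · intro q hq1 hq2 hq3
          rcases Nat.eq_or_lt_of_le hq1 with h3 | h3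
          · subst h3; exact List.mem_cons_self
          · exact List.mem_cons_of_mem _ (h2 q (by omega) (by omega) hq3)
      | false =>
        rw [hb] at h
        simp only [Bool.and_eq_true, Bool.not_eq_true'] at h
        obtain ⟨h1, h2⟩ := ih (n + 1) (a :: l) h.2
        refine ⟨?_, ?_⟩
        · intro p hp
          have := h1 p hp
          exact ⟨by omega, this.2⟩
        · intro q hq1 hq2 hq3
          rcases Nat.eq_or_lt_of_le hq1 with h3 | h3
          · subst h3; rw [h.1] at hq3; exact absurd hq3 (by simp)
          · exact h2 q (by omega) (by omega) hq3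

theorem primesSorted_spec : ∀ l : List ℕ, primesSorted l = true → l.Pairwise (· < ·)
  | [] => fun _ => List.Pairwise.nil
  | [a] => fun _ => List.pairwise_singleton _ _
  | a :: b :: l => fun h => by
    simp only [primesSorted, Bool.and_eq_true] at h
    have h1 : a < b := by
      have := h.1
      simpa [Nat.blt] using this
    have h2 := primesSorted_spec (b :: l) h.2
    rw [List.pairwise_cons]
    refine ⟨?_, h2⟩
    intro x hx
    rcases List.mem_cons.1 hx with h3 | h3
    · subst h3; exact h1
    · exact h1.trans ((List.pairwise_cons.1 h2).1 x h3)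

theorem primes_small_list : ∀ q < 92, q.Prime → q ∈ (2 :: SPL) := by decide

theorem primes_SPL_prime : ∀ p ∈ (2 :: SPL), p.Prime := by decide

theorem primesTD_of_prime {q : ℕ} (hq : q.Prime) : primesTD q = true := by
  unfold primesTD
  rw [List.all_eq_true]
  intro p hp
  have hpp := primes_SPL_prime p hp
  rw [Bool.or_eq_true]
  by_cases h : p = q
  · left; subst h; exact Nat.beq_refl _
  · right
    rw [Bool.not_eq_true']
    by_contra hc
    have h1 : Nat.beq (Nat.mod q p) 0 = true := by simpa using hc
    have h2 : q % p = 0 := Nat.eq_of_beq_eq_true h1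
    exact h ((Nat.prime_dvd_prime_iff_eq hpp hq).1 (Nat.dvd_of_mod_eq_zero h2))

theorem prime_of_primesTD {q : ℕ} (h2 : 2 ≤ q) (hq : q ≤ 8191) (h : primesTD q = true) : q.Prime := by
  by_contra hc
  have h1 := Nat.minFac_sq_le_self (by omega) hc
  have h3 : q.minFac.Prime := Nat.minFac_prime (by omega)
  have h4 : q.minFac < 92 := by nlinarith
  have h5 := primes_small_list _ h4 h3
  unfold primesTD at h
  rw [List.all_eq_true] at h
  have h6 := h _ h5
  rw [Bool.or_eq_true] at h6
  rcases h6 with h7 | h7
  · have h8 : q.minFac = q := Nat.eq_of_beq_eq_true h7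
    rw [h8] at h3
    exact hc h3
  · rw [Bool.not_eq_true'] at h7
    have h8 : Nat.mod q q.minFac = 0 := Nat.mod_eq_zero_of_dvd (Nat.minFac_dvd q)
    rw [h8] at h7
    exact absurd h7 (by decide)

theorem primes_check : primesWalk 8189 3 PL = true := by decide +kernel

theorem primes_le : PL.all (fun p => Nat.ble p 8191) = true := by decide +kernel

theorem PL_prime : ∀ p ∈ PL, p.Prime ∧ 3 ≤ p := by
  intro p hp
  obtain ⟨h1, h2⟩ := (primesWalk_spec 8189 3 PL primes_check).1 p hp
  have h3 := List.all_eq_true.1 primes_le p hp
  exact ⟨prime_of_primesTD (by omega) (Nat.le_of_ble_eq_true h3) h2, h1⟩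

theorem PL_sorted : PL.Pairwise (· < ·) :=
  primesSorted_spec PL (by decide +kernel)

theorem PL_comp : ∀ q, q.Prime → q ≠ 2 → q ≤ 8191 → q ∈ PL := by
  intro q hq h2 hq'
  have h3 := hq.two_le
  exact (primesWalk_spec 8189 3 PL primes_check).2 q (by omega) (by omega) (primesTD_of_prime hq)

theorem SPL_ge : ∀ p ∈ SPL, 3 ≤ p := by decide

theorem SPL_sorted : SPL.Pairwise (· < ·) :=
  primesSorted_spec SPL (by decide +kernel)

theorem SPL_len : SPL.length ≤ 45 := by decide

theorem SPL_comp : ∀ q, q.Prime → q ≠ 2 → q * q ≤ 8191 → q ∈ SPL := by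
  intro q hq h2 hq'
  have h1 : q < 92 := by nlinarith
  have h3 := primes_small_list q h1 hq
  rcases List.mem_cons.1 h3 with h4 | h4
  · exact absurd h4 h2
  · exact h4

end Pool.Agent.CSA
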