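import Pool.Agent.CSA.Base

/-!
# The symmetry `A ↦ star A = 1 + (A - 1)⁻¹` between the traces `n` and `5 - n`

The inverse of `A - 1` is its adjugate because `det (A - 1) = 1`.
* `star_CS`: `det (star A - 1) = det (adjugate (A-1)) = 1`; `star A = (A - 1)⁻¹ A` has determinant 1;
  trace: `3 + trace (adjugate (A - 1))`; with `e₂` the second coefficient of the characteristic
  polynomial, `trace (adjugate M) = e₂(M)`, `e₂(A-1) = e₂(A) - 2 tr A + 3`, and `e₂(A) = n - 1` because
  `1 = det (A - 1) = det A - e₂(A) + tr A - 1`.  So the trace is `5 - n`.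
* `star_star`: `star A - 1 = (A-1)⁻¹`, `adjugate (adjugate M) = M` for `det M = 1`.
* `star_conj`: `B = P A Q`, `P Q = 1`: adjugates.
-/

namespace Pool.Agent.CSA

open Matrix

theorem StarA_adj {A : M3} (h : (A - 1).det = 1) : star A = (A - 1).adjugate * A := by
  have h1 : (A - 1).adjugate * (A - 1) = 1 := by
    rw [Matrix.adjugate_mul, h, one_smul]
  have h2 : (A - 1).adjugate * A = (A - 1).adjugate * (A - 1) + (A - 1).adjugate := by
    rw [Matrix.mul_sub, mul_one]
    abel
  rw [h2, h1]
  rfl

theorem star_CS {n : ℤ} {A : M3} (hA : CS n A) : CS (5 - n) (star A) := by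
  have hadj : (A - 1).adjugate.det = 1 := by
    rw [Matrix.det_adjugate, hA.det', one_pow]
  refine ⟨?_, ?_, ?_⟩
  · rw [StarA_adj hA.det', Matrix.det_mul, hadj, hA.det, one_mul]
  · have : star A - 1 = (A - 1).adjugate := by
      unfold star
      abel
    rw [this, hadj]
  · have h1 := hA.det
    have h2 := hA.det'
    have h3 := hA.tr
    rw [Matrix.det_fin_three] at h1 h2
    rw [Matrix.trace_fin_three] at h3
    simp [Matrix.sub_apply] at h2
    unfold star
    rw [Matrix.trace_fin_three, Matrix.adjugate_fin_three]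
    simp [Matrix.add_apply, Matrix.sub_apply]
    linear_combination h1 - h2 - h3

theorem star_star {n : ℤ} {A : M3} (hA : CS n A) : star (star A) = A := by
  have h1 : star A - 1 = (A - 1).adjugate := by
    unfold star
    abel
  have h2 : star (star A) = 1 + (star A - 1).adjugate := rfl
  rw [h2, h1, Matrix.adjugate_adjugate _ (by simp), hA.det', one_pow, one_smul]
  abel

theorem star_conj {n : ℤ} {A B : M3} (_hA : CS n A) (h : Conj A B) : Conj (star A) (star B) := by
  obtain ⟨P, Q, h1, rfl⟩ := h
  have h2 : Q * P = 1 := mul_eq_one_comm.1 h1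
  have hd : Q.det * P.det = 1 := by
    rw [← Matrix.det_mul, h2, Matrix.det_one]
  refine ⟨P, Q, h1, ?_⟩
  have e1 : P * A * Q - 1 = P * (A - 1) * Q := by
    rw [Matrix.mul_sub, Matrix.sub_mul, mul_one, h1]
  have aQ : Q.adjugate = Q.det • P := by
    calc Q.adjugate = Q.adjugate * (Q * P) := by rw [h2, mul_one]
      _ = Q.adjugate * Q * P := by rw [Matrix.mul_assoc]
      _ = Q.det • P := by rw [Matrix.adjugate_mul, Matrix.smul_mul, one_mul]
  have aP : P.adjugate = P.det • Q := by
    calc P.adjugate = (Q * P) * P.adjugate := by rw [h2, one_mul]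
      _ = Q * (P * P.adjugate) := by rw [Matrix.mul_assoc]
      _ = P.det • Q := by rw [Matrix.mul_adjugate, Matrix.mul_smul, mul_one]
  have e2 : (P * (A - 1) * Q).adjugate = P * (A - 1).adjugate * Q := by
    rw [Matrix.adjugate_mul_distrib, Matrix.adjugate_mul_distrib, aQ, aP, Matrix.smul_mul,
      Matrix.mul_smul, Matrix.mul_smul, smul_smul, hd, one_smul, Matrix.mul_assoc]
  unfold star
  rw [e1, e2, Matrix.mul_add, Matrix.add_mul, mul_one, h1]

end Pool.Agent.CSA
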