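import Pool.Agent.CSA.Mink
import Pool.Agent.CSA.Hess
import Pool.Agent.CSA.Enum
import Pool.Agent.CSA.Cert1
import Pool.Agent.CSA.CertG
import Pool.Agent.CSA.Lst1
import Pool.Agent.CSA.LstG
import Pool.Agent.CSA.Primes

/-!
# Soundness of a table

`mink` gives a small primitive vector, `hess` the Hessenberg form with `g² b = |N| ≤ B`
(`81 (g² b)² ≤ 4 disc s < 81 (B+1)²`).  If `g = 1`: `hess_one`, `J.conj_X`: a form `(b, ze)`.
If `g ≥ 2`: `forms_complete` for `g` and (if `b ≥ 2`) for `b`, `small_mem` (`g ≤ B / 9 + 9` because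
`g * g ≤ B`; `b ≤ B / 9` because `g` is odd, so `g ≥ 3`), `hess_arith`, `chkg_sound`,
`vecOKg_sound`: a form `(m, c)` with `m ≤ B`.  Then `descend`: strong induction on `d`.
-/

namespace Pool.Agent.CSA

open Matrix

/-- a correct table for the trace `s` -/
structure TabOK (s B lim : ℕ) (R : List RC) (C : List ℕ) (T : List (ℕ × ℕ)) (G : List ℕ) :
    Prop where
  r : rcsOK s B PL R = true
  c : chk1 s lim (forms s B SPL PL R) C T = true
  g : chkg s B (small (B / 9 + 9) (forms s B SPL PL R)) (small (B / 9 + 9) (forms s B SPL PL R)) G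
    = true

theorem descend {s B lim : ℕ} {R : List RC} {C : List ℕ} {T : List (ℕ × ℕ)} {G : List ℕ}
    (hs : 1 ≤ s) (hs' : s < 2 ^ 14) (hB : B ≤ 8191) (hl : 1 ≤ lim) (h : TabOK s B lim R C T G)
    {A : M3} :
    ∀ (d c : ℕ) (a : ℤ), 1 ≤ d → d ≤ B → c < d → a * d = -f s c → Conj A (X a d c s) →
      ∃ (d' c' : ℕ) (a' : ℤ), 1 ≤ d' ∧ c' < d' ∧ a' * d' = -f s c' ∧ Conj A (X a' d' c' s) ∧
        (d' ≤ lim ∨ (d', c') ∈ T) := by
  intro d
  induction d using Nat.strong_induction_on with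
  | _ d ih =>
    intro c a hd hdB hc ha hA
    rcases Nat.lt_or_ge lim d with hlim | hlim
    · have hf : (d : ℤ) ∣ f s c := ⟨-a, by linear_combination ha⟩
      obtain ⟨rs', h1, h2⟩ := forms_complete (s := s) (B := B) (SP := SPL) (ps := PL) (rs := R)
        hs (by norm_num; omega) h.r PL_prime PL_sorted
        (fun q h1 h2 h3 => PL_comp q h1 h2 (by omega)) SPL_ge SPL_sorted SPL_len
        (fun q h1 h2 h3 => SPL_comp q h1 h2 (by omega)) (d := d) (c := c) (by omega) hdB hc hf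
      rcases chk1_sound _ _ _ h.c d rs' h1 hlim c h2 with h3 | ⟨code, h3⟩
      · exact ⟨d, c, a, hd, hc, ha, hA, Or.inr h3⟩
      · obtain ⟨m, c', a', k1, k2, k3, k4, k5⟩ :=
          vecOK1_sound hs hs' (by norm_num; omega) hc ha h3
        exact ih m k2 c' a' k1 (by omega) k3 k4 (hA.trans k5)
    · exact ⟨d, c, a, hd, hc, ha, hA, Or.inl hlim⟩

theorem tab {s B lim : ℕ} {R : List RC} {C : List ℕ} {T : List (ℕ × ℕ)} {G : List ℕ}
    (hs : 6 ≤ s) (hs' : s < 2 ^ 14) (hd : 4 * disc s < 81 * ((B : ℤ) + 1) ^ 2) (hB : B ≤ 8191)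
    (hl : 1 ≤ lim) (h : TabOK s B lim R C T G) {A : M3} (hA : CS s A) :
    ∃ (d c : ℕ) (a : ℤ), 1 ≤ d ∧ c < d ∧ a * d = -f s c ∧ Conj A (X a d c s) ∧
      (d ≤ lim ∨ (d, c) ∈ T) := by
  obtain ⟨v, u, huv, hN⟩ := mink hA (by exact_mod_cast hs)
  obtain ⟨g, b, al, ze, be, de, ga, ep, hg, hb, hal, hze, hbe, hgb, hconj⟩ := hess hA huv
  have hCS := hA.conj hconj
  obtain ⟨hde, hep, hga, hgd, hbd⟩ := hess_arith hCS
  have hsz : g * g * b ≤ B := by
    have h1 : (Nv A v) ^ 2 = ((g : ℤ) ^ 2 * b) ^ 2 := by rw [hgb, sq_abs]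
    rw [h1] at hN
    have h2 : ((g : ℤ) ^ 2 * b) ^ 2 < ((B : ℤ) + 1) ^ 2 := by linarith
    have h3 : (g : ℤ) ^ 2 * b < (B : ℤ) + 1 := lt_of_pow_lt_pow_left₀ 2 (by positivity) h2
    have h4 : ((g * g * b : ℕ) : ℤ) < (B : ℤ) + 1 := by
      push_cast
      nlinarith
    have h5 : ((g * g * b : ℕ) : ℤ) < ((B + 1 : ℕ) : ℤ) := by
      push_cast at h4 ⊢
      exact h4
    exact Nat.lt_succ_iff.1 (by exact_mod_cast h5)
  have hbB : b ≤ B := by
    have : 1 * b ≤ g * g * b := Nat.mul_le_mul_right b (Nat.mul_pos hg hg)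
    omega
  have hggB : g * g ≤ B := by
    have : g * g * 1 ≤ g * g * b := Nat.mul_le_mul_left (g * g) hb
    omega
  have hgB : g ≤ B := by
    have : g * 1 ≤ g * g := Nat.mul_le_mul_left g hg
    omega
  have fc : ∀ d c : ℕ, 2 ≤ d → d ≤ B → c < d → (d : ℤ) ∣ f s c →
      ∃ rs', (d, rs') ∈ forms s B SPL PL R ∧ c ∈ rs' := fun d c k1 k2 k3 k4 =>
    forms_complete (s := s) (B := B) (SP := SPL) (ps := PL) (rs := R)
      (by omega) (by norm_num; omega) h.r PL_prime PL_sorted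
      (fun q h1 h2 h3 => PL_comp q h1 h2 (by omega)) SPL_ge SPL_sorted SPL_len
      (fun q h1 h2 h3 => SPL_comp q h1 h2 (by omega)) k1 k2 k3 k4
  have fin : ∀ (d c : ℕ) (a : ℤ), 1 ≤ d → d ≤ B → c < d → a * d = -f s c →
      Conj (H al g be de b ga ep ze) (X a d c s) →
      ∃ (d' c' : ℕ) (a' : ℤ), 1 ≤ d' ∧ c' < d' ∧ a' * d' = -f s c' ∧ Conj A (X a' d' c' s) ∧
        (d' ≤ lim ∨ (d', c') ∈ T) := fun d c a k1 k2 k3 k4 k5 =>
    descend (by omega) hs' hB hl h d c a k1 k2 k3 k4 (hconj.trans k5)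
  rcases Nat.lt_or_ge g 2 with hg2 | hg2
  · have hg1 : g = 1 := by omega
    subst hg1
    have hJ := hess_one (al : ℤ) be de b ga ep ze
    obtain ⟨a, k1, k2⟩ := J.conj_X (n := s) (by simpa using hCS) hJ
    exact fin b ze a hb hbB hze k1 (by simpa using k2)
  · have hg3 : 3 ≤ g := by
      by_contra hlt
      have hg2' : g = 2 := by omega
      subst hg2'
      have h1 := f_odd (s : ℤ) (al : ℤ)
      have h2 : (2 : ℤ) ∣ f s al := by exact_mod_cast hgd
      omega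
    obtain ⟨als, k1, k2⟩ := fc g al hg2 hgB hal hgd
    have k3 : (g, als) ∈ small (B / 9 + 9) (forms s B SPL PL R) := by
      refine small_mem k1 ?_
      by_contra hlt
      have h1 : B / 9 + 10 ≤ g := by omega
      have h2 : B ≤ 9 * (B / 9) + 8 := by omega
      have h3 : B + 82 ≤ 9 * g := by omega
      nlinarith
    have k4 : ∃ zes : List ℕ, ((b, zes) = (1, [0]) ∨
        (b, zes) ∈ small (B / 9 + 9) (forms s B SPL PL R)) ∧ ze ∈ zes := by
      rcases Nat.lt_or_ge b 2 with hb2 | hb2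
      · have hb1 : b = 1 := by omega
        subst hb1
        have : ze = 0 := by omega
        subst this
        exact ⟨[0], Or.inl rfl, by simp⟩
      · obtain ⟨zes, m1, m2⟩ := fc b ze hb2 hbB hze hbd
        refine ⟨zes, Or.inr (small_mem m1 ?_), m2⟩
        have h1 : 9 * b ≤ g * g * b := Nat.mul_le_mul_right b (by nlinarith)
        omega
    obtain ⟨zes, k5, k6⟩ := k4
    obtain ⟨code, hcode⟩ := chkg_sound _ _ h.g g b al ze be als zes de ga ep k3 k5 hsz hg hb k2 k6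
      hbe hde hep hga
    obtain ⟨m, c, a, m1, m2, m3, m4, m5⟩ := vecOKg_sound hs' (by norm_num; omega)
      (by norm_num; omega) hg hb hal hze hbe hCS hcode
    exact fin m c a m1 (by omega) m3 m4 m5

end Pool.Agent.CSA
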