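import Pool.Agent.CSA.Base

/-!
# Signed arithmetic modulo `MM`, Bezout
`ab_eq`: `a < MM`, `a ≡ W`, `2 |W| < MM`: if `W ≥ 0` then `a = W` and `2 a ≤ MM`; if `W < 0` then
`a = MM + W` and `MM < 2 a` , `MM - a = - W`.  (`ab a = Bool.rec (MM - a) a (Nat.ble (2 * a) MM)`.)
`bezout3`: `Int.gcd_eq_gcd_ab` twice.
-/

namespace Pool.Agent.CSA

open Matrix

theorem VecA_aux (K : ℕ) {a : ℕ} {W : ℤ} (ha : a < K) (h : (a : ℤ) ≡ W [ZMOD (K : ℤ)])
    (hW : 2 * |W| < (K : ℤ)) :
    (Bool.rec (K - a) a (Nat.ble (2 * a) K) : ℕ) = W.natAbs := by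
  have haK : (a : ℤ) < (K : ℤ) := by exact_mod_cast ha
  have ha0 : (0 : ℤ) ≤ (a : ℤ) := Int.natCast_nonneg a
  obtain ⟨k, hk⟩ := h.dvd
  have hWa : W = a + K * k := by linarith
  have hK : (0 : ℤ) < K := lt_of_le_of_lt ha0 haK
  rcases le_or_gt 0 W with h0 | h0
  · rw [abs_of_nonneg h0] at hW
    have hk0 : k = 0 := by
      have h1 : k < 1 := by
        by_contra hc
        push Not at hc
        nlinarith
      have h2 : -1 < k := by
        by_contra hc
        push Not at hc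
        nlinarith
      omega
    rw [hk0, mul_zero, add_zero] at hWa
    have h3 : 2 * a ≤ K := by
      have : (2 : ℤ) * a ≤ K := by rw [← hWa]; exact hW.le
      exact_mod_cast this
    have h4 : Nat.ble (2 * a) K = true := by rw [Nat.ble_eq]; exact h3
    rw [h4, hWa]
    simp
  · rw [abs_of_neg h0] at hW
    have hk0 : k = -1 := by
      have h1 : k < 0 := by
        by_contra hc
        push Not at hc
        nlinarith
      have h2 : -2 < k := by
        by_contra hc
        push Not at hc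
        nlinarith
      omega
    rw [hk0] at hWa
    have h3 : ¬ 2 * a ≤ K := by
      intro hc
      have : (2 : ℤ) * a ≤ K := by exact_mod_cast hc
      linarith
    have h4 : Nat.ble (2 * a) K = false := by
      rw [Bool.eq_false_iff]
      intro hc
      exact h3 (Nat.le_of_ble_eq_true hc)
    rw [h4]
    show K - a = W.natAbs
    have h5 : ((K - a : ℕ) : ℤ) = (W.natAbs : ℤ) := by
      rw [Nat.cast_sub ha.le, Int.natCast_natAbs, abs_of_neg h0]
      linarith
    exact_mod_cast h5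

theorem ab_eq {a : ℕ} {W : ℤ} (ha : a < MM) (h : (a : ℤ) ≡ W [ZMOD (MM : ℤ)])
    (hW : 2 * |W| < (MM : ℤ)) : ab a = W.natAbs := 
  VecA_aux MM ha h hW

/-- a vector of integers with greatest common divisor one -/
theorem bezout3 {a b c : ℤ} (h : Nat.gcd (Nat.gcd a.natAbs b.natAbs) c.natAbs = 1) :
    ∃ t : V3, ![a, b, c] ⬝ᵥ t = 1 := by
  have h1 : (Int.gcd a b : ℤ) = a * Int.gcdA a b + b * Int.gcdB a b := Int.gcd_eq_gcd_ab a b
  have h2 := Int.gcd_eq_gcd_ab (Int.gcd a b : ℤ) c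
  have h3 : Int.gcd (Int.gcd a b : ℤ) c = 1 := by
    rw [← h]
    simp [Int.gcd_def]
  rw [h3, h1] at h2
  refine ⟨![Int.gcdA a b * Int.gcdA (Int.gcd a b : ℤ) c, Int.gcdB a b * Int.gcdA (Int.gcd a b : ℤ) c,
    Int.gcdB (Int.gcd a b : ℤ) c], ?_⟩
  rw [h1]
  simp only [dotProduct, Fin.sum_univ_three, Matrix.cons_val_zero, Matrix.cons_val_one,
    Matrix.cons_val_two]
  simp only [Matrix.head_cons, Matrix.tail_cons] 
  push_cast at h2
  linarith

end Pool.Agent.CSA
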