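import Pool.Agent.CSA.VecA

/-!
# Soundness of the vector test

`al'` etc. are natural numbers congruent modulo `MM = 2^256` to the entries of
`A = H al g be de b ga ep ze`; all entries have absolute value at most `2^60`.  Let
`x' = code % 2^22`, `y' = (code / 2^22) % 256`, `z' = (code / 2^30) % 256`, `x = x' - 2^21`,
`y = y' - 128`, `z = z' - 128` (integers), `v = (x, y, z)`.  Then modulo `MM`:
`p_i ≡ (A v)_i`, `w_i ≡ (wv A v)_i` (in the test `MM + 128 - z'` is the residue of `- z`, etc.), and the last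
number is the residue of `Nv A v`.  Sizes: `|x| ≤ 2^21`, `|y|, |z| ≤ 2^7`,
`|p_i| ≤ 3 * 2^81`, `|w_i| ≤ 2^105`, `|Nv| ≤ 2^251 < MM / 2`.
By `ab_eq` the test says `gcd (w0, w1, w2) = 1` (then `bezout3` gives `t`) and `|Nv A v| < lim`.
-/

namespace Pool.Agent.CSA

open Matrix

theorem VecOK_MM : (MM : ℤ) = 2 ^ 256 := by norm_num [MM]

theorem VecOK_emod {a : ℕ} {W : ℤ} (h : (a : ℤ) ≡ W [ZMOD (MM : ℤ)]) :
    ((a % MM : ℕ) : ℤ) ≡ W [ZMOD (MM : ℤ)] := by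
  rw [Int.natCast_mod]
  exact (Int.mod_modEq _ _).trans h

theorem VecOK_lt (a : ℕ) : a % MM < MM := Nat.mod_lt _ (by norm_num [MM])

theorem VecOK_abs2 {a b A B : ℤ} (ha : |a| ≤ A) (hb : |b| ≤ B) : |a * b| ≤ A * B := by
  rw [abs_mul]
  exact mul_le_mul ha hb (abs_nonneg _) ((abs_nonneg _).trans ha)

theorem VecOK_shift {x c M : ℕ} (h : c ≤ M) :
    ((x + (M - c) : ℕ) : ℤ) ≡ (x : ℤ) - (c : ℤ) [ZMOD (M : ℤ)] := by
  rw [Nat.cast_add, Nat.cast_sub h]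
  apply Int.modEq_iff_dvd.mpr
  exact ⟨-1, by ring⟩

theorem VecOK_nshift {x c M : ℕ} (h : x ≤ M + c) :
    ((M + c - x : ℕ) : ℤ) ≡ -((x : ℤ) - (c : ℤ)) [ZMOD (M : ℤ)] := by
  rw [Nat.cast_sub h, Nat.cast_add]
  apply Int.modEq_iff_dvd.mpr
  exact ⟨-1, by ring⟩

theorem VecOK_bnd {x c : ℕ} {B : ℤ} (h : (c : ℤ) ≤ B) (h2 : (x : ℤ) ≤ B + c) :
    |(x : ℤ) - (c : ℤ)| ≤ B := by
  rw [abs_le]
  constructor <;> omega

theorem VecOK_core {al g be de b ga ep ze X Y Z : ℤ} {al' g' be' de' b' ga' ep' ze' : ℕ}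
    {x y z nx ny nz : ℕ} {lim : ℕ}
    (hal : (al' : ℤ) ≡ al [ZMOD (MM : ℤ)]) (hg : (g' : ℤ) ≡ g [ZMOD (MM : ℤ)])
    (hbe : (be' : ℤ) ≡ be [ZMOD (MM : ℤ)]) (hde : (de' : ℤ) ≡ de [ZMOD (MM : ℤ)])
    (hb : (b' : ℤ) ≡ b [ZMOD (MM : ℤ)]) (hga : (ga' : ℤ) ≡ ga [ZMOD (MM : ℤ)])
    (hep : (ep' : ℤ) ≡ ep [ZMOD (MM : ℤ)]) (hze : (ze' : ℤ) ≡ ze [ZMOD (MM : ℤ)])
    (kal : |al| ≤ 2 ^ 60) (kg : |g| ≤ 2 ^ 60) (kbe : |be| ≤ 2 ^ 60) (kde : |de| ≤ 2 ^ 60)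
    (kb : |b| ≤ 2 ^ 60) (kga : |ga| ≤ 2 ^ 60) (kep : |ep| ≤ 2 ^ 60) (kze : |ze| ≤ 2 ^ 60)
    (hx : (x : ℤ) ≡ X [ZMOD (MM : ℤ)]) (hy : (y : ℤ) ≡ Y [ZMOD (MM : ℤ)])
    (hz : (z : ℤ) ≡ Z [ZMOD (MM : ℤ)]) (hnx : (nx : ℤ) ≡ -X [ZMOD (MM : ℤ)])
    (hny : (ny : ℤ) ≡ -Y [ZMOD (MM : ℤ)]) (hnz : (nz : ℤ) ≡ -Z [ZMOD (MM : ℤ)])
    (kX : |X| ≤ 2 ^ 21) (kY : |Y| ≤ 2 ^ 7) (kZ : |Z| ≤ 2 ^ 7)
    {p0 p1 p2 w0 w1 w2 N : ℕ}
    (ep0 : p0 = al' * x + be' * y + ga' * z) (ep1 : p1 = g' * x + de' * y + ep' * z)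
    (ep2 : p2 = b' * y + ze' * z)
    (ew0 : w0 = (y * p2 + nz * p1) % MM) (ew1 : w1 = (z * p0 + nx * p2) % MM)
    (ew2 : w2 = (x * p1 + ny * p0) % MM)
    (eN : N = (w0 * (al' * p0 + be' * p1 + ga' * p2) + w1 * (g' * p0 + de' * p1 + ep' * p2) +
      w2 * (b' * p1 + ze' * p2)) % MM)
    (h1 : Nat.gcd (Nat.gcd (ab w0) (ab w1)) (ab w2) = 1) (h2 : ab N < lim) :
    ∃ v t : V3, wv (H al g be de b ga ep ze) v ⬝ᵥ t = 1 ∧
      |Nv (H al g be de b ga ep ze) v| < lim := by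
  set P0 : ℤ := al * X + be * Y + ga * Z with hP0
  set P1 : ℤ := g * X + de * Y + ep * Z with hP1
  set P2 : ℤ := b * Y + ze * Z with hP2
  have c0 : (p0 : ℤ) ≡ P0 [ZMOD (MM : ℤ)] := by
    rw [ep0]; push_cast
    exact ((hal.mul hx).add (hbe.mul hy)).add (hga.mul hz)
  have c1 : (p1 : ℤ) ≡ P1 [ZMOD (MM : ℤ)] := by
    rw [ep1]; push_cast
    exact ((hg.mul hx).add (hde.mul hy)).add (hep.mul hz)
  have c2 : (p2 : ℤ) ≡ P2 [ZMOD (MM : ℤ)] := by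
    rw [ep2]; push_cast
    exact (hb.mul hy).add (hze.mul hz)
  set W0 : ℤ := Y * P2 + -Z * P1 with hW0
  set W1 : ℤ := Z * P0 + -X * P2 with hW1
  set W2 : ℤ := X * P1 + -Y * P0 with hW2
  have d0 : (w0 : ℤ) ≡ W0 [ZMOD (MM : ℤ)] := by
    rw [ew0]; refine VecOK_emod ?_; push_cast
    exact (hy.mul c2).add (hnz.mul c1)
  have d1 : (w1 : ℤ) ≡ W1 [ZMOD (MM : ℤ)] := by
    rw [ew1]; refine VecOK_emod ?_; push_cast
    exact (hz.mul c0).add (hnx.mul c2)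
  have d2 : (w2 : ℤ) ≡ W2 [ZMOD (MM : ℤ)] := by
    rw [ew2]; refine VecOK_emod ?_; push_cast
    exact (hx.mul c1).add (hny.mul c0)
  set N' : ℤ := W0 * (al * P0 + be * P1 + ga * P2) + W1 * (g * P0 + de * P1 + ep * P2) +
      W2 * (b * P1 + ze * P2) with hN'
  have dN : (N : ℤ) ≡ N' [ZMOD (MM : ℤ)] := by
    rw [eN]; refine VecOK_emod ?_; push_cast
    exact ((d0.mul (((hal.mul c0).add (hbe.mul c1)).add (hga.mul c2))).add
      (d1.mul (((hg.mul c0).add (hde.mul c1)).add (hep.mul c2)))).add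
      (d2.mul ((hb.mul c1).add (hze.mul c2)))
  have kP0 : |P0| ≤ 2 ^ 82 := by
    have e1 := VecOK_abs2 kal kX
    have e2 := VecOK_abs2 kbe kY
    have e3 := VecOK_abs2 kga kZ
    have e4 := abs_add_three (al * X) (be * Y) (ga * Z)
    rw [← hP0] at e4
    refine e4.trans ((add_le_add (add_le_add e1 e2) e3).trans ?_)
    norm_num
  have kP1 : |P1| ≤ 2 ^ 82 := by
    have e1 := VecOK_abs2 kg kX
    have e2 := VecOK_abs2 kde kY
    have e3 := VecOK_abs2 kep kZ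
    have e4 := abs_add_three (g * X) (de * Y) (ep * Z)
    rw [← hP1] at e4
    refine e4.trans ((add_le_add (add_le_add e1 e2) e3).trans ?_)
    norm_num
  have kP2 : |P2| ≤ 2 ^ 82 := by
    have e2 := VecOK_abs2 kb kY
    have e3 := VecOK_abs2 kze kZ
    have e4 := abs_add_le (b * Y) (ze * Z)
    rw [← hP2] at e4
    refine e4.trans ((add_le_add e2 e3).trans ?_)
    norm_num
  have knX : |-X| ≤ 2 ^ 21 := by rw [abs_neg]; exact kX
  have knY : |-Y| ≤ 2 ^ 7 := by rw [abs_neg]; exact kY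
  have knZ : |-Z| ≤ 2 ^ 7 := by rw [abs_neg]; exact kZ
  have kW0 : |W0| ≤ 2 ^ 104 := by
    have e4 := abs_add_le (Y * P2) (-Z * P1)
    rw [← hW0] at e4
    refine e4.trans ((add_le_add (VecOK_abs2 kY kP2) (VecOK_abs2 knZ kP1)).trans ?_)
    norm_num
  have kW1 : |W1| ≤ 2 ^ 104 := by
    have e4 := abs_add_le (Z * P0) (-X * P2)
    rw [← hW1] at e4
    refine e4.trans ((add_le_add (VecOK_abs2 kZ kP0) (VecOK_abs2 knX kP2)).trans ?_)
    norm_num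
  have kW2 : |W2| ≤ 2 ^ 104 := by
    have e4 := abs_add_le (X * P1) (-Y * P0)
    rw [← hW2] at e4
    refine e4.trans ((add_le_add (VecOK_abs2 kX kP1) (VecOK_abs2 knY kP0)).trans ?_)
    norm_num
  have kA0 : |al * P0 + be * P1 + ga * P2| ≤ 2 ^ 144 := by
    refine (abs_add_three _ _ _).trans ((add_le_add (add_le_add (VecOK_abs2 kal kP0)
      (VecOK_abs2 kbe kP1)) (VecOK_abs2 kga kP2)).trans ?_)
    norm_num
  have kA1 : |g * P0 + de * P1 + ep * P2| ≤ 2 ^ 144 := by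
    refine (abs_add_three _ _ _).trans ((add_le_add (add_le_add (VecOK_abs2 kg kP0)
      (VecOK_abs2 kde kP1)) (VecOK_abs2 kep kP2)).trans ?_)
    norm_num
  have kA2 : |b * P1 + ze * P2| ≤ 2 ^ 144 := by
    refine (abs_add_le _ _).trans ((add_le_add (VecOK_abs2 kb kP1) (VecOK_abs2 kze kP2)).trans ?_)
    norm_num
  have kN : |N'| ≤ 2 ^ 250 := by
    have e4 := abs_add_three (W0 * (al * P0 + be * P1 + ga * P2))
      (W1 * (g * P0 + de * P1 + ep * P2)) (W2 * (b * P1 + ze * P2))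
    rw [← hN'] at e4
    refine e4.trans ((add_le_add (add_le_add (VecOK_abs2 kW0 kA0) (VecOK_abs2 kW1 kA1))
      (VecOK_abs2 kW2 kA2)).trans ?_)
    norm_num
  have hMM := VecOK_MM
  have b0 : 2 * |W0| < (MM : ℤ) := by
    rw [hMM]; refine lt_of_le_of_lt (mul_le_mul_of_nonneg_left kW0 (by norm_num)) ?_; norm_num
  have b1 : 2 * |W1| < (MM : ℤ) := by
    rw [hMM]; refine lt_of_le_of_lt (mul_le_mul_of_nonneg_left kW1 (by norm_num)) ?_; norm_num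
  have b2 : 2 * |W2| < (MM : ℤ) := by
    rw [hMM]; refine lt_of_le_of_lt (mul_le_mul_of_nonneg_left kW2 (by norm_num)) ?_; norm_num
  have bN : 2 * |N'| < (MM : ℤ) := by
    rw [hMM]; refine lt_of_le_of_lt (mul_le_mul_of_nonneg_left kN (by norm_num)) ?_; norm_num
  have f0 : ab w0 = W0.natAbs := ab_eq (by rw [ew0]; exact VecOK_lt _) d0 b0
  have f1 : ab w1 = W1.natAbs := ab_eq (by rw [ew1]; exact VecOK_lt _) d1 b1
  have f2 : ab w2 = W2.natAbs := ab_eq (by rw [ew2]; exact VecOK_lt _) d2 b2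
  have fN : ab N = N'.natAbs := ab_eq (by rw [eN]; exact VecOK_lt _) dN bN
  rw [f0, f1, f2] at h1
  rw [fN] at h2
  obtain ⟨t, ht⟩ := bezout3 h1
  have hHv : H al g be de b ga ep ze *ᵥ ![X, Y, Z] = ![P0, P1, P2] := by
    ext i
    fin_cases i
    · simp [H, Matrix.mulVec, dotProduct, Fin.sum_univ_three, hP0]
    · simp [H, Matrix.mulVec, dotProduct, Fin.sum_univ_three, hP1]
    · simp [H, Matrix.mulVec, dotProduct, Fin.sum_univ_three, hP2]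
  have hHHv : H al g be de b ga ep ze *ᵥ ![P0, P1, P2] =
      ![al * P0 + be * P1 + ga * P2, g * P0 + de * P1 + ep * P2, b * P1 + ze * P2] := by
    ext i
    fin_cases i
    · simp [H, Matrix.mulVec, dotProduct, Fin.sum_univ_three]
    · simp [H, Matrix.mulVec, dotProduct, Fin.sum_univ_three]
    · simp [H, Matrix.mulVec, dotProduct, Fin.sum_univ_three]
  have hwv : wv (H al g be de b ga ep ze) ![X, Y, Z] = ![W0, W1, W2] := by
    unfold wv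
    rw [hHv, cross_apply]
    ext i
    fin_cases i
    · simp [hW0]; ring
    · simp [hW1]; ring
    · simp [hW2]; ring
  refine ⟨![X, Y, Z], t, by rw [hwv]; exact ht, ?_⟩
  unfold Nv
  rw [hwv, hHv, hHHv]
  have hN2 : ![W0, W1, W2] ⬝ᵥ ![al * P0 + be * P1 + ga * P2, g * P0 + de * P1 + ep * P2,
      b * P1 + ze * P2] = N' := by
    simp [dotProduct, Fin.sum_univ_three, hN']
  rw [hN2, Int.abs_eq_natAbs]
  exact_mod_cast h2

theorem vecOK_sound {al g be de b ga ep ze : ℤ} {al' g' be' de' b' ga' ep' ze' code lim : ℕ}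
    (hal : (al' : ℤ) ≡ al [ZMOD (MM : ℤ)]) (hg : (g' : ℤ) ≡ g [ZMOD (MM : ℤ)])
    (hbe : (be' : ℤ) ≡ be [ZMOD (MM : ℤ)]) (hde : (de' : ℤ) ≡ de [ZMOD (MM : ℤ)])
    (hb : (b' : ℤ) ≡ b [ZMOD (MM : ℤ)]) (hga : (ga' : ℤ) ≡ ga [ZMOD (MM : ℤ)])
    (hep : (ep' : ℤ) ≡ ep [ZMOD (MM : ℤ)]) (hze : (ze' : ℤ) ≡ ze [ZMOD (MM : ℤ)])
    (kal : |al| ≤ 2 ^ 60) (kg : |g| ≤ 2 ^ 60) (kbe : |be| ≤ 2 ^ 60) (kde : |de| ≤ 2 ^ 60)
    (kb : |b| ≤ 2 ^ 60) (kga : |ga| ≤ 2 ^ 60) (kep : |ep| ≤ 2 ^ 60) (kze : |ze| ≤ 2 ^ 60)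
    (h : vecOK al' g' be' de' b' ga' ep' ze' code lim = true) :
    ∃ v t : V3, wv (H al g be de b ga ep ze) v ⬝ᵥ t = 1 ∧
      |Nv (H al g be de b ga ep ze) v| < lim := by
  have e4M : (MM : ℤ) = 2 ^ 256 := VecOK_MM
  have e4N : MM = 2 ^ 256 := by norm_num [MM]
  simp only [vecOK, st_eq, Bool.and_eq_true] at h
  obtain ⟨h1, h2⟩ := h
  set x' : ℕ := code % 4194304 with hx'
  set y' : ℕ := (code / 4194304) % 256 with hy'
  set z' : ℕ := (code / 1073741824) % 256 with hz'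
  have lx : x' < 4194304 := Nat.mod_lt _ (by norm_num)
  have ly : y' < 256 := Nat.mod_lt _ (by norm_num)
  have lz : z' < 256 := Nat.mod_lt _ (by norm_num)
  have hle1 : 2097152 ≤ MM := by norm_num [MM]
  have hle2 : 128 ≤ MM := by norm_num [MM]
  have g1 := Nat.eq_of_beq_eq_true h1
  have g2 := Nat.lt_of_lt_of_le (Nat.lt_succ_self _) (Nat.le_of_ble_eq_true h2)
  refine VecOK_core (X := (x' : ℤ) - 2097152) (Y := (y' : ℤ) - 128) (Z := (z' : ℤ) - 128)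
    (x := x' + (MM - 2097152)) (y := y' + (MM - 128)) (z := z' + (MM - 128))
    (nx := MM + 2097152 - x') (ny := MM + 128 - y') (nz := MM + 128 - z')
    hal hg hbe hde hb hga hep hze kal kg kbe kde kb kga kep kze ?_ ?_ ?_ ?_ ?_ ?_ ?_ ?_ ?_
    rfl rfl rfl rfl rfl rfl rfl g1 g2
  · exact VecOK_shift hle1
  · exact VecOK_shift hle2
  · exact VecOK_shift hle2
  · exact VecOK_nshift (by omega)
  · exact VecOK_nshift (by omega)
  · exact VecOK_nshift (by omega)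
  · exact VecOK_bnd (by norm_num) (by norm_num; omega)
  · exact VecOK_bnd (by norm_num) (by norm_num; omega)
  · exact VecOK_bnd (by norm_num) (by norm_num; omega)

end Pool.Agent.CSA
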